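import Pool.Agent.Lib.MP_ae38e0_lc.Fe.World
import Pool.Agent.Lib.MP_ae38e0_lc.Nbb.Gbound
import Pool.Agent.Lib.MP_ae38e0_lc.Nbb.Fresh

set_option autoImplicit false

/-!
# The strategy of the eavesdropper as a public process
-/

namespace Pool.Agent.Fe

open Pool.Agent.LinOT Pool.Agent.Nbb Classical

/-- The public state: the two sides, the known things, the table, a handle whose owner has still to
evaluate, and the items which were confirmed by the first and by the second party. -/
structure Env (X S J K V StA StB RA RB : Type) where
  A : Sd (Th X S J K) K (CS StA S J K) RA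
  B : Sd (Th X S J K) K (CS StB S J K) RB
  kn : List (Th X S J K × K)
  T : Tb S J K V
  pend : Option K
  pA : Finset (Th X S J K)
  pB : Finset (Th X S J K)

/-- The processes used here. -/
abbrev PT (X S J K V Mg StA StB : Type) :=
  Proc (Th X S J K) K (CS StA S J K) (CS StB S J K) (Pb Mg J V) (Qry X S J K) (Ans J K V) Mg

variable {X S J K V Mg StA StB RA RB : Type}

namespace Env

/-- A thing is learned. -/
def kna (e : Env X S J K V StA StB RA RB) (d : Th X S J K) (v : K) :
    Env X S J K V StA StB RA RB := { e with kn := e.kn ++ [(d, v)] }

/-- Step of the first party. -/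
def upA (e : Env X S J K V StA StB RA RB)
    (c : CS StA S J K → Comp (Th X S J K) K (CS StA S J K × Pb Mg J V)) (m : Pb Mg J V) :
    Env X S J K V StA StB RA RB := { e with A := e.A.upd c m }

/-- Step of the second party. -/
def upB (e : Env X S J K V StA StB RA RB)
    (c : CS StB S J K → Comp (Th X S J K) K (CS StB S J K × Pb Mg J V)) (m : Pb Mg J V) :
    Env X S J K V StA StB RA RB := { e with B := e.B.upd c m }

/-- The key of a handle is known. -/
noncomputable def setTr (e : Env X S J K V StA StB RA RB) (η : K) (s : S) :
    Env X S J K V StA StB RA RB :=
  { e with T := { e.T with tr := Function.update e.T.tr η (some s) } }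

/-- The index of a label of a known key is known. -/
noncomputable def setOp (e : Env X S J K V StA StB RA RB) (s : S) (π : K) (j : J) :
    Env X S J K V StA StB RA RB :=
  { e with T := { e.T with op := fun s' π' => if s' = s ∧ π' = π then some j else e.T.op s' π' } }

/-- New entry for a handle with a private key. -/
noncomputable def setPr (e : Env X S J K V StA StB RA RB) (η : K) (o : Bool) (P : List K)
    (r : Option V) : Env X S J K V StA StB RA RB :=
  { e with T := { e.T with pr := Function.update e.T.pr η (some (o, P, r)) } }

/-- The owner `o` of `η` has confirmed the item `d` and will evaluate. -/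
noncomputable def conf (e : Env X S J K V StA StB RA RB) (η : K) (o : Bool) (d : Th X S J K) :
    Env X S J K V StA StB RA RB :=
  { e with pend := some η, pA := if o then insert d e.pA else e.pA,
           pB := if o then e.pB else insert d e.pB }

end Env

/-! Real queries of the eavesdropper. -/

noncomputable def obsX [Nonempty K] (x : X) : Comp (Qry X S J K) (Ans J K V) K :=
  .ask (.f x) fun r => .ret (match r with | .val y => y | _ => k0)

noncomputable def obsE [Nonempty K] (s : S) (j : Option J) : Comp (Qry X S J K) (Ans J K V) K :=
  .ask (.enc s j) fun r => .ret (match r with | .val y => y | _ => k0)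

def obsB (η : K) (P : List K) : Comp (Qry X S J K) (Ans J K V) (Pb Mg J V) :=
  .ask (.ev η P) fun r => .ret (.bit (match r with | .res (some _) => true | _ => false))

def obsL (η : K) (P : List K) : Comp (Qry X S J K) (Ans J K V) (Pb Mg J V) :=
  .ask (.ev η P) fun r => .ret (.lk (match r with | .res u => u | _ => none))

def obsD (s : S) (π : K) : Comp (Qry X S J K) (Ans J K V) (Pb Mg J V) :=
  .ask (.dec s π) fun r => .ret (.ix (match r with | .ind i => i | _ => none))

section steps

variable [Finite X] [Finite S] [Finite J] [Fintype K] [Nonempty K] [Fintype RA] [Fintype RB]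

/-- A cell of `f` is learned. -/
noncomputable def xStep (e : Env X S J K V StA StB RA RB) (x : X)
    (cont : Env X S J K V StA StB RA RB → PT X S J K V Mg StA StB) : PT X S J K V Mg StA StB :=
  .learn (.x x) (obsX x) fun v => cont (e.kna (.x x) v)

/-- The label with index `j` of the key `s` with handle `η` is learned. -/
noncomputable def lcell (s : S) (j : J) (η : K) (o : Comp (Qry X S J K) (Ans J K V) K)
    (e : Env X S J K V StA StB RA RB)
    (cont : Env X S J K V StA StB RA RB → PT X S J K V Mg StA StB) : PT X S J K V Mg StA StB :=
  .learn (.c s (some j)) o fun v => .learn (.l η v) (.ret k0) fun u =>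
    cont (((e.kna (.c s (some j)) v).kna (.l η v) u).setOp s v j)

/-- The owner `o` of the known key `s` tells the indices of its public labels. -/
noncomputable def openL (o : Bool) (s : S) (η : K) : List K → Env X S J K V StA StB RA RB →
    (Env X S J K V StA StB RA RB → PT X S J K V Mg StA StB) → PT X S J K V Mg StA StB
  | [], e, cont => cont e
  | π :: l, e, cont =>
    if o then
      .mA (.inr (obsD s π)) (tellC s π) fun m => match m with
        | .ix (some j) => lcell s j η (.ret π) (e.upA (tellC s π) m) fun e' =>
            openL o s η l e' cont
        | .ix none => openL o s η l (e.upA (tellC s π) m) cont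
        | _ => .stop 4
    else
      .mB (.inr (obsD s π)) (tellC s π) fun m => match m with
        | .ix (some j) => lcell s j η (.ret π) (e.upB (tellC s π) m) fun e' =>
            openL o s η l e' cont
        | .ix none => openL o s η l (e.upB (tellC s π) m) cont
        | _ => .stop 4

/-- A key is learned. -/
noncomputable def keyStep (e : Env X S J K V StA StB RA RB) (s : S)
    (cont : Env X S J K V StA StB RA RB → PT X S J K V Mg StA StB) : PT X S J K V Mg StA StB :=
  .learn (.c s none) (obsE s none) fun η => .learn (.h η) (.ret k0) fun u =>
    match e.T.tr η, e.T.pr η with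
    | none, some (o, P, _) =>
      openL o s η P (((e.kna (.c s none) η).kna (.h η) u).setTr η s) cont
    | _, _ => cont (((e.kna (.c s none) η).kna (.h η) u).setTr η s)

/-- The consistent states of the first party own `η` with at least the probability of the other
ones. -/
def desH (e : Env X S J K V StA StB RA RB) (η : K) : Prop :=
  ((sup SV e.B e.kn).filter fun p => ownH η (e.B.s p.1 p.2.1) = true).card *
      (sup SV e.A e.kn).card ≤
    ((sup SV e.A e.kn).filter fun p => ownH η (e.A.s p.1 p.2.1) = true).card *
      (sup SV e.B e.kn).card

/-- The consistent states of the first party own the label `π` of `s` with at least the probability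
of the other ones. -/
def desL (e : Env X S J K V StA StB RA RB) (s : S) (π : K) : Prop :=
  ((sup SV e.B e.kn).filter fun p => (lkL (e.B.s p.1 p.2.1).own s π).isSome = true).card *
      (sup SV e.A e.kn).card ≤
    ((sup SV e.A e.kn).filter fun p => (lkL (e.A.s p.1 p.2.1).own s π).isSome = true).card *
      (sup SV e.B e.kn).card

/-- A handle is learned: both parties tell whether they own it. -/
noncomputable def handleStep (e : Env X S J K V StA StB RA RB) (η : K)
    (cont : Env X S J K V StA StB RA RB → PT X S J K V Mg StA StB) : PT X S J K V Mg StA StB :=
  .learn (.h η) (.ret k0) fun v =>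
    .mA (.inr (if desH e η then obsB η [] else .ret (.bit false))) (bitH η) fun m1 =>
      .mB (.inr (if desH e η then .ret (.bit false) else obsB η [])) (bitH η) fun m2 =>
        match m1, m2 with
        | .bit false, .bit false => cont (((e.kna (.h η) v).upA (bitH η) m1).upB (bitH η) m2)
        | .bit true, .bit false =>
          if desH e η then
            cont (((((e.kna (.h η) v).upA (bitH η) m1).upB (bitH η) m2).setPr η true [] none).conf
              η true (.h η))
          else .stop 3
        | .bit false, .bit true =>
          if desH e η then .stop 3
          else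
            cont (((((e.kna (.h η) v).upA (bitH η) m1).upB (bitH η) m2).setPr η false [] none).conf
              η false (.h η))
        | .bit true, .bit true => .stop 3
        | _, _ => .stop 4

/-- A label `π` of the known key `s` is learned: the owner tells its index.  `d` says who it is
likely to be. -/
noncomputable def openStep (d : Prop) (e : Env X S J K V StA StB RA RB) (s : S) (η π : K)
    (cont : Env X S J K V StA StB RA RB → PT X S J K V Mg StA StB) : PT X S J K V Mg StA StB :=
  .mA (.inr (if d then obsD s π else .ret (.ix none))) (tellC s π) fun m1 =>
    .mB (.inr (if d then .ret (.ix none) else obsD s π)) (tellC s π) fun m2 =>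
      match m1, m2 with
      | .ix none, .ix none => cont ((e.upA (tellC s π) m1).upB (tellC s π) m2)
      | .ix (some j), .ix none =>
        if d then lcell s j η (.ret π) ((e.upA (tellC s π) m1).upB (tellC s π) m2) cont
        else .stop 3
      | .ix none, .ix (some j) =>
        if d then .stop 3
        else lcell s j η (.ret π) ((e.upA (tellC s π) m1).upB (tellC s π) m2) cont
      | .ix (some _), .ix (some _) => .stop 3
      | _, _ => .stop 4

/-- A label is learned.  If the key is known, the owner of the label tells its index; otherwise the
owner of the handle tells whether it is one of his labels. -/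
noncomputable def labelStep (e : Env X S J K V StA StB RA RB) (η π : K)
    (cont : Env X S J K V StA StB RA RB → PT X S J K V Mg StA StB) : PT X S J K V Mg StA StB :=
  .learn (.l η π) (.ret k0) fun v =>
    match e.T.tr η, e.T.pr η with
    | some s, _ =>
      (match e.T.op s π with
      | some _ => cont (e.kna (.l η π) v)
      | none => openStep (desL e s π) (e.kna (.l η π) v) s η π cont)
    | none, some (true, P, _) =>
      .mA (.inr (obsB η (P ++ [π]))) (bitL η π) fun m =>
        match m with
        | .bit true =>
          cont ((((e.kna (.l η π) v).upA (bitL η π) m).setPr η true (P ++ [π]) none).conf η true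
            (.l η π))
        | .bit false => cont ((e.kna (.l η π) v).upA (bitL η π) m)
        | _ => .stop 4
    | none, some (false, P, _) =>
      .mB (.inr (obsB η (P ++ [π]))) (bitL η π) fun m =>
        match m with
        | .bit true =>
          cont ((((e.kna (.l η π) v).upB (bitL η π) m).setPr η false (P ++ [π]) none).conf η false
            (.l η π))
        | .bit false => cont ((e.kna (.l η π) v).upB (bitL η π) m)
        | _ => .stop 4
    | none, none => cont (e.kna (.l η π) v)

/-- The owner of the handle evaluates for the public labels. -/
noncomputable def leakStep (F : S → List J → Comp X K V) (e : Env X S J K V StA StB RA RB)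
    (η : K) (cont : Env X S J K V StA StB RA RB → PT X S J K V Mg StA StB) :
    PT X S J K V Mg StA StB :=
  match e.T.pr η with
  | some (true, P, _) =>
    .mA (.inr (obsL η P)) (leakC F η P) fun m =>
      match m with
      | .lk r => cont { (e.upA (leakC F η P) m).setPr η true P r with pend := none }
      | _ => .stop 4
  | some (false, P, _) =>
    .mB (.inr (obsL η P)) (leakC F η P) fun m =>
      match m with
      | .lk r => cont { (e.upB (leakC F η P) m).setPr η false P r with pend := none }
      | _ => .stop 4
  | none => cont { e with pend := none }

/-- Nothing is heavy. -/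
def Lgt (N L : ℕ) (e : Env X S J K V StA StB RA RB) : Prop :=
  Lt SV cel N cel e.A e.B e.kn ∧ Lt SV cel L (fun d => ¬ cel d) e.A e.B e.kn ∧ e.pend = none

/-- One step of the strategy. -/
noncomputable def body (F : S → List J → Comp X K V) (N L : ℕ)
    (e : Env X S J K V StA StB RA RB)
    (cont : Env X S J K V StA StB RA RB → PT X S J K V Mg StA StB)
    (k : PT X S J K V Mg StA StB) : PT X S J K V Mg StA StB :=
  if Lgt N L e then k
  else if ¬ Gd SV cel e.A e.B e.kn then .stop 2
  else if hx : ∃ x, Hv SV cel N e.A e.B e.kn (.x x) then xStep e hx.choose cont
  else if hs : ∃ s, Hv SV cel N e.A e.B e.kn (.c s none) then keyStep e hs.choose cont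
  else if hj : ∃ z : S × J × K, Hv SV cel N e.A e.B e.kn (.c z.1 (some z.2.1)) ∧
      (.c z.1 none, z.2.2) ∈ e.kn then
    lcell hj.choose.1 hj.choose.2.1 hj.choose.2.2 (obsE hj.choose.1 (some hj.choose.2.1)) e cont
  else if ∃ d, cel d ∧ Hv SV cel N e.A e.B e.kn d then .stop 4
  else match e.pend with
    | some η => leakStep F e η cont
    | none =>
      if hh : ∃ η, Hv SV cel L e.A e.B e.kn (.h η) then handleStep e hh.choose cont
      else if hl : ∃ z : K × K, Hv SV cel L e.A e.B e.kn (.l z.1 z.2) then
        labelStep e hl.choose.1 hl.choose.2 cont
      else .stop 4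

/-- The learning loop; `j` is the number of steps which are still allowed. -/
noncomputable def closeT (F : S → List J → Comp X K V) (N L : ℕ)
    (k : ℕ → Env X S J K V StA StB RA RB → PT X S J K V Mg StA StB) :
    ℕ → Env X S J K V StA StB RA RB → PT X S J K V Mg StA StB
  | 0, e => if Lgt N L e then k 0 e else .stop 1
  | j + 1, e => body F N L e (closeT F N L k j) (k (j + 1) e)

end steps

section build

variable [Finite X] [Finite S] [Finite J] [Fintype K] [Nonempty K] [Fintype RA] [Fintype RB]

variable {I I' : Type} (A : Party (Qry X S J K) (Ans J K V) Mg I)
  (B : Party (Qry X S J K) (Ans J K V) Mg I')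

/-- The process for `r` rounds. -/
noncomputable def build (a : ℕ) (F : S → List J → Comp X K V) (G : V → List ℕ → Comp X K V)
    (m0 : Mg) (N L : ℕ) : ℕ → Mg → ℕ → Env X S J K V A.St B.St RA RB →
      PT X S J K V Mg A.St B.St
  | 0, _, j, e => closeT F N L (fun _ _ => .stop 0) j e
  | r + 1, μ, j, e =>
    closeT F N L (fun j e => .mA (.inl .msg) (stepC a F G A m0 e.T μ) fun m =>
      match m with
      | .msg x =>
        closeT F N L (fun j e' => .mB (.inl .msg) (stepC a F G B m0 e'.T x) fun m' =>
          match m' with
          | .msg y => build a F G m0 N L r y j (e'.upB (stepC a F G B m0 e'.T x) m')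
          | _ => .stop 4) j (e.upA (stepC a F G A m0 e.T μ) m)
      | _ => .stop 4) j e

/-- The initial state of the public. -/
noncomputable def env0 (n : ℕ) (iA : RA → A.St) (iB : RB → B.St) :
    Env X S J K V A.St B.St RA RB where
  A := { s := fun r _ => ⟨iA r, [], n⟩, q := fun _ _ => [], P := fun _ _ => True }
  B := { s := fun r _ => ⟨iB r, [], n⟩, q := fun _ _ => [], P := fun _ _ => True }
  kn := []
  T := ⟨fun _ => none, fun _ _ => none, fun _ => none⟩
  pend := none
  pA := ∅
  pB := ∅

end build

end Pool.Agent.Fe
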