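import Pool.Agent.Lib.MP_ae38e0_lc.Fe.Inv

set_option autoImplicit false

/-!
# Budgets (rows B1 - B3)
-/

namespace Pool.Agent.Fe

open Pool.Agent.LinOT Pool.Agent.Nbb Classical

variable {X S J K V Mg StA StB RA RB : Type} [Finite X] [Finite S] [Finite J] [Fintype K]
  [Nonempty K] [Fintype RA] [Fintype RB]

/-- The leaf code. -/
noncomputable def lfE (p : PT X S J K V Mg StA StB) (e : Env X S J K V StA StB RA RB)
    (w : RA × RB × Orc (SV : Th X S J K → Finset K)) : ℕ :=
  p.lf SV e.A e.B e.kn w

/-- The number of heavy things learned. -/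
noncomputable def cntE (N : ℕ) (D : Th X S J K → Prop) (p : PT X S J K V Mg StA StB)
    (e : Env X S J K V StA StB RA RB)
    (w : RA × RB × Orc (SV : Th X S J K → Finset K)) : ℕ :=
  p.cnt SV cel N D e.A e.B e.kn w

/-- The number of the public labels of unknown keys. -/
noncomputable def debt (e : Env X S J K V StA StB RA RB) : ℕ :=
  ∑ η : K, match e.T.tr η, e.T.pr η with
    | none, some (_, P, _) => P.length
    | _, _ => 0

/-! ## Row B1: who runs out of budget has learned many heavy things.  The step of the leak is paid
by the step before it which made the handle pending. -/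

/-- the statement for the continuation -/
private def B1_H (N : ℕ) (w : RA × RB × Orc (SV : Th X S J K → Finset K))
    (cont : Env X S J K V StA StB RA RB → PT X S J K V Mg StA StB) (j : ℕ) : Prop :=
  ∀ e, lfE (cont e) e w = 1 →
    j ≤ 2 * cntE N (fun _ => True) (cont e) e w + (if e.pend = none then 0 else 1)

private theorem B1_learn (N : ℕ) (D : Th X S J K → Prop)
    (w : RA × RB × Orc (SV : Th X S J K → Finset K))
    (e : Env X S J K V StA StB RA RB) (d : Th X S J K) (o : Comp (Qry X S J K) (Ans J K V) _)
    (next : K → PT X S J K V Mg StA StB) :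
    cntE N D (.learn d o next) e w =
      (if D d ∧ Hv SV cel N e.A e.B e.kn d ∧ Gd SV cel e.A e.B e.kn then 1 else 0) +
        cntE N D (next (w.2.2.1 d)) (e.kna d (w.2.2.1 d)) w := rfl

private theorem B1_lcell {N j : ℕ} {w : RA × RB × Orc (SV : Th X S J K → Finset K)}
    {cont : Env X S J K V StA StB RA RB → PT X S J K V Mg StA StB} (h : B1_H N w cont j)
    (s : S) (i : J) (η : K) (o : Comp (Qry X S J K) (Ans J K V) K) :
    B1_H N w (fun e => lcell s i η o e cont) j := by
  intro e hl
  have h1 := h (((e.kna (.c s (some i)) (w.2.2.1 (.c s (some i)))).kna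
    (.l η (w.2.2.1 (.c s (some i)))) (w.2.2.1 (.l η (w.2.2.1 (.c s (some i)))))).setOp s
      (w.2.2.1 (.c s (some i))) i) hl
  have h2 := B1_learn N (fun _ => True) w e (.c s (some i)) o (fun v => .learn (.l η v) (.ret k0)
    fun u => cont (((e.kna (.c s (some i)) v).kna (.l η v) u).setOp s v i))
  have h3 := B1_learn N (fun _ => True) w (e.kna (.c s (some i)) (w.2.2.1 (.c s (some i))))
    (.l η (w.2.2.1 (.c s (some i)))) (.ret k0) (fun u =>
      cont (((e.kna (.c s (some i)) (w.2.2.1 (.c s (some i)))).kna
        (.l η (w.2.2.1 (.c s (some i)))) u).setOp s (w.2.2.1 (.c s (some i))) i))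
  show j ≤ 2 * cntE N (fun _ => True) (.learn (.c s (some i)) o (fun v => .learn (.l η v) (.ret k0)
    fun u => cont (((e.kna (.c s (some i)) v).kna (.l η v) u).setOp s v i))) e w + _
  rw [h2]
  rw [h3]
  change j ≤ 2 * cntE N (fun _ => True) (cont (((e.kna (.c s (some i)) (w.2.2.1 (.c s (some i)))).kna
    (.l η (w.2.2.1 (.c s (some i)))) (w.2.2.1 (.l η (w.2.2.1 (.c s (some i)))))).setOp s
      (w.2.2.1 (.c s (some i))) i)) ((e.kna (.c s (some i)) (w.2.2.1 (.c s (some i)))).kna
    (.l η (w.2.2.1 (.c s (some i)))) (w.2.2.1 (.l η (w.2.2.1 (.c s (some i)))))) w +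
      (if e.pend = none then 0 else 1) at h1
  omega

private theorem B1_lcellH {N j : ℕ} {w : RA × RB × Orc (SV : Th X S J K → Finset K)}
    {cont : Env X S J K V StA StB RA RB → PT X S J K V Mg StA StB} (h : B1_H N w cont j)
    (s : S) (i : J) (η : K) (o : Comp (Qry X S J K) (Ans J K V) K)
    (e : Env X S J K V StA StB RA RB) (hv : Hv SV cel N e.A e.B e.kn (.c s (some i)))
    (hg : Gd SV cel e.A e.B e.kn) (hl : lfE (lcell s i η o e cont) e w = 1) :
    j + 1 ≤ 2 * cntE N (fun _ => True) (lcell s i η o e cont) e w +
      (if e.pend = none then 0 else 1) := by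
  have h1 := h (((e.kna (.c s (some i)) (w.2.2.1 (.c s (some i)))).kna
    (.l η (w.2.2.1 (.c s (some i)))) (w.2.2.1 (.l η (w.2.2.1 (.c s (some i)))))).setOp s
      (w.2.2.1 (.c s (some i))) i) hl
  have h2 := B1_learn N (fun _ => True) w e (.c s (some i)) o (fun v => .learn (.l η v) (.ret k0)
    fun u => cont (((e.kna (.c s (some i)) v).kna (.l η v) u).setOp s v i))
  have h3 := B1_learn N (fun _ => True) w (e.kna (.c s (some i)) (w.2.2.1 (.c s (some i))))
    (.l η (w.2.2.1 (.c s (some i)))) (.ret k0) (fun u =>
      cont (((e.kna (.c s (some i)) (w.2.2.1 (.c s (some i)))).kna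
        (.l η (w.2.2.1 (.c s (some i)))) u).setOp s (w.2.2.1 (.c s (some i))) i))
  show j + 1 ≤ 2 * cntE N (fun _ => True) (.learn (.c s (some i)) o
    (fun v => .learn (.l η v) (.ret k0)
    fun u => cont (((e.kna (.c s (some i)) v).kna (.l η v) u).setOp s v i))) e w + _
  rw [h2]
  rw [h3]
  rw [if_pos ⟨trivial, hv, hg⟩]
  change j ≤ 2 * cntE N (fun _ => True) (cont (((e.kna (.c s (some i)) (w.2.2.1 (.c s (some i)))).kna
    (.l η (w.2.2.1 (.c s (some i)))) (w.2.2.1 (.l η (w.2.2.1 (.c s (some i)))))).setOp s
      (w.2.2.1 (.c s (some i))) i)) ((e.kna (.c s (some i)) (w.2.2.1 (.c s (some i)))).kna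
    (.l η (w.2.2.1 (.c s (some i)))) (w.2.2.1 (.l η (w.2.2.1 (.c s (some i)))))) w +
      (if e.pend = none then 0 else 1) at h1
  omega

private theorem B1_openL {N j : ℕ} {w : RA × RB × Orc (SV : Th X S J K → Finset K)}
    {cont : Env X S J K V StA StB RA RB → PT X S J K V Mg StA StB} (h : B1_H N w cont j)
    (o : Bool) (s : S) (η : K) :
    ∀ (l : List K), B1_H N w (fun e => openL o s η l e cont) j := by
  intro l
  induction l with
  | nil => exact h
  | cons π l ih =>
    intro e hl
    cases o with
    | true =>
      change lfE (.mA (.inr (obsD s π)) (tellC s π) fun m => match m with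
        | .ix (some j) => lcell s j η (.ret π) (e.upA (tellC s π) m) fun e' =>
            openL true s η l e' cont
        | .ix none => openL true s η l (e.upA (tellC s π) m) cont
        | _ => .stop 4) e w = 1 at hl
      change j ≤ 2 * cntE N (fun _ => True) (.mA (.inr (obsD s π)) (tellC s π) fun m => match m with
        | .ix (some j) => lcell s j η (.ret π) (e.upA (tellC s π) m) fun e' =>
            openL true s η l e' cont
        | .ix none => openL true s η l (e.upA (tellC s π) m) cont
        | _ => .stop 4) e w + (if e.pend = none then 0 else 1)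
      simp only [lfE, cntE, Proc.lf, Proc.cnt] at hl ⊢
      generalize Proc.rsA SV (tellC s π) e.A w = m1 at hl ⊢
      rcases m1 with x | b | x | (_ | i)
      · exact absurd hl (by simp [Proc.lf])
      · exact absurd hl (by simp [Proc.lf])
      · exact absurd hl (by simp [Proc.lf])
      · exact ih (e.upA (tellC s π) (.ix none)) hl
      · exact B1_lcell ih s i η (.ret π) (e.upA (tellC s π) (.ix (some i))) hl
    | false =>
      change lfE (.mB (.inr (obsD s π)) (tellC s π) fun m => match m with
        | .ix (some j) => lcell s j η (.ret π) (e.upB (tellC s π) m) fun e' =>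
            openL false s η l e' cont
        | .ix none => openL false s η l (e.upB (tellC s π) m) cont
        | _ => .stop 4) e w = 1 at hl
      change j ≤ 2 * cntE N (fun _ => True) (.mB (.inr (obsD s π)) (tellC s π) fun m => match m with
        | .ix (some j) => lcell s j η (.ret π) (e.upB (tellC s π) m) fun e' =>
            openL false s η l e' cont
        | .ix none => openL false s η l (e.upB (tellC s π) m) cont
        | _ => .stop 4) e w + (if e.pend = none then 0 else 1)
      simp only [lfE, cntE, Proc.lf, Proc.cnt] at hl ⊢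
      generalize Proc.rsB SV (tellC s π) e.B w = m1 at hl ⊢
      rcases m1 with x | b | x | (_ | i)
      · exact absurd hl (by simp [Proc.lf])
      · exact absurd hl (by simp [Proc.lf])
      · exact absurd hl (by simp [Proc.lf])
      · exact ih (e.upB (tellC s π) (.ix none)) hl
      · exact B1_lcell ih s i η (.ret π) (e.upB (tellC s π) (.ix (some i))) hl

private theorem B1_x {N j : ℕ} {w : RA × RB × Orc (SV : Th X S J K → Finset K)}
    {cont : Env X S J K V StA StB RA RB → PT X S J K V Mg StA StB} (h : B1_H N w cont j)
    (e : Env X S J K V StA StB RA RB) (x : X) (hv : Hv SV cel N e.A e.B e.kn (.x x))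
    (hg : Gd SV cel e.A e.B e.kn) (hl : lfE (xStep e x cont) e w = 1) :
    j + 1 ≤ 2 * cntE N (fun _ => True) (xStep e x cont) e w +
      (if e.pend = none then 0 else 1) := by
  have h1 := h (e.kna (.x x) (w.2.2.1 (.x x))) hl
  have h2 := B1_learn N (fun _ => True) w e (.x x) (obsX x) (fun v => cont (e.kna (.x x) v))
  rw [if_pos ⟨trivial, hv, hg⟩] at h2
  have h3 : (e.kna (.x x) (w.2.2.1 (.x x))).pend = e.pend := rfl
  rw [h3] at h1
  show j + 1 ≤ 2 * cntE N (fun _ => True)
    (.learn (.x x) (obsX x) fun v => cont (e.kna (.x x) v)) e w + _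
  rw [h2]
  omega

private theorem B1_keyS {N j : ℕ} {w : RA × RB × Orc (SV : Th X S J K → Finset K)}
    {cont : Env X S J K V StA StB RA RB → PT X S J K V Mg StA StB} (h : B1_H N w cont j)
    (e : Env X S J K V StA StB RA RB) (s : S) (hv : Hv SV cel N e.A e.B e.kn (.c s none))
    (hg : Gd SV cel e.A e.B e.kn) (hl : lfE (keyStep e s cont) e w = 1) :
    j + 1 ≤ 2 * cntE N (fun _ => True) (keyStep e s cont) e w +
      (if e.pend = none then 0 else 1) := by
  unfold keyStep at hl ⊢
  rw [B1_learn, B1_learn, if_pos ⟨trivial, hv, hg⟩]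
  have hl' := hl
  simp only [lfE, Proc.lf] at hl'
  generalize hη : w.2.2.1 (.c s none) = η at hl' ⊢
  generalize hu : w.2.2.1 (.h η) = u at hl' ⊢
  have key : ∀ (p : PT X S J K V Mg StA StB), lfE p (((e.kna (.c s none) η).kna (.h η) u).setTr η s) w = 1 →
      (j ≤ 2 * cntE N (fun _ => True) p (((e.kna (.c s none) η).kna (.h η) u).setTr η s) w +
        (if e.pend = none then 0 else 1)) → (j ≤ 2 * cntE N (fun _ => True) p ((e.kna (.c s none) η).kna (.h η) u) w +
        (if e.pend = none then 0 else 1)) := fun p _ hp => hp
  have fin : ∀ (p : PT X S J K V Mg StA StB) (c : ℕ),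
      (j ≤ 2 * cntE N (fun _ => True) p ((e.kna (.c s none) η).kna (.h η) u) w +
        (if e.pend = none then 0 else 1)) → j + 1 ≤ 2 * (1 + (c + cntE N (fun _ => True) p ((e.kna (.c s none) η).kna (.h η) u) w)) +
        (if e.pend = none then 0 else 1) := fun p c hp => by omega
  apply fin
  rcases htr : e.T.tr η with _ | a
  · rcases hpr : e.T.pr η with _ | ⟨o, P, r⟩
    · simp only [htr, hpr] at hl' ⊢
      exact h (((e.kna (.c s none) η).kna (.h η) u).setTr η s) hl'
    · simp only [htr, hpr] at hl' ⊢
      exact B1_openL h o s η P (((e.kna (.c s none) η).kna (.h η) u).setTr η s) hl'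
  · simp only [htr] at hl' ⊢
    exact h (((e.kna (.c s none) η).kna (.h η) u).setTr η s) hl'

private theorem B1_key {N j : ℕ}
    {w : RA × RB × Orc (SV : Th X S J K → Finset K)}
    {cont : Env X S J K V StA StB RA RB → PT X S J K V Mg StA StB} (h : B1_H N w cont j)
    (e' : Env X S J K V StA StB RA RB)
    (he' : Proc.lf SV (cont e') e'.A e'.B e'.kn w = 1) :
    j ≤ 2 * Proc.cnt SV cel N (fun _ => True) (cont e') e'.A e'.B e'.kn w + 1 := by
  have := h e' he'
  unfold cntE at this
  split_ifs at this <;> omega

private theorem B1_key' {N j : ℕ}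
    {w : RA × RB × Orc (SV : Th X S J K → Finset K)}
    {cont : Env X S J K V StA StB RA RB → PT X S J K V Mg StA StB} (h : B1_H N w cont j)
    (e' : Env X S J K V StA StB RA RB) (hp : e'.pend = none)
    (he' : Proc.lf SV (cont e') e'.A e'.B e'.kn w = 1) :
    j ≤ 2 * Proc.cnt SV cel N (fun _ => True) (cont e') e'.A e'.B e'.kn w := by
  have := h e' he'
  unfold cntE at this
  rw [if_pos hp] at this
  omega

private theorem B1_ar {j c : ℕ} (h : j ≤ 2 * c) : j + 1 ≤ 2 * (1 + c) := by omega

private theorem B1_ar' {j c : ℕ} (h : j ≤ 2 * c + 1) : j + 1 ≤ 2 * (1 + c) := by omega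

private theorem B1_handle {N j : ℕ}
    {w : RA × RB × Orc (SV : Th X S J K → Finset K)}
    {cont : Env X S J K V StA StB RA RB → PT X S J K V Mg StA StB} (h : B1_H N w cont j)
    (e : Env X S J K V StA StB RA RB) (η : K) (hv : Hv SV cel N e.A e.B e.kn (.h η))
    (hg : Gd SV cel e.A e.B e.kn) (hp : e.pend = none) (hl : lfE (handleStep e η cont) e w = 1) :
    j + 1 ≤ 2 * cntE N (fun _ => True) (handleStep e η cont) e w := by
  unfold handleStep at hl ⊢
  simp only [lfE, cntE, Proc.lf, Proc.cnt] at hl ⊢
  rw [if_pos ⟨trivial, hv, hg⟩]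
  generalize Proc.rsA SV (bitH η) e.A w = m1 at hl ⊢
  generalize Proc.rsB SV (bitH η) e.B w = m2 at hl ⊢
  rcases m1 with x | b | x | x
  · exact absurd hl (by simp [Proc.lf])
  · rcases m2 with y | b' | y | y
    · cases b <;> exact absurd hl (by simp [Proc.lf])
    · cases b
      · cases b'
        · have h1 := B1_key' h (((e.kna (.h η) (w.2.2.1 (.h η))).upA (bitH η) (.bit false)).upB
            (bitH η) (.bit false)) hp hl
          exact B1_ar h1
        · by_cases hd : desH e η
          · simp only [hd, if_true] at hl
            exact absurd hl (by simp [Proc.lf])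
          · simp only [hd, if_false] at hl ⊢
            exact B1_ar' (B1_key h _ hl)
      · cases b'
        · by_cases hd : desH e η
          · simp only [hd, if_true] at hl ⊢
            exact B1_ar' (B1_key h _ hl)
          · simp only [hd, if_false] at hl
            exact absurd hl (by simp [Proc.lf])
        · exact absurd hl (by simp [Proc.lf])
    · cases b <;> exact absurd hl (by simp [Proc.lf])
    · cases b <;> exact absurd hl (by simp [Proc.lf])
  · exact absurd hl (by simp [Proc.lf])
  · exact absurd hl (by simp [Proc.lf])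

private theorem B1_openS {N j : ℕ} {w : RA × RB × Orc (SV : Th X S J K → Finset K)}
    {cont : Env X S J K V StA StB RA RB → PT X S J K V Mg StA StB} (h : B1_H N w cont j)
    (d : Prop) (s : S) (η π : K) : B1_H N w (fun e => openStep d e s η π cont) j := by
  intro e hl
  unfold openStep at hl ⊢
  simp only [lfE, cntE, Proc.lf, Proc.cnt] at hl ⊢
  generalize Proc.rsA SV (tellC s π) e.A w = m1 at hl ⊢
  generalize Proc.rsB SV (tellC s π) e.B w = m2 at hl ⊢
  rcases m1 with x | b | x | (_ | i)
  · exact absurd hl (by simp [Proc.lf])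
  · exact absurd hl (by simp [Proc.lf])
  · exact absurd hl (by simp [Proc.lf])
  · rcases m2 with y | b' | y | (_ | i')
    · exact absurd hl (by simp [Proc.lf])
    · exact absurd hl (by simp [Proc.lf])
    · exact absurd hl (by simp [Proc.lf])
    · exact h ((e.upA (tellC s π) (.ix none)).upB (tellC s π) (.ix none)) hl
    · by_cases hd : d
      · simp only [hd, if_true] at hl
        exact absurd hl (by simp [Proc.lf])
      · simp only [hd, if_false] at hl ⊢
        exact B1_lcell h s i' η (.ret π)
          ((e.upA (tellC s π) (.ix none)).upB (tellC s π) (.ix (some i'))) hl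
  · rcases m2 with y | b' | y | (_ | i')
    · exact absurd hl (by simp [Proc.lf])
    · exact absurd hl (by simp [Proc.lf])
    · exact absurd hl (by simp [Proc.lf])
    · by_cases hd : d
      · simp only [hd, if_true] at hl ⊢
        exact B1_lcell h s i η (.ret π)
          ((e.upA (tellC s π) (.ix (some i))).upB (tellC s π) (.ix none)) hl
      · simp only [hd, if_false] at hl
        exact absurd hl (by simp [Proc.lf])
    · exact absurd hl (by simp [Proc.lf])

private theorem B1_label {N j : ℕ}
    {w : RA × RB × Orc (SV : Th X S J K → Finset K)}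
    {cont : Env X S J K V StA StB RA RB → PT X S J K V Mg StA StB} (h : B1_H N w cont j)
    (e : Env X S J K V StA StB RA RB) (η π : K)
    (hv : Hv SV cel N e.A e.B e.kn (.l η π))
    (hg : Gd SV cel e.A e.B e.kn) (hp : e.pend = none)
    (hl : lfE (labelStep e η π cont) e w = 1) :
    j + 1 ≤ 2 * cntE N (fun _ => True) (labelStep e η π cont) e w := by
  unfold labelStep at hl ⊢
  simp only [lfE, cntE, Proc.lf, Proc.cnt] at hl ⊢
  rw [if_pos ⟨trivial, hv, hg⟩]
  rcases htr : e.T.tr η with _ | s
  · rcases hpr : e.T.pr η with _ | ⟨o, P, r⟩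
    · simp only [htr, hpr] at hl ⊢
      exact B1_ar (B1_key' h _ hp hl)
    · cases o
      · simp only [htr, hpr, Proc.lf, Proc.cnt] at hl ⊢
        generalize Proc.rsB SV (bitL η π) e.B w = m2 at hl ⊢
        rcases m2 with y | b' | y | y
        · exact absurd hl (by simp [Proc.lf])
        · cases b'
          · exact B1_ar (B1_key' h ((e.kna (.l η π) (w.2.2.1 (.l η π))).upB (bitL η π)
              (.bit false)) hp hl)
          · exact B1_ar' (B1_key h _ hl)
        · exact absurd hl (by simp [Proc.lf])
        · exact absurd hl (by simp [Proc.lf])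
      · simp only [htr, hpr, Proc.lf, Proc.cnt] at hl ⊢
        generalize Proc.rsA SV (bitL η π) e.A w = m1 at hl ⊢
        rcases m1 with y | b' | y | y
        · exact absurd hl (by simp [Proc.lf])
        · cases b'
          · exact B1_ar (B1_key' h ((e.kna (.l η π) (w.2.2.1 (.l η π))).upA (bitL η π)
              (.bit false)) hp hl)
          · exact B1_ar' (B1_key h _ hl)
        · exact absurd hl (by simp [Proc.lf])
        · exact absurd hl (by simp [Proc.lf])
  · simp only [htr] at hl ⊢
    rcases hop : e.T.op s π with _ | i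
    · simp only [hop] at hl ⊢
      exact B1_ar (B1_key' (B1_openS h (desL e s π) s η π) (e.kna (.l η π) (w.2.2.1 (.l η π))) hp hl)
    · simp only [hop] at hl ⊢
      exact B1_ar (B1_key' h _ hp hl)

private theorem B1_leak {N j : ℕ} (F : S → List J → Comp X K V)
    {w : RA × RB × Orc (SV : Th X S J K → Finset K)}
    {cont : Env X S J K V StA StB RA RB → PT X S J K V Mg StA StB} (h : B1_H N w cont j)
    (e : Env X S J K V StA StB RA RB) (η : K)
    (hl : lfE (leakStep F e η cont) e w = 1) :
    j ≤ 2 * cntE N (fun _ => True) (leakStep F e η cont) e w := by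
  unfold leakStep at hl ⊢
  simp only [lfE, cntE] at hl ⊢
  rcases hpr : e.T.pr η with _ | ⟨o, P, r⟩
  · simp only [hpr] at hl ⊢
    exact B1_key' h _ rfl hl
  · cases o
    · simp only [hpr, Proc.lf, Proc.cnt] at hl ⊢
      generalize Proc.rsB SV (leakC F η P) e.B w = m2 at hl ⊢
      rcases m2 with y | b' | y | y
      · exact absurd hl (by simp [Proc.lf])
      · exact absurd hl (by simp [Proc.lf])
      · exact B1_key' h _ rfl hl
      · exact absurd hl (by simp [Proc.lf])
    · simp only [hpr, Proc.lf, Proc.cnt] at hl ⊢
      generalize Proc.rsA SV (leakC F η P) e.A w = m1 at hl ⊢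
      rcases m1 with y | b' | y | y
      · exact absurd hl (by simp [Proc.lf])
      · exact absurd hl (by simp [Proc.lf])
      · exact B1_key' h _ rfl hl
      · exact absurd hl (by simp [Proc.lf])

private theorem B1_hv {N L : ℕ} (hLN : L ≤ N) {e : Env X S J K V StA StB RA RB}
    {q : Th X S J K} (h : Hv SV cel L e.A e.B e.kn q) : Hv SV cel N e.A e.B e.kn q :=
  ⟨h.1, h.2.trans (Nat.mul_le_mul_right _ hLN)⟩

theorem closeT_code1 (F : S → List J → Comp X K V) (N L : ℕ) (hLN : L ≤ N)
    (k : ℕ → Env X S J K V StA StB RA RB → PT X S J K V Mg StA StB)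
    (hk : ∀ j e w, e.pend = none → lfE (k j e) e w = 1 →
      j ≤ 2 * cntE N (fun _ => True) (k j e) e w) :
    ∀ j (e : Env X S J K V StA StB RA RB) w, lfE (closeT F N L k j e) e w = 1 →
      j ≤ 2 * cntE N (fun _ => True) (closeT F N L k j e) e w +
        (if e.pend = none then 0 else 1) := by
  intro j
  induction j with
  | zero => intro e w _; exact Nat.zero_le _
  | succ j ih =>
    intro e w hl
    have h : B1_H N w (closeT F N L k j) j := fun e' => ih e' w
    have e1 : closeT F N L k (j + 1) e = body F N L e (closeT F N L k j) (k (j + 1) e) := rfl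
    rw [e1] at hl ⊢
    unfold body at hl ⊢
    by_cases c1 : Lgt N L e
    · rw [if_pos c1] at hl ⊢
      have := hk (j + 1) e w c1.2.2 hl
      omega
    · rw [if_neg c1] at hl ⊢
      by_cases c2 : ¬ Gd SV cel e.A e.B e.kn
      · rw [if_pos c2] at hl
        have h1 : (2 : ℕ) = 1 := hl
        omega
      · rw [if_neg c2] at hl ⊢
        have hg : Gd SV cel e.A e.B e.kn := not_not.1 c2
        by_cases c3 : ∃ x, Hv SV cel N e.A e.B e.kn (.x x)
        · rw [dif_pos c3] at hl ⊢
          exact B1_x h e c3.choose c3.choose_spec hg hl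
        rw [dif_neg c3] at hl ⊢
        by_cases c6 : ∃ s, Hv SV cel N e.A e.B e.kn (.c s none)
        · rw [dif_pos c6] at hl ⊢
          exact B1_keyS h e c6.choose c6.choose_spec hg hl
        rw [dif_neg c6] at hl ⊢
        by_cases c7 : ∃ z : S × J × K, Hv SV cel N e.A e.B e.kn (.c z.1 (some z.2.1)) ∧
            (.c z.1 none, z.2.2) ∈ e.kn
        · rw [dif_pos c7] at hl ⊢
          exact B1_lcellH h _ _ _ _ e c7.choose_spec.1 hg hl
        rw [dif_neg c7] at hl ⊢
        by_cases c8 : ∃ d, cel d ∧ Hv SV cel N e.A e.B e.kn d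
        · rw [if_pos c8] at hl
          have h1 : (4 : ℕ) = 1 := hl
          omega
        rw [if_neg c8] at hl ⊢
        rcases hp : e.pend with _ | η
        · simp only [hp] at hl ⊢
          by_cases c4 : ∃ η, Hv SV cel L e.A e.B e.kn (.h η)
          · rw [dif_pos c4] at hl ⊢
            have := B1_handle h e c4.choose (B1_hv hLN c4.choose_spec) hg hp hl
            omega
          · rw [dif_neg c4] at hl ⊢
            by_cases c5 : ∃ z : K × K, Hv SV cel L e.A e.B e.kn (.l z.1 z.2)
            · rw [dif_pos c5] at hl ⊢
              have := B1_label h e _ _ (B1_hv hLN c5.choose_spec) hg hp hl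
              omega
            · rw [dif_neg c5] at hl
              have h1 : (4 : ℕ) = 1 := hl
              omega
        · simp only [hp] at hl ⊢
          have := B1_leak F h e η hl
          rw [if_neg (by simp)]
          omega

variable {I I' : Type} (A : Party (Qry X S J K) (Ans J K V) Mg I)
  (B : Party (Qry X S J K) (Ans J K V) Mg I')

theorem build_code1 (a : ℕ) (F : S → List J → Comp X K V) (G : V → List ℕ → Comp X K V) (N L : ℕ)
    (hLN : L ≤ N) (m0 : Mg) :
    ∀ (r : ℕ) (μ : Mg) (j : ℕ) (e : Env X S J K V A.St B.St RA RB) w, e.pend = none →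
      lfE (build A B a F G m0 N L r μ j e) e w = 1 →
      j ≤ 2 * cntE N (fun _ => True) (build A B a F G m0 N L r μ j e) e w := by
  intro r
  induction r with
  | zero =>
    intro μ j e w hp hl
    have h1 := closeT_code1 F N L hLN (fun _ _ => .stop 0)
      (fun j e w _ h => absurd (show (0 : ℕ) = 1 from h) (by norm_num)) j e w hl
    rw [if_pos hp, add_zero] at h1
    exact h1
  | succ r ih =>
    intro μ j e w hp hl
    have h1 := closeT_code1 F N L hLN (fun j e => .mA (.inl .msg) (stepC a F G A m0 e.T μ) fun m =>
      match m with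
      | .msg x =>
        closeT F N L (fun j e' => .mB (.inl .msg) (stepC a F G B m0 e'.T x) fun m' =>
          match m' with
          | .msg y => build A B a F G m0 N L r y j (e'.upB (stepC a F G B m0 e'.T x) m')
          | _ => .stop 4) j (e.upA (stepC a F G A m0 e.T μ) m)
      | _ => .stop 4) (by
      intro j e w hp hl
      simp only [lfE, cntE, Proc.lf, Proc.cnt] at hl ⊢
      generalize Proc.rsA SV (stepC a F G A m0 e.T μ) e.A w = m1 at hl ⊢
      rcases m1 with x | b | y | y
      · have h2 := closeT_code1 F N L hLN (fun j e' => .mB (.inl .msg) (stepC a F G B m0 e'.T x)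
          fun m' => match m' with
          | .msg y => build A B a F G m0 N L r y j (e'.upB (stepC a F G B m0 e'.T x) m')
          | _ => .stop 4) (by
          intro j e w hp hl
          simp only [lfE, cntE, Proc.lf, Proc.cnt] at hl ⊢
          generalize Proc.rsB SV (stepC a F G B m0 e.T x) e.B w = m2 at hl ⊢
          rcases m2 with y | b | y | y
          · exact ih y j (e.upB (stepC a F G B m0 e.T x) (.msg y)) w hp hl
          · exact absurd hl (by simp [Proc.lf])
          · exact absurd hl (by simp [Proc.lf])
          · exact absurd hl (by simp [Proc.lf])) j (e.upA (stepC a F G A m0 e.T μ) (.msg x)) w hl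
        rw [if_pos (show (e.upA (stepC a F G A m0 e.T μ) (.msg x)).pend = none from hp),
          add_zero] at h2
        exact h2
      · exact absurd hl (by simp [Proc.lf])
      · exact absurd hl (by simp [Proc.lf])
      · exact absurd hl (by simp [Proc.lf])) j e w hl
    rw [if_pos hp, add_zero] at h1
    exact h1

/-! ## Row B2: the number of nodes at which something is learned.  A key step learns
`2 + 2 * P.length` things and lowers `debt` by `P.length` (if `tr η` was `none`), a label step learns
at most 3 things and raises `debt` by at most 1. -/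

/-- the summand of `debt` -/
private def B2_dv (t : Option S) (p : Option (Bool × List K × Option V)) : ℕ :=
  match t, p with
  | none, some (_, P, _) => P.length
  | _, _ => 0

private theorem B2_debt (e : Env X S J K V StA StB RA RB) :
    debt e = ∑ η : K, B2_dv (e.T.tr η) (e.T.pr η) := rfl

/-- changing the table at one handle -/
private theorem B2_upd (e e' : Env X S J K V StA StB RA RB) (η : K)
    (h : ∀ x, x ≠ η → B2_dv (e'.T.tr x) (e'.T.pr x) = B2_dv (e.T.tr x) (e.T.pr x)) :
    debt e' + B2_dv (e.T.tr η) (e.T.pr η) = debt e + B2_dv (e'.T.tr η) (e'.T.pr η) := by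
  rw [B2_debt, B2_debt, ← Finset.add_sum_erase Finset.univ _ (Finset.mem_univ η),
    ← Finset.add_sum_erase Finset.univ (fun η => B2_dv (e.T.tr η) (e.T.pr η)) (Finset.mem_univ η),
    Finset.sum_congr rfl (fun x hx => h x (Finset.ne_of_mem_erase hx))]
  omega

private theorem B2_setTr (e : Env X S J K V StA StB RA RB) (η : K) (s : S) :
    debt (e.setTr η s) + B2_dv (e.T.tr η) (e.T.pr η) = debt e := by
  have h := B2_upd e (e.setTr η s) η (fun x hx => by
    simp [Env.setTr, Function.update_of_ne hx])
  rw [h]
  simp [Env.setTr, B2_dv]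

private theorem B2_setPr (e : Env X S J K V StA StB RA RB) (η : K) (o : Bool) (P : List K)
    (r : Option V) :
    debt (e.setPr η o P r) + B2_dv (e.T.tr η) (e.T.pr η) =
      debt e + B2_dv (e.T.tr η) (some (o, P, r)) := by
  have h := B2_upd e (e.setPr η o P r) η (fun x hx => by
    simp [Env.setPr, Function.update_of_ne hx])
  rw [h]
  simp [Env.setPr]

/-- the bound for the continuation -/
private def B2_H (w : RA × RB × Orc (SV : Th X S J K → Finset K)) (b : ℕ)
    (cont : Env X S J K V StA StB RA RB → PT X S J K V Mg StA StB) : Prop :=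
  ∀ e', (cont e').nl SV e'.A e'.B e'.kn w ≤ b + 2 * debt e'

private theorem B2_x_nl {w : RA × RB × Orc (SV : Th X S J K → Finset K)} {b : ℕ}
    {cont : Env X S J K V StA StB RA RB → PT X S J K V Mg StA StB} (h : B2_H w b cont)
    (e : Env X S J K V StA StB RA RB) (x : X) :
    (xStep e x cont).nl SV e.A e.B e.kn w ≤ b + 1 + 2 * debt e := by
  have h1 : (cont (e.kna (.x x) (w.2.2.1 (.x x)))).nl SV e.A e.B
      (e.kn ++ [(.x x, w.2.2.1 (.x x))]) w ≤ b + 2 * debt e := h (e.kna (.x x) (w.2.2.1 (.x x)))
  show (cont (e.kna (.x x) (w.2.2.1 (.x x)))).nl SV e.A e.B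
      (e.kn ++ [(.x x, w.2.2.1 (.x x))]) w + 1 ≤ _
  omega

private theorem B2_lcell_nl {w : RA × RB × Orc (SV : Th X S J K → Finset K)} {b : ℕ}
    {cont : Env X S J K V StA StB RA RB → PT X S J K V Mg StA StB} (h : B2_H w b cont)
    (s : S) (j : J) (η : K) (o : Comp (Qry X S J K) (Ans J K V) K)
    (e : Env X S J K V StA StB RA RB) :
    (lcell s j η o e cont).nl SV e.A e.B e.kn w ≤ b + 2 + 2 * debt e := by
  unfold lcell
  simp only [Proc.nl]
  generalize w.2.2.1 (.c s (some j)) = v
  generalize w.2.2.1 (.l η v) = u
  have h1 := h (((e.kna (.c s (some j)) v).kna (.l η v) u).setOp s v j)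
  have h2 : debt (((e.kna (.c s (some j)) v).kna (.l η v) u).setOp s v j) = debt e := rfl
  rw [h2] at h1
  have h3 : (cont (((e.kna (.c s (some j)) v).kna (.l η v) u).setOp s v j)).nl SV e.A e.B
      (e.kn ++ [(.c s (some j), v)] ++ [(.l η v, u)]) w ≤ b + 2 * debt e := h1
  omega

private theorem B2_openL_nl {w : RA × RB × Orc (SV : Th X S J K → Finset K)} {b : ℕ}
    {cont : Env X S J K V StA StB RA RB → PT X S J K V Mg StA StB} (h : B2_H w b cont)
    (o : Bool) (s : S) (η : K) (l : List K) :
    ∀ (e : Env X S J K V StA StB RA RB),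
      (openL o s η l e cont).nl SV e.A e.B e.kn w ≤ b + 2 * l.length + 2 * debt e := by
  induction l with
  | nil =>
    intro e
    exact h e
  | cons π l ih =>
    intro e
    have ih' : B2_H w (b + 2 * l.length) (fun e' => openL o s η l e' cont) := ih
    unfold openL
    cases o with
    | true =>
      simp only [if_true, Proc.nl]
      generalize Proc.rsA SV (tellC s π) e.A w = m
      rcases m with x | x | x | (_ | j)
      · exact Nat.zero_le _
      · exact Nat.zero_le _
      · exact Nat.zero_le _
      · have h1 := ih (e.upA (tellC s π) (.ix none : Pb Mg J V))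
        have h2 : debt (e.upA (tellC s π) (.ix none : Pb Mg J V)) = debt e := rfl
        rw [h2] at h1
        refine Nat.le_trans h1 ?_
        rw [List.length_cons]
        omega
      · have h1 := B2_lcell_nl ih' s j η (.ret π) (e.upA (tellC s π) (.ix (some j) : Pb Mg J V))
        have h2 : debt (e.upA (tellC s π) (.ix (some j) : Pb Mg J V)) = debt e := rfl
        rw [h2] at h1
        refine Nat.le_trans h1 ?_
        rw [List.length_cons]
        omega
    | false =>
      simp only [Bool.false_eq_true, if_false, Proc.nl]
      generalize Proc.rsB SV (tellC s π) e.B w = m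
      rcases m with x | x | x | (_ | j)
      · exact Nat.zero_le _
      · exact Nat.zero_le _
      · exact Nat.zero_le _
      · have h1 := ih (e.upB (tellC s π) (.ix none : Pb Mg J V))
        have h2 : debt (e.upB (tellC s π) (.ix none : Pb Mg J V)) = debt e := rfl
        rw [h2] at h1
        refine Nat.le_trans h1 ?_
        rw [List.length_cons]
        omega
      · have h1 := B2_lcell_nl ih' s j η (.ret π) (e.upB (tellC s π) (.ix (some j) : Pb Mg J V))
        have h2 : debt (e.upB (tellC s π) (.ix (some j) : Pb Mg J V)) = debt e := rfl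
        rw [h2] at h1
        refine Nat.le_trans h1 ?_
        rw [List.length_cons]
        omega

private theorem B2_key_nl {w : RA × RB × Orc (SV : Th X S J K → Finset K)} {b : ℕ}
    {cont : Env X S J K V StA StB RA RB → PT X S J K V Mg StA StB} (h : B2_H w b cont)
    (e : Env X S J K V StA StB RA RB) (s : S) :
    (keyStep e s cont).nl SV e.A e.B e.kn w ≤ b + 2 + 2 * debt e := by
  unfold keyStep
  simp only [Proc.nl]
  generalize w.2.2.1 (.c s none) = η
  generalize w.2.2.1 (.h η) = u
  have h0 : debt (((e.kna (.c s none) η).kna (.h η) u).setTr η s) +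
    B2_dv (e.T.tr η) (e.T.pr η) = debt e :=
    B2_setTr ((e.kna (.c s none) η).kna (.h η) u) η s
  have hc : (cont (((e.kna (.c s none) η).kna (.h η) u).setTr η s)).nl SV e.A e.B
      (e.kn ++ [(.c s none, η)] ++ [(.h η, u)]) w ≤
      b + 2 * debt (((e.kna (.c s none) η).kna (.h η) u).setTr η s) :=
    h (((e.kna (.c s none) η).kna (.h η) u).setTr η s)
  rcases hT : e.T.tr η with _ | z
  · rcases hP : e.T.pr η with _ | ⟨o, P, r⟩
    · simp only
      omega
    · simp only
      have h1 : (openL o s η P (((e.kna (.c s none) η).kna (.h η) u).setTr η s) cont).nl SV e.A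
          e.B (e.kn ++ [(.c s none, η)] ++ [(.h η, u)]) w ≤
          b + 2 * P.length + 2 * debt (((e.kna (.c s none) η).kna (.h η) u).setTr η s) :=
        B2_openL_nl h o s η P (((e.kna (.c s none) η).kna (.h η) u).setTr η s)
      rw [hT, hP] at h0
      have h2 : B2_dv (none : Option S) (some (o, P, r)) = P.length := rfl
      rw [h2] at h0
      omega
  · simp only
    omega

private theorem B2_handle_nl {w : RA × RB × Orc (SV : Th X S J K → Finset K)} {b : ℕ}
    {cont : Env X S J K V StA StB RA RB → PT X S J K V Mg StA StB} (h : B2_H w b cont)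
    (e : Env X S J K V StA StB RA RB) (η : K) :
    (handleStep e η cont).nl SV e.A e.B e.kn w ≤ b + 1 + 2 * debt e := by
  unfold handleStep
  simp only [Proc.nl]
  generalize w.2.2.1 (.h η) = v
  have key : ∀ n, n ≤ b + 2 * debt e → n + 1 ≤ b + 1 + 2 * debt e := by
    intro n hn
    omega
  refine key _ ?_
  have hz : B2_dv (e.T.tr η) (some (true, ([] : List K), (none : Option V))) = 0 := by
    cases e.T.tr η <;> rfl
  have hz' : B2_dv (e.T.tr η) (some (false, ([] : List K), (none : Option V))) = 0 := by
    cases e.T.tr η <;> rfl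
  generalize Proc.rsA SV (bitH η) e.A w = m1
  generalize Proc.rsB SV (bitH η) e.B w = m2
  rcases m1 with x | (_ | _) | x | x
  · exact Nat.zero_le _
  · rcases m2 with y | (_ | _) | y | y
    · exact Nat.zero_le _
    · exact h (((e.kna (.h η) v).upA (bitH η) (.bit false : Pb Mg J V)).upB (bitH η) (.bit false : Pb Mg J V))
    · by_cases hd : desH e η
      · simp only [hd, if_true]
        exact Nat.zero_le _
      · simp only [hd, if_false]
        refine Nat.le_trans (h (((((e.kna (.h η) v).upA (bitH η) (.bit false : Pb Mg J V)).upB (bitH η)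
          (.bit true : Pb Mg J V)).setPr η false [] none).conf η false (.h η))) ?_
        have h1 : debt (((((e.kna (.h η) v).upA (bitH η) (.bit false : Pb Mg J V)).upB (bitH η)
          (.bit true : Pb Mg J V)).setPr η false [] none).conf η false (.h η)) +
          B2_dv (e.T.tr η) (e.T.pr η) = debt e + B2_dv (e.T.tr η)
            (some (false, ([] : List K), (none : Option V))) :=
          B2_setPr (((e.kna (.h η) v).upA (bitH η) (.bit false : Pb Mg J V)).upB (bitH η)
            (.bit true : Pb Mg J V)) η false [] none
        rw [hz'] at h1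
        omega
    · exact Nat.zero_le _
    · exact Nat.zero_le _
  · rcases m2 with y | (_ | _) | y | y
    · exact Nat.zero_le _
    · by_cases hd : desH e η
      · simp only [hd, if_true]
        refine Nat.le_trans (h (((((e.kna (.h η) v).upA (bitH η) (.bit true : Pb Mg J V)).upB (bitH η)
          (.bit false : Pb Mg J V)).setPr η true [] none).conf η true (.h η))) ?_
        have h1 : debt (((((e.kna (.h η) v).upA (bitH η) (.bit true : Pb Mg J V)).upB (bitH η)
          (.bit false : Pb Mg J V)).setPr η true [] none).conf η true (.h η)) +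
          B2_dv (e.T.tr η) (e.T.pr η) = debt e + B2_dv (e.T.tr η)
            (some (true, ([] : List K), (none : Option V))) :=
          B2_setPr (((e.kna (.h η) v).upA (bitH η) (.bit true : Pb Mg J V)).upB (bitH η)
            (.bit false : Pb Mg J V)) η true [] none
        rw [hz] at h1
        omega
      · simp only [hd, if_false]
        exact Nat.zero_le _
    · exact Nat.zero_le _
    · exact Nat.zero_le _
    · exact Nat.zero_le _
  · exact Nat.zero_le _
  · exact Nat.zero_le _

private theorem B2_open_nl {w : RA × RB × Orc (SV : Th X S J K → Finset K)} {b : ℕ}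
    {cont : Env X S J K V StA StB RA RB → PT X S J K V Mg StA StB} (h : B2_H w b cont)
    (d : Prop) (e : Env X S J K V StA StB RA RB) (s : S) (η π : K) :
    (openStep d e s η π cont).nl SV e.A e.B e.kn w ≤ b + 2 + 2 * debt e := by
  unfold openStep
  simp only [Proc.nl]
  generalize Proc.rsA SV (tellC s π) e.A w = m1
  generalize Proc.rsB SV (tellC s π) e.B w = m2
  rcases m1 with x | x | x | (_ | i)
  · exact Nat.zero_le _
  · exact Nat.zero_le _
  · exact Nat.zero_le _
  · rcases m2 with y | y | y | (_ | j)
    · exact Nat.zero_le _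
    · exact Nat.zero_le _
    · exact Nat.zero_le _
    · refine Nat.le_trans (h ((e.upA (tellC s π) (.ix none : Pb Mg J V)).upB (tellC s π) (.ix none : Pb Mg J V))) ?_
      have h1 : debt ((e.upA (tellC s π) (.ix none : Pb Mg J V)).upB (tellC s π)
        (.ix none : Pb Mg J V)) = debt e := rfl
      rw [h1]
      omega
    · by_cases hd : d
      · simp only [hd, if_true]
        exact Nat.zero_le _
      · simp only [hd, if_false]
        exact B2_lcell_nl h s j η (.ret π)
          ((e.upA (tellC s π) (.ix none : Pb Mg J V)).upB (tellC s π) (.ix (some j) : Pb Mg J V))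
  · rcases m2 with y | y | y | (_ | j)
    · exact Nat.zero_le _
    · exact Nat.zero_le _
    · exact Nat.zero_le _
    · by_cases hd : d
      · simp only [hd, if_true]
        exact B2_lcell_nl h s i η (.ret π)
          ((e.upA (tellC s π) (.ix (some i) : Pb Mg J V)).upB (tellC s π) (.ix none : Pb Mg J V))
      · simp only [hd, if_false]
        exact Nat.zero_le _
    · exact Nat.zero_le _

private theorem B2_label_nl {w : RA × RB × Orc (SV : Th X S J K → Finset K)} {b : ℕ}
    {cont : Env X S J K V StA StB RA RB → PT X S J K V Mg StA StB} (h : B2_H w b cont)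
    (e : Env X S J K V StA StB RA RB) (η π : K) :
    (labelStep e η π cont).nl SV e.A e.B e.kn w ≤ b + 3 + 2 * debt e := by
  unfold labelStep
  simp only [Proc.nl]
  generalize w.2.2.1 (.l η π) = v
  have key : ∀ n, n ≤ b + 2 + 2 * debt e → n + 1 ≤ b + 3 + 2 * debt e := by
    intro n hn
    omega
  refine key _ ?_
  have hk : ∀ n, n ≤ b + 2 * debt e → n ≤ b + 2 + 2 * debt e := by
    intro n hn
    omega
  rcases hT : e.T.tr η with _ | z
  · rcases hP : e.T.pr η with _ | ⟨o, P, r0⟩
    · exact hk _ (h (e.kna (.l η π) v))
    · cases o with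
      | true =>
        simp only [Proc.nl]
        generalize Proc.rsA SV (bitL η π) e.A w = m
        rcases m with x | (_ | _) | x | x
        · exact Nat.zero_le _
        · exact hk _ (h ((e.kna (.l η π) v).upA (bitL η π) (.bit false : Pb Mg J V)))
        · refine Nat.le_trans (h ((((e.kna (.l η π) v).upA (bitL η π) (.bit true : Pb Mg J V)).setPr η true
            (P ++ [π]) none).conf η true (.l η π))) ?_
          have h1 : debt ((((e.kna (.l η π) v).upA (bitL η π)
            (.bit true : Pb Mg J V)).setPr η true (P ++ [π]) none).conf η true (.l η π)) +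
            B2_dv (e.T.tr η) (e.T.pr η) = debt e + B2_dv (e.T.tr η)
              (some (true, P ++ [π], (none : Option V))) :=
            B2_setPr ((e.kna (.l η π) v).upA (bitL η π) (.bit true : Pb Mg J V)) η true
              (P ++ [π]) none
          rw [hT, hP] at h1
          have h2 : B2_dv (none : Option S) (some (true, P, r0)) = P.length := rfl
          have h3 : B2_dv (none : Option S) (some (true, P ++ [π], (none : Option V))) =
            P.length + 1 := by simp [B2_dv]
          rw [h2, h3] at h1
          omega
        · exact Nat.zero_le _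
        · exact Nat.zero_le _
      | false =>
        simp only [Proc.nl]
        generalize Proc.rsB SV (bitL η π) e.B w = m
        rcases m with x | (_ | _) | x | x
        · exact Nat.zero_le _
        · exact hk _ (h ((e.kna (.l η π) v).upB (bitL η π) (.bit false : Pb Mg J V)))
        · refine Nat.le_trans (h ((((e.kna (.l η π) v).upB (bitL η π) (.bit true : Pb Mg J V)).setPr η false
            (P ++ [π]) none).conf η false (.l η π))) ?_
          have h1 : debt ((((e.kna (.l η π) v).upB (bitL η π)
            (.bit true : Pb Mg J V)).setPr η false (P ++ [π]) none).conf η false (.l η π)) +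
            B2_dv (e.T.tr η) (e.T.pr η) = debt e + B2_dv (e.T.tr η)
              (some (false, P ++ [π], (none : Option V))) :=
            B2_setPr ((e.kna (.l η π) v).upB (bitL η π) (.bit true : Pb Mg J V)) η false
              (P ++ [π]) none
          rw [hT, hP] at h1
          have h2 : B2_dv (none : Option S) (some (false, P, r0)) = P.length := rfl
          have h3 : B2_dv (none : Option S) (some (false, P ++ [π], (none : Option V))) =
            P.length + 1 := by simp [B2_dv]
          rw [h2, h3] at h1
          omega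
        · exact Nat.zero_le _
        · exact Nat.zero_le _
  · rcases hO : e.T.op z π with _ | i
    · simp only [hO]
      exact B2_open_nl h (desL e z π) (e.kna (.l η π) v) z η π
    · simp only [hO]
      exact hk _ (h (e.kna (.l η π) v))

private theorem B2_leak_nl {w : RA × RB × Orc (SV : Th X S J K → Finset K)} {b : ℕ}
    {cont : Env X S J K V StA StB RA RB → PT X S J K V Mg StA StB} (h : B2_H w b cont)
    (F : S → List J → Comp X K V) (e : Env X S J K V StA StB RA RB) (η : K) :
    (leakStep F e η cont).nl SV e.A e.B e.kn w ≤ b + 2 * debt e := by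
  unfold leakStep
  rcases hP : e.T.pr η with _ | ⟨o, P, r0⟩
  · exact h { e with pend := none }
  · cases o with
    | true =>
      simp only [Proc.nl]
      generalize Proc.rsA SV (leakC F η P) e.A w = m
      rcases m with x | x | r | x
      · exact Nat.zero_le _
      · exact Nat.zero_le _
      · refine Nat.le_trans (h { (e.upA (leakC F η P) (.lk r : Pb Mg J V)).setPr η true P r with
          pend := none }) ?_
        have h1 : debt { (e.upA (leakC F η P) (.lk r : Pb Mg J V)).setPr η true P r with
          pend := none } + B2_dv (e.T.tr η) (e.T.pr η) = debt e + B2_dv (e.T.tr η)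
            (some (true, P, r)) :=
          B2_setPr (e.upA (leakC F η P) (.lk r : Pb Mg J V)) η true P r
        have h2 : B2_dv (e.T.tr η) (e.T.pr η) = B2_dv (e.T.tr η) (some (true, P, r)) := by
          rw [hP]
          cases e.T.tr η <;> rfl
        rw [h2] at h1
        omega
      · exact Nat.zero_le _
    | false =>
      simp only [Proc.nl]
      generalize Proc.rsB SV (leakC F η P) e.B w = m
      rcases m with x | x | r | x
      · exact Nat.zero_le _
      · exact Nat.zero_le _
      · refine Nat.le_trans (h { (e.upB (leakC F η P) (.lk r : Pb Mg J V)).setPr η false P r with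
          pend := none }) ?_
        have h1 : debt { (e.upB (leakC F η P) (.lk r : Pb Mg J V)).setPr η false P r with
          pend := none } + B2_dv (e.T.tr η) (e.T.pr η) = debt e + B2_dv (e.T.tr η)
            (some (false, P, r)) :=
          B2_setPr (e.upB (leakC F η P) (.lk r : Pb Mg J V)) η false P r
        have h2 : B2_dv (e.T.tr η) (e.T.pr η) = B2_dv (e.T.tr η) (some (false, P, r)) := by
          rw [hP]
          cases e.T.tr η <;> rfl
        rw [h2] at h1
        omega
      · exact Nat.zero_le _

private theorem B2_body_nl {w : RA × RB × Orc (SV : Th X S J K → Finset K)} {b : ℕ}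
    {cont : Env X S J K V StA StB RA RB → PT X S J K V Mg StA StB} (h : B2_H w b cont)
    (F : S → List J → Comp X K V) (N L : ℕ)
    (e : Env X S J K V StA StB RA RB) (k : PT X S J K V Mg StA StB)
    (hk : k.nl SV e.A e.B e.kn w ≤ b + 3 + 2 * debt e) :
    (body F N L e cont k).nl SV e.A e.B e.kn w ≤ b + 3 + 2 * debt e := by
  unfold body
  by_cases h1 : Lgt N L e
  · rw [if_pos h1]
    exact hk
  rw [if_neg h1]
  by_cases h2 : Gd SV cel e.A e.B e.kn
  · rw [if_neg (not_not.2 h2)]
    by_cases hx : ∃ x, Hv SV cel N e.A e.B e.kn (.x x)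
    · rw [dif_pos hx]
      exact (B2_x_nl h e _).trans (by omega)
    rw [dif_neg hx]
    by_cases hs : ∃ s, Hv SV cel N e.A e.B e.kn (.c s none)
    · rw [dif_pos hs]
      exact (B2_key_nl h e _).trans (by omega)
    rw [dif_neg hs]
    by_cases hj : ∃ z : S × J × K, Hv SV cel N e.A e.B e.kn (.c z.1 (some z.2.1)) ∧
        (.c z.1 none, z.2.2) ∈ e.kn
    · rw [dif_pos hj]
      exact (B2_lcell_nl h _ _ _ _ e).trans (by omega)
    rw [dif_neg hj]
    by_cases h3 : ∃ d, cel d ∧ Hv SV cel N e.A e.B e.kn d
    · rw [if_pos h3]
      exact Nat.zero_le _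
    · rw [if_neg h3]
      rcases hp : e.pend with _ | η
      · simp only
        split_ifs with h4 h5
        · exact (B2_handle_nl h e _).trans (by omega)
        · exact B2_label_nl h e _ _
        · exact Nat.zero_le _
      · exact (B2_leak_nl h F e η).trans (by omega)
  · rw [if_pos h2]
    exact Nat.zero_le _

private theorem B2_close_nl (F : S → List J → Comp X K V) (N L : ℕ)
    (k : ℕ → Env X S J K V StA StB RA RB → PT X S J K V Mg StA StB)
    (w : RA × RB × Orc (SV : Th X S J K → Finset K))
    (hk : ∀ j e, (k j e).nl SV e.A e.B e.kn w ≤ 3 * j + 2 * debt e) :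
    ∀ (j : ℕ) (e : Env X S J K V StA StB RA RB),
      (closeT F N L k j e).nl SV e.A e.B e.kn w ≤ 3 * j + 2 * debt e := by
  intro j
  induction j with
  | zero =>
    intro e
    unfold closeT
    split_ifs with h
    · exact hk 0 e
    · exact Nat.zero_le _
  | succ j ih =>
    intro e
    unfold closeT
    rw [Nat.mul_succ]
    refine B2_body_nl ih F N L e _ ?_
    rw [← Nat.mul_succ]
    exact hk (j + 1) e

theorem build_nl (a : ℕ) (F : S → List J → Comp X K V) (G : V → List ℕ → Comp X K V) (N L : ℕ)
    (m0 : Mg) :
    ∀ (r : ℕ) (μ : Mg) (j : ℕ) (e : Env X S J K V A.St B.St RA RB) w,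
      (build A B a F G m0 N L r μ j e).nl SV e.A e.B e.kn w ≤ 3 * j + 2 * debt e := by
  intro r
  induction r with
  | zero =>
    intro μ j e w
    unfold build
    exact B2_close_nl F N L _ w (fun j e => Nat.zero_le _) j e
  | succ r ih =>
    intro μ j e w
    unfold build
    refine B2_close_nl F N L _ w (fun j e => ?_) j e
    simp only [Proc.nl]
    generalize Proc.rsA SV (stepC a F G A m0 e.T μ) e.A w = m
    rcases m with x | x | x | x
    · refine B2_close_nl F N L _ w (fun j e => ?_) j (e.upA (stepC a F G A m0 e.T μ) (.msg x))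
      simp only [Proc.nl]
      generalize Proc.rsB SV (stepC a F G B m0 e.T x) e.B w = m'
      rcases m' with y | y | y | y
      · exact ih y j (e.upB (stepC a F G B m0 e.T x) (.msg y)) w
      · exact Nat.zero_le _
      · exact Nat.zero_le _
      · exact Nat.zero_le _
    · exact Nat.zero_le _
    · exact Nat.zero_le _
    · exact Nat.zero_le _

/-! ## Row B3: the number of real queries of the eavesdropper.  A key step asks `1 + P.length`
queries, all others at most 1. -/

private def B3_w (x : Option S) (y : Option (Bool × List K × Option V)) : ℕ :=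
  match x, y with
  | none, some (_, P, _) => P.length
  | _, _ => 0

private theorem B3_debt (e : Env X S J K V StA StB RA RB) :
    debt e = ∑ η : K, B3_w (e.T.tr η) (e.T.pr η) := rfl

private theorem B3_sum (g g' : K → ℕ) (η : K) (h : ∀ ζ, ζ ≠ η → g' ζ = g ζ) :
    ∑ ζ, g' ζ + g η = ∑ ζ, g ζ + g' η := by
  have h1 := Finset.add_sum_erase Finset.univ g (Finset.mem_univ η)
  have h2 := Finset.add_sum_erase Finset.univ g' (Finset.mem_univ η)
  have h3 : ∑ ζ ∈ Finset.univ.erase η, g' ζ = ∑ ζ ∈ Finset.univ.erase η, g ζ :=
    Finset.sum_congr rfl fun ζ hζ => h ζ (Finset.ne_of_mem_erase hζ)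
  omega

private theorem B3_setTr (e : Env X S J K V StA StB RA RB) (η : K) (s : S) :
    debt (e.setTr η s) + B3_w (e.T.tr η) (e.T.pr η) = debt e := by
  have h := B3_sum (fun ζ => B3_w (e.T.tr ζ) (e.T.pr ζ))
    (fun ζ => B3_w ((e.setTr η s).T.tr ζ) ((e.setTr η s).T.pr ζ)) η (fun ζ hζ => by
      have h1 : (e.setTr η s).T.tr ζ = e.T.tr ζ := Function.update_of_ne hζ _ _
      show B3_w ((e.setTr η s).T.tr ζ) (e.T.pr ζ) = _
      rw [h1])
  have h2 : (e.setTr η s).T.tr η = some s := by
    show Function.update e.T.tr η (some s) η = some s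
    rw [Function.update_self]
  rw [B3_debt, B3_debt]
  have h3 : B3_w ((e.setTr η s).T.tr η) ((e.setTr η s).T.pr η) = 0 := by
    rw [h2]
    rfl
  rw [h3] at h
  omega

private theorem B3_w_le (x : Option S) (o : Bool) (P : List K) (r : Option V) :
    B3_w x (some (o, P, r)) ≤ P.length := by
  cases x with
  | none => exact le_rfl
  | some s => exact Nat.zero_le _

private theorem B3_setPr (e : Env X S J K V StA StB RA RB) (η : K) (o : Bool) (P : List K)
    (r : Option V) : debt (e.setPr η o P r) + B3_w (e.T.tr η) (e.T.pr η) =
      debt e + B3_w (e.T.tr η) (some (o, P, r)) := by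
  have h := B3_sum (fun ζ => B3_w (e.T.tr ζ) (e.T.pr ζ))
    (fun ζ => B3_w ((e.setPr η o P r).T.tr ζ) ((e.setPr η o P r).T.pr ζ)) η (fun ζ hζ => by
      have h1 : (e.setPr η o P r).T.pr ζ = e.T.pr ζ := Function.update_of_ne hζ _ _
      show B3_w (e.T.tr ζ) ((e.setPr η o P r).T.pr ζ) = _
      rw [h1])
  have h2 : (e.setPr η o P r).T.pr η = some (o, P, r) := by
    show Function.update e.T.pr η (some (o, P, r)) η = some (o, P, r)
    rw [Function.update_self]
  rw [B3_debt, B3_debt]
  rw [h2] at h
  exact h

private theorem B3_setPr_nil (e : Env X S J K V StA StB RA RB) (η : K) (o : Bool)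
    (r : Option V) : debt (e.setPr η o [] r) ≤ debt e := by
  have h := B3_setPr e η o [] r
  have h1 := B3_w_le (e.T.tr η) o ([] : List K) r
  simp only [List.length_nil] at h1
  omega

private theorem B3_w_eq (x : Option S) (o o' : Bool) (P : List K) (r r' : Option V) :
    B3_w x (some (o, P, r)) = B3_w x (some (o', P, r')) := by
  cases x <;> rfl

private theorem B3_setPr_same (e : Env X S J K V StA StB RA RB) (η : K) (o o' : Bool) (P : List K)
    (r r' : Option V) (hp : e.T.pr η = some (o', P, r')) : debt (e.setPr η o P r) = debt e := by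
  have h := B3_setPr e η o P r
  rw [hp, B3_w_eq (e.T.tr η) o o' P r r'] at h
  omega

private theorem B3_w_app (x : Option S) (o o' : Bool) (P : List K) (π : K) (r r' : Option V) :
    B3_w x (some (o, P ++ [π], r)) ≤ B3_w x (some (o', P, r')) + 1 := by
  cases x with
  | none =>
    show (P ++ [π]).length ≤ P.length + 1
    simp
  | some s => exact Nat.zero_le _

private theorem B3_setPr_app (e : Env X S J K V StA StB RA RB) (η : K) (o o' : Bool) (P : List K)
    (π : K) (r r' : Option V) (hp : e.T.pr η = some (o', P, r')) :
    debt (e.setPr η o (P ++ [π]) r) ≤ debt e + 1 := by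
  have h := B3_setPr e η o (P ++ [π]) r
  have h1 := B3_w_app (e.T.tr η) o o' P π r r'
  rw [hp] at h
  omega

/-- the bound for the continuation -/
private def B3_H (outB : RB → CS StB S J K → Bool) (ρ : Qry X S J K → Ans J K V)
    (cont : Env X S J K V StA StB RA RB → PT X S J K V Mg StA StB) (b : ℕ) : Prop :=
  ∀ e t, (((cont e).eve SV outB e.A e.B e.kn t).asked ρ).length ≤ b + debt e

private theorem B3_x (outB : RB → CS StB S J K → Bool) (ρ : Qry X S J K → Ans J K V)
    (e : Env X S J K V StA StB RA RB) (x : X)
    (cont : Env X S J K V StA StB RA RB → PT X S J K V Mg StA StB) (t : List Mg) (b : ℕ)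
    (h : B3_H outB ρ cont b) :
    (((xStep e x cont).eve SV outB e.A e.B e.kn t).asked ρ).length ≤ b + 2 + debt e := by
  simp only [xStep, Proc.eve, Comp.asked_bind, List.length_append]
  generalize (obsX x : Comp (Qry X S J K) (Ans J K V) K).run ρ = v
  have h1 : (((cont (e.kna (.x x) v)).eve SV outB e.A e.B (e.kn ++ [(.x x, v)]) t).asked
    ρ).length ≤ b + debt e := h (e.kna (.x x) v) t
  have h3 : ((obsX x : Comp (Qry X S J K) (Ans J K V) K).asked ρ).length = 1 := rfl
  omega

private theorem B3_lcell (outB : RB → CS StB S J K → Bool) (ρ : Qry X S J K → Ans J K V)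
    (s : S) (j : J) (η : K) (o : Comp (Qry X S J K) (Ans J K V) K)
    (e : Env X S J K V StA StB RA RB)
    (cont : Env X S J K V StA StB RA RB → PT X S J K V Mg StA StB) (t : List Mg) (b : ℕ)
    (h : B3_H outB ρ cont b) :
    (((lcell s j η o e cont).eve SV outB e.A e.B e.kn t).asked ρ).length ≤
      (o.asked ρ).length + (b + debt e) := by
  simp only [lcell, Proc.eve, Comp.asked_bind, List.length_append, Comp.asked_ret, Comp.run_ret,
    List.length_nil, zero_add]
  generalize o.run ρ = v
  exact Nat.add_le_add_left
    (h (((e.kna (.c s (some j)) v).kna (.l η v) k0).setOp s v j) t) _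

private theorem B3_openL (outB : RB → CS StB S J K → Bool) (ρ : Qry X S J K → Ans J K V)
    (o : Bool) (s : S) (η : K)
    (cont : Env X S J K V StA StB RA RB → PT X S J K V Mg StA StB) (b : ℕ)
    (h : B3_H outB ρ cont b) : ∀ (l : List K), B3_H outB ρ (fun e => openL o s η l e cont) (l.length + b) := by
  intro l
  induction l with
  | nil =>
    intro e t
    have := h e t
    simp only [List.length_nil, zero_add]
    exact this
  | cons π l ih =>
    intro e t
    have h3 : ((obsD s π : Comp (Qry X S J K) (Ans J K V) (Pb Mg J V)).asked ρ).length = 1 := rfl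
    cases o with
    | true =>
      simp only [openL, if_true, Proc.eve, Comp.asked_bind, List.length_append, List.length_cons]
      generalize (obsD s π : Comp (Qry X S J K) (Ans J K V) (Pb Mg J V)).run ρ = m
      have key : ∀ c : ℕ, c ≤ l.length + b + debt e →
          ((obsD s π : Comp (Qry X S J K) (Ans J K V) (Pb Mg J V)).asked ρ).length + c ≤
            l.length + 1 + b + debt e := by
        intro c hc
        omega
      refine key _ ?_
      rcases m with x | x | x | (_ | j)
      · exact Nat.zero_le _
      · exact Nat.zero_le _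
      · exact Nat.zero_le _
      · exact ih (e.upA (tellC s π) (.ix none)) t
      · have h4 := B3_lcell outB ρ s j η (.ret π) (e.upA (tellC s π) (.ix (some j) : Pb Mg J V))
          (fun e' => openL true s η l e' cont) t _ ih
        simp only [Comp.asked_ret, List.length_nil, zero_add] at h4
        exact h4
    | false =>
      simp only [openL, Bool.false_eq_true, if_false, Proc.eve, Comp.asked_bind,
        List.length_append, List.length_cons]
      generalize (obsD s π : Comp (Qry X S J K) (Ans J K V) (Pb Mg J V)).run ρ = m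
      have key : ∀ c : ℕ, c ≤ l.length + b + debt e →
          ((obsD s π : Comp (Qry X S J K) (Ans J K V) (Pb Mg J V)).asked ρ).length + c ≤
            l.length + 1 + b + debt e := by
        intro c hc
        omega
      refine key _ ?_
      rcases m with x | x | x | (_ | j)
      · exact Nat.zero_le _
      · exact Nat.zero_le _
      · exact Nat.zero_le _
      · exact ih (e.upB (tellC s π) (.ix none)) t
      · have h4 := B3_lcell outB ρ s j η (.ret π) (e.upB (tellC s π) (.ix (some j) : Pb Mg J V))
          (fun e' => openL false s η l e' cont) t _ ih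
        simp only [Comp.asked_ret, List.length_nil, zero_add] at h4
        exact h4

private theorem B3_key (outB : RB → CS StB S J K → Bool) (ρ : Qry X S J K → Ans J K V)
    (e : Env X S J K V StA StB RA RB) (s : S)
    (cont : Env X S J K V StA StB RA RB → PT X S J K V Mg StA StB) (t : List Mg) (b : ℕ)
    (h : B3_H outB ρ cont b) :
    (((keyStep e s cont).eve SV outB e.A e.B e.kn t).asked ρ).length ≤ b + 2 + debt e := by
  simp only [keyStep, Proc.eve, Comp.asked_bind, List.length_append, Comp.asked_ret, Comp.run_ret,
    List.length_nil, zero_add]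
  generalize (obsE s none : Comp (Qry X S J K) (Ans J K V) K).run ρ = η
  have h3 : ((obsE s none : Comp (Qry X S J K) (Ans J K V) K).asked ρ).length = 1 := rfl
  have hd := B3_setTr ((e.kna (.c s none) η).kna (.h η) k0) η s
  have hd2 : B3_w (e.T.tr η) (e.T.pr η) + debt (((e.kna (.c s none) η).kna (.h η) k0).setTr η s) =
      debt e := by
    rw [add_comm]
    exact hd
  have key : ∀ c : ℕ, c ≤ B3_w (e.T.tr η) (e.T.pr η) + b +
      debt (((e.kna (.c s none) η).kna (.h η) k0).setTr η s) →
      ((obsE s none : Comp (Qry X S J K) (Ans J K V) K).asked ρ).length + c ≤ b + 2 + debt e := by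
    intro c hc
    omega
  refine key _ ?_
  rcases htr : e.T.tr η with _ | s'
  · rcases hpr : e.T.pr η with _ | ⟨o, P, r⟩
    · exact (h (((e.kna (.c s none) η).kna (.h η) k0).setTr η s) t).trans (by omega)
    · exact B3_openL outB ρ o s η cont b h P (((e.kna (.c s none) η).kna (.h η) k0).setTr η s) t
  · exact (h (((e.kna (.c s none) η).kna (.h η) k0).setTr η s) t).trans (by omega)

private theorem B3_leak (outB : RB → CS StB S J K → Bool) (ρ : Qry X S J K → Ans J K V)
    (F : S → List J → Comp X K V) (e : Env X S J K V StA StB RA RB)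
    (η : K) (cont : Env X S J K V StA StB RA RB → PT X S J K V Mg StA StB) (t : List Mg) (b : ℕ)
    (h : B3_H outB ρ cont b) :
    (((leakStep F e η cont).eve SV outB e.A e.B e.kn t).asked ρ).length ≤ b + 2 + debt e := by
  unfold leakStep
  rcases hT : e.T.pr η with _ | ⟨o, P, r0⟩
  · have h1 : (((cont { e with pend := none }).eve SV outB e.A e.B e.kn t).asked ρ).length ≤
        b + debt e := h { e with pend := none } t
    simp only
    omega
  · have h3 : ((obsL η P : Comp (Qry X S J K) (Ans J K V) (Pb Mg J V)).asked ρ).length = 1 := rfl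
    have key : ∀ c : ℕ, c ≤ b + debt e →
        ((obsL η P : Comp (Qry X S J K) (Ans J K V) (Pb Mg J V)).asked ρ).length + c ≤
          b + 2 + debt e := by
      intro c hc
      omega
    cases o with
    | true =>
      simp only [Proc.eve, Comp.asked_bind, List.length_append]
      generalize (obsL η P : Comp (Qry X S J K) (Ans J K V) (Pb Mg J V)).run ρ = m
      refine key _ ?_
      rcases m with x | x | x | x
      · exact Nat.zero_le _
      · exact Nat.zero_le _
      · have h5 := h { (e.upA (leakC F η P) (.lk x : Pb Mg J V)).setPr η true P x with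
          pend := none } t
        have h6 : debt { (e.upA (leakC F η P) (.lk x : Pb Mg J V)).setPr η true P x with
          pend := none } = debt e :=
          B3_setPr_same (e.upA (leakC F η P) (.lk x : Pb Mg J V)) η true true P x r0 hT
        rw [h6] at h5
        exact h5
      · exact Nat.zero_le _
    | false =>
      simp only [Proc.eve, Comp.asked_bind, List.length_append]
      generalize (obsL η P : Comp (Qry X S J K) (Ans J K V) (Pb Mg J V)).run ρ = m
      refine key _ ?_
      rcases m with x | x | x | x
      · exact Nat.zero_le _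
      · exact Nat.zero_le _
      · have h5 := h { (e.upB (leakC F η P) (.lk x : Pb Mg J V)).setPr η false P x with
          pend := none } t
        have h6 : debt { (e.upB (leakC F η P) (.lk x : Pb Mg J V)).setPr η false P x with
          pend := none } = debt e :=
          B3_setPr_same (e.upB (leakC F η P) (.lk x : Pb Mg J V)) η false false P x r0 hT
        rw [h6] at h5
        exact h5
      · exact Nat.zero_le _

private theorem B3_obsB (ρ : Qry X S J K → Ans J K V) (η : K) (P : List K) :
    ((obsB η P : Comp (Qry X S J K) (Ans J K V) (Pb Mg J V)).asked ρ).length = 1 := rfl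

private theorem B3_ob (ρ : Qry X S J K → Ans J K V) (p : Prop) (η : K) (P : List K) :
    ((if p then obsB η P else .ret (.bit false) :
      Comp (Qry X S J K) (Ans J K V) (Pb Mg J V)).asked ρ).length +
    ((if p then .ret (.bit false) else obsB η P :
      Comp (Qry X S J K) (Ans J K V) (Pb Mg J V)).asked ρ).length = 1 := by
  split_ifs
  · rfl
  · rfl

private theorem B3_od (ρ : Qry X S J K → Ans J K V) (p : Prop) (s : S) (π : K) :
    ((if p then obsD s π else .ret (.ix none) :
      Comp (Qry X S J K) (Ans J K V) (Pb Mg J V)).asked ρ).length +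
    ((if p then .ret (.ix none) else obsD s π :
      Comp (Qry X S J K) (Ans J K V) (Pb Mg J V)).asked ρ).length = 1 := by
  split_ifs
  · rfl
  · rfl

private theorem B3_handle (outB : RB → CS StB S J K → Bool) (ρ : Qry X S J K → Ans J K V)
    (e : Env X S J K V StA StB RA RB)
    (η : K) (cont : Env X S J K V StA StB RA RB → PT X S J K V Mg StA StB) (t : List Mg) (b : ℕ)
    (h : B3_H outB ρ cont b) :
    (((handleStep e η cont).eve SV outB e.A e.B e.kn t).asked ρ).length ≤ b + 2 + debt e := by
  unfold handleStep
  simp only [Proc.eve, Comp.asked_bind, List.length_append, Comp.asked_ret, Comp.run_ret,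
    List.length_nil, zero_add]
  have h3 := B3_ob (Mg := Mg) ρ (desH e η) η []
  have key : ∀ a c d : ℕ, a + c = 1 → d ≤ b + debt e → a + (c + d) ≤ b + 2 + debt e := by
    intro a c d h1 h2
    omega
  refine key _ _ _ h3 ?_
  generalize (if desH e η then obsB η [] else .ret (.bit false) :
      Comp (Qry X S J K) (Ans J K V) (Pb Mg J V)).run ρ = m1
  generalize (if desH e η then .ret (.bit false) else obsB η [] :
      Comp (Qry X S J K) (Ans J K V) (Pb Mg J V)).run ρ = m2
  rcases m1 with x | (_ | _) | x | x
  · exact Nat.zero_le _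
  · rcases m2 with y | (_ | _) | y | y
    · exact Nat.zero_le _
    · exact h (((e.kna (.h η) k0).upA (bitH η) (.bit false)).upB (bitH η) (.bit false)) t
    · by_cases hd : desH e η
      · simp only [hd, if_true]
        exact Nat.zero_le _
      · simp only [hd, if_false]
        refine (h (((((e.kna (.h η) k0).upA (bitH η) (.bit false)).upB (bitH η)
          (.bit true)).setPr η false [] none).conf η false (.h η)) t).trans ?_
        exact Nat.add_le_add_left (B3_setPr_nil (((e.kna (.h η) k0).upA (bitH η)
          (.bit false : Pb Mg J V)).upB (bitH η) (.bit true : Pb Mg J V)) η false none) b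
    · exact Nat.zero_le _
    · exact Nat.zero_le _
  · rcases m2 with y | (_ | _) | y | y
    · exact Nat.zero_le _
    · by_cases hd : desH e η
      · simp only [hd, if_true]
        refine (h (((((e.kna (.h η) k0).upA (bitH η) (.bit true)).upB (bitH η)
          (.bit false)).setPr η true [] none).conf η true (.h η)) t).trans ?_
        exact Nat.add_le_add_left (B3_setPr_nil (((e.kna (.h η) k0).upA (bitH η)
          (.bit true : Pb Mg J V)).upB (bitH η) (.bit false : Pb Mg J V)) η true none) b
      · simp only [hd, if_false]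
        exact Nat.zero_le _
    · exact Nat.zero_le _
    · exact Nat.zero_le _
    · exact Nat.zero_le _
  · exact Nat.zero_le _
  · exact Nat.zero_le _

private theorem B3_open (outB : RB → CS StB S J K → Bool) (ρ : Qry X S J K → Ans J K V)
    (d : Prop) (e : Env X S J K V StA StB RA RB) (s : S) (η π : K)
    (cont : Env X S J K V StA StB RA RB → PT X S J K V Mg StA StB) (t : List Mg) (b : ℕ)
    (h : B3_H outB ρ cont b) :
    (((openStep d e s η π cont).eve SV outB e.A e.B e.kn t).asked ρ).length ≤ 1 + (b + debt e) := by
  unfold openStep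
  simp only [Proc.eve, Comp.asked_bind, List.length_append]
  have h3 := B3_od (Mg := Mg) ρ d s π
  have key : ∀ a c f : ℕ, a + c = 1 → f ≤ b + debt e → a + (c + f) ≤ 1 + (b + debt e) := by
    intro a c f h1 h2
    omega
  refine key _ _ _ h3 ?_
  generalize (if d then obsD s π else .ret (.ix none) :
      Comp (Qry X S J K) (Ans J K V) (Pb Mg J V)).run ρ = m1
  generalize (if d then .ret (.ix none) else obsD s π :
      Comp (Qry X S J K) (Ans J K V) (Pb Mg J V)).run ρ = m2
  rcases m1 with x | x | x | (_ | i)
  · exact Nat.zero_le _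
  · exact Nat.zero_le _
  · exact Nat.zero_le _
  · rcases m2 with y | y | y | (_ | j)
    · exact Nat.zero_le _
    · exact Nat.zero_le _
    · exact Nat.zero_le _
    · exact h ((e.upA (tellC s π) (.ix none)).upB (tellC s π) (.ix none)) t
    · by_cases hd : d
      · simp only [hd, if_true]
        exact Nat.zero_le _
      · simp only [hd, if_false]
        have h4 := B3_lcell outB ρ s j η (.ret π) ((e.upA (tellC s π) (.ix none : Pb Mg J V)).upB
          (tellC s π) (.ix (some j) : Pb Mg J V)) cont t b h
        simp only [Comp.asked_ret, List.length_nil, zero_add] at h4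
        exact h4
  · rcases m2 with y | y | y | (_ | j)
    · exact Nat.zero_le _
    · exact Nat.zero_le _
    · exact Nat.zero_le _
    · by_cases hd : d
      · simp only [hd, if_true]
        have h4 := B3_lcell outB ρ s i η (.ret π) ((e.upA (tellC s π) (.ix (some i) :
          Pb Mg J V)).upB (tellC s π) (.ix none : Pb Mg J V)) cont t b h
        simp only [Comp.asked_ret, List.length_nil, zero_add] at h4
        exact h4
      · simp only [hd, if_false]
        exact Nat.zero_le _
    · exact Nat.zero_le _

private theorem B3_label (outB : RB → CS StB S J K → Bool) (ρ : Qry X S J K → Ans J K V)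
    (e : Env X S J K V StA StB RA RB) (η π : K)
    (cont : Env X S J K V StA StB RA RB → PT X S J K V Mg StA StB) (t : List Mg) (b : ℕ)
    (h : B3_H outB ρ cont b) :
    (((labelStep e η π cont).eve SV outB e.A e.B e.kn t).asked ρ).length ≤ b + 2 + debt e := by
  unfold labelStep
  simp only [Proc.eve, Comp.asked_bind, List.length_append, Comp.asked_ret, Comp.run_ret,
    List.length_nil, zero_add]
  rcases hT : e.T.tr η with _ | s
  · rcases hP : e.T.pr η with _ | ⟨o, P, r0⟩
    · exact (h (e.kna (.l η π) k0) t).trans (show b + debt e ≤ b + 2 + debt e by omega)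
    · have h3 := B3_obsB (Mg := Mg) ρ η (P ++ [π])
      have key : ∀ c : ℕ, c ≤ b + (debt e + 1) →
          ((obsB η (P ++ [π]) : Comp (Qry X S J K) (Ans J K V) (Pb Mg J V)).asked ρ).length + c ≤
            b + 2 + debt e := by
        intro c hc
        omega
      cases o with
      | true =>
        simp only [Proc.eve, Comp.asked_bind, List.length_append]
        refine key _ ?_
        generalize (obsB η (P ++ [π]) :
          Comp (Qry X S J K) (Ans J K V) (Pb Mg J V)).run ρ = m
        rcases m with x | (_ | _) | x | x
        · exact Nat.zero_le _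
        · exact (h ((e.kna (.l η π) k0).upA (bitL η π) (.bit false)) t).trans
            (show b + debt e ≤ b + (debt e + 1) by omega)
        · refine (h ((((e.kna (.l η π) k0).upA (bitL η π) (.bit true)).setPr η true
            (P ++ [π]) none).conf η true (.l η π)) t).trans ?_
          exact Nat.add_le_add_left (B3_setPr_app ((e.kna (.l η π) k0).upA (bitL η π)
            (.bit true : Pb Mg J V)) η true true P π none r0 hP) b
        · exact Nat.zero_le _
        · exact Nat.zero_le _
      | false =>
        simp only [Proc.eve, Comp.asked_bind, List.length_append]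
        refine key _ ?_
        generalize (obsB η (P ++ [π]) :
          Comp (Qry X S J K) (Ans J K V) (Pb Mg J V)).run ρ = m
        rcases m with x | (_ | _) | x | x
        · exact Nat.zero_le _
        · exact (h ((e.kna (.l η π) k0).upB (bitL η π) (.bit false)) t).trans
            (show b + debt e ≤ b + (debt e + 1) by omega)
        · refine (h ((((e.kna (.l η π) k0).upB (bitL η π) (.bit true)).setPr η false
            (P ++ [π]) none).conf η false (.l η π)) t).trans ?_
          exact Nat.add_le_add_left (B3_setPr_app ((e.kna (.l η π) k0).upB (bitL η π)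
            (.bit true : Pb Mg J V)) η false false P π none r0 hP) b
        · exact Nat.zero_le _
        · exact Nat.zero_le _
  · rcases hO : e.T.op s π with _ | j
    · simp only [hO]
      exact (B3_open outB ρ (desL e s π) (e.kna (.l η π) k0) s η π cont t b h).trans
        (show 1 + (b + debt e) ≤ b + 2 + debt e by omega)
    · simp only [hO]
      exact (h (e.kna (.l η π) k0) t).trans (show b + debt e ≤ b + 2 + debt e by omega)

private theorem B3_body (outB : RB → CS StB S J K → Bool) (ρ : Qry X S J K → Ans J K V)
    (F : S → List J → Comp X K V) (N L : ℕ)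
    (e : Env X S J K V StA StB RA RB)
    (cont : Env X S J K V StA StB RA RB → PT X S J K V Mg StA StB) (k : PT X S J K V Mg StA StB)
    (t : List Mg) (b : ℕ) (h : B3_H outB ρ cont b)
    (hk : ((k.eve SV outB e.A e.B e.kn t).asked ρ).length ≤ b + 2 + debt e) :
    (((body F N L e cont k).eve SV outB e.A e.B e.kn t).asked ρ).length ≤ b + 2 + debt e := by
  unfold body
  by_cases h1 : Lgt N L e
  · rw [if_pos h1]
    exact hk
  rw [if_neg h1]
  by_cases h2 : Gd SV cel e.A e.B e.kn
  · rw [if_neg (not_not.2 h2)]
    by_cases h3 : ∃ x, Hv SV cel N e.A e.B e.kn (.x x)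
    · rw [dif_pos h3]
      exact B3_x outB ρ e _ cont t b h
    rw [dif_neg h3]
    by_cases h4 : ∃ s, Hv SV cel N e.A e.B e.kn (.c s none)
    · rw [dif_pos h4]
      exact B3_key outB ρ e _ cont t b h
    rw [dif_neg h4]
    by_cases h5 : ∃ z : S × J × K, Hv SV cel N e.A e.B e.kn (.c z.1 (some z.2.1)) ∧
        (.c z.1 none, z.2.2) ∈ e.kn
    · rw [dif_pos h5]
      have h6 := B3_lcell outB ρ h5.choose.1 h5.choose.2.1 h5.choose.2.2
        (obsE h5.choose.1 (some h5.choose.2.1)) e cont t b h
      have h7 : ((obsE h5.choose.1 (some h5.choose.2.1) :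
        Comp (Qry X S J K) (Ans J K V) K).asked ρ).length = 1 := rfl
      rw [h7] at h6
      exact h6.trans (by omega)
    rw [dif_neg h5]
    by_cases h6 : ∃ d, cel d ∧ Hv SV cel N e.A e.B e.kn d
    · rw [if_pos h6]
      exact Nat.zero_le _
    rw [if_neg h6]
    rcases hp : e.pend with _ | η
    · simp only
      split_ifs with h7 h8
      · exact B3_handle outB ρ e _ cont t b h
      · exact B3_label outB ρ e _ _ cont t b h
      · exact Nat.zero_le _
    · exact B3_leak outB ρ F e η cont t b h
  · rw [if_pos h2]
    exact Nat.zero_le _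

private theorem B3_close (outB : RB → CS StB S J K → Bool) (ρ : Qry X S J K → Ans J K V)
    (F : S → List J → Comp X K V) (N L : ℕ)
    (k : ℕ → Env X S J K V StA StB RA RB → PT X S J K V Mg StA StB)
    (hk : ∀ j, B3_H outB ρ (k j) (2 * j)) :
    ∀ (j : ℕ), B3_H outB ρ (closeT F N L k j) (2 * j) := by
  intro j
  induction j with
  | zero =>
    intro e t
    unfold closeT
    split_ifs with h
    · exact hk 0 e t
    · exact Nat.zero_le _
  | succ j ih =>
    intro e t
    unfold closeT
    exact B3_body outB ρ F N L e _ _ t (2 * j) ih (hk (j + 1) e t)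

theorem build_asked (a : ℕ) (F : S → List J → Comp X K V) (G : V → List ℕ → Comp X K V) (N L : ℕ)
    (m0 : Mg) (outB : RB → CS B.St S J K → Bool) (ρ : Qry X S J K → Ans J K V) :
    ∀ (r : ℕ) (μ : Mg) (j : ℕ) (e : Env X S J K V A.St B.St RA RB) (t : List Mg),
      (((build A B a F G m0 N L r μ j e).eve SV outB e.A e.B e.kn t).asked ρ).length ≤
        2 * j + debt e := by
  intro r
  induction r with
  | zero =>
    intro μ j e t
    unfold build
    exact B3_close outB ρ F N L _ (fun j e t => Nat.zero_le _) j e t
  | succ r ih =>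
    intro μ j e t
    unfold build
    refine B3_close outB ρ F N L _ (fun j e t => ?_) j e t
    rcases t with _ | ⟨x, t⟩
    · exact Nat.zero_le _
    · refine B3_close outB ρ F N L _ (fun j e t => ?_) j (e.upA (stepC a F G A m0 e.T μ) (.msg x)) t
      rcases t with _ | ⟨y, t⟩
      · exact Nat.zero_le _
      · exact ih y j (e.upB (stepC a F G B m0 e.T x) (.msg y)) t

theorem debt_env0 (n : ℕ) (iA : RA → A.St) (iB : RB → B.St) :
    debt (env0 A B n iA iB : Env X S J K V A.St B.St RA RB) = 0 := by
  unfold debt
  exact Finset.sum_eq_zero fun η _ => rfl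

end Pool.Agent.Fe
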