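import Pool.Agent.Lib.MP_ae38e0_lc.Fe.Inv

set_option autoImplicit false

/-!
# The eavesdropper and the compiled parties follow the real execution
-/

namespace Pool.Agent.Fe

open Pool.Agent.LinOT Pool.Agent.Nbb Classical

/-- What holds in the execution with oracle `O` as long as nothing bad happens: `ownA`, `qA` belong
to the first party, `ownB`, `qB` to the second one, `W` are the known things, `pre` is the list of
all things touched so far (in order of time).  `ex s π`: the label `π` of the known key `s` may be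
known although its cell is not (inside of a step of the learning algorithm). -/
structure WI {X S J K V : Type} (F : S → List J → Comp X K V)
    (O : Th X S J K → K) (ownA ownB : Own S J K) (qA qB W pre : List (Th X S J K))
    (T : Tb S J K V) (pend : Option K) (ex : S → K → Prop) : Prop where
  all : ∀ d ∈ qA, d ∈ qB → d ∈ W
  cnA : Cn ownA qA O
  cnB : Cn ownB qB O
  pre_mem : ∀ d, d ∈ pre ↔ d ∈ qA ∨ d ∈ qB ∨ d ∈ W
  nice : Nice O pre
  tr1 : ∀ s, .c s none ∈ W → T.tr (O (.c s none)) = some s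
  tr2 : ∀ η s, T.tr η = some s → .c s none ∈ W ∧ O (.c s none) = η
  op1 : ∀ s j, .c s (some j) ∈ W → T.op s (O (.c s (some j))) = some j
  op2 : ∀ s π j, T.op s π = some j → .c s (some j) ∈ W ∧ O (.c s (some j)) = π
  wh : ∀ s j, .c s j ∈ W → .c s none ∈ W
  itW : ∀ s j, .c s j ∈ W → itm O s j ∈ W
  downW : ∀ η π, .l η π ∈ W → .h η ∈ W
  pub : ∀ s j, .c s none ∈ W → .l (O (.c s none)) (O (.c s (some j))) ∈ W →
    .c s (some j) ∈ W ∨ ex s (O (.c s (some j)))
  prA : ∀ s, .c s none ∈ qA → .c s none ∉ W → .h (O (.c s none)) ∈ W → ∃ P r,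
    T.pr (O (.c s none)) = some (true, P, r) ∧
    ∀ j, .l (O (.c s none)) (O (.c s (some j))) ∈ W → O (.c s (some j)) ∈ P
  prB : ∀ s, .c s none ∈ qB → .c s none ∉ W → .h (O (.c s none)) ∈ W → ∃ P r,
    T.pr (O (.c s none)) = some (false, P, r) ∧
    ∀ j, .l (O (.c s none)) (O (.c s (some j))) ∈ W → O (.c s (some j)) ∈ P
  pr1 : ∀ η o P r, T.pr η = some (o, P, r) → .h η ∈ W ∧ (∀ π ∈ P, .l η π ∈ W) ∧
    (r = none → pend = some η) ∧
    ∃ (s : S) (js : List J), O (.c s none) = η ∧ .c s none ∈ (if o then qA else qB) ∧ js.Nodup ∧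
      (∀ j ∈ js, .c s (some j) ∈ (if o then qA else qB)) ∧ P = lbs O s js ∧
      (r = none ∨ r = some ((F s js).run (fO O)))

section

variable {X S J K V Mg StA StB RA RB : Type} [Finite X] [Finite S] [Finite J] [Fintype K]
  [Nonempty K] [Fintype RA] [Fintype RB]

/-- The invariant for the execution `w` at the state `e`, with exceptions `ex`. -/
def WX (F : S → List J → Comp X K V) (e : Env X S J K V StA StB RA RB)
    (w : RA × RB × Orc (SV : Th X S J K → Finset K)) (pre : List (Th X S J K))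
    (ex : S → K → Prop) : Prop :=
  WI F w.2.2.1 (e.A.s w.1 w.2.2.1).own (e.B.s w.2.1 w.2.2.1).own (e.A.q w.1 w.2.2.1)
    (e.B.q w.2.1 w.2.2.1) (e.kn.map Prod.fst) pre e.T e.pend ex ∧
  w ∈ rl SV e.A e.B e.kn

/-- The invariant for the execution `w` at the state `e`. -/
def WE (F : S → List J → Comp X K V) (e : Env X S J K V StA StB RA RB)
    (w : RA × RB × Orc (SV : Th X S J K → Finset K)) (pre : List (Th X S J K)) : Prop :=
  WX F e w pre (fun _ _ => False)

/-- The claim: the observations are right, and at a leaf with code 0 the states of the parties are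
`sa` and `sb`. -/
def Fa (ρ : Qry X S J K → Ans J K V) (t : List Mg) (sa : StA) (sb : StB)
    (p : PT X S J K V Mg StA StB) (e : Env X S J K V StA StB RA RB)
    (w : RA × RB × Orc (SV : Th X S J K → Finset K)) : Prop :=
  p.faith ρ w.2.2.1 (e.A.s w.1 w.2.2.1) (e.B.s w.2.1 w.2.2.1) t ∧
  (p.lf SV e.A e.B e.kn w = 0 → (p.fin SV e.A e.B e.kn w).1.st = sa ∧
    (p.fin SV e.A e.B e.kn w).2.st = sb)

/-- Nothing bad happens in the process. -/
def Qt (p : PT X S J K V Mg StA StB) (e : Env X S J K V StA StB RA RB)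
    (w : RA × RB × Orc (SV : Th X S J K → Finset K)) (pre : List (Th X S J K)) : Prop :=
  p.hits SV cel e.A e.B e.kn w = 0 ∧ p.lf SV e.A e.B e.kn w ≠ 3 ∧
  ¬ Bad gK w.2.2.1 (pre ++ (p.flat (e.A.s w.1 w.2.2.1) (e.B.s w.2.1 w.2.2.1)).asked w.2.2.1)

/-- The states of the parties are the same, and what is known remains known. -/
def Sm (e e' : Env X S J K V StA StB RA RB)
    (w : RA × RB × Orc (SV : Th X S J K → Finset K)) : Prop :=
  e'.A.s w.1 w.2.2.1 = e.A.s w.1 w.2.2.1 ∧ e'.B.s w.2.1 w.2.2.1 = e.B.s w.2.1 w.2.2.1 ∧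
    ∀ d ∈ e.kn.map Prod.fst, d ∈ e'.kn.map Prod.fst

variable {F : S → List J → Comp X K V} {a n m N L : ℕ} {e : Env X S J K V StA StB RA RB}
  {w : RA × RB × Orc (SV : Th X S J K → Finset K)} {pre : List (Th X S J K)}
  {t : List Mg} {sa : StA} {sb : StB} {ex : S → K → Prop}

/-! ## Row F1: the invariants at learning steps and silent steps -/

private theorem F1_lc {X S J K V : Type} {F : S → List J → Comp X K V}
    {O : Th X S J K → K} {ownA ownB : Own S J K} {qA qB W pre : List (Th X S J K)}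
    {T : Tb S J K V} {pend : Option K} {ex : S → K → Prop}
    (h : WI F O ownA ownB qA qB W pre T pend ex) (s : S) (j : J) (hs : .c s none ∈ W)
    (hb : ¬ Bad gK O (pre ++ [.c s (some j), itm O s (some j)])) (W' : List (Th X S J K))
    (hW : ∀ d, d ∈ W' ↔ d ∈ W ∨ d = .c s (some j) ∨ d = itm O s (some j)) :
    WI F O ownA ownB qA qB W' (pre ++ [.c s (some j), itm O s (some j)])
      { T with op := fun s' π' => if s' = s ∧ π' = O (.c s (some j)) then some j else T.op s' π' }
      pend (fun s' π => ex s' π ∧ ¬ (s' = s ∧ π = O (.c s (some j)))) := by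
  have hn : Nice O (pre ++ [.c s (some j), itm O s (some j)]) :=
    nice_append h.nice (nice_cell O s (some j))
  have hp : ∀ d, d ∈ pre ++ [.c s (some j), itm O s (some j)] ↔
      d ∈ qA ∨ d ∈ qB ∨ d ∈ W' := by
    intro d
    rw [List.mem_append, h.pre_mem, hW]
    simp only [List.mem_cons, List.not_mem_nil, or_false]
    tauto
  have hpW : ∀ d, d ∈ W' → d ∈ pre ++ [.c s (some j), itm O s (some j)] := fun d hd =>
    (hp d).2 (.inr (.inr hd))
  have hc0 : ∀ s', .c s' none ∈ W' → .c s' none ∈ W := by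
    intro s' hd
    rcases (hW _).1 hd with hd | hd | hd
    · exact hd
    · simp at hd
    · simp [itm] at hd
  have hh : ∀ η, .h η ∈ W' → .h η ∈ W := by
    intro η hd
    rcases (hW _).1 hd with hd | hd | hd
    · exact hd
    · cases hd
    · simp [itm] at hd
  have hmono : ∀ d, d ∈ W → d ∈ W' := fun d hd => (hW d).2 (.inl hd)
  -- the label with the value of the cell
  have hu : ∀ s' j', .c s' (some j') ∈ pre ++ [.c s (some j), itm O s (some j)] →
      O (.c s' (some j')) = O (.c s (some j)) → s' = s ∧ j' = j := fun s' j' h1 h2 =>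
    uniq_l hb hn h1 (by simp) h2
  have hlab : ∀ s' j', .l (O (.c s' none)) (O (.c s' (some j'))) ∈ W' →
      O (.c s' (some j')) = O (.c s (some j)) → s' = s ∧ j' = j := fun s' j' h1 h2 =>
    hu s' j' (fresh_l hb (hpW _ h1) rfl) h2
  have hold : ∀ s' j', s' ≠ s → .l (O (.c s' none)) (O (.c s' (some j'))) ∈ W' →
      .l (O (.c s' none)) (O (.c s' (some j'))) ∈ W := by
    intro s' j' hne hd
    rcases (hW _).1 hd with hd' | hd' | hd'
    · exact hd'
    · cases hd'
    · exfalso
      simp only [itm, Th.l.injEq] at hd'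
      exact hne (hlab s' j' hd hd'.2).1
  constructor
  · exact fun d hdA hdB => hmono d (h.all d hdA hdB)
  · exact h.cnA
  · exact h.cnB
  · exact hp
  · exact hn
  · exact fun s' hs' => h.tr1 s' (hc0 s' hs')
  · intro η s' hT
    obtain ⟨h1, h2⟩ := h.tr2 η s' hT
    exact ⟨hmono _ h1, h2⟩
  · intro s' j' hd
    show (if s' = s ∧ O (.c s' (some j')) = O (.c s (some j)) then some j
      else T.op s' (O (.c s' (some j')))) = some j'
    split_ifs with hc
    · obtain ⟨-, h2⟩ := hu s' j' (hpW _ hd) hc.2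
      rw [h2]
    · rcases (hW _).1 hd with hd' | hd' | hd'
      · exact h.op1 s' j' hd'
      · exfalso
        simp only [Th.c.injEq, Option.some.injEq] at hd'
        exact hc ⟨hd'.1, by rw [hd'.1, hd'.2]⟩
      · simp [itm] at hd'
  · intro s' π j' hT
    change (if s' = s ∧ π = O (.c s (some j)) then some j else T.op s' π) = some j' at hT
    split_ifs at hT with hc
    · simp only [Option.some.injEq] at hT
      rw [hc.1, hc.2, ← hT]
      exact ⟨(hW _).2 (.inr (.inl rfl)), rfl⟩
    · obtain ⟨h1, h2⟩ := h.op2 s' π j' hT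
      exact ⟨hmono _ h1, h2⟩
  · intro s' j' hd
    rcases (hW _).1 hd with hd' | hd' | hd'
    · exact hmono _ (h.wh s' j' hd')
    · simp only [Th.c.injEq] at hd'
      rw [hd'.1]
      exact hmono _ hs
    · simp [itm] at hd'
  · intro s' j' hd
    rcases (hW _).1 hd with hd' | hd' | hd'
    · exact hmono _ (h.itW s' j' hd')
    · simp only [Th.c.injEq] at hd'
      rw [hd'.1, hd'.2]
      exact (hW _).2 (.inr (.inr rfl))
    · simp [itm] at hd'
  · intro η π hd
    rcases (hW _).1 hd with hd' | hd' | hd'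
    · exact hmono _ (h.downW η π hd')
    · cases hd'
    · simp only [itm, Th.l.injEq] at hd'
      rw [hd'.1]
      exact hmono _ (h.itW s none hs)
  · intro s' j' h1 h2
    by_cases hc : O (.c s' (some j')) = O (.c s (some j))
    · obtain ⟨h3, h4⟩ := hlab s' j' h2 hc
      left
      rw [h3, h4]
      exact (hW _).2 (.inr (.inl rfl))
    · rcases (hW _).1 h2 with hd' | hd' | hd'
      · rcases h.pub s' j' (hc0 s' h1) hd' with h3 | h3
        · exact .inl (hmono _ h3)
        · exact .inr ⟨h3, fun h4 => hc h4.2⟩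
      · cases hd'
      · exfalso
        simp only [itm, Th.l.injEq] at hd'
        exact hc hd'.2
  · intro s' hsA hsW hsh
    have hsW' : .c s' none ∉ W := fun h' => hsW (hmono _ h')
    have hne : s' ≠ s := fun he => hsW' (by rw [he]; exact hs)
    obtain ⟨P, r, h1, h2⟩ := h.prA s' hsA hsW' (hh _ hsh)
    exact ⟨P, r, h1, fun j' hj => h2 j' (hold s' j' hne hj)⟩
  · intro s' hsA hsW hsh
    have hsW' : .c s' none ∉ W := fun h' => hsW (hmono _ h')
    have hne : s' ≠ s := fun he => hsW' (by rw [he]; exact hs)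
    obtain ⟨P, r, h1, h2⟩ := h.prB s' hsA hsW' (hh _ hsh)
    exact ⟨P, r, h1, fun j' hj => h2 j' (hold s' j' hne hj)⟩
  · intro η o P r hT
    obtain ⟨h1, h2, h3⟩ := h.pr1 η o P r hT
    exact ⟨hmono _ h1, fun π hπ => hmono _ (h2 π hπ), h3⟩

private theorem F1_x {X S J K V : Type} {F : S → List J → Comp X K V}
    {O : Th X S J K → K} {ownA ownB : Own S J K} {qA qB W pre : List (Th X S J K)}
    {T : Tb S J K V} {pend : Option K} {ex : S → K → Prop}
    (h : WI F O ownA ownB qA qB W pre T pend ex) (x : X) (W' : List (Th X S J K))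
    (hW : ∀ d, d ∈ W' ↔ d ∈ W ∨ d = .x x) :
    WI F O ownA ownB qA qB W' (pre ++ [.x x]) T pend ex := by
  have hmono : ∀ d, d ∈ W → d ∈ W' := fun d hd => (hW d).2 (.inl hd)
  have hback : ∀ d, d ∈ W' → d ≠ .x x → d ∈ W := fun d hd hne =>
    ((hW d).1 hd).resolve_right hne
  constructor
  · exact fun d hdA hdB => hmono d (h.all d hdA hdB)
  · exact h.cnA
  · exact h.cnB
  · intro d
    rw [List.mem_append, h.pre_mem, hW, List.mem_singleton]
    tauto
  · exact nice_append h.nice (nice_of_no (by simp))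
  · exact fun s' hs' => h.tr1 s' (hback _ hs' (by simp))
  · intro η s' hT
    obtain ⟨h1, h2⟩ := h.tr2 η s' hT
    exact ⟨hmono _ h1, h2⟩
  · exact fun s' j' hd => h.op1 s' j' (hback _ hd (by simp))
  · intro s' π j' hT
    obtain ⟨h1, h2⟩ := h.op2 s' π j' hT
    exact ⟨hmono _ h1, h2⟩
  · exact fun s' j' hd => hmono _ (h.wh s' j' (hback _ hd (by simp)))
  · exact fun s' j' hd => hmono _ (h.itW s' j' (hback _ hd (by simp)))
  · exact fun η π hd => hmono _ (h.downW η π (hback _ hd (by simp)))
  · intro s' j' h1 h2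
    rcases h.pub s' j' (hback _ h1 (by simp)) (hback _ h2 (by simp)) with h3 | h3
    · exact .inl (hmono _ h3)
    · exact .inr h3
  · intro s' hsA hsW hsh
    obtain ⟨P, r, h1, h2⟩ := h.prA s' hsA (fun h' => hsW (hmono _ h')) (hback _ hsh (by simp))
    exact ⟨P, r, h1, fun j' hj => h2 j' (hback _ hj (by simp))⟩
  · intro s' hsA hsW hsh
    obtain ⟨P, r, h1, h2⟩ := h.prB s' hsA (fun h' => hsW (hmono _ h')) (hback _ hsh (by simp))
    exact ⟨P, r, h1, fun j' hj => h2 j' (hback _ hj (by simp))⟩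
  · intro η o P r hT
    obtain ⟨h1, h2, h3⟩ := h.pr1 η o P r hT
    exact ⟨hmono _ h1, fun π hπ => hmono _ (h2 π hπ), h3⟩

private theorem F1_rl (h : w ∈ rl SV e.A e.B e.kn) (d : Th X S J K) :
    w ∈ rl SV e.A e.B (e.kn ++ [(d, w.2.2.1 d)]) := by
  rw [mem_rl] at h ⊢
  refine ⟨h.1, h.2.1, ?_⟩
  intro y hy
  rw [List.mem_append, List.mem_singleton] at hy
  rcases hy with hy | hy
  · exact h.2.2 y hy
  · rw [hy]

theorem wx_mono (h : WX F e w pre ex) {ex' : S → K → Prop} (hx : ∀ s π, ex s π → ex' s π) :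
    WX F e w pre ex' :=
  ⟨{ h.1 with pub := fun s j h1 h2 => (h.1.pub s j h1 h2).imp id (hx _ _) }, h.2⟩

theorem wx_silA (h : WX F e w pre ex) (g : CS StA S J K → Pb Mg J V) (b : Pb Mg J V)
    (hb : g (e.A.s w.1 w.2.2.1) = b) :
    WX F (e.upA (fun c => .ret (c, g c)) b) w pre ex := by
  obtain ⟨h, hw⟩ := h
  have hq : (e.upA (fun c => .ret (c, g c)) b).A.q w.1 w.2.2.1 = e.A.q w.1 w.2.2.1 :=
    List.append_nil _
  refine ⟨?_, ?_⟩
  · rw [hq]
    exact h
  · rw [mem_rl] at hw ⊢
    exact ⟨⟨hw.1, hb⟩, hw.2⟩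

theorem wx_silB (h : WX F e w pre ex) (g : CS StB S J K → Pb Mg J V) (b : Pb Mg J V)
    (hb : g (e.B.s w.2.1 w.2.2.1) = b) :
    WX F (e.upB (fun c => .ret (c, g c)) b) w pre ex := by
  obtain ⟨h, hw⟩ := h
  have hq : (e.upB (fun c => .ret (c, g c)) b).B.q w.2.1 w.2.2.1 = e.B.q w.2.1 w.2.2.1 :=
    List.append_nil _
  refine ⟨?_, ?_⟩
  · rw [hq]
    exact h
  · rw [mem_rl] at hw ⊢
    exact ⟨hw.1, ⟨hw.2.1, hb⟩, hw.2.2⟩

theorem wx_x (x : X) (h : WX F e w pre ex) :
    WX F (e.kna (.x x) (w.2.2.1 (.x x))) w (pre ++ [.x x]) ex := by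
  obtain ⟨h, hw⟩ := h
  refine ⟨F1_x h x _ ?_, F1_rl hw _⟩
  intro d
  simp only [Env.kna, List.map_append, List.mem_append, List.map_cons,
      List.map_nil, List.mem_singleton]

/-- The cell `.c s (some j)` of a known key is learned. -/
theorem wx_lc (s : S) (j : J) (h : WX F e w pre ex) (hs : .c s none ∈ e.kn.map Prod.fst)
    (hb : ¬ Bad gK w.2.2.1 (pre ++ [.c s (some j), itm w.2.2.1 s (some j)])) :
    WX F (((e.kna (.c s (some j)) (w.2.2.1 (.c s (some j)))).kna (itm w.2.2.1 s (some j))
      (w.2.2.1 (itm w.2.2.1 s (some j)))).setOp s (w.2.2.1 (.c s (some j))) j) w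
      (pre ++ [.c s (some j), itm w.2.2.1 s (some j)])
      (fun s' π => ex s' π ∧ ¬ (s' = s ∧ π = w.2.2.1 (.c s (some j)))) := by
  obtain ⟨h, hw⟩ := h
  refine ⟨F1_lc h s j hs hb _ ?_, ?_⟩
  · intro d
    simp only [Env.setOp, Env.kna, List.map_append, List.mem_append, List.map_cons,
      List.map_nil, List.mem_singleton, or_assoc]
  · exact F1_rl (e := e.kna (.c s (some j)) (w.2.2.1 (.c s (some j)))) (F1_rl hw _) _

/-! ## Row F1k: a key is learned -/

/-- If `.c s none` was touched before then it is in `pre`; no other key of the list has the same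
handle (`uniq_h` for the new list), and the handle was not touched before if `.c s none` was not
touched (`fresh_h`). -/
theorem wx_key (s : S) (h : WE F e w pre) (hs : .c s none ∉ e.kn.map Prod.fst)
    (hb : ¬ Bad gK w.2.2.1 (pre ++ [.c s none, itm w.2.2.1 s none])) :
    e.T.tr (w.2.2.1 (.c s none)) = none ∧
    (∀ o P r, e.T.pr (w.2.2.1 (.c s none)) = some (o, P, r) → ∀ π ∈ P, ∃ j,
      (s, some j, π) ∈ (if o then (e.A.s w.1 w.2.2.1).own else (e.B.s w.2.1 w.2.2.1).own)) ∧
    WX F (((e.kna (.c s none) (w.2.2.1 (.c s none))).kna (itm w.2.2.1 s none)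
      (w.2.2.1 (itm w.2.2.1 s none))).setTr (w.2.2.1 (.c s none)) s) w
      (pre ++ [.c s none, itm w.2.2.1 s none])
      (fun s' π => s' = s ∧ ∃ o P r, e.T.pr (w.2.2.1 (.c s none)) = some (o, P, r) ∧ π ∈ P) := by
  obtain ⟨h, hw⟩ := h
  have hn : Nice w.2.2.1 (pre ++ [.c s none, itm w.2.2.1 s none]) :=
    nice_append h.nice (nice_cell _ s none)
  -- the known things
  have hW : ∀ d, d ∈ (((e.kna (.c s none) (w.2.2.1 (.c s none))).kna (itm w.2.2.1 s none)
      (w.2.2.1 (itm w.2.2.1 s none))).setTr (w.2.2.1 (.c s none)) s).kn.map Prod.fst ↔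
      d ∈ e.kn.map Prod.fst ∨ d = .c s none ∨ d = .h (w.2.2.1 (.c s none)) := by
    intro d
    simp only [Env.setTr, Env.kna, List.map_append, List.mem_append, List.map_cons,
      List.map_nil, List.mem_singleton, itm]
    tauto
  -- another key with the same handle
  have hu : ∀ s', .c s' none ∈ pre → w.2.2.1 (.c s' none) = w.2.2.1 (.c s none) → s' = s := by
    intro s' hs' he
    exact uniq_h hb hn (List.mem_append_left _ hs') (by simp) he
  have hpW : ∀ d, d ∈ e.kn.map Prod.fst → d ∈ pre := fun d hd => (h.pre_mem d).mpr (.inr (.inr hd))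
  have hpA : ∀ d, d ∈ e.A.q w.1 w.2.2.1 → d ∈ pre := fun d hd => (h.pre_mem d).mpr (.inl hd)
  have hpB : ∀ d, d ∈ e.B.q w.2.1 w.2.2.1 → d ∈ pre :=
    fun d hd => (h.pre_mem d).mpr (.inr (.inl hd))
  have hWc : ∀ s' j, .c s' (some j) ∈ (((e.kna (.c s none) (w.2.2.1 (.c s none))).kna
      (itm w.2.2.1 s none) (w.2.2.1 (itm w.2.2.1 s none))).setTr
      (w.2.2.1 (.c s none)) s).kn.map Prod.fst → .c s' (some j) ∈ e.kn.map Prod.fst := by
    intro s' j hd
    rcases (hW _).mp hd with hd | hd | hd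
    · exact hd
    · simp only [Th.c.injEq] at hd
      exact absurd hd.2 (by simp)
    · cases hd
  have hWl : ∀ η π, .l η π ∈ (((e.kna (.c s none) (w.2.2.1 (.c s none))).kna
      (itm w.2.2.1 s none) (w.2.2.1 (itm w.2.2.1 s none))).setTr
      (w.2.2.1 (.c s none)) s).kn.map Prod.fst → .l η π ∈ e.kn.map Prod.fst := by
    intro η π hd
    rcases (hW _).mp hd with hd | hd | hd
    · exact hd
    · cases hd
    · cases hd
  have hWn : ∀ s', s' ≠ s → .c s' none ∈ (((e.kna (.c s none) (w.2.2.1 (.c s none))).kna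
      (itm w.2.2.1 s none) (w.2.2.1 (itm w.2.2.1 s none))).setTr
      (w.2.2.1 (.c s none)) s).kn.map Prod.fst → .c s' none ∈ e.kn.map Prod.fst := by
    intro s' hne hd
    rcases (hW _).mp hd with hd | hd | hd
    · exact hd
    · simp only [Th.c.injEq] at hd
      exact absurd hd.1 hne
    · cases hd
  have hWh : ∀ s', .c s' none ∈ pre → s' ≠ s →
      .h (w.2.2.1 (.c s' none)) ∈ (((e.kna (.c s none) (w.2.2.1 (.c s none))).kna
      (itm w.2.2.1 s none) (w.2.2.1 (itm w.2.2.1 s none))).setTr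
      (w.2.2.1 (.c s none)) s).kn.map Prod.fst →
      .h (w.2.2.1 (.c s' none)) ∈ e.kn.map Prod.fst := by
    intro s' hp hne hd
    rcases (hW _).mp hd with hd | hd | hd
    · exact hd
    · cases hd
    · simp only [Th.h.injEq] at hd
      exact absurd (hu s' hp hd) hne
  have hcA : ∀ j, .c s (some j) ∈ e.A.q w.1 w.2.2.1 → .c s none ∈ e.A.q w.1 w.2.2.1 := by
    intro j hj
    exact (h.cnA.val _ (h.cnA.hd _ (h.cnA.keys s (some j) hj))).2
  have hcB : ∀ j, .c s (some j) ∈ e.B.q w.2.1 w.2.2.1 → .c s none ∈ e.B.q w.2.1 w.2.2.1 := by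
    intro j hj
    exact (h.cnB.val _ (h.cnB.hd _ (h.cnB.keys s (some j) hj))).2
  refine ⟨?_, ?_, ?_, ?_⟩
  · cases htr : e.T.tr (w.2.2.1 (.c s none)) with
    | none => rfl
    | some s' =>
      exfalso
      obtain ⟨h1, h2⟩ := h.tr2 _ _ htr
      have h3 := hu s' (hpW _ h1) h2
      subst h3
      exact hs h1
  · intro o P r hT π hπ
    obtain ⟨-, -, -, s', js, h1, h2, -, h3, h4, -⟩ := h.pr1 _ _ _ _ hT
    have hs' : s' = s := by
      refine hu s' ?_ h1
      cases o with
      | true => exact hpA _ (by simpa using h2)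
      | false => exact hpB _ (by simpa using h2)
    subst hs'
    subst h4
    simp only [lbs, List.mem_map] at hπ
    obtain ⟨j, hj, rfl⟩ := hπ
    refine ⟨j, ?_⟩
    have h5 := h3 j hj
    cases o with
    | true => exact h.cnA.keys _ _ (by simpa using h5)
    | false => exact h.cnB.keys _ _ (by simpa using h5)
  · constructor
    · intro d hdA hdB
      exact (hW d).mpr (.inl (h.all d hdA hdB))
    · exact h.cnA
    · exact h.cnB
    · intro d
      rw [hW, List.mem_append, List.mem_cons, List.mem_singleton, h.pre_mem]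
      simp only [Env.setTr, Env.kna, itm]
      tauto
    · exact hn
    · intro s' hs'
      by_cases hss : s' = s
      · subst hss
        simp only [Env.setTr, Env.kna, Function.update_self]
      · have hs'' := hWn s' hss hs'
        have hne : w.2.2.1 (.c s' none) ≠ w.2.2.1 (.c s none) :=
          fun he => hss (hu s' (hpW _ hs'') he)
        simp only [Env.setTr, Env.kna]
        rw [Function.update_of_ne hne]
        exact h.tr1 s' hs''
    · intro η u hu'
      simp only [Env.setTr, Env.kna] at hu'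
      by_cases hη : η = w.2.2.1 (.c s none)
      · subst hη
        rw [Function.update_self] at hu'
        simp only [Option.some.injEq] at hu'
        subst hu'
        exact ⟨(hW _).mpr (.inr (.inl rfl)), rfl⟩
      · rw [Function.update_of_ne hη] at hu'
        obtain ⟨h1, h2⟩ := h.tr2 η u hu'
        exact ⟨(hW _).mpr (.inl h1), h2⟩
    · intro s' j hd
      exact h.op1 s' j (hWc s' j hd)
    · intro s' π j hT
      obtain ⟨h1, h2⟩ := h.op2 s' π j hT
      exact ⟨(hW _).mpr (.inl h1), h2⟩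
    · intro s' j hd
      rcases (hW _).mp hd with hd | hd | hd
      · exact (hW _).mpr (.inl (h.wh s' j hd))
      · simp only [Th.c.injEq] at hd
        rw [hd.1]
        exact (hW _).mpr (.inr (.inl rfl))
      · cases hd
    · intro s' j hd
      rcases (hW _).mp hd with hd | hd | hd
      · exact (hW _).mpr (.inl (h.itW s' j hd))
      · simp only [Th.c.injEq] at hd
        obtain ⟨rfl, rfl⟩ := hd
        exact (hW _).mpr (.inr (.inr rfl))
      · cases hd
    · intro η π hd
      exact (hW _).mpr (.inl (h.downW η π (hWl η π hd)))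
    · intro s' j hd hl
      have hl' := hWl _ _ hl
      by_cases hss : s' = s
      · subst hss
        have h1 : .c s' (some j) ∈ pre ++ [.c s' none, itm w.2.2.1 s' none] :=
          fresh_l hb (List.mem_append_left _ (hpW _ hl')) rfl
        have h2 : .c s' (some j) ∈ pre := by
          rcases List.mem_append.mp h1 with h1 | h1
          · exact h1
          · simp [itm] at h1
        have hh := h.downW _ _ hl'
        rcases (h.pre_mem _).mp h2 with h3 | h3 | h3
        · obtain ⟨P, r, h4, h5⟩ := h.prA s' (hcA j h3) hs hh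
          exact .inr ⟨rfl, true, P, r, h4, h5 j hl'⟩
        · obtain ⟨P, r, h4, h5⟩ := h.prB s' (hcB j h3) hs hh
          exact .inr ⟨rfl, false, P, r, h4, h5 j hl'⟩
        · exact .inl ((hW _).mpr (.inl h3))
      · rcases h.pub s' j (hWn s' hss hd) hl' with h1 | h1
        · exact .inl ((hW _).mpr (.inl h1))
        · exact h1.elim
    · intro s' hsA hsW hsh
      have hne : s' ≠ s := fun he => hsW ((hW _).mpr (.inr (.inl (by rw [he]))))
      obtain ⟨P, r, h1, h2⟩ := h.prA s' hsA (fun h' => hsW ((hW _).mpr (.inl h')))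
        (hWh s' (hpA _ hsA) hne hsh)
      exact ⟨P, r, h1, fun j hj => h2 j (hWl _ _ hj)⟩
    · intro s' hsB hsW hsh
      have hne : s' ≠ s := fun he => hsW ((hW _).mpr (.inr (.inl (by rw [he]))))
      obtain ⟨P, r, h1, h2⟩ := h.prB s' hsB (fun h' => hsW ((hW _).mpr (.inl h')))
        (hWh s' (hpB _ hsB) hne hsh)
      exact ⟨P, r, h1, fun j hj => h2 j (hWl _ _ hj)⟩
    · intro η o P r hT
      obtain ⟨h1, h2, h3, h4⟩ := h.pr1 η o P r hT
      exact ⟨(hW _).mpr (.inl h1), fun π hπ => (hW _).mpr (.inl (h2 π hπ)), h3, h4⟩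
  · rw [mem_rl] at hw ⊢
    refine ⟨hw.1, hw.2.1, ?_⟩
    intro y hy
    simp only [Env.setTr, Env.kna, List.mem_append, List.mem_singleton] at hy
    rcases hy with (hy | hy) | hy
    · exact hw.2.2 y hy
    · rw [hy]
    · rw [hy]

/-! ## Row F1s: the steps which learn cells -/

private theorem F1s_item {O : Orc (SV : Th X S J K → Finset K)} {d : Th X S J K}
    (hd : ¬ cel d) : O.1 d = k0 := by
  have h := O.2 d
  cases d with
  | x x => exact absurd trivial hd
  | c s j => exact absurd trivial hd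
  | h η => simpa [SV] using h
  | l η π => simpa [SV] using h

private theorem F1s_fa_learn {ρ : Qry X S J K → Ans J K V} (q : Th X S J K)
    (o : Comp (Qry X S J K) (Ans J K V) K)
    (next : K → PT X S J K V Mg StA StB) (h1 : o.run ρ = w.2.2.1 q)
    (h2 : Fa ρ t sa sb (next (w.2.2.1 q)) (e.kna q (w.2.2.1 q)) w) :
    Fa ρ t sa sb (.learn q o next) e w :=
  ⟨⟨h1, h2.1⟩, h2.2⟩

private theorem F1s_qt_learn (q : Th X S J K)
    (o : Comp (Qry X S J K) (Ans J K V) K)
    (next : K → PT X S J K V Mg StA StB) (h : Qt (.learn q o next) e w pre) :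
    Qt (next (w.2.2.1 q)) (e.kna q (w.2.2.1 q)) w (pre ++ [q]) := by
  refine ⟨h.1, h.2.1, fun hb => h.2.2 ?_⟩
  rw [List.append_assoc] at hb
  exact hb

theorem xStep_fa (x : X) (cont : Env X S J K V StA StB RA RB → PT X S J K V Mg StA StB)
    (hg : GI a n m e) (h : WE F e w pre)
    (hc : ∀ (e' : Env X S J K V StA StB RA RB) pre', GI a n m e' → WE F e' w pre' → Sm e e' w →
      Qt (cont e') e' w pre' → Fa (wd a F w.2.2.1) t sa sb (cont e') e' w)
    (hQ : Qt (xStep e x cont) e w pre) :
    Fa (wd a F w.2.2.1) t sa sb (xStep e x cont) e w := by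
  refine F1s_fa_learn _ _ _ rfl ?_
  refine hc _ _ (gi_x hg x (w.2.2.1 (.x x))) (wx_x x h) ⟨rfl, rfl, ?_⟩ (F1s_qt_learn _ _ _ hQ)
  intro d hd
  simp only [Env.kna, List.map_append, List.mem_append]
  exact Or.inl hd

theorem lcell_fa (s : S) (j : J) (η : K) (o : Comp (Qry X S J K) (Ans J K V) K)
    (ho : o.run (wd a F w.2.2.1) = w.2.2.1 (.c s (some j))) (hη : w.2.2.1 (.c s none) = η)
    (hs : .c s none ∈ e.kn.map Prod.fst)
    (cont : Env X S J K V StA StB RA RB → PT X S J K V Mg StA StB)
    (hg : GI a n m e) (h : WX F e w pre ex)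
    (hc : ∀ (e' : Env X S J K V StA StB RA RB) pre', GI a n m e' →
      WX F e' w pre' (fun s' π => ex s' π ∧ ¬ (s' = s ∧ π = w.2.2.1 (.c s (some j)))) →
      Sm e e' w → Qt (cont e') e' w pre' → Fa (wd a F w.2.2.1) t sa sb (cont e') e' w)
    (hQ : Qt (lcell s j η o e cont) e w pre) :
    Fa (wd a F w.2.2.1) t sa sb (lcell s j η o e cont) e w := by
  subst hη
  refine F1s_fa_learn _ _ _ ho ?_
  have h1 := F1s_qt_learn _ _ _ hQ
  refine F1s_fa_learn _ _ _ ?_ ?_
  · exact (F1s_item (by simp [cel])).symm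
  have h2 := F1s_qt_learn _ _ _ h1
  rw [List.append_assoc] at h2
  refine hc _ _ (gi_lc hg s j (w.2.2.1 (.c s none)) (w.2.2.1 (.c s (some j)))
    (w.2.2.1 (.l (w.2.2.1 (.c s none)) (w.2.2.1 (.c s (some j)))))) (wx_lc s j h hs ?_)
    ⟨rfl, rfl, ?_⟩ h2
  · intro hb
    exact h2.2.2 (bad_append hb)
  · intro d hd
    simp only [Env.kna, Env.setOp, List.map_append, List.mem_append]
    exact Or.inl (Or.inl hd)

/-- What follows the answer. -/
private noncomputable def F1o_nx (o : Bool) (s : S) (η π : K) (l : List K)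
    (e : Env X S J K V StA StB RA RB)
    (cont : Env X S J K V StA StB RA RB → PT X S J K V Mg StA StB) (m : Pb Mg J V) :
    PT X S J K V Mg StA StB :=
  match m with
  | .ix (some j) => lcell s j η (.ret π) e fun e' => openL o s η l e' cont
  | .ix none => openL o s η l e cont
  | _ => .stop 4

private theorem F1o_stepA (s : S) (η π : K) (l : List K) (e : Env X S J K V StA StB RA RB)
    (cont : Env X S J K V StA StB RA RB → PT X S J K V Mg StA StB) :
    openL true s η (π :: l) e cont =
      .mA (.inr (obsD s π)) (tellC s π) fun m =>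
        F1o_nx true s η π l (e.upA (tellC s π) m) cont m := by
  rw [openL, if_pos rfl]
  rfl

private theorem F1o_stepB (s : S) (η π : K) (l : List K) (e : Env X S J K V StA StB RA RB)
    (cont : Env X S J K V StA StB RA RB → PT X S J K V Mg StA StB) :
    openL false s η (π :: l) e cont =
      .mB (.inr (obsD s π)) (tellC s π) fun m =>
        F1o_nx false s η π l (e.upB (tellC s π) m) cont m := by
  rw [openL, if_neg (by simp)]
  rfl

/-- The facts about the label `π` of `s`. -/
private theorem F1o_key {O : Th X S J K → K} {own : Own S J K} {q pre : List (Th X S J K)}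
    (hc : Cn own q O) (hq : ∀ d ∈ q, d ∈ pre) (hn : Nice O pre) (hb : ¬ Bad gK O pre) {s : S}
    {η π : K} (hl : .l η π ∈ pre) {j : J} (hj : lkL own s π = some j) :
    O (.c s (some j)) = π ∧ ∀ j', O (.c s (some j')) = π → j' = j := by
  have h1 := hc.val _ (lkL_some hj)
  have h2 : O (.c s (some j)) = π := h1.1.symm
  refine ⟨h2, fun j' hj' => ?_⟩
  exact (uniq_l hb hn (fresh_l hb hl hj') (hq _ h1.2) (hj'.trans h2.symm)).2

private theorem F1o_obs {a : ℕ} {O : Th X S J K → K} (s : S) (π : K) (i : Option J)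
    (hi : wd a F O (.dec s π) = .ind i) :
    (obsD s π : Comp (Qry X S J K) (Ans J K V) (Pb Mg J V)).run (wd a F O) = .ix i := by
  simp only [obsD, Comp.run_ask, Comp.run_ret, hi]

/-- The owner of the list `l` of labels of the known key `s` tells their indices.  `lkL` finds the
right index by `uniq_l`; the observation is right by `orc_dec_some`, where uniqueness of the index
comes from `fresh_l` and `uniq_l` (the items `.l η π` are in `W`). -/
theorem openL_fa (o : Bool) (s : S) (η : K) (hη : w.2.2.1 (.c s none) = η)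
    (cont : Env X S J K V StA StB RA RB → PT X S J K V Mg StA StB) :
    ∀ (l : List K) (e : Env X S J K V StA StB RA RB) (pre : List (Th X S J K)), GI a n m e →
      WX F e w pre (fun s' π => s' = s ∧ π ∈ l) → .c s none ∈ e.kn.map Prod.fst →
      (∀ π ∈ l, .l η π ∈ e.kn.map Prod.fst ∧ ∃ j, (s, some j, π) ∈
        (if o then (e.A.s w.1 w.2.2.1).own else (e.B.s w.2.1 w.2.2.1).own)) →
      (∀ (e' : Env X S J K V StA StB RA RB) pre', GI a n m e' → WE F e' w pre' → Sm e e' w →
        Qt (cont e') e' w pre' → Fa (wd a F w.2.2.1) t sa sb (cont e') e' w) →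
      Qt (openL o s η l e cont) e w pre →
      Fa (wd a F w.2.2.1) t sa sb (openL o s η l e cont) e w := by
  intro l
  induction l with
  | nil =>
    intro e pre hg h hs hl hc hQ
    exact hc e pre hg (wx_mono h (fun s' π' hp => absurd hp.2 (by simp)))
      ⟨rfl, rfl, fun d hd => hd⟩ hQ
  | cons π l ih =>
    intro e pre hg h hs hl hc hQ
    have hb : ¬ Bad gK w.2.2.1 pre := fun hb => hQ.2.2 (bad_append hb)
    obtain ⟨hlπ, j0, hj0⟩ := hl π (List.mem_cons_self)
    have hlpre : .l η π ∈ pre := (h.1.pre_mem _).2 (Or.inr (Or.inr hlπ))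
    -- the rest, once the answer is known
    have hrest : ∀ (e1 : Env X S J K V StA StB RA RB) (j : J), GI a n m e1 →
        WX F e1 w pre (fun s' π' => s' = s ∧ π' ∈ π :: l) → Sm e e1 w →
        w.2.2.1 (.c s (some j)) = π →
        Qt (lcell s j η (.ret π) e1 fun e' => openL o s η l e' cont) e1 w pre →
        Fa (wd a F w.2.2.1) t sa sb (lcell s j η (.ret π) e1 fun e' => openL o s η l e' cont)
          e1 w := by
      intro e1 j hg1 h1 hs1 hj hQ1
      refine lcell_fa s j η (.ret π) ?_ hη (hs1.2.2 _ hs) (fun e' => openL o s η l e' cont) hg1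
        h1 ?_ hQ1
      · rw [Comp.run_ret, hj]
      · intro e2 pre2 hg2 h2 hs2 hQ2
        have hs12 : Sm e e2 w := ⟨hs2.1.trans hs1.1, hs2.2.1.trans hs1.2.1,
          fun d hd => hs2.2.2 _ (hs1.2.2 _ hd)⟩
        refine ih e2 pre2 hg2 (wx_mono h2 ?_) (hs12.2.2 _ hs) ?_ ?_ hQ2
        · intro s' π' hp
          rw [hj] at hp
          refine ⟨hp.1.1, ?_⟩
          rcases List.mem_cons.1 hp.1.2 with h3 | h3
          · exact absurd ⟨hp.1.1, h3⟩ hp.2
          · exact h3
        · intro π' hπ'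
          obtain ⟨h3, h4⟩ := hl π' (List.mem_cons_of_mem _ hπ')
          refine ⟨hs12.2.2 _ h3, ?_⟩
          rw [hs12.1, hs12.2.1]
          exact h4
        · intro e3 pre3 hg3 h3 hs3 hQ3
          exact hc e3 pre3 hg3 h3 ⟨hs3.1.trans hs12.1, hs3.2.1.trans hs12.2.1,
            fun d hd => hs3.2.2 _ (hs12.2.2 _ hd)⟩ hQ3
    cases o with
    | true =>
      rw [F1o_stepA] at hQ ⊢
      obtain ⟨q1, q2, q3⟩ := hQ
      rw [if_pos rfl] at hj0
      cases hA : lkL (e.A.s w.1 w.2.2.1).own s π with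
      | none => exact absurd hj0 (lkL_none hA j0)
      | some j =>
        obtain ⟨hj, hju⟩ := F1o_key h.1.cnA (fun d hd => (h.1.pre_mem _).2 (Or.inl hd))
          h.1.nice hb hlpre hA
        have hobs := F1o_obs (Mg := Mg) (F := F) (a := a) s π (some j)
          (orc_dec_some a F w.2.2.1 s π j hj hju)
        have hgi : GI a n m (e.upA (tellC s π) (.ix (some j) : Pb Mg J V)) :=
          gi_silA hg (fun c => .ix (lkL c.own s π)) (.ix (some j))
        have hwx : WX F (e.upA (tellC s π) (.ix (some j) : Pb Mg J V)) w pre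
            (fun s' π' => s' = s ∧ π' ∈ π :: l) :=
          wx_silA h (fun c => .ix (lkL c.own s π)) (.ix (some j)) (by rw [hA])
        have hres : Proc.rsA (SV : Th X S J K → Finset K)
            (tellC s π : CS StA S J K → Comp (Th X S J K) K (CS StA S J K × Pb Mg J V)) e.A w =
            .ix (some j) := by
          show (Pb.ix (lkL (e.A.s w.1 w.2.2.1).own s π) : Pb Mg J V) = _
          rw [hA]
        have hrun : ((tellC s π (e.A.s w.1 w.2.2.1) :
            Comp (Th X S J K) K (CS StA S J K × Pb Mg J V)).run w.2.2.1).2 = .ix (some j) := hres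
        simp only [Proc.hits] at q1
        have q1' := (Nat.add_eq_zero_iff.mp q1).2
        simp only [Proc.lf] at q2
        rw [hres] at q1' q2
        have hQ1 : Qt (F1o_nx true s η π l (e.upA (tellC s π) (.ix (some j) : Pb Mg J V)) cont
            (.ix (some j))) (e.upA (tellC s π) (.ix (some j) : Pb Mg J V)) w pre := by
          refine ⟨q1', q2, ?_⟩
          intro hb'
          apply q3
          have e1 : (tellC s π (e.A.s w.1 w.2.2.1) :
            Comp (Th X S J K) K (CS StA S J K × Pb Mg J V)) =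
            .ret (e.A.s w.1 w.2.2.1, .ix (some j)) := by
            show Comp.ret (e.A.s w.1 w.2.2.1, Pb.ix (lkL (e.A.s w.1 w.2.2.1).own s π)) = _
            rw [hA]
          rw [Proc.flat, e1]
          exact hb'
        have hF := hrest _ j hgi hwx ⟨rfl, rfl, fun d hd => hd⟩ hj hQ1
        refine ⟨⟨?_, ?_⟩, ?_⟩
        · rw [hobs, hrun]
        · rw [hrun]
          exact hF.1
        · simp only [Proc.lf, Proc.fin]
          rw [hres]
          exact hF.2
    | false =>
      rw [F1o_stepB] at hQ ⊢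
      obtain ⟨q1, q2, q3⟩ := hQ
      rw [if_neg (by simp)] at hj0
      cases hA : lkL (e.B.s w.2.1 w.2.2.1).own s π with
      | none => exact absurd hj0 (lkL_none hA j0)
      | some j =>
        obtain ⟨hj, hju⟩ := F1o_key h.1.cnB (fun d hd => (h.1.pre_mem _).2 (Or.inr (Or.inl hd)))
          h.1.nice hb hlpre hA
        have hobs := F1o_obs (Mg := Mg) (F := F) (a := a) s π (some j)
          (orc_dec_some a F w.2.2.1 s π j hj hju)
        have hgi : GI a n m (e.upB (tellC s π) (.ix (some j) : Pb Mg J V)) :=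
          gi_silB hg (fun c => .ix (lkL c.own s π)) (.ix (some j))
        have hwx : WX F (e.upB (tellC s π) (.ix (some j) : Pb Mg J V)) w pre
            (fun s' π' => s' = s ∧ π' ∈ π :: l) :=
          wx_silB h (fun c => .ix (lkL c.own s π)) (.ix (some j)) (by rw [hA])
        have hres : Proc.rsB (SV : Th X S J K → Finset K)
            (tellC s π : CS StB S J K → Comp (Th X S J K) K (CS StB S J K × Pb Mg J V)) e.B w =
            .ix (some j) := by
          show (Pb.ix (lkL (e.B.s w.2.1 w.2.2.1).own s π) : Pb Mg J V) = _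
          rw [hA]
        have hrun : ((tellC s π (e.B.s w.2.1 w.2.2.1) :
            Comp (Th X S J K) K (CS StB S J K × Pb Mg J V)).run w.2.2.1).2 = .ix (some j) := hres
        simp only [Proc.hits] at q1
        have q1' := (Nat.add_eq_zero_iff.mp q1).2
        simp only [Proc.lf] at q2
        rw [hres] at q1' q2
        have hQ1 : Qt (F1o_nx false s η π l (e.upB (tellC s π) (.ix (some j) : Pb Mg J V)) cont
            (.ix (some j))) (e.upB (tellC s π) (.ix (some j) : Pb Mg J V)) w pre := by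
          refine ⟨q1', q2, ?_⟩
          intro hb'
          apply q3
          have e1 : (tellC s π (e.B.s w.2.1 w.2.2.1) :
            Comp (Th X S J K) K (CS StB S J K × Pb Mg J V)) =
            .ret (e.B.s w.2.1 w.2.2.1, .ix (some j)) := by
            show Comp.ret (e.B.s w.2.1 w.2.2.1, Pb.ix (lkL (e.B.s w.2.1 w.2.2.1).own s π)) = _
            rw [hA]
          rw [Proc.flat, e1]
          exact hb'
        have hF := hrest _ j hgi hwx ⟨rfl, rfl, fun d hd => hd⟩ hj hQ1
        refine ⟨⟨?_, ?_⟩, ?_⟩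
        · rw [hobs, hrun]
        · rw [hrun]
          exact hF.1
        · simp only [Proc.lf, Proc.fin]
          rw [hres]
          exact hF.2

private theorem F1y_item {O : Orc (SV : Th X S J K → Finset K)} {d : Th X S J K}
    (hd : ¬ cel d) : O.1 d = k0 := by
  have h := O.2 d
  cases d with
  | x x => exact absurd trivial hd
  | c s j => exact absurd trivial hd
  | h η => simpa [SV] using h
  | l η π => simpa [SV] using h

private theorem F1y_fa_learn {ρ : Qry X S J K → Ans J K V} (q : Th X S J K)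
    (o : Comp (Qry X S J K) (Ans J K V) K)
    (next : K → PT X S J K V Mg StA StB) (h1 : o.run ρ = w.2.2.1 q)
    (h2 : Fa ρ t sa sb (next (w.2.2.1 q)) (e.kna q (w.2.2.1 q)) w) :
    Fa ρ t sa sb (.learn q o next) e w :=
  ⟨⟨h1, h2.1⟩, h2.2⟩

private theorem F1y_qt_learn (q : Th X S J K)
    (o : Comp (Qry X S J K) (Ans J K V) K)
    (next : K → PT X S J K V Mg StA StB) (h : Qt (.learn q o next) e w pre) :
    Qt (next (w.2.2.1 q)) (e.kna q (w.2.2.1 q)) w (pre ++ [q]) := by
  refine ⟨h.1, h.2.1, fun hb => h.2.2 ?_⟩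
  rw [List.append_assoc] at hb
  exact hb

theorem keyStep_fa (s : S) (hs : .c s none ∉ e.kn.map Prod.fst)
    (cont : Env X S J K V StA StB RA RB → PT X S J K V Mg StA StB)
    (hg : GI a n m e) (h : WE F e w pre)
    (hc : ∀ (e' : Env X S J K V StA StB RA RB) pre', GI a n m e' → WE F e' w pre' → Sm e e' w →
      Qt (cont e') e' w pre' → Fa (wd a F w.2.2.1) t sa sb (cont e') e' w)
    (hQ : Qt (keyStep e s cont) e w pre) :
    Fa (wd a F w.2.2.1) t sa sb (keyStep e s cont) e w := by
  obtain ⟨η, hη⟩ : ∃ η, η = w.2.2.1 (.c s none) := ⟨_, rfl⟩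
  obtain ⟨e1, he1⟩ : ∃ e1, e1 = (((e.kna (.c s none) η).kna (.h η) (w.2.2.1 (.h η))).setTr η s) :=
    ⟨_, rfl⟩
  have hsm : Sm e e1 w := by
    subst he1
    refine ⟨rfl, rfl, ?_⟩
    intro d hd
    simp only [Env.kna, Env.setTr, List.map_append, List.mem_append]
    exact Or.inl (Or.inl hd)
  have hg1 : GI a n m e1 := by
    subst he1
    exact gi_key hg s η _
  have h2 : Qt (match e.T.tr η, e.T.pr η with
    | none, some (o, P, _) => openL o s η P e1 cont
    | _, _ => cont e1) e1 w (pre ++ [.c s none, itm w.2.2.1 s none]) := by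
    have h2 := F1y_qt_learn _ _ _ (F1y_qt_learn _ _ _ hQ)
    rw [List.append_assoc] at h2
    subst hη
    subst he1
    exact h2
  have hb : ¬ Bad gK w.2.2.1 (pre ++ [.c s none, itm w.2.2.1 s none]) := fun hb =>
    h2.2.2 (bad_append hb)
  obtain ⟨k1, k2, k3⟩ := wx_key s h hs hb
  rw [← hη] at k1 k2 k3
  have hit : itm w.2.2.1 s none = .h η := by
    subst hη
    rfl
  have k4 : WX F e1 w (pre ++ [.c s none, itm w.2.2.1 s none])
      (fun s' π => s' = s ∧ ∃ o P r, e.T.pr η = some (o, P, r) ∧ π ∈ P) := by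
    subst he1
    have := k3
    rw [hit] at this ⊢
    exact this
  suffices hmain : Fa (wd a F w.2.2.1) t sa sb (match e.T.tr η, e.T.pr η with
    | none, some (o, P, _) => openL o s η P e1 cont
    | _, _ => cont e1) e1 w by
    refine F1y_fa_learn _ _ _ rfl (F1y_fa_learn _ _ _ (F1y_item (by simp [cel])).symm ?_)
    subst hη
    subst he1
    exact hmain
  clear k3
  rw [k1] at h2 ⊢
  rcases hp : e.T.pr η with _ | ⟨o, P, r⟩
  · rw [hp] at h2
    refine hc _ _ hg1 (wx_mono k4 ?_) hsm h2
    rintro s' π ⟨-, o, P, r, h3, -⟩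
    rw [hp] at h3
    exact absurd h3 (by simp)
  · rw [hp] at h2
    refine openL_fa o s η hη.symm cont P e1 _ hg1 (wx_mono k4 ?_) ?_ ?_ ?_ h2
    · rintro s' π ⟨h1, o', P', r', h3, h4⟩
      rw [hp] at h3
      simp only [Option.some.injEq, Prod.mk.injEq] at h3
      refine ⟨h1, ?_⟩
      rw [h3.2.1]
      exact h4
    · subst he1
      simp [Env.kna, Env.setTr]
    · intro π hπ
      refine ⟨hsm.2.2 _ ((h.1.pr1 η o P r hp).2.1 π hπ), ?_⟩
      rw [hsm.1, hsm.2.1]
      exact k2 o P r hp π hπ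
    · intro e' pre' g1 g2 g3 g4
      refine hc e' pre' g1 g2 ⟨g3.1.trans hsm.1, g3.2.1.trans hsm.2.1, ?_⟩ g4
      intro d hd
      exact g3.2.2 d (hsm.2.2 d hd)

/-! ## Row F2: handles.  The evaluation `ev η []` succeeds iff some key has the handle `η`; by
`fresh_h` (`.h η` is learned) such a key is in `pre`, it is not known (`itW`), so it is a key of one
of the parties: it succeeds iff one of the bits is true. -/

/-- The party owns the handle iff it has computed it. -/
private theorem F2_own {St : Type} {η : K} {c : CS St S J K} :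
    ownH η c = true ↔ ∃ s, (s, none, η) ∈ c.own := by
  unfold ownH
  cases hl : lkH c.own η with
  | none =>
    simp only [Option.isSome_none, Bool.false_eq_true, false_iff, not_exists]
    exact fun s => lkH_none hl s
  | some s =>
    simp only [Option.isSome_some, true_iff]
    exact ⟨s, lkH_some hl⟩

/-- The state of the public after the two answers. -/
private noncomputable def F2_env (e : Env X S J K V StA StB RA RB) (η : K) (v : K)
    (m1 m2 : Pb Mg J V) : Env X S J K V StA StB RA RB :=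
  ((e.kna (.h η) v).upA (bitH η) m1).upB (bitH η) m2

private theorem F2_W (η : K) (v : K) (m1 m2 : Pb Mg J V) (d : Th X S J K) :
    d ∈ (F2_env e η v m1 m2).kn.map Prod.fst ↔ d ∈ e.kn.map Prod.fst ∨ d = .h η := by
  simp only [F2_env, Env.upA, Env.upB, Env.kna, List.map_append, List.mem_append, List.map_cons,
    List.map_nil, List.mem_singleton]

private theorem F2_rl (η : K) (v : K) (m1 m2 : Pb Mg J V)
    (hw : w ∈ rl SV e.A e.B e.kn) (hv : w.2.2.1 (.h η) = v)
    (h1 : (.bit (ownH η (e.A.s w.1 w.2.2.1)) : Pb Mg J V) = m1)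
    (h2 : (.bit (ownH η (e.B.s w.2.1 w.2.2.1)) : Pb Mg J V) = m2) :
    w ∈ rl SV (F2_env e η v m1 m2).A (F2_env e η v m1 m2).B (F2_env e η v m1 m2).kn := by
  rw [mem_rl] at hw ⊢
  refine ⟨⟨hw.1, h1⟩, ⟨hw.2.1, h2⟩, ?_⟩
  intro y hy
  simp only [F2_env, Env.upA, Env.upB, Env.kna, List.mem_append, List.mem_singleton] at hy
  rcases hy with hy | hy
  · exact hw.2.2 y hy
  · rw [hy]
    exact hv

/-- The invariant after the two answers, for a table `T` which contains what is needed. -/
private theorem F2_wi (η : K) (hη : .h η ∉ e.kn.map Prod.fst) (v : K) (m1 m2 : Pb Mg J V)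
    (T : Tb S J K V) (pend : Option K) (h : WE F e w pre) (hT : T.tr = e.T.tr)
    (hTo : T.op = e.T.op) (hTn : ∀ η', η' ≠ η → T.pr η' = e.T.pr η')
    (hA : ownH η (e.A.s w.1 w.2.2.1) = true → ∃ r, T.pr η = some (true, [], r))
    (hB : ownH η (e.B.s w.2.1 w.2.2.1) = true → ∃ r, T.pr η = some (false, [], r))
    (hp : ∀ η' o P, T.pr η' = some (o, P, none) → pend = some η')
    (hpr : ∀ o P r, T.pr η = some (o, P, r) → P = [] ∧ r = none ∧
      (if o then ownH η (e.A.s w.1 w.2.2.1) = true else ownH η (e.B.s w.2.1 w.2.2.1) = true)) :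
    WI F w.2.2.1 ((F2_env e η v m1 m2).A.s w.1 w.2.2.1).own
      ((F2_env e η v m1 m2).B.s w.2.1 w.2.2.1).own ((F2_env e η v m1 m2).A.q w.1 w.2.2.1)
      ((F2_env e η v m1 m2).B.q w.2.1 w.2.2.1) ((F2_env e η v m1 m2).kn.map Prod.fst)
      (pre ++ [.h η]) T pend (fun _ _ => False) := by
  obtain ⟨h, -⟩ := h
  have hqA : (F2_env e η v m1 m2).A.q w.1 w.2.2.1 = e.A.q w.1 w.2.2.1 :=
    List.append_nil _
  have hqB : (F2_env e η v m1 m2).B.q w.2.1 w.2.2.1 = e.B.q w.2.1 w.2.2.1 :=
    List.append_nil _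
  have hW := F2_W (e := e) η v m1 m2
  have hW1 : ∀ s j, .c s j ∈ (F2_env e η v m1 m2).kn.map Prod.fst →
      .c s j ∈ e.kn.map Prod.fst := by
    intro s j hs
    rcases (hW _).mp hs with hs | hs
    · exact hs
    · cases hs
  have hW3 : ∀ η' π, .l η' π ∈ (F2_env e η v m1 m2).kn.map Prod.fst →
      .l η' π ∈ e.kn.map Prod.fst := by
    intro η π hs
    rcases (hW _).mp hs with hs | hs
    · exact hs
    · cases hs
  rw [hqA, hqB]
  constructor
  · intro d hdA hdB
    exact (hW d).mpr (.inl (h.all d hdA hdB))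
  · exact h.cnA
  · exact h.cnB
  · intro d
    rw [hW, List.mem_append, List.mem_singleton, h.pre_mem]
    tauto
  · exact nice_append h.nice (nice_of_no (by simp))
  · intro s hs
    rw [hT]
    exact h.tr1 s (hW1 s _ hs)
  · intro η u hu
    rw [hT] at hu
    obtain ⟨h1, h2⟩ := h.tr2 η u hu
    exact ⟨(hW _).mpr (.inl h1), h2⟩
  · intro s j hs
    rw [hTo]
    exact h.op1 s j (hW1 s _ hs)
  · intro s π j hj
    rw [hTo] at hj
    obtain ⟨h1, h2⟩ := h.op2 s π j hj
    exact ⟨(hW _).mpr (.inl h1), h2⟩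
  · exact fun s j hs => (hW _).mpr (.inl (h.wh s j (hW1 s j hs)))
  · exact fun s j hs => (hW _).mpr (.inl (h.itW s j (hW1 s j hs)))
  · exact fun η π hd => (hW _).mpr (.inl (h.downW η π (hW3 η π hd)))
  · intro s j hs hl
    rcases h.pub s j (hW1 _ _ hs) (hW3 _ _ hl) with h' | h'
    · exact .inl ((hW _).mpr (.inl h'))
    · exact .inr h'
  · intro s hsA hsW hsh
    by_cases hs : w.2.2.1 (.c s none) = η
    · have hu := h.cnA.keys s none hsA
      rw [hs] at hu
      obtain ⟨r, hr⟩ := hA (F2_own.mpr ⟨s, hu⟩)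
      refine ⟨[], r, by rw [hs]; exact hr, ?_⟩
      intro j hj
      exact absurd (h.downW _ _ (hW3 _ _ hj)) (by rw [hs]; exact hη)
    · have hsh' : .h (w.2.2.1 (.c s none)) ∈ e.kn.map Prod.fst := by
        rcases (hW _).mp hsh with hd | hd
        · exact hd
        · exact absurd (by simpa using hd) hs
      obtain ⟨P, r, h1, h2⟩ := h.prA s hsA (fun h' => hsW ((hW _).mpr (.inl h'))) hsh'
      refine ⟨P, r, by rw [hTn _ hs]; exact h1, fun j hj => h2 j (hW3 _ _ hj)⟩
  · intro s hsA hsW hsh
    by_cases hs : w.2.2.1 (.c s none) = η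
    · have hu := h.cnB.keys s none hsA
      rw [hs] at hu
      obtain ⟨r, hr⟩ := hB (F2_own.mpr ⟨s, hu⟩)
      refine ⟨[], r, by rw [hs]; exact hr, ?_⟩
      intro j hj
      exact absurd (h.downW _ _ (hW3 _ _ hj)) (by rw [hs]; exact hη)
    · have hsh' : .h (w.2.2.1 (.c s none)) ∈ e.kn.map Prod.fst := by
        rcases (hW _).mp hsh with hd | hd
        · exact hd
        · exact absurd (by simpa using hd) hs
      obtain ⟨P, r, h1, h2⟩ := h.prB s hsA (fun h' => hsW ((hW _).mpr (.inl h'))) hsh'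
      refine ⟨P, r, by rw [hTn _ hs]; exact h1, fun j hj => h2 j (hW3 _ _ hj)⟩
  · intro η' o P r hT'
    by_cases hη' : η' = η
    · subst hη'
      obtain ⟨rfl, rfl, hown⟩ := hpr o P r hT'
      refine ⟨(hW _).mpr (.inr rfl), fun π hπ => absurd hπ List.not_mem_nil, fun _ => hp _ _ _ hT', ?_⟩
      cases o with
      | true =>
        obtain ⟨s, hs⟩ := F2_own.mp (by simpa using hown)
        obtain ⟨h1, h2⟩ := h.cnA.val _ hs
        exact ⟨s, [], h1.symm, h2, List.nodup_nil, fun j hj => absurd hj List.not_mem_nil,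
          rfl, .inl rfl⟩
      | false =>
        obtain ⟨s, hs⟩ := F2_own.mp (by simpa using hown)
        obtain ⟨h1, h2⟩ := h.cnB.val _ hs
        exact ⟨s, [], h1.symm, h2, List.nodup_nil, fun j hj => absurd hj List.not_mem_nil,
          rfl, .inl rfl⟩
    · have hT'' := hT'
      rw [hTn _ hη'] at hT''
      obtain ⟨h1, h0, h2, h3⟩ := h.pr1 η' o P r hT''
      refine ⟨(hW _).mpr (.inl h1), fun π hπ => (hW _).mpr (.inl (h0 π hπ)), ?_, h3⟩
      intro hr
      rw [hr] at hT'
      exact hp _ _ _ hT'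

/-- The evaluation with no labels: it succeeds iff one of the parties has a key with the handle. -/
private theorem F2_obs (η : K) (hη : .h η ∉ e.kn.map Prod.fst) (h : WE F e w pre)
    (hb : ¬ Bad gK w.2.2.1 (pre ++ [.h η])) :
    (obsB η [] : Comp (Qry X S J K) (Ans J K V) (Pb Mg J V)).run (wd a F w.2.2.1) =
      .bit (ownH η (e.A.s w.1 w.2.2.1) || ownH η (e.B.s w.2.1 w.2.2.1)) := by
  obtain ⟨h, -⟩ := h
  have hn : Nice w.2.2.1 (pre ++ [.h η]) := nice_append h.nice (nice_of_no (by simp))
  have hin : ∀ s, w.2.2.1 (.c s none) = η → .c s none ∈ pre := by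
    intro s hs
    have := fresh_h hb (s := s) (η := η) (by simp) hs
    simpa using this
  have hown : ∀ s, w.2.2.1 (.c s none) = η →
      ownH η (e.A.s w.1 w.2.2.1) = true ∨ ownH η (e.B.s w.2.1 w.2.2.1) = true := by
    intro s hs
    rcases (h.pre_mem _).mp (hin s hs) with hq | hq | hq
    · have hu := h.cnA.keys s none hq
      rw [hs] at hu
      exact .inl (F2_own.mpr ⟨s, hu⟩)
    · have hu := h.cnB.keys s none hq
      rw [hs] at hu
      exact .inr (F2_own.mpr ⟨s, hu⟩)
    · have hi := h.itW s none hq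
      simp only [itm] at hi
      rw [hs] at hi
      exact absurd hi hη
  by_cases hex : ∃ s, w.2.2.1 (.c s none) = η
  · obtain ⟨s, hs⟩ := hex
    have hev := orc_ev_some a F w.2.2.1 η [] s [] (Nat.zero_le _) hs rfl (by
      intro s' hs'
      refine uniq_h hb hn (List.mem_append_left _ (hin s' hs'))
        (List.mem_append_left _ (hin s hs)) ?_
      rw [hs, hs']) (fun js' hjs => List.map_eq_nil_iff.mp hjs)
    have hor : (ownH η (e.A.s w.1 w.2.2.1) || ownH η (e.B.s w.2.1 w.2.2.1)) = true := by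
      rcases hown s hs with h' | h' <;> simp [h']
    rw [hor]
    simp only [obsB, Comp.run_ask, Comp.run_ret, hev]
  · have hev := orc_ev_none a F w.2.2.1 η [] (fun s js hs => absurd ⟨s, hs⟩ hex)
    have hor : (ownH η (e.A.s w.1 w.2.2.1) || ownH η (e.B.s w.2.1 w.2.2.1)) = false := by
      rw [Bool.or_eq_false_iff]
      constructor
      · by_contra hne
        rw [Bool.not_eq_false] at hne
        obtain ⟨s, hs⟩ := F2_own.mp hne
        exact hex ⟨s, (h.cnA.val _ hs).1.symm⟩
      · by_contra hne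
        rw [Bool.not_eq_false] at hne
        obtain ⟨s, hs⟩ := F2_own.mp hne
        exact hex ⟨s, (h.cnB.val _ hs).1.symm⟩
    rw [hor]
    simp only [obsB, Comp.run_ask, Comp.run_ret, hev]

/-- What follows the two answers. -/
private noncomputable def F2_nx (e : Env X S J K V StA StB RA RB) (η : K)
    (cont : Env X S J K V StA StB RA RB → PT X S J K V Mg StA StB) (v : K)
    (m1 m2 : Pb Mg J V) : PT X S J K V Mg StA StB :=
  match m1, m2 with
  | .bit false, .bit false => cont (F2_env e η v m1 m2)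
  | .bit true, .bit false =>
    if desH e η then
      cont (((F2_env e η v m1 m2).setPr η true [] none).conf η true (.h η))
    else .stop 3
  | .bit false, .bit true =>
    if desH e η then .stop 3
    else cont (((F2_env e η v m1 m2).setPr η false [] none).conf η false (.h η))
  | .bit true, .bit true => .stop 3
  | _, _ => .stop 4

private theorem F2_step (η : K)
    (cont : Env X S J K V StA StB RA RB → PT X S J K V Mg StA StB) :
    handleStep e η cont = .learn (.h η) (.ret k0) fun v =>
      .mA (.inr (if desH e η then obsB η [] else .ret (.bit false))) (bitH η) fun m1 =>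
        .mB (.inr (if desH e η then .ret (.bit false) else obsB η [])) (bitH η) fun m2 =>
          F2_nx e η cont v m1 m2 := rfl

private theorem F2_qt (η : K)
    (cont : Env X S J K V StA StB RA RB → PT X S J K V Mg StA StB)
    (hQ : Qt (handleStep e η cont) e w pre) :
    Qt (F2_nx e η cont (w.2.2.1 (.h η)) (.bit (ownH η (e.A.s w.1 w.2.2.1)))
        (.bit (ownH η (e.B.s w.2.1 w.2.2.1))))
      (F2_env e η (w.2.2.1 (.h η)) (.bit (ownH η (e.A.s w.1 w.2.2.1)) : Pb Mg J V)
        (.bit (ownH η (e.B.s w.2.1 w.2.2.1)))) w (pre ++ [.h η]) := by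
  rw [F2_step] at hQ
  obtain ⟨h1, h2, h3⟩ := hQ
  refine ⟨?_, h2, ?_⟩
  · simp only [Proc.hits] at h1
    exact (Nat.add_eq_zero_iff.mp (Nat.add_eq_zero_iff.mp h1).2).2
  · rw [List.append_assoc]
    exact h3

theorem handleStep_fa (η : K) (hη : .h η ∉ e.kn.map Prod.fst) (hp : e.pend = none)
    (cont : Env X S J K V StA StB RA RB → PT X S J K V Mg StA StB) (hg : GI a n m e)
    (h : WE F e w pre)
    (hc : ∀ (e' : Env X S J K V StA StB RA RB) pre', GI a n m e' → WE F e' w pre' → Sm e e' w →
      Qt (cont e') e' w pre' → Fa (wd a F w.2.2.1) t sa sb (cont e') e' w)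
    (hQ : Qt (handleStep e η cont) e w pre) :
    Fa (wd a F w.2.2.1) t sa sb (handleStep e η cont) e w := by
  have hQ' := F2_qt η cont hQ
  have hv : (k0 : K) = w.2.2.1 (.h η) := by
    have h' := w.2.2.2 (.h η)
    have h'' : w.2.2.1 (.h η) = k0 := by simpa [SV] using h'
    exact h''.symm
  have hb : ¬ Bad gK w.2.2.1 (pre ++ [.h η]) := fun hb => hQ'.2.2 (bad_append hb)
  have hobs := F2_obs (a := a) (Mg := Mg) η hη h hb
  have hrl := F2_rl (Mg := Mg) (e := e) (w := w) η (w.2.2.1 (.h η)) _ _ h.2 rfl rfl rfl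
  have hpA : .h η ∉ e.pA := fun h' => hη (hg.wA _ h')
  have hpB : .h η ∉ e.pB := fun h' => hη (hg.wB _ h')
  have hold : ∀ o P r, e.T.pr η ≠ some (o, P, r) := fun o P r hT => hη (h.1.pr1 η o P r hT).1
  suffices H : (if desH e η then obsB η [] else
        .ret (.bit false) : Comp (Qry X S J K) (Ans J K V) (Pb Mg J V)).run (wd a F w.2.2.1) =
          .bit (ownH η (e.A.s w.1 w.2.2.1)) ∧
      (if desH e η then .ret (.bit false) else
        obsB η [] : Comp (Qry X S J K) (Ans J K V) (Pb Mg J V)).run (wd a F w.2.2.1) =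
          .bit (ownH η (e.B.s w.2.1 w.2.2.1)) ∧
      Fa (wd a F w.2.2.1) t sa sb (F2_nx e η cont (w.2.2.1 (.h η))
        (.bit (ownH η (e.A.s w.1 w.2.2.1))) (.bit (ownH η (e.B.s w.2.1 w.2.2.1))))
        (F2_env e η (w.2.2.1 (.h η)) (.bit (ownH η (e.A.s w.1 w.2.2.1)) : Pb Mg J V)
        (.bit (ownH η (e.B.s w.2.1 w.2.2.1)))) w by
    rw [F2_step]
    exact ⟨⟨hv, H.1, H.2.1, H.2.2.1⟩, H.2.2.2⟩
  have hgi : ∀ (m1 m2 : Pb Mg J V), GI a n m (F2_env e η (w.2.2.1 (.h η)) m1 m2) := fun m1 m2 =>
    gi_silB (gi_silA (gi_item hg (.h η) (by simp [cel]) _) (fun c => .bit (ownH η c)) m1)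
      (fun c => .bit (ownH η c)) m2
  have hwi := fun (m1 m2 : Pb Mg J V) => F2_wi (e := e) (w := w) (pre := pre) (F := F) η hη
    (w.2.2.1 (.h η)) m1 m2
  generalize hm : w.2.2.1 (.h η) = v at *
  have hsm : ∀ (m1 m2 : Pb Mg J V), ∀ d ∈ e.kn.map Prod.fst,
      d ∈ (F2_env e η v m1 m2).kn.map Prod.fst := fun m1 m2 d hd =>
    (F2_W η v m1 m2 d).mpr (.inl hd)
  cases hA : ownH η (e.A.s w.1 w.2.2.1) with
  | false =>
    cases hB : ownH η (e.B.s w.2.1 w.2.2.1) with
    | false =>
      rw [hA, hB] at hobs hQ' hrl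
      refine ⟨?_, ?_, ?_⟩
      · split_ifs
        · exact hobs
        · rfl
      · split_ifs
        · rfl
        · exact hobs
      · refine hc _ _ (hgi _ _) ⟨?_, hrl⟩ ⟨rfl, rfl, hsm _ _⟩ hQ'
        refine hwi (.bit false) (.bit false) e.T e.pend h rfl rfl (fun _ _ => rfl) ?_ ?_ ?_ ?_
        · intro h'
          rw [hA] at h'
          cases h'
        · intro h'
          rw [hB] at h'
          cases h'
        · intro η' o P hT
          exact (h.1.pr1 η' o P none hT).2.2.1 rfl
        · intro o P r hT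
          exact absurd hT (hold o P r)
    | true =>
      rw [hA, hB] at hobs hQ' hrl
      by_cases hd : desH e η
      · simp only [F2_nx, if_pos hd] at hQ'
        exact absurd rfl hQ'.2.1
      · simp only [F2_nx, if_neg hd] at hQ' ⊢
        refine ⟨rfl, hobs, ?_⟩
        refine hc (((F2_env e η v (.bit false : Pb Mg J V) (.bit true)).setPr η
          false [] none).conf η false (.h η)) (pre ++ [Th.h η]) ?_ ⟨?_, hrl⟩
          ⟨rfl, rfl, hsm (.bit false) (.bit true)⟩ ⟨hQ'.1, hQ'.2.1, hQ'.2.2⟩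
        · refine gi_confB (hgi (.bit false) (.bit true)) η (.h η) [] ?_ hpB hp ?_
          · exact (F2_W η v _ _ _).mpr (.inr rfl)
          · intro p hp'
            have hcn := ((hgi (.bit false) (.bit true)).sB p hp').cn
            obtain ⟨⟨-, h2⟩, -⟩ := (mem_sup SV).mp hp'
            have h2' : (.bit (ownH η (e.B.s p.1 p.2.1)) : Pb Mg J V) = .bit true := h2
            simp only [Pb.bit.injEq] at h2'
            obtain ⟨s, hs⟩ := F2_own.mp h2'
            have hs1 := (hcn.val _ hs).1
            refine ⟨(s, none, η), hs, ?_⟩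
            simp only [itm]
            exact congrArg _ hs1
        · refine hwi (.bit false) (.bit true) ⟨e.T.tr, e.T.op, Function.update e.T.pr η
            (some (false, [], none))⟩ (some η) h rfl rfl
            (fun η' hη' => Function.update_of_ne hη' _ _) ?_ ?_ ?_ ?_
          · intro h'
            rw [hA] at h'
            cases h'
          · intro _
            exact ⟨none, by simp only [Function.update_self]⟩
          · intro η' o P hT
            by_cases hη' : η' = η
            · rw [hη']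
            · simp only [Function.update_of_ne hη'] at hT
              have := (h.1.pr1 η' o P none hT).2.2.1 rfl
              rw [hp] at this
              cases this
          · intro o P r hT
            simp only [Function.update_self, Option.some.injEq, Prod.mk.injEq] at hT
            obtain ⟨rfl, rfl, rfl⟩ := hT
            exact ⟨rfl, rfl, by simpa using hB⟩
  | true =>
    cases hB : ownH η (e.B.s w.2.1 w.2.2.1) with
    | true =>
      rw [hA, hB] at hQ'
      exact absurd rfl hQ'.2.1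
    | false =>
      rw [hA, hB] at hobs hQ' hrl
      by_cases hd : desH e η
      · simp only [F2_nx, if_pos hd] at hQ' ⊢
        refine ⟨hobs, rfl, ?_⟩
        refine hc (((F2_env e η v (.bit true : Pb Mg J V) (.bit false)).setPr η
          true [] none).conf η true (.h η)) (pre ++ [Th.h η]) ?_ ⟨?_, hrl⟩
          ⟨rfl, rfl, hsm (.bit true) (.bit false)⟩ ⟨hQ'.1, hQ'.2.1, hQ'.2.2⟩
        · refine gi_confA (hgi (.bit true) (.bit false)) η (.h η) [] ?_ hpA hp ?_
          · exact (F2_W η v _ _ _).mpr (.inr rfl)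
          · intro p hp'
            have hcn := ((hgi (.bit true) (.bit false)).sA p hp').cn
            obtain ⟨⟨-, h2⟩, -⟩ := (mem_sup SV).mp hp'
            have h2' : (.bit (ownH η (e.A.s p.1 p.2.1)) : Pb Mg J V) = .bit true := h2
            simp only [Pb.bit.injEq] at h2'
            obtain ⟨s, hs⟩ := F2_own.mp h2'
            have hs1 := (hcn.val _ hs).1
            refine ⟨(s, none, η), hs, ?_⟩
            simp only [itm]
            exact congrArg _ hs1
        · refine hwi (.bit true) (.bit false) ⟨e.T.tr, e.T.op, Function.update e.T.pr η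
            (some (true, [], none))⟩ (some η) h rfl rfl
            (fun η' hη' => Function.update_of_ne hη' _ _) ?_ ?_ ?_ ?_
          · intro _
            exact ⟨none, by simp only [Function.update_self]⟩
          · intro h'
            rw [hB] at h'
            cases h'
          · intro η' o P hT
            by_cases hη' : η' = η
            · rw [hη']
            · simp only [Function.update_of_ne hη'] at hT
              have := (h.1.pr1 η' o P none hT).2.2.1 rfl
              rw [hp] at this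
              cases this
          · intro o P r hT
            simp only [Function.update_self, Option.some.injEq, Prod.mk.injEq] at hT
            obtain ⟨rfl, rfl, rfl⟩ := hT
            exact ⟨rfl, rfl, by simpa using hA⟩
      · simp only [F2_nx, if_neg hd] at hQ'
        exact absurd rfl hQ'.2.1

/-! ## Row F3: a label of a known key -/

/-- The state after both parties have answered. -/
private noncomputable def F3_env (e : Env X S J K V StA StB RA RB) (s : S) (π : K)
    (m1 m2 : Pb Mg J V) : Env X S J K V StA StB RA RB :=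
  (e.upA (tellC s π) m1).upB (tellC s π) m2

/-- What follows the two answers. -/
private noncomputable def F3_nx (d : Prop) (e : Env X S J K V StA StB RA RB) (s : S) (η π : K)
    (cont : Env X S J K V StA StB RA RB → PT X S J K V Mg StA StB)
    (m1 m2 : Pb Mg J V) : PT X S J K V Mg StA StB :=
  match m1, m2 with
  | .ix none, .ix none => cont (F3_env e s π m1 m2)
  | .ix (some j), .ix none =>
    if d then lcell s j η (.ret π) (F3_env e s π m1 m2) cont
    else .stop 3
  | .ix none, .ix (some j) =>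
    if d then .stop 3
    else lcell s j η (.ret π) (F3_env e s π m1 m2) cont
  | .ix (some _), .ix (some _) => .stop 3
  | _, _ => .stop 4

private theorem F3_step (d : Prop) (s : S) (η π : K)
    (cont : Env X S J K V StA StB RA RB → PT X S J K V Mg StA StB) :
    openStep d e s η π cont =
      .mA (.inr (if d then obsD s π else .ret (.ix none))) (tellC s π) fun m1 =>
        .mB (.inr (if d then .ret (.ix none) else obsD s π)) (tellC s π) fun m2 =>
          F3_nx d e s η π cont m1 m2 := rfl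

private theorem F3_qt (d : Prop) (s : S) (η π : K)
    (cont : Env X S J K V StA StB RA RB → PT X S J K V Mg StA StB)
    (hQ : Qt (openStep d e s η π cont) e w pre) :
    Qt (F3_nx d e s η π cont (.ix (lkL (e.A.s w.1 w.2.2.1).own s π))
        (.ix (lkL (e.B.s w.2.1 w.2.2.1).own s π)))
      (F3_env e s π (.ix (lkL (e.A.s w.1 w.2.2.1).own s π) : Pb Mg J V)
        (.ix (lkL (e.B.s w.2.1 w.2.2.1).own s π))) w pre := by
  rw [F3_step] at hQ
  obtain ⟨h1, h2, h3⟩ := hQ
  refine ⟨?_, h2, h3⟩
  simp only [Proc.hits] at h1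
  exact (Nat.add_eq_zero_iff.mp (Nat.add_eq_zero_iff.mp h1).2).2

/-- The facts about the labels `π` of `s`. -/
private theorem F3_key {O : Th X S J K → K} {ownA ownB : Own S J K}
    {qA qB W : List (Th X S J K)} {T : Tb S J K V} {pend : Option K} {ex : S → K → Prop}
    (h : WI F O ownA ownB qA qB W pre T pend ex) (hb : ¬ Bad gK O pre) (s : S) (π : K)
    (hl : .l (O (.c s none)) π ∈ W) (hop : T.op s π = none) :
    (∀ j, lkL ownA s π = some j → O (.c s (some j)) = π) ∧
    (∀ j, lkL ownB s π = some j → O (.c s (some j)) = π) ∧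
    (∀ j j', O (.c s (some j)) = π → O (.c s (some j')) = π → j' = j) ∧
    (lkL ownA s π = none → lkL ownB s π = none → ∀ j, O (.c s (some j)) ≠ π) := by
  have hpre : ∀ j, O (.c s (some j)) = π → .c s (some j) ∈ pre := fun j hj =>
    fresh_l hb ((h.pre_mem _).2 (Or.inr (Or.inr hl))) hj
  have hvA : ∀ j, (s, some j, π) ∈ ownA → O (.c s (some j)) = π := fun j hj =>
    (h.cnA.val _ hj).1.symm
  have hvB : ∀ j, (s, some j, π) ∈ ownB → O (.c s (some j)) = π := fun j hj =>
    (h.cnB.val _ hj).1.symm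
  refine ⟨fun j hj => hvA j (lkL_some hj), fun j hj => hvB j (lkL_some hj), ?_, ?_⟩
  · intro j j' hj hj'
    exact (uniq_l hb h.nice (hpre j' hj') (hpre j hj) (hj'.trans hj.symm)).2
  · intro hA hB j hj
    rcases (h.pre_mem _).1 (hpre j hj) with hq | hq | hq
    · have := h.cnA.keys _ _ hq
      rw [hj] at this
      exact lkL_none hA j this
    · have := h.cnB.keys _ _ hq
      rw [hj] at this
      exact lkL_none hB j this
    · have := h.op1 _ _ hq
      rw [hj, hop] at this
      cases this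

private theorem F3_obs {a : ℕ} {O : Th X S J K → K} (s : S) (π : K) (i : Option J)
    (hi : wd a F O (.dec s π) = .ind i) :
    (obsD s π : Comp (Qry X S J K) (Ans J K V) (Pb Mg J V)).run (wd a F O) = .ix i := by
  simp only [obsD, Comp.run_ask, Comp.run_ret, hi]

/-- The exception: the label `π` has just been learned.  It is a label of `s` iff one of the
parties owns it (`fresh_l`; its cell is not known by `op1`, since `e.T.op s π = none`). -/
theorem openStep_fa (d : Prop) (s : S) (η π : K) (hη : w.2.2.1 (.c s none) = η)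
    (hs : .c s none ∈ e.kn.map Prod.fst) (hl : .l η π ∈ e.kn.map Prod.fst)
    (hop : e.T.op s π = none)
    (cont : Env X S J K V StA StB RA RB → PT X S J K V Mg StA StB) (hg : GI a n m e)
    (h : WX F e w pre (fun s' π' => s' = s ∧ π' = π))
    (hc : ∀ (e' : Env X S J K V StA StB RA RB) pre', GI a n m e' → WE F e' w pre' → Sm e e' w →
      Qt (cont e') e' w pre' → Fa (wd a F w.2.2.1) t sa sb (cont e') e' w)
    (hQ : Qt (openStep d e s η π cont) e w pre) :
    Fa (wd a F w.2.2.1) t sa sb (openStep d e s η π cont) e w := by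
  have hQ' := F3_qt d s η π cont hQ
  have hb : ¬ Bad gK w.2.2.1 pre := fun hb => hQ'.2.2 (bad_append hb)
  obtain ⟨hkA, hkB, hku, hkn⟩ := F3_key h.1 hb s π (by rw [hη]; exact hl) hop
  have hgi : ∀ m1 m2 : Pb Mg J V, GI a n m (F3_env e s π m1 m2) := fun m1 m2 =>
    gi_silB (gi_silA hg (fun c => .ix (lkL c.own s π)) m1) (fun c => .ix (lkL c.own s π)) m2
  have hwx : WX F (F3_env e s π (.ix (lkL (e.A.s w.1 w.2.2.1).own s π) : Pb Mg J V)
        (.ix (lkL (e.B.s w.2.1 w.2.2.1).own s π))) w pre (fun s' π' => s' = s ∧ π' = π) :=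
    wx_silB (wx_silA h (fun c => .ix (lkL c.own s π)) _ rfl) (fun c => .ix (lkL c.own s π)) _ rfl
  suffices H : (if d then obsD s π else
        .ret (.ix none) : Comp (Qry X S J K) (Ans J K V) (Pb Mg J V)).run (wd a F w.2.2.1) =
          .ix (lkL (e.A.s w.1 w.2.2.1).own s π) ∧
      (if d then .ret (.ix none) else
        obsD s π : Comp (Qry X S J K) (Ans J K V) (Pb Mg J V)).run (wd a F w.2.2.1) =
          .ix (lkL (e.B.s w.2.1 w.2.2.1).own s π) ∧
      Fa (wd a F w.2.2.1) t sa sb (F3_nx d e s η π cont (.ix (lkL (e.A.s w.1 w.2.2.1).own s π))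
        (.ix (lkL (e.B.s w.2.1 w.2.2.1).own s π)))
        (F3_env e s π (.ix (lkL (e.A.s w.1 w.2.2.1).own s π) : Pb Mg J V)
        (.ix (lkL (e.B.s w.2.1 w.2.2.1).own s π))) w by
    rw [F3_step]
    exact ⟨⟨H.1, H.2.1, H.2.2.1⟩, H.2.2.2⟩
  have hsm : ∀ (m1 m2 : Pb Mg J V) (e' : Env X S J K V StA StB RA RB),
      Sm (F3_env e s π m1 m2) e' w → Sm e e' w := fun m1 m2 e' h' => ⟨h'.1, h'.2.1, h'.2.2⟩
  have hlast : ∀ j (m1 m2 : Pb Mg J V), w.2.2.1 (.c s (some j)) = π →
      WX F (F3_env e s π m1 m2) w pre (fun s' π' => s' = s ∧ π' = π) →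
      Qt (lcell s j η (.ret π) (F3_env e s π m1 m2) cont) (F3_env e s π m1 m2) w pre →
      Fa (wd a F w.2.2.1) t sa sb (lcell s j η (.ret π) (F3_env e s π m1 m2) cont)
        (F3_env e s π m1 m2) w := by
    intro j m1 m2 hj hx hq
    refine lcell_fa (e := F3_env e s π m1 m2) s j η (.ret π) ?_ hη hs cont (hgi m1 m2) hx ?_ hq
    · rw [Comp.run_ret, hj]
    · intro e' pre' hg' hx' hs' hq'
      refine hc e' pre' hg' ?_ (hsm _ _ _ hs') hq'
      refine wx_mono hx' ?_
      intro s' π' hp
      rw [hj] at hp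
      exact hp.2 hp.1
  cases hA : lkL (e.A.s w.1 w.2.2.1).own s π with
  | none =>
    cases hB : lkL (e.B.s w.2.1 w.2.2.1).own s π with
    | none =>
      rw [hA, hB] at hQ' hwx
      have hobs := F3_obs (Mg := Mg) (F := F) (a := a) s π none
        (orc_dec_none a F w.2.2.1 s π (hkn hA hB))
      refine ⟨?_, ?_, ?_⟩
      · split_ifs
        · exact hobs
        · rfl
      · split_ifs
        · rfl
        · exact hobs
      · refine hc _ _ (hgi _ _) ⟨?_, hwx.2⟩ (hsm _ _ _ ⟨rfl, rfl, fun _ h' => h'⟩) hQ'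
        refine { hwx.1 with pub := ?_ }
        intro s' j hs' hl'
        rcases hwx.1.pub s' j hs' hl' with h' | h'
        · exact Or.inl h'
        · obtain ⟨rfl, h''⟩ := h'
          exact absurd h'' (hkn hA hB j)
    | some j =>
      rw [hA, hB] at hQ' hwx
      have hj := hkB j hB
      have hobs := F3_obs (Mg := Mg) (F := F) (a := a) s π (some j)
        (orc_dec_some a F w.2.2.1 s π j hj (fun j' hj' => hku j j' hj hj'))
      by_cases hd : d
      · simp only [F3_nx, if_pos hd] at hQ'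
        exact absurd rfl hQ'.2.1
      · simp only [F3_nx, if_neg hd] at hQ' ⊢
        exact ⟨rfl, hobs, hlast j _ _ hj hwx hQ'⟩
  | some j =>
    cases hB : lkL (e.B.s w.2.1 w.2.2.1).own s π with
    | some j' =>
      rw [hA, hB] at hQ'
      exact absurd rfl hQ'.2.1
    | none =>
      rw [hA, hB] at hQ' hwx
      have hj := hkA j hA
      have hobs := F3_obs (Mg := Mg) (F := F) (a := a) s π (some j)
        (orc_dec_some a F w.2.2.1 s π j hj (fun j' hj' => hku j j' hj hj'))
      by_cases hd : d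
      · simp only [F3_nx, if_pos hd] at hQ' ⊢
        exact ⟨hobs, rfl, hlast j _ _ hj hwx hQ'⟩
      · simp only [F3_nx, if_neg hd] at hQ'
        exact absurd rfl hQ'.2.1

/-! ## Row F3p: a label is learned, the handle is not private or the key is known -/

omit [Finite X] [Finite S] [Finite J] [Fintype K] [Nonempty K] in
private theorem F3p_wi {O : Th X S J K → K} {ownA ownB : Own S J K}
    {qA qB W pre : List (Th X S J K)} {T : Tb S J K V} {pend : Option K}
    (h : WI F O ownA ownB qA qB W pre T pend (fun _ _ => False)) (η π : K) (hη : .h η ∈ W)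
    (ex : S → K → Prop)
    (hP : ∀ s j, .c s none ∈ W → O (.c s none) = η → O (.c s (some j)) = π → ex s π)
    (hA : ∀ s j, .c s none ∈ qA → .c s none ∉ W → O (.c s none) = η → O (.c s (some j)) ≠ π)
    (hB : ∀ s j, .c s none ∈ qB → .c s none ∉ W → O (.c s none) = η → O (.c s (some j)) ≠ π) :
    WI F O ownA ownB qA qB (W ++ [.l η π]) (pre ++ [.l η π]) T pend ex := by
  have hW : ∀ d, d ∈ W → d ∈ W ++ [.l η π] := fun d hd => List.mem_append_left _ hd
  have hs : ∀ (s : S) (j : Option J),
      (.c s j : Th X S J K) ∈ W ++ [.l η π] ↔ (.c s j : Th X S J K) ∈ W := by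
    intro s j; simp
  have hh : ∀ η' : K, (.h η' : Th X S J K) ∈ W ++ [.l η π] ↔ (.h η' : Th X S J K) ∈ W := by
    intro s; simp
  have hll : ∀ (η' π' : K), (.l η' π' : Th X S J K) ∈ W ++ [.l η π] →
      (.l η' π' : Th X S J K) ∈ W ∨ (η' = η ∧ π' = π) := by
    intro η' π' h'
    rcases List.mem_append.1 h' with h' | h'
    · exact Or.inl h'
    · right
      simpa using h'
  refine ⟨fun d h1 h2 => hW d (h.all d h1 h2), h.cnA, h.cnB, ?_,
    nice_append h.nice (nice_of_no (fun s j => by simp)), ?_, ?_, ?_, ?_, ?_, ?_, ?_, ?_, ?_, ?_, ?_⟩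
  · intro d
    rw [List.mem_append, List.mem_append, h.pre_mem]
    tauto
  · intro s h1
    exact h.tr1 s ((hs s none).1 h1)
  · intro η' s h1
    obtain ⟨h2, h3⟩ := h.tr2 η' s h1
    exact ⟨hW _ h2, h3⟩
  · intro s j h1
    exact h.op1 s j ((hs s (some j)).1 h1)
  · intro s π' j h1
    obtain ⟨h2, h3⟩ := h.op2 s π' j h1
    exact ⟨hW _ h2, h3⟩
  · intro s j h1
    exact hW _ (h.wh s j ((hs s j).1 h1))
  · intro s j h1
    exact hW _ (h.itW s j ((hs s j).1 h1))
  · intro η' π' h1
    rcases hll η' π' h1 with h1 | ⟨rfl, rfl⟩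
    · exact hW _ (h.downW _ _ h1)
    · exact hW _ hη
  · intro s j h1 h2
    have h1' := (hs s none).1 h1
    rcases hll _ _ h2 with h2 | ⟨h3, h4⟩
    · rcases h.pub s j h1' h2 with h3 | h3
      · exact Or.inl (hW _ h3)
      · exact h3.elim
    · right
      rw [h4]
      exact hP s j h1' h3 h4
  · intro s h1 h2 h3
    rw [hs] at h2
    rw [hh] at h3
    obtain ⟨P, r, h4, h5⟩ := h.prA s h1 h2 h3
    refine ⟨P, r, h4, fun j h6 => ?_⟩
    rcases hll _ _ h6 with h6 | ⟨h7, h8⟩
    · exact h5 j h6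
    · exact absurd h8 (hA s j h1 h2 h7)
  · intro s h1 h2 h3
    rw [hs] at h2
    rw [hh] at h3
    obtain ⟨P, r, h4, h5⟩ := h.prB s h1 h2 h3
    refine ⟨P, r, h4, fun j h6 => ?_⟩
    rcases hll _ _ h6 with h6 | ⟨h7, h8⟩
    · exact h5 j h6
    · exact absurd h8 (hB s j h1 h2 h7)
  · intro η' o P r h1
    obtain ⟨h2, h3, h4⟩ := h.pr1 η' o P r h1
    exact ⟨hW _ h2, fun π' hπ' => hW _ (h3 π' hπ'), h4⟩

private theorem F3p_rl (h : w ∈ rl SV e.A e.B e.kn) {d : Th X S J K} {v : K}
    (hd : w.2.2.1 d = v) : w ∈ rl SV (e.kna d v).A (e.kna d v).B (e.kna d v).kn := by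
  rw [mem_rl] at h ⊢
  refine ⟨h.1, h.2.1, ?_⟩
  intro x hx
  rcases List.mem_append.1 hx with hx | hx
  · exact h.2.2 x hx
  · have h2 : x = (d, v) := by simpa using hx
    rw [h2]
    exact hd

/-- The item `.l η π` is learned, and `η` is the handle of the known key `s`. -/
theorem wx_lk (s : S) (η π : K) (h : WE F e w pre) (ht : e.T.tr η = some s)
    (hh : .h η ∈ e.kn.map Prod.fst) (hb : ¬ Bad gK w.2.2.1 (pre ++ [.l η π])) :
    WX F (e.kna (.l η π) (w.2.2.1 (.l η π))) w (pre ++ [.l η π])
      (fun s' π' => s' = s ∧ π' = π) := by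
  have hb0 : ¬ Bad gK w.2.2.1 pre := fun h' => hb (bad_append h')
  have hmap : (e.kn ++ [((.l η π : Th X S J K), w.2.2.1 (.l η π))]).map Prod.fst =
      e.kn.map Prod.fst ++ [.l η π] := by
    rw [List.map_append]
    rfl
  obtain ⟨hs1, hs2⟩ := h.1.tr2 η s ht
  have hspre : .c s none ∈ pre := (h.1.pre_mem _).2 (Or.inr (Or.inr hs1))
  have key : ∀ s' : S, .c s' none ∈ pre → .c s' none ∉ e.kn.map Prod.fst →
      w.2.2.1 (.c s' none) ≠ η := by
    intro s' h1 h2 h3
    have h4 := uniq_h hb0 h.1.nice h1 hspre (h3.trans hs2.symm)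
    rw [h4] at h2
    exact h2 hs1
  refine ⟨?_, F3p_rl h.2 rfl⟩
  have h1 := F3p_wi h.1 η π hh (fun s' π' => s' = s ∧ π' = π) ?_ ?_ ?_
  · rw [← hmap] at h1
    exact h1
  · intro s' j h2 h3 h4
    have h5 := h.1.tr1 s' h2
    rw [h3, ht] at h5
    exact ⟨(Option.some.inj h5).symm, rfl⟩
  · intro s' j h2 h3 h4
    exact absurd h4 (key s' ((h.1.pre_mem _).2 (Or.inl h2)) h3)
  · intro s' j h2 h3 h4
    exact absurd h4 (key s' ((h.1.pre_mem _).2 (Or.inr (Or.inl h2))) h3)

omit [Finite X] [Finite S] [Finite J] [Fintype K] [Nonempty K] in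
private theorem F3p_own {St : Type} {O : Th X S J K → K} {q pre : List (Th X S J K)}
    (c : CS St S J K) (hc : Cn c.own q O) (hq : ∀ d ∈ q, d ∈ pre) (hb : ¬ Bad gK O pre)
    (hn : Nice O pre) (η π : K) (s : S) (j : J) (hs : .c s none ∈ q) (hj : .c s (some j) ∈ q)
    (h1 : O (.c s none) = η) (h2 : O (.c s (some j)) = π) : ownL η π c = true := by
  unfold ownL
  cases hk : lkH c.own η with
  | none =>
    exfalso
    have h3 := hc.keys s none hs
    rw [h1] at h3
    exact lkH_none hk s h3
  | some s' =>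
    have h3 := lkH_some hk
    have h4 := hc.val _ h3
    have h5 : s' = s := uniq_h hb hn (hq _ h4.2) (hq _ hs) (by rw [h1]; exact h4.1.symm)
    subst h5
    cases hl : lkL c.own s' π with
    | none =>
      exfalso
      have h6 := hc.keys s' (some j) hj
      rw [h2] at h6
      exact lkL_none hl j h6
    | some j' => simp only [hl, Option.isSome_some]

/-- The item `.l η π` is learned, and no party owns the label (or the handle). -/
theorem wx_l0 (η π : K) (h : WE F e w pre) (ht : e.T.tr η = none)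
    (hh : .h η ∈ e.kn.map Prod.fst) (hb : ¬ Bad gK w.2.2.1 (pre ++ [.l η π]))
    (hA : ownL η π (e.A.s w.1 w.2.2.1) = false) (hB : ownL η π (e.B.s w.2.1 w.2.2.1) = false) :
    WE F (e.kna (.l η π) (w.2.2.1 (.l η π))) w (pre ++ [.l η π]) := by
  have hb0 : ¬ Bad gK w.2.2.1 pre := fun h' => hb (bad_append h')
  have hmap : (e.kn ++ [((.l η π : Th X S J K), w.2.2.1 (.l η π))]).map Prod.fst =
      e.kn.map Prod.fst ++ [.l η π] := by
    rw [List.map_append]
    rfl
  have hqA : ∀ d ∈ e.A.q w.1 w.2.2.1, d ∈ pre := fun d hd => (h.1.pre_mem d).2 (Or.inl hd)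
  have hqB : ∀ d ∈ e.B.q w.2.1 w.2.2.1, d ∈ pre :=
    fun d hd => (h.1.pre_mem d).2 (Or.inr (Or.inl hd))
  -- the cell of the label was touched before
  have hcell : ∀ (s : S) (j : J), w.2.2.1 (.c s (some j)) = π → .c s (some j) ∈ pre := by
    intro s j h1
    have h2 := fresh_l hb (η := η) (π := π) (by simp) h1
    simpa using h2
  refine ⟨?_, F3p_rl h.2 rfl⟩
  have h1 := F3p_wi h.1 η π hh (fun _ _ => False) ?_ ?_ ?_
  · rw [← hmap] at h1
    exact h1
  · intro s j h2 h3 h4
    have h5 := h.1.tr1 s h2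
    rw [h3, ht] at h5
    exact absurd h5 (by simp)
  · intro s j h2 h3 h4 h5
    rcases (h.1.pre_mem _).1 (hcell s j h5) with h6 | h6 | h6
    · have h7 := F3p_own (e.A.s w.1 w.2.2.1) h.1.cnA hqA hb0 h.1.nice η π s j h2 h6 h4 h5
      rw [hA] at h7
      exact absurd h7 (by simp)
    · have h7 := h.1.cnB.hd _ (h.1.cnB.keys s (some j) h6)
      exact h3 (h.1.all _ h2 (h.1.cnB.val _ h7).2)
    · exact h3 (h.1.wh s (some j) h6)
  · intro s j h2 h3 h4 h5
    rcases (h.1.pre_mem _).1 (hcell s j h5) with h6 | h6 | h6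
    · have h7 := h.1.cnA.hd _ (h.1.cnA.keys s (some j) h6)
      exact h3 (h.1.all _ (h.1.cnA.val _ h7).2 h2)
    · have h7 := F3p_own (e.B.s w.2.1 w.2.2.1) h.1.cnB hqB hb0 h.1.nice η π s j h2 h6 h4 h5
      rw [hB] at h7
      exact absurd h7 (by simp)
    · exact h3 (h.1.wh s (some j) h6)

/-! ## Row F3q: a label of a private key.  `n ≤ a` bounds the number of the own labels (`SI.lab`). -/

/-- two keys with the same touched handle are equal -/
private theorem F3q_uniq {O : Th X S J K → K} {l : List (Th X S J K)} (hb : ¬ Bad gK O l)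
    (hn : Nice O l) {η : K} (hη : .h η ∈ l) {s s' : S} (hs : O (.c s none) = η)
    (hs' : O (.c s' none) = η) : s' = s :=
  uniq_h hb hn (fresh_h hb hη hs') (fresh_h hb hη hs) (hs'.trans hs.symm)

/-- a party without a key for the handle does not own the label -/
private theorem F3q_own0 {St : Type} {O : Th X S J K → K} {q : List (Th X S J K)}
    (c : CS St S J K) (hc : Cn c.own q O) (η π : K)
    (hne : ∀ s, .c s none ∈ q → O (.c s none) ≠ η) : ownL η π c = false := by
  unfold ownL
  cases hk : lkH c.own η with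
  | none => rfl
  | some s =>
    exfalso
    obtain ⟨h2, h3⟩ := hc.val _ (lkH_some hk)
    exact hne s h3 h2.symm

/-- the owner of the handle owns the label iff it has touched the cell -/
private theorem F3q_own1 {St : Type} {O : Th X S J K → K} {q : List (Th X S J K)}
    (c : CS St S J K) (hc : Cn c.own q O) (η π : K) (s : S) (hs : .c s none ∈ q)
    (hs1 : O (.c s none) = η) (hu : ∀ s', O (.c s' none) = η → s' = s) :
    ownL η π c = decide (∃ j, .c s (some j) ∈ q ∧ O (.c s (some j)) = π) := by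
  unfold ownL
  cases hk : lkH c.own η with
  | none =>
    exfalso
    have h1 := hc.keys s none hs
    rw [hs1] at h1
    exact lkH_none hk s h1
  | some s' =>
    obtain ⟨h2, h3⟩ := hc.val _ (lkH_some hk)
    have h4 : s' = s := hu s' h2.symm
    subst h4
    show (lkL c.own s' π).isSome = _
    cases hl : lkL c.own s' π with
    | none =>
      rw [Option.isSome_none]
      symm
      apply decide_eq_false
      rintro ⟨j, h5, h6⟩
      have h7 := hc.keys s' (some j) h5
      rw [h6] at h7
      exact lkL_none hl j h7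
    | some j =>
      rw [Option.isSome_some]
      symm
      apply decide_eq_true
      obtain ⟨h5, h6⟩ := hc.val _ (lkL_some hl)
      exact ⟨j, h6, h5.symm⟩

/-- a label of a key of one party, which is not known, is touched by this party -/
private theorem F3q_cell {F : S → List J → Comp X K V} {O : Th X S J K → K}
    {ownA ownB : Own S J K} {qA qB W pre : List (Th X S J K)} {T : Tb S J K V} {pend : Option K}
    {ex : S → K → Prop} (h : WI F O ownA ownB qA qB W pre T pend ex) {η π : K}
    (hb : ¬ Bad gK O (pre ++ [.l η π])) (htr : T.tr η = none) (o : Bool) (s : S)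
    (hs1 : O (.c s none) = η) (hs3 : .c s none ∈ (if o then qA else qB)) (j : J)
    (hj : O (.c s (some j)) = π) : .c s (some j) ∈ (if o then qA else qB) := by
  have h0 : (.l η π : Th X S J K) ∈ pre ++ [.l η π] := by simp
  have h1 : (.c s (some j) : Th X S J K) ∈ pre ++ [.l η π] := fresh_l hb h0 hj
  have h2 : (.c s (some j) : Th X S J K) ∈ pre := by
    rcases List.mem_append.1 h1 with h2 | h2
    · exact h2
    · simp at h2
  have hnW : (.c s none : Th X S J K) ∉ W := by
    intro h3
    have h4 := h.tr1 s h3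
    rw [hs1, htr] at h4
    simp at h4
  rcases (h.pre_mem _).1 h2 with h3 | h3 | h3
  · cases o with
    | true => exact h3
    | false =>
      exfalso
      have h4 := (h.cnA.val _ (h.cnA.hd _ (h.cnA.keys s (some j) h3))).2
      exact hnW (h.all _ h4 hs3)
  · cases o with
    | true =>
      exfalso
      have h4 := (h.cnB.val _ (h.cnB.hd _ (h.cnB.keys s (some j) h3))).2
      exact hnW (h.all _ hs3 h4)
    | false => exact h3
  · exact absurd (h.wh s (some j) h3) hnW

private theorem F3q_inj {O : Th X S J K → K} {l : List (Th X S J K)} (hb : ¬ Bad gK O l)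
    (hn : Nice O l) (η : K) (s : S) : ∀ (js js' : List J),
    (∀ π' ∈ lbs O s js, .l η π' ∈ l) → lbs O s js' = lbs O s js → js' = js
  | [], js', _, h => by simpa [lbs] using h
  | j :: js, [], _, h => by simp [lbs] at h
  | j :: js, j' :: js', hp, h => by
    simp only [lbs, List.map_cons, List.cons.injEq] at h
    have h1 : (.l η (O (.c s (some j))) : Th X S J K) ∈ l := hp _ (by simp [lbs])
    have h2 := (uniq_l hb hn (fresh_l hb h1 h.1) (fresh_l hb h1 rfl) h.1).2
    have h3 := F3q_inj hb hn η s js js'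
      (fun π' hπ => hp π' (by simp only [lbs, List.map_cons]; exact List.mem_cons_of_mem _ hπ)) h.2
    rw [h2, h3]

private theorem F3q_len {own : Own S J K} {q : List (Th X S J K)} {O : Th X S J K → K}
    (hc : Cn own q O) (s : S) (js : List J) (hn : js.Nodup)
    (hq : ∀ j ∈ js, .c s (some j) ∈ q) : js.length ≤ (labs own).length := by
  have h1 : (js.map fun j => (s, some j, O (.c s (some j)))).Nodup := by
    refine hn.map ?_
    intro j j' hjj
    simp only [Prod.mk.injEq, Option.some.injEq] at hjj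
    exact hjj.2.1
  have h2 : (js.map fun j => (s, some j, O (.c s (some j)))) ⊆ labs own := by
    intro u hu
    obtain ⟨j, hj, rfl⟩ := List.mem_map.1 hu
    unfold labs
    rw [List.mem_filter]
    exact ⟨hc.keys s (some j) (hq j hj), by simp⟩
  have h3 := (h1.subperm h2).length_le
  simpa using h3

private theorem F3q_obs (a : ℕ) (F : S → List J → Comp X K V) (O : Th X S J K → K) (η π : K)
    (P : List K) (s : S) (js : List J) (l : List (Th X S J K)) (hb : ¬ Bad gK O l)
    (hn : Nice O l) (hs1 : O (.c s none) = η) (hP : P = lbs O s js)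
    (hl : ∀ π' ∈ P ++ [π], .l η π' ∈ l) (hu : ∀ s', O (.c s' none) = η → s' = s)
    (hlen : ∀ j, O (.c s (some j)) = π → js.length + 1 ≤ a) :
    (obsB η (P ++ [π]) : Comp (Qry X S J K) (Ans J K V) (Pb Mg J V)).run (wd a F O) =
      .bit (decide (∃ j, O (.c s (some j)) = π)) := by
  show Pb.bit (match wd a F O (.ev η (P ++ [π])) with
    | .res (some _) => true
    | _ => false) = _
  by_cases hj : ∃ j, O (.c s (some j)) = π
  · obtain ⟨j, hj⟩ := hj
    have h1 : lbs O s (js ++ [j]) = P ++ [π] := by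
      rw [hP, lbs, lbs, List.map_append, List.map_cons, List.map_nil, hj]
    have h2 : (P ++ [π]).length ≤ a := by
      rw [← h1, lbs, List.length_map, List.length_append]
      exact hlen j hj
    rw [orc_ev_some a F O η (P ++ [π]) s (js ++ [j]) h2 hs1 h1 hu (fun js' h3 =>
      F3q_inj hb hn η s (js ++ [j]) js' (by rw [h1]; exact hl) (h3.trans h1.symm)),
      decide_eq_true ⟨j, hj⟩]
  · rw [orc_ev_none a F O η (P ++ [π]) ?_, decide_eq_false hj]
    intro s' js' h1 h2
    have h3 := hu s' h1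
    subst h3
    have h4 : π ∈ lbs O s' js' := by
      rw [h2]
      simp
    rw [lbs, List.mem_map] at h4
    obtain ⟨j, -, h5⟩ := h4
    exact hj ⟨j, h5⟩

/-- the label is a label of the private key of the owner `o` -/
private theorem F3q_wi_true {F : S → List J → Comp X K V} {O : Th X S J K → K}
    {ownA ownB : Own S J K} {qA qB W pre : List (Th X S J K)} {T : Tb S J K V}
    {ex : S → K → Prop} (h : WI F O ownA ownB qA qB W pre T none ex) (η π : K) (hη : .h η ∈ W)
    (o : Bool) (P : List K) (r : Option V) (hpr : T.pr η = some (o, P, r)) (s : S) (js : List J)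
    (j : J) (hs1 : O (.c s none) = η) (hs2 : O (.c s (some j)) = π)
    (hs3 : .c s none ∈ (if o then qA else qB))
    (hs4 : ∀ j' ∈ js ++ [j], .c s (some j') ∈ (if o then qA else qB)) (hnd : (js ++ [j]).Nodup)
    (hP : P = lbs O s js) (hPW : ∀ π' ∈ P, .l η π' ∈ W) (hu : ∀ s', O (.c s' none) = η → s' = s)
    (hsW : .c s none ∉ W) :
    WI F O ownA ownB qA qB (W ++ [.l η π]) (pre ++ [.l η π])
      { T with pr := Function.update T.pr η (some (o, P ++ [π], none)) } (some η) ex := by
  have hW : ∀ d, d ∈ W → d ∈ W ++ [.l η π] := fun d hd => List.mem_append_left _ hd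
  have hc : ∀ (s : S) (j : Option J), (.c s j : Th X S J K) ∈ W ++ [.l η π] ↔
      (.c s j : Th X S J K) ∈ W := by
    intro s j; simp
  have hh : ∀ η' : K, (.h η' : Th X S J K) ∈ W ++ [.l η π] ↔ (.h η' : Th X S J K) ∈ W := by
    intro s; simp
  have hll : ∀ (η' π' : K), (.l η' π' : Th X S J K) ∈ W ++ [.l η π] →
      (.l η' π' : Th X S J K) ∈ W ∨ (η' = η ∧ π' = π) := by
    intro η' π' h'
    rcases List.mem_append.1 h' with h' | h'
    · exact Or.inl h'
    · right
      simpa using h'
  have hold : ∀ (o' : Bool) (s' : S), (∃ P' r', T.pr (O (.c s' none)) = some (o', P', r') ∧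
        ∀ j, .l (O (.c s' none)) (O (.c s' (some j))) ∈ W → O (.c s' (some j)) ∈ P') →
      ∃ P' r', Function.update T.pr η (some (o, P ++ [π], none)) (O (.c s' none)) =
        some (o', P', r') ∧ ∀ j', .l (O (.c s' none)) (O (.c s' (some j'))) ∈ W ++ [.l η π] →
          O (.c s' (some j')) ∈ P' := by
    rintro o' s' ⟨P', r', h4, h5⟩
    by_cases he : O (.c s' none) = η
    · rw [he, hpr] at h4
      have h4' := Option.some.inj h4
      rw [Prod.mk.injEq, Prod.mk.injEq] at h4'
      obtain ⟨h6, h7, h8⟩ := h4'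
      subst h6 h7
      refine ⟨P ++ [π], none, by rw [he, Function.update_self], fun j' h9 => ?_⟩
      rcases hll _ _ h9 with h9 | ⟨-, h10⟩
      · exact List.mem_append_left _ (h5 j' h9)
      · rw [h10]
        simp
    · refine ⟨P', r', by rw [Function.update_of_ne he]; exact h4, fun j' h9 => ?_⟩
      rcases hll _ _ h9 with h9 | ⟨h10, -⟩
      · exact h5 j' h9
      · exact absurd h10 he
  constructor
  case all => exact fun d h1 h2 => hW d (h.all d h1 h2)
  case cnA => exact h.cnA
  case cnB => exact h.cnB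
  case pre_mem =>
    intro d
    rw [List.mem_append, List.mem_append, h.pre_mem]
    tauto
  case nice => exact nice_append h.nice (nice_of_no (by intro s j; simp))
  case tr1 => exact fun s h1 => h.tr1 s ((hc s none).1 h1)
  case tr2 =>
    intro η' s' h1
    obtain ⟨h2, h3⟩ := h.tr2 η' s' h1
    exact ⟨hW _ h2, h3⟩
  case op1 => exact fun s j h1 => h.op1 s j ((hc s _).1 h1)
  case op2 =>
    intro s' π' j' h1
    obtain ⟨h2, h3⟩ := h.op2 s' π' j' h1
    exact ⟨hW _ h2, h3⟩
  case wh => exact fun s j h1 => hW _ (h.wh s j ((hc s j).1 h1))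
  case itW => exact fun s j h1 => hW _ (h.itW s j ((hc s j).1 h1))
  case downW =>
    intro η' π' h1
    rcases hll η' π' h1 with h1 | ⟨rfl, rfl⟩
    · exact hW _ (h.downW _ _ h1)
    · exact hW _ hη
  case pub =>
    intro s' j' h1 h2
    rw [hc] at h1
    rcases hll _ _ h2 with h2 | ⟨h3, h4⟩
    · rcases h.pub s' j' h1 h2 with h5 | h5
      · exact Or.inl (hW _ h5)
      · exact Or.inr h5
    · exfalso
      have h5 := hu s' h3
      rw [h5] at h1
      exact hsW h1
  case prA =>
    intro s' h1 h2 h3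
    rw [hc] at h2
    rw [hh] at h3
    exact hold true s' (h.prA s' h1 h2 h3)
  case prB =>
    intro s' h1 h2 h3
    rw [hc] at h2
    rw [hh] at h3
    exact hold false s' (h.prB s' h1 h2 h3)
  case pr1 =>
    intro η' o' P' r' h1
    have h1' : Function.update T.pr η (some (o, P ++ [π], none)) η' = some (o', P', r') := h1
    by_cases he : η' = η
    · subst he
      rw [Function.update_self] at h1'
      have h2 := Option.some.inj h1'
      rw [Prod.mk.injEq, Prod.mk.injEq] at h2
      obtain ⟨h3, h4, h5⟩ := h2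
      subst h3 h4 h5
      refine ⟨hW _ hη, ?_, fun _ => rfl, s, js ++ [j], hs1, hs3, hnd, hs4, ?_, Or.inl rfl⟩
      · intro π' h6
        rcases List.mem_append.1 h6 with h6 | h6
        · exact hW _ (hPW π' h6)
        · rw [List.mem_singleton] at h6
          rw [h6]
          simp
      · rw [hP, lbs, lbs, List.map_append, List.map_cons, List.map_nil, hs2]
    · rw [Function.update_of_ne he] at h1'
      obtain ⟨h2, h3, h4, h5⟩ := h.pr1 η' o' P' r' h1'
      refine ⟨hW _ h2, fun π' h6 => hW _ (h3 π' h6), fun h6 => ?_, h5⟩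
      have h7 := h4 h6
      simp at h7

private theorem F3q_rl_kna (h : w ∈ rl SV e.A e.B e.kn) {d : Th X S J K} {v : K}
    (hd : w.2.2.1 d = v) : w ∈ rl SV (e.kna d v).A (e.kna d v).B (e.kna d v).kn := by
  rw [mem_rl] at h ⊢
  refine ⟨h.1, h.2.1, ?_⟩
  intro x hx
  rcases List.mem_append.1 hx with hx | hx
  · exact h.2.2 x hx
  · have h2 : x = (d, v) := by simpa using hx
    rw [h2]
    exact hd

private theorem F3q_rl_upA (h : w ∈ rl SV e.A e.B e.kn)
    (c : CS StA S J K → Comp (Th X S J K) K (CS StA S J K × Pb Mg J V)) :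
    w ∈ rl SV (e.upA c ((c (e.A.s w.1 w.2.2.1)).run w.2.2.1).2).A
      (e.upA c ((c (e.A.s w.1 w.2.2.1)).run w.2.2.1).2).B
      (e.upA c ((c (e.A.s w.1 w.2.2.1)).run w.2.2.1).2).kn := by
  rw [mem_rl] at h ⊢
  exact ⟨⟨h.1, rfl⟩, h.2.1, h.2.2⟩

private theorem F3q_rl_upB (h : w ∈ rl SV e.A e.B e.kn)
    (c : CS StB S J K → Comp (Th X S J K) K (CS StB S J K × Pb Mg J V)) :
    w ∈ rl SV (e.upB c ((c (e.B.s w.2.1 w.2.2.1)).run w.2.2.1).2).A
      (e.upB c ((c (e.B.s w.2.1 w.2.2.1)).run w.2.2.1).2).B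
      (e.upB c ((c (e.B.s w.2.1 w.2.2.1)).run w.2.2.1).2).kn := by
  rw [mem_rl] at h ⊢
  exact ⟨h.1, ⟨h.2.1, rfl⟩, h.2.2⟩

private theorem F3q_fa_learn {ρ : Qry X S J K → Ans J K V} (q : Th X S J K)
    (o : Comp (Qry X S J K) (Ans J K V) K)
    (next : K → PT X S J K V Mg StA StB) (h1 : o.run ρ = w.2.2.1 q)
    (h2 : Fa ρ t sa sb (next (w.2.2.1 q)) (e.kna q (w.2.2.1 q)) w) :
    Fa ρ t sa sb (.learn q o next) e w :=
  ⟨⟨h1, h2.1⟩, h2.2⟩

private theorem F3q_fa_mA {ρ : Qry X S J K → Ans J K V}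
    (o : Comp (Qry X S J K) (Ans J K V) (Pb Mg J V))
    (c : CS StA S J K → Comp (Th X S J K) K (CS StA S J K × Pb Mg J V))
    (next : Pb Mg J V → PT X S J K V Mg StA StB)
    (h1 : o.run ρ = ((c (e.A.s w.1 w.2.2.1)).run w.2.2.1).2)
    (h2 : Fa ρ t sa sb (next ((c (e.A.s w.1 w.2.2.1)).run w.2.2.1).2)
      (e.upA c ((c (e.A.s w.1 w.2.2.1)).run w.2.2.1).2) w) :
    Fa ρ t sa sb (.mA (.inr o) c next) e w :=
  ⟨⟨h1, h2.1⟩, h2.2⟩

private theorem F3q_fa_mB {ρ : Qry X S J K → Ans J K V}
    (o : Comp (Qry X S J K) (Ans J K V) (Pb Mg J V))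
    (c : CS StB S J K → Comp (Th X S J K) K (CS StB S J K × Pb Mg J V))
    (next : Pb Mg J V → PT X S J K V Mg StA StB)
    (h1 : o.run ρ = ((c (e.B.s w.2.1 w.2.2.1)).run w.2.2.1).2)
    (h2 : Fa ρ t sa sb (next ((c (e.B.s w.2.1 w.2.2.1)).run w.2.2.1).2)
      (e.upB c ((c (e.B.s w.2.1 w.2.2.1)).run w.2.2.1).2) w) :
    Fa ρ t sa sb (.mB (.inr o) c next) e w :=
  ⟨⟨h1, h2.1⟩, h2.2⟩

private theorem F3q_qt_learn (q : Th X S J K)
    (o : Comp (Qry X S J K) (Ans J K V) K)
    (next : K → PT X S J K V Mg StA StB) (h : Qt (.learn q o next) e w pre) :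
    Qt (next (w.2.2.1 q)) (e.kna q (w.2.2.1 q)) w (pre ++ [q]) := by
  refine ⟨h.1, h.2.1, fun hb => h.2.2 ?_⟩
  rw [List.append_assoc] at hb
  exact hb

private theorem F3q_qt_mA (o : Comp (Qry X S J K) (Ans J K V) (Pb Mg J V))
    (c : CS StA S J K → Comp (Th X S J K) K (CS StA S J K × Pb Mg J V))
    (next : Pb Mg J V → PT X S J K V Mg StA StB)
    (hc : (c (e.A.s w.1 w.2.2.1)).asked w.2.2.1 = []) (h : Qt (.mA (.inr o) c next) e w pre) :
    Qt (next ((c (e.A.s w.1 w.2.2.1)).run w.2.2.1).2)
      (e.upA c ((c (e.A.s w.1 w.2.2.1)).run w.2.2.1).2) w pre := by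
  refine ⟨(Nat.add_eq_zero_iff.1 h.1).2, h.2.1, fun hb => h.2.2 ?_⟩
  have e1 : (Proc.flat (.mA (.inr o) c next : PT X S J K V Mg StA StB)
      (e.A.s w.1 w.2.2.1) (e.B.s w.2.1 w.2.2.1)).asked w.2.2.1 =
      (c (e.A.s w.1 w.2.2.1)).asked w.2.2.1 ++
      ((next ((c (e.A.s w.1 w.2.2.1)).run w.2.2.1).2).flat
        ((c (e.A.s w.1 w.2.2.1)).run w.2.2.1).1 (e.B.s w.2.1 w.2.2.1)).asked w.2.2.1 := by
    show ((c (e.A.s w.1 w.2.2.1)).bind fun x => (next x.2).flat x.1
      (e.B.s w.2.1 w.2.2.1)).asked w.2.2.1 = _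
    rw [Comp.asked_bind]
  rw [e1, hc, List.nil_append]
  exact hb

private theorem F3q_qt_mB (o : Comp (Qry X S J K) (Ans J K V) (Pb Mg J V))
    (c : CS StB S J K → Comp (Th X S J K) K (CS StB S J K × Pb Mg J V))
    (next : Pb Mg J V → PT X S J K V Mg StA StB)
    (hc : (c (e.B.s w.2.1 w.2.2.1)).asked w.2.2.1 = []) (h : Qt (.mB (.inr o) c next) e w pre) :
    Qt (next ((c (e.B.s w.2.1 w.2.2.1)).run w.2.2.1).2)
      (e.upB c ((c (e.B.s w.2.1 w.2.2.1)).run w.2.2.1).2) w pre := by
  refine ⟨(Nat.add_eq_zero_iff.1 h.1).2, h.2.1, fun hb => h.2.2 ?_⟩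
  have e1 : (Proc.flat (.mB (.inr o) c next : PT X S J K V Mg StA StB)
      (e.A.s w.1 w.2.2.1) (e.B.s w.2.1 w.2.2.1)).asked w.2.2.1 =
      (c (e.B.s w.2.1 w.2.2.1)).asked w.2.2.1 ++
      ((next ((c (e.B.s w.2.1 w.2.2.1)).run w.2.2.1).2).flat
        (e.A.s w.1 w.2.2.1) ((c (e.B.s w.2.1 w.2.2.1)).run w.2.2.1).1).asked w.2.2.1 := by
    show ((c (e.B.s w.2.1 w.2.2.1)).bind fun x => (next x.2).flat (e.A.s w.1 w.2.2.1)
      x.1).asked w.2.2.1 = _
    rw [Comp.asked_bind]
  rw [e1, hc, List.nil_append]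
  exact hb

/-- the owner of a label has its item among the items of its cells -/
private theorem F3q_ownL {St : Type} {c : CS St S J K} {q : List (Th X S J K)}
    {O : Th X S J K → K} (hc : Cn c.own q O) {η π : K} (h : ownL η π c = true) :
    ∃ u ∈ c.own, (.l η π : Th X S J K) = itm O u.1 u.2.1 := by
  unfold ownL at h
  cases hk : lkH c.own η with
  | none =>
    rw [hk] at h
    exact absurd h (by simp)
  | some s =>
    rw [hk] at h
    have h0 : (lkL c.own s π).isSome = true := h
    obtain ⟨j, hj⟩ := Option.isSome_iff_exists.1 h0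
    have h1 := lkL_some hj
    refine ⟨_, h1, ?_⟩
    have h2 := (hc.val _ h1).1
    have h3 := (hc.val _ (lkH_some hk)).1
    show (.l η π : Th X S J K) = .l (O (.c s none)) (O (.c s (some j)))
    rw [← h2, ← h3]

theorem labelStep_fa (hna : n ≤ a) (η π : K) (hη : .h η ∈ e.kn.map Prod.fst)
    (hl : .l η π ∉ e.kn.map Prod.fst) (hp : e.pend = none)
    (cont : Env X S J K V StA StB RA RB → PT X S J K V Mg StA StB) (hg : GI a n m e)
    (h : WE F e w pre)
    (hc : ∀ (e' : Env X S J K V StA StB RA RB) pre', GI a n m e' → WE F e' w pre' → Sm e e' w →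
      Qt (cont e') e' w pre' → Fa (wd a F w.2.2.1) t sa sb (cont e') e' w)
    (hQ : Qt (labelStep e η π cont) e w pre) :
    Fa (wd a F w.2.2.1) t sa sb (labelStep e η π cont) e w := by
  have hbad : ¬ Bad gK w.2.2.1 pre := fun hb => hQ.2.2 (bad_append hb)
  have hbad' : ¬ Bad gK w.2.2.1 (pre ++ [.l η π]) := by
    intro hb
    apply hQ.2.2
    have h1 : (Proc.flat (labelStep e η π cont) (e.A.s w.1 w.2.2.1)
        (e.B.s w.2.1 w.2.2.1)).asked w.2.2.1 = [.l η π] ++
        ((Proc.flat (labelStep e η π cont) (e.A.s w.1 w.2.2.1)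
        (e.B.s w.2.1 w.2.2.1)).asked w.2.2.1).tail := rfl
    rw [h1, ← List.append_assoc]
    exact bad_append hb
  have hv : (k0 : K) = w.2.2.1 (.l η π) := by
    have h1 := w.2.2.2 (.l η π)
    have h2 : w.2.2.1 (.l η π) = k0 := by simpa [SV] using h1
    exact h2.symm
  have hηpre : (.h η : Th X S J K) ∈ pre := (h.1.pre_mem _).2 (Or.inr (Or.inr hη))
  have hu : ∀ s, w.2.2.1 (.c s none) = η → ∀ s', w.2.2.1 (.c s' none) = η → s' = s :=
    fun s h1 s' h2 => F3q_uniq hbad h.1.nice hηpre h1 h2
  have hgi := gi_item hg (.l η π) (by simp [cel]) (w.2.2.1 (.l η π))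
  have hrl := F3q_rl_kna (v := w.2.2.1 (.l η π)) h.2 (d := .l η π) rfl
  have hmap : (e.kn ++ [((.l η π : Th X S J K), w.2.2.1 (.l η π))]).map Prod.fst =
      e.kn.map Prod.fst ++ [.l η π] := by
    rw [List.map_append]
    rfl
  have hmapk : (e.kna (.l η π) (w.2.2.1 (.l η π))).kn.map Prod.fst =
      e.kn.map Prod.fst ++ [.l η π] := hmap
  have hlk : (.l η π : Th X S J K) ∈ (e.kna (.l η π) (w.2.2.1 (.l η π))).kn.map Prod.fst := by
    rw [hmapk]
    simp
  have hkW : ∀ d ∈ e.kn.map Prod.fst, d ∈ (e.kna (.l η π) (w.2.2.1 (.l η π))).kn.map Prod.fst := by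
    intro d hd
    rw [hmapk]
    exact List.mem_append_left _ hd
  have hnice' : Nice w.2.2.1 (pre ++ [.l η π]) :=
    nice_append h.1.nice (nice_of_no (by intro s j; simp))
  rcases htr : e.T.tr η with _ | s
  · -- the key is not known
    have hsW : ∀ s, w.2.2.1 (.c s none) = η → (.c s none : Th X S J K) ∉ e.kn.map Prod.fst := by
      intro s h1 h2
      have h3 := h.1.tr1 s h2
      rw [h1, htr] at h3
      simp at h3
    rcases hpr : e.T.pr η with _ | ⟨o, P, r⟩
    · -- nobody owns the handle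
      have hA : ownL η π (e.A.s w.1 w.2.2.1) = false := by
        refine F3q_own0 _ h.1.cnA η π fun s h1 h2 => ?_
        obtain ⟨P, r, h3, -⟩ := h.1.prA s h1 (hsW s h2) (by rw [h2]; exact hη)
        rw [h2, hpr] at h3
        simp at h3
      have hB : ownL η π (e.B.s w.2.1 w.2.2.1) = false := by
        refine F3q_own0 _ h.1.cnB η π fun s h1 h2 => ?_
        obtain ⟨P, r, h3, -⟩ := h.1.prB s h1 (hsW s h2) (by rw [h2]; exact hη)
        rw [h2, hpr] at h3
        simp at h3
      have h1 := wx_l0 η π h htr hη hbad' hA hB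
      simp only [labelStep, htr, hpr] at hQ ⊢
      exact F3q_fa_learn _ _ _ hv (hc _ _ hgi h1 ⟨rfl, rfl, hkW⟩ (F3q_qt_learn _ _ _ hQ))
    · obtain ⟨-, hPW, -, s, js, hs1, hs3, hnd, hs4, hP, -⟩ := h.1.pr1 η o P r hpr
      have hus := hu s hs1
      have hsWs := hsW s hs1
      have hPl : ∀ π' ∈ P ++ [π], (.l η π' : Th X S J K) ∈ pre ++ [.l η π] := by
        intro π' h1
        rcases List.mem_append.1 h1 with h1 | h1
        · exact List.mem_append_left _ ((h.1.pre_mem _).2 (Or.inr (Or.inr (hPW π' h1))))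
        · rw [List.mem_singleton] at h1
          rw [h1]
          simp
      have hcell := fun j (hj : w.2.2.1 (.c s (some j)) = π) =>
        F3q_cell h.1 hbad' htr o s hs1 hs3 j hj
      have hnew : ∀ j, w.2.2.1 (.c s (some j)) = π → (js ++ [j]).Nodup ∧
          ∀ j' ∈ js ++ [j], (.c s (some j') : Th X S J K) ∈
            (if o then e.A.q w.1 w.2.2.1 else e.B.q w.2.1 w.2.2.1) := by
        intro j hj
        refine ⟨?_, ?_⟩
        · rw [List.nodup_append]
          refine ⟨hnd, by simp, ?_⟩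
          intro j1 h1 j2 h2 h3
          rw [List.mem_singleton] at h2
          subst h2 h3
          apply hl
          rw [← hj]
          exact hPW _ (by rw [hP, lbs]; exact List.mem_map_of_mem h1)
        · intro j' h1
          rcases List.mem_append.1 h1 with h1 | h1
          · exact hs4 j' h1
          · rw [List.mem_singleton] at h1
            rw [h1]
            exact hcell j hj
      have hlen : ∀ j, w.2.2.1 (.c s (some j)) = π → js.length + 1 ≤ a := by
        intro j hj
        obtain ⟨h1, h2⟩ := hnew j hj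
        have h3 : (js ++ [j]).length = js.length + 1 := by simp
        rw [← h3]
        refine le_trans ?_ hna
        have hrl0 := h.2
        rw [mem_rl] at hrl0
        cases o with
        | true =>
          have h4 := F3q_len h.1.cnA s (js ++ [j]) h1 (by simpa using h2)
          have h5 := (hg.sA (w.1, w.2.2) ((mem_sup SV).2 ⟨hrl0.1, hrl0.2.2⟩)).lab
          have h6 : (labs (e.A.s w.1 w.2.2.1).own).length + (e.A.s w.1 w.2.2.1).fuel ≤ n := h5
          omega
        | false =>
          have h4 := F3q_len h.1.cnB s (js ++ [j]) h1 (by simpa using h2)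
          have h5 := (hg.sB (w.2.1, w.2.2) ((mem_sup SV).2 ⟨hrl0.2.1, hrl0.2.2⟩)).lab
          have h6 : (labs (e.B.s w.2.1 w.2.2.1).own).length + (e.B.s w.2.1 w.2.2.1).fuel ≤ n := h5
          omega
      have hobs := F3q_obs (Mg := Mg) a F w.2.2.1 η π P s js _ hbad' hnice' hs1 hP hPl hus hlen
      have hWt : (∃ j, w.2.2.1 (.c s (some j)) = π) →
          WI F w.2.2.1 (e.A.s w.1 w.2.2.1).own (e.B.s w.2.1 w.2.2.1).own (e.A.q w.1 w.2.2.1)
            (e.B.q w.2.1 w.2.2.1)
            ((e.kn ++ [((.l η π : Th X S J K), w.2.2.1 (.l η π))]).map Prod.fst)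
            (pre ++ [.l η π])
            { e.T with
              pr := Function.update e.T.pr η (some (o, P ++ [π], none)) } (some η)
            (fun _ _ => False) := by
        rintro ⟨j, hj⟩
        have h0 := h.1
        rw [hp] at h0
        obtain ⟨h1, h2⟩ := hnew j hj
        have h3 := F3q_wi_true h0 η π hη o P r hpr s js j hs1 hj hs3 h2 h1 hP hPW hus hsWs
        rw [← hmap] at h3
        exact h3
      cases o with
      | true =>
        have hsA : (.c s none : Th X S J K) ∈ e.A.q w.1 w.2.2.1 := by simpa using hs3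
        have hbit : ownL η π (e.A.s w.1 w.2.2.1) =
            decide (∃ j, w.2.2.1 (.c s (some j)) = π) := by
          rw [F3q_own1 (e.A.s w.1 w.2.2.1) h.1.cnA η π s hsA hs1 hus]
          congr 1
          apply propext
          constructor
          · rintro ⟨j, -, h1⟩
            exact ⟨j, h1⟩
          · rintro ⟨j, h1⟩
            exact ⟨j, by simpa using hcell j h1, h1⟩
        have hB : ownL η π (e.B.s w.2.1 w.2.2.1) = false := by
          refine F3q_own0 _ h.1.cnB η π fun s' h1 h2 => ?_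
          rw [hus s' h2] at h1
          exact hsWs (h.1.all _ hsA h1)
        simp only [labelStep, htr, hpr] at hQ ⊢
        have hQ1 := F3q_qt_mA _ _ _ rfl (F3q_qt_learn _ _ _ hQ)
        refine F3q_fa_learn _ _ _ hv (F3q_fa_mA _ _ _ ?_ ?_)
        · rw [hobs, ← hbit]
          rfl
        · have hrun : ((bitL η π ((e.kna (.l η π) (w.2.2.1 (.l η π))).A.s w.1 w.2.2.1) :
              Comp (Th X S J K) K (CS StA S J K × Pb Mg J V)).run w.2.2.1).2 =
              .bit (decide (∃ j, w.2.2.1 (.c s (some j)) = π)) := by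
            rw [← hbit]
            rfl
          have hrl1 := F3q_rl_upA hrl (bitL η π : CS StA S J K →
            Comp (Th X S J K) K (CS StA S J K × Pb Mg J V))
          rw [hrun] at hQ1 hrl1 ⊢
          by_cases hj : ∃ j, w.2.2.1 (.c s (some j)) = π
          · rw [decide_eq_true hj] at hQ1 hrl1 ⊢
            refine hc _ _ (gi_confA (gi_silA hgi (fun c => .bit (ownL η π c)) (.bit true)) η
              (.l η π) _ hlk (fun hd => hl (hg.wA _ hd)) hp ?_) ⟨?_, hrl1⟩ ⟨rfl, rfl, hkW⟩ hQ1
            · intro p hp1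
              have hgi' := (gi_silA hgi (fun c => (.bit (ownL η π c) : Pb Mg J V))
                (.bit true)).sA p hp1
              rw [mem_sup] at hp1
              have h1 : (Pb.bit (ownL η π (e.A.s p.1 p.2.1)) : Pb Mg J V) = .bit true := hp1.1.2
              have h2 : ownL η π (e.A.s p.1 p.2.1) = true := by
                injection h1
              exact F3q_ownL hgi'.cn h2
            · have h1 := hWt hj
              show WI F w.2.2.1 _ _ (e.A.q w.1 w.2.2.1 ++ []) _ _ _ _ _ _
              rw [List.append_nil]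
              exact h1
          · rw [decide_eq_false hj] at hQ1 hrl1 ⊢
            have hA : ownL η π (e.A.s w.1 w.2.2.1) = false := by
              rw [hbit, decide_eq_false hj]
            have h1 := wx_l0 η π h htr hη hbad' hA hB
            exact hc _ _ (gi_silA hgi (fun c => .bit (ownL η π c)) (.bit false))
              (wx_silA h1 (fun c => .bit (ownL η π c)) (.bit false) (congrArg Pb.bit hA))
              ⟨rfl, rfl, hkW⟩ hQ1
      | false =>
        have hsB : (.c s none : Th X S J K) ∈ e.B.q w.2.1 w.2.2.1 := by simpa using hs3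
        have hbit : ownL η π (e.B.s w.2.1 w.2.2.1) =
            decide (∃ j, w.2.2.1 (.c s (some j)) = π) := by
          rw [F3q_own1 (e.B.s w.2.1 w.2.2.1) h.1.cnB η π s hsB hs1 hus]
          congr 1
          apply propext
          constructor
          · rintro ⟨j, -, h1⟩
            exact ⟨j, h1⟩
          · rintro ⟨j, h1⟩
            exact ⟨j, by simpa using hcell j h1, h1⟩
        have hA : ownL η π (e.A.s w.1 w.2.2.1) = false := by
          refine F3q_own0 _ h.1.cnA η π fun s' h1 h2 => ?_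
          rw [hus s' h2] at h1
          exact hsWs (h.1.all _ h1 hsB)
        simp only [labelStep, htr, hpr] at hQ ⊢
        have hQ1 := F3q_qt_mB _ _ _ rfl (F3q_qt_learn _ _ _ hQ)
        refine F3q_fa_learn _ _ _ hv (F3q_fa_mB _ _ _ ?_ ?_)
        · rw [hobs, ← hbit]
          rfl
        · have hrun : ((bitL η π ((e.kna (.l η π) (w.2.2.1 (.l η π))).B.s w.2.1 w.2.2.1) :
              Comp (Th X S J K) K (CS StB S J K × Pb Mg J V)).run w.2.2.1).2 =
              .bit (decide (∃ j, w.2.2.1 (.c s (some j)) = π)) := by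
            rw [← hbit]
            rfl
          have hrl1 := F3q_rl_upB hrl (bitL η π : CS StB S J K →
            Comp (Th X S J K) K (CS StB S J K × Pb Mg J V))
          rw [hrun] at hQ1 hrl1 ⊢
          by_cases hj : ∃ j, w.2.2.1 (.c s (some j)) = π
          · rw [decide_eq_true hj] at hQ1 hrl1 ⊢
            refine hc _ _ (gi_confB (gi_silB hgi (fun c => .bit (ownL η π c)) (.bit true)) η
              (.l η π) _ hlk (fun hd => hl (hg.wB _ hd)) hp ?_) ⟨?_, hrl1⟩ ⟨rfl, rfl, hkW⟩ hQ1
            · intro p hp1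
              have hgi' := (gi_silB hgi (fun c => (.bit (ownL η π c) : Pb Mg J V))
                (.bit true)).sB p hp1
              rw [mem_sup] at hp1
              have h1 : (Pb.bit (ownL η π (e.B.s p.1 p.2.1)) : Pb Mg J V) = .bit true := hp1.1.2
              have h2 : ownL η π (e.B.s p.1 p.2.1) = true := by
                injection h1
              exact F3q_ownL hgi'.cn h2
            · have h1 := hWt hj
              show WI F w.2.2.1 _ _ _ (e.B.q w.2.1 w.2.2.1 ++ []) _ _ _ _ _
              rw [List.append_nil]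
              exact h1
          · rw [decide_eq_false hj] at hQ1 hrl1 ⊢
            have hB : ownL η π (e.B.s w.2.1 w.2.2.1) = false := by
              rw [hbit, decide_eq_false hj]
            have h1 := wx_l0 η π h htr hη hbad' hA hB
            exact hc _ _ (gi_silB hgi (fun c => .bit (ownL η π c)) (.bit false))
              (wx_silB h1 (fun c => .bit (ownL η π c)) (.bit false) (congrArg Pb.bit hB))
              ⟨rfl, rfl, hkW⟩ hQ1
  · -- the key is known
    obtain ⟨hsW, hs1⟩ := h.1.tr2 η s htr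
    have hwx := wx_lk s η π h htr hη hbad'
    rcases hop : e.T.op s π with _ | j
    · simp only [labelStep, htr, hop] at hQ ⊢
      refine F3q_fa_learn _ _ _ hv ?_
      exact openStep_fa _ s η π hs1 (hkW _ hsW) hlk hop cont hgi hwx
        (fun e' pre' h1 h2 h3 h4 => hc e' pre' h1 h2
          ⟨h3.1, h3.2.1, fun d hd => h3.2.2 d (hkW d hd)⟩ h4) (F3q_qt_learn _ _ _ hQ)
    · obtain ⟨hjW, hj⟩ := h.1.op2 s π j hop
      simp only [labelStep, htr, hop] at hQ ⊢
      refine F3q_fa_learn _ _ _ hv (hc _ _ hgi ⟨?_, hwx.2⟩ ⟨rfl, rfl, hkW⟩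
        (F3q_qt_learn _ _ _ hQ))
      refine { hwx.1 with pub := ?_ }
      intro s' j' h1 h2
      rcases hwx.1.pub s' j' h1 h2 with h3 | ⟨h3, h4⟩
      · exact Or.inl h3
      · left
        subst h3
        have h5 : (.l η π : Th X S J K) ∈ pre ++ [.l η π] := by simp
        have h6 := fresh_l hbad' h5 h4
        have h7 := fresh_l hbad' h5 hj
        have h8 := (uniq_l hbad' hnice' h6 h7 (h4.trans hj.symm)).2
        rw [h8]
        exact hkW _ hjW

/-! ## Row F4: evaluation by the owner -/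

omit [Finite X] [Finite S] [Finite J] [Fintype K] [Nonempty K] [Fintype RA] [Fintype RB] in
private theorem F4_cn {O : Th X S J K → K} {own : Own S J K} {q : List (Th X S J K)}
    (h : Cn own q O) (l : List X) : Cn own (q ++ l.map .x) O := by
  have hmem : ∀ d, d ∈ q ++ (l.map .x : List (Th X S J K)) → (∀ x, d ≠ .x x) → d ∈ q := by
    intro d hd hx
    refine (List.mem_append.1 hd).resolve_right fun h' => ?_
    obtain ⟨x, _, hx'⟩ := List.mem_map.1 h'
    exact hx x hx'.symm
  constructor
  · exact fun u hu => ⟨(h.val u hu).1, List.mem_append_left _ (h.val u hu).2⟩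
  · exact h.hd
  · exact fun s j hs => h.keys s j (hmem _ hs (by simp))
  · exact fun s j hs => List.mem_append_left _ (h.its s j (hmem _ hs (by simp)))
  · exact fun η π hs => List.mem_append_left _ (h.down η π (hmem _ hs (by simp)))

omit [Finite X] [Finite S] [Finite J] [Fintype K] [Nonempty K] [Fintype RA] [Fintype RB] in
private theorem F4_no (l : List X) (s : S) (j : Option J) :
    (.c s j : Th X S J K) ∉ (l.map .x : List (Th X S J K)) := by
  intro hs'
  obtain ⟨x, _, hx⟩ := List.mem_map.1 hs'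
  cases hx

omit [Finite X] [Finite S] [Finite J] [Fintype K] [Nonempty K] [Fintype RA] [Fintype RB] in
/-- The new state of the invariant, first party. -/
private theorem F4_wiA {O : Th X S J K → K} {ownA ownB : Own S J K}
    {qA qB W pre : List (Th X S J K)} {T : Tb S J K V} {η : K} {P : List K} {r0 : Option V}
    (h : WI F O ownA ownB qA qB W pre T (some η) (fun _ _ => False))
    (hT : T.pr η = some (true, P, r0)) (l : List X)
    (hl : ∀ d ∈ (l.map .x : List (Th X S J K)), d ∈ qB → d ∈ W) (s : S) (js : List J)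
    (hs : O (.c s none) = η) (hsA : .c s none ∈ qA) (hnd : js.Nodup)
    (hj : ∀ j ∈ js, .c s (some j) ∈ qA) (hP : P = lbs O s js) :
    WI F O ownA ownB (qA ++ l.map .x) qB W (pre ++ l.map .x)
      { T with pr := Function.update T.pr η (some (true, P,
        some ((F s js).run (fO O)))) } none (fun _ _ => False) := by
  have hmem : ∀ (s' : S) (j : Option J), .c s' j ∈ qA ++ (l.map .x : List (Th X S J K)) →
      .c s' j ∈ qA := by
    intro s' j hs'
    exact (List.mem_append.1 hs').resolve_right (F4_no l s' j)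
  constructor
  · intro d hd hd'
    rcases List.mem_append.1 hd with h1 | h1
    · exact h.all d h1 hd'
    · exact hl d h1 hd'
  · exact F4_cn h.cnA l
  · exact h.cnB
  · intro d
    rw [List.mem_append, List.mem_append, h.pre_mem]
    tauto
  · exact nice_append h.nice (nice_of_no (F4_no l))
  · exact h.tr1
  · exact h.tr2
  · exact h.op1
  · exact h.op2
  · exact h.wh
  · exact h.itW
  · exact h.downW
  · exact h.pub
  · intro s' hs' hW hη
    obtain ⟨P', r', h1, h2⟩ := h.prA s' (hmem s' _ hs') hW hη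
    by_cases he : O (.c s' none) = η
    · rw [he] at h1
      rw [hT] at h1
      simp only [Option.some.injEq, Prod.mk.injEq, true_and] at h1
      obtain ⟨rfl, rfl⟩ := h1
      exact ⟨P, some ((F s js).run (fO O)), by simp only [he, Function.update_self], h2⟩
    · exact ⟨P', r', by simp only [Function.update_of_ne he, h1], h2⟩
  · intro s' hs' hW hη
    obtain ⟨P', r', h1, h2⟩ := h.prB s' hs' hW hη
    have he : O (.c s' none) ≠ η := by
      intro he
      rw [he, hT] at h1
      simp at h1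
    exact ⟨P', r', by simp only [Function.update_of_ne he, h1], h2⟩
  · intro η' o P' r' h1
    by_cases he : η' = η
    · subst he
      simp only [Function.update_self, Option.some.injEq, Prod.mk.injEq] at h1
      obtain ⟨rfl, rfl, rfl⟩ := h1
      refine ⟨(h.pr1 _ _ _ _ hT).1, (h.pr1 _ _ _ _ hT).2.1, fun h0 => by simp at h0, s, js, hs,
        ?_, hnd, ?_, hP, Or.inr rfl⟩
      · simp only [if_true]
        exact List.mem_append_left _ hsA
      · simp only [if_true]
        exact fun j hj' => List.mem_append_left _ (hj j hj')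
    · simp only [Function.update_of_ne he] at h1
      obtain ⟨k1, k0, k2, s', js', k3, k4, k5, k6, k7, k8⟩ := h.pr1 _ _ _ _ h1
      refine ⟨k1, k0, fun h0 => absurd (Option.some.inj (k2 h0)).symm he, s', js', k3, ?_, k5, ?_,
        k7, k8⟩
      · cases o
        · exact k4
        · exact List.mem_append_left _ k4
      · cases o
        · exact k6
        · exact fun j hj' => List.mem_append_left _ (k6 j hj')

omit [Finite X] [Finite S] [Finite J] [Fintype K] [Nonempty K] [Fintype RA] [Fintype RB] in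
/-- The new state of the invariant, second party. -/
private theorem F4_wiB {O : Th X S J K → K} {ownA ownB : Own S J K}
    {qA qB W pre : List (Th X S J K)} {T : Tb S J K V} {η : K} {P : List K} {r0 : Option V}
    (h : WI F O ownA ownB qA qB W pre T (some η) (fun _ _ => False))
    (hT : T.pr η = some (false, P, r0)) (l : List X)
    (hl : ∀ d ∈ (l.map .x : List (Th X S J K)), d ∈ qA → d ∈ W) (s : S) (js : List J)
    (hs : O (.c s none) = η) (hsB : .c s none ∈ qB) (hnd : js.Nodup)
    (hj : ∀ j ∈ js, .c s (some j) ∈ qB) (hP : P = lbs O s js) :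
    WI F O ownA ownB qA (qB ++ l.map .x) W (pre ++ l.map .x)
      { T with pr := Function.update T.pr η (some (false, P,
        some ((F s js).run (fO O)))) } none (fun _ _ => False) := by
  have hmem : ∀ (s' : S) (j : Option J), .c s' j ∈ qB ++ (l.map .x : List (Th X S J K)) →
      .c s' j ∈ qB := by
    intro s' j hs'
    exact (List.mem_append.1 hs').resolve_right (F4_no l s' j)
  constructor
  · intro d hd hd'
    rcases List.mem_append.1 hd' with h1 | h1
    · exact h.all d hd h1
    · exact hl d h1 hd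
  · exact h.cnA
  · exact F4_cn h.cnB l
  · intro d
    rw [List.mem_append, List.mem_append, h.pre_mem]
    tauto
  · exact nice_append h.nice (nice_of_no (F4_no l))
  · exact h.tr1
  · exact h.tr2
  · exact h.op1
  · exact h.op2
  · exact h.wh
  · exact h.itW
  · exact h.downW
  · exact h.pub
  · intro s' hs' hW hη
    obtain ⟨P', r', h1, h2⟩ := h.prA s' hs' hW hη
    have he : O (.c s' none) ≠ η := by
      intro he
      rw [he, hT] at h1
      simp at h1
    exact ⟨P', r', by simp only [Function.update_of_ne he, h1], h2⟩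
  · intro s' hs' hW hη
    obtain ⟨P', r', h1, h2⟩ := h.prB s' (hmem s' _ hs') hW hη
    by_cases he : O (.c s' none) = η
    · rw [he] at h1
      rw [hT] at h1
      simp only [Option.some.injEq, Prod.mk.injEq, true_and] at h1
      obtain ⟨rfl, rfl⟩ := h1
      exact ⟨P, some ((F s js).run (fO O)), by simp only [he, Function.update_self], h2⟩
    · exact ⟨P', r', by simp only [Function.update_of_ne he, h1], h2⟩
  · intro η' o P' r' h1
    by_cases he : η' = η
    · subst he
      simp only [Function.update_self, Option.some.injEq, Prod.mk.injEq] at h1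
      obtain ⟨rfl, rfl, rfl⟩ := h1
      refine ⟨(h.pr1 _ _ _ _ hT).1, (h.pr1 _ _ _ _ hT).2.1, fun h0 => by simp at h0, s, js, hs,
        ?_, hnd, ?_, hP, Or.inr rfl⟩
      · simp only [Bool.false_eq_true, if_false]
        exact List.mem_append_left _ hsB
      · simp only [Bool.false_eq_true, if_false]
        exact fun j hj' => List.mem_append_left _ (hj j hj')
    · simp only [Function.update_of_ne he] at h1
      obtain ⟨k1, k0, k2, s', js', k3, k4, k5, k6, k7, k8⟩ := h.pr1 _ _ _ _ h1
      refine ⟨k1, k0, fun h0 => absurd (Option.some.inj (k2 h0)).symm he, s', js', k3, ?_, k5, ?_,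
        k7, k8⟩
      · cases o
        · exact List.mem_append_left _ k4
        · exact k4
      · cases o
        · exact fun j hj' => List.mem_append_left _ (k6 j hj')
        · exact k6

private theorem F4_map_inj {α β : Type} (f : α → β) : ∀ (l l' : List α),
    (∀ x ∈ l, ∀ y ∈ l', f x = f y → x = y) → l.map f = l'.map f → l = l'
  | [], l', _, h => by
    rw [List.map_nil] at h
    exact (List.map_eq_nil_iff.mp h.symm).symm
  | x :: l, [], _, h => by simp at h
  | x :: l, y :: l', hf, h => by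
    simp only [List.map_cons, List.cons.injEq] at h
    have h1 := hf x (by simp) y (by simp) h.1
    have h2 := F4_map_inj f l l' (fun x' hx' y' hy' => hf x' (by simp [hx']) y' (by simp [hy'])) h.2
    rw [h1, h2]

omit [Finite X] [Finite S] [Finite J] [Fintype K] [Nonempty K] [Fintype RA] [Fintype RB] in
/-- The computation of the owner, and the evaluation in the real world. -/
private theorem F4_leak {St : Type} {O : Th X S J K → K} (c : CS St S J K)
    {q pre : List (Th X S J K)} {η : K} {P : List K} (hb : ¬ Bad gK O pre) (hn : Nice O pre)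
    (hcn : Cn c.own q O) (hqp : ∀ d ∈ q, d ∈ pre) (hη : .h η ∈ pre)
    (hPl : ∀ π ∈ P, .l η π ∈ pre) (s : S) (js : List J) (hs : O (.c s none) = η)
    (hsq : .c s none ∈ q) (hnd : js.Nodup) (hj : ∀ j ∈ js, .c s (some j) ∈ q)
    (hP : P = lbs O s js) (hla : (labs c.own).length ≤ a) :
    (leakC F η P c : Comp (Th X S J K) K (CS St S J K × Pb Mg J V)).run O =
      (c, .lk (some ((F s js).run (fO O)))) ∧
    (leakC F η P c : Comp (Th X S J K) K (CS St S J K × Pb Mg J V)).asked O =
      ((F s js).asked (fO O)).map .x ∧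
    (obsL η P : Comp (Qry X S J K) (Ans J K V) (Pb Mg J V)).run (wd a F O) =
      .lk (some ((F s js).run (fO O))) := by
  have huq : ∀ s', O (.c s' none) = η → s' = s := by
    intro s' hs'
    have h1 := fresh_h hb hη hs'
    have h2 := fresh_h hb hη hs
    exact uniq_h hb hn h1 h2 (hs'.trans hs.symm)
  have hlk : lkH c.own η = some s := by
    cases hk : lkH c.own η with
    | none =>
      have := hcn.keys s none hsq
      rw [hs] at this
      exact absurd this (lkH_none hk s)
    | some s' =>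
      have h1 := (hcn.val _ (lkH_some hk)).1
      rw [huq s' h1.symm]
  have hlL : ∀ j ∈ js, lkL c.own s (O (.c s (some j))) = some j := by
    intro j hj'
    cases hk : lkL c.own s (O (.c s (some j))) with
    | none => exact absurd (hcn.keys s (some j) (hj j hj')) (lkL_none hk j)
    | some j' =>
      have h1 := hcn.val _ (lkL_some hk)
      have h2 := uniq_l hb hn (hqp _ h1.2) (hqp _ (hj j hj')) h1.1.symm
      rw [h2.2]
  have hrs : rsv (lkL c.own s) P = some js := by
    rw [rsv_some, hP, lbs, List.map_map]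
    refine List.map_congr_left fun j hj' => ?_
    exact hlL j hj'
  have hlen : P.length ≤ a := by
    refine le_trans ?_ hla
    rw [hP, lbs, List.length_map]
    have h1 : (js.map fun j => ((s, some j, O (.c s (some j))) : S × Option J × K)).Nodup := by
      refine hnd.map ?_
      intro j j' hjj
      simp only [Prod.mk.injEq, Option.some.injEq, true_and] at hjj
      exact hjj.1
    have h2 : (js.map fun j => ((s, some j, O (.c s (some j))) : S × Option J × K)) ⊆
        labs c.own := by
      intro u hu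
      obtain ⟨j, hj', rfl⟩ := List.mem_map.1 hu
      rw [labs, List.mem_filter]
      exact ⟨hcn.keys s (some j) (hj j hj'), by simp⟩
    have h3 := (h1.subperm h2).length_le
    rwa [List.length_map] at h3
  refine ⟨?_, ?_, ?_⟩
  · unfold leakC
    rw [hlk]
    simp only [hrs]
    simp only [Comp.run_bind, Comp.run_ret, run_lift]
  · unfold leakC
    rw [hlk]
    simp only [hrs]
    simp only [Comp.asked_bind, Comp.asked_ret, List.append_nil, asked_lift]
  · unfold obsL
    rw [Comp.run_ask, Comp.run_ret, orc_ev_some a F O η P s js hlen hs hP.symm huq ?_]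
    intro js' hjs
    have hjs' : js'.map (fun j => O (.c s (some j))) = js.map (fun j => O (.c s (some j))) := by
      rw [hP] at hjs
      exact hjs
    refine F4_map_inj _ js' js ?_ hjs'
    intro x hx y hy hxy
    have h1 : O (.c s (some x)) ∈ P := by
      rw [← hjs]
      exact List.mem_map.2 ⟨x, hx, rfl⟩
    have h2 := fresh_l hb (hPl _ h1) (s := s) (j := x) rfl
    exact (uniq_l hb hn h2 (hqp _ (hj y hy)) hxy).2

theorem leakStep_fa (hna : n ≤ a) (hF : ∀ f s js, ((F s js).asked f).length ≤ m) (η : K)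
    (hp : e.pend = some η)
    (cont : Env X S J K V StA StB RA RB → PT X S J K V Mg StA StB) (hg : GI a n m e)
    (h : WE F e w pre)
    (hc : ∀ (e' : Env X S J K V StA StB RA RB) pre', GI a n m e' → WE F e' w pre' → Sm e e' w →
      Qt (cont e') e' w pre' → Fa (wd a F w.2.2.1) t sa sb (cont e') e' w)
    (hQ : Qt (leakStep F e η cont) e w pre) :
    Fa (wd a F w.2.2.1) t sa sb (leakStep F e η cont) e w := by
  obtain ⟨hW, hrl⟩ := h
  rw [hp] at hW
  have hb0 : ¬ Bad gK w.2.2.1 pre := fun hB => hQ.2.2 (bad_append hB)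
  have hDw : Dw SV cel e.A e.B e.kn w := fun d _ h1 h2 => hW.all d h1 h2
  have hWpre : ∀ d, d ∈ e.kn.map Prod.fst → d ∈ pre := fun d hd => (hW.pre_mem d).2 (Or.inr (Or.inr hd))
  rcases hT : e.T.pr η with _ | ⟨o, P, r0⟩
  · have e1 : leakStep F e η cont = cont { e with pend := none } := by
      unfold leakStep
      rw [hT]
    rw [e1] at hQ ⊢
    refine hc { e with pend := none } pre (gi_leak0 hg) ⟨?_, hrl⟩ ⟨rfl, rfl, fun d hd => hd⟩ hQ
    refine { hW with pr1 := ?_ }
    intro η' o P r h1
    obtain ⟨k1, k0, k2, k3⟩ := hW.pr1 η' o P r h1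
    refine ⟨k1, k0, fun h0 => ?_, k3⟩
    have := Option.some.inj (k2 h0)
    rw [← this, hT] at h1
    exact absurd h1 (by simp)
  obtain ⟨k1, k0, -, s, js, k3, k4, k5, k6, k7, -⟩ := hW.pr1 η o P r0 hT
  have hPl : ∀ π ∈ P, .l η π ∈ pre := fun π hπ => hWpre _ (k0 π hπ)
  have hmr := (mem_rl SV).mp hrl
  cases o with
  | true =>
    simp only [if_true] at k4 k6
    have hlab : (labs (e.A.s w.1 w.2.2.1).own).length ≤ a := by
      have h1 := (hg.sA (w.1, w.2.2) ((mem_sup SV).mpr ⟨hmr.1, hmr.2.2⟩)).lab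
      simp only at h1
      omega
    have hqp : ∀ d ∈ e.A.q w.1 w.2.2.1, d ∈ pre := fun d hd => (hW.pre_mem d).2 (Or.inl hd)
    obtain ⟨r1, r2, r3⟩ := F4_leak (a := a) (F := F) (Mg := Mg) (e.A.s w.1 w.2.2.1) hb0 hW.nice
      hW.cnA hqp (hWpre _ k1) hPl s js k3 k4 k5 k6 k7 hlab
    set v : Option V := some ((F s js).run (fO w.2.2.1)) with hv
    have e1 : leakStep F e η cont = .mA (.inr (obsL η P)) (leakC F η P) fun m =>
        match m with
        | .lk r => cont { (e.upA (leakC F η P) m).setPr η true P r with pend := none }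
        | _ => .stop 4 := by
      unfold leakStep
      rw [hT]
      rfl
    set e' : Env X S J K V StA StB RA RB :=
      { (e.upA (leakC F η P) (.lk v : Pb Mg J V)).setPr η true P v with pend := none } with he'
    have hrs : Proc.rsA SV (leakC F η P : CS StA S J K → Comp (Th X S J K) K
        (CS StA S J K × Pb Mg J V)) e.A w = .lk v := congrArg Prod.snd r1
    rw [e1] at hQ ⊢
    obtain ⟨q1, q2, q3⟩ := hQ
    simp only [Proc.hits, hrs] at q1
    simp only [Proc.lf, hrs] at q2
    simp only [Proc.flat, Comp.asked_bind, r1] at q3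
    have hst : e'.A.s w.1 w.2.2.1 = e.A.s w.1 w.2.2.1 := congrArg Prod.fst r1
    have hhit : ∀ d ∈ (((F s js).asked (fO w.2.2.1)).map .x : List (Th X S J K)),
        d ∈ e.B.q w.2.1 w.2.2.1 → d ∈ e.kn.map Prod.fst := by
      intro d hd hd'
      by_contra hd''
      rw [if_pos ⟨hDw, d, by rw [r2]; exact hd, hd', hd''⟩] at q1
      omega
    have hWI := F4_wiA (F := F) hW hT _ hhit s js k3 k4 k5 k6 k7
    have hG := gi_leakA (Mg := Mg) F hF hg η P r0 v (.lk v) hp hT
    have hrl' : w ∈ rl SV e'.A e'.B e'.kn := by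
      simp only [rl, Finset.mem_filter, Finset.mem_univ, true_and] at hrl ⊢
      exact ⟨⟨hrl.1, congrArg Prod.snd r1⟩, hrl.2⟩
    have hfin := hc e' (pre ++ ((F s js).asked (fO w.2.2.1)).map .x) hG ⟨by
        have e2 : e'.A.q w.1 w.2.2.1 = e.A.q w.1 w.2.2.1 ++
            ((F s js).asked (fO w.2.2.1)).map .x := by
          rw [← r2]; rfl
        rw [hst, e2]
        exact hWI, hrl'⟩ ⟨hst, rfl, fun d hd => hd⟩ ⟨(Nat.add_eq_zero_iff.1 q1).2, q2, by
          rw [hst, List.append_assoc, ← r2]
          exact q3⟩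
    obtain ⟨f1, f2⟩ := hfin
    refine ⟨?_, ?_⟩
    · simp only [Proc.faith, r1, r3, true_and]
      rw [hst] at f1
      exact f1
    · simp only [Proc.lf, Proc.fin, hrs]
      exact f2
  | false =>
    simp only [Bool.false_eq_true, if_false] at k4 k6
    have hlab : (labs (e.B.s w.2.1 w.2.2.1).own).length ≤ a := by
      have h1 := (hg.sB (w.2.1, w.2.2) ((mem_sup SV).mpr ⟨hmr.2.1, hmr.2.2⟩)).lab
      simp only at h1
      omega
    have hqp : ∀ d ∈ e.B.q w.2.1 w.2.2.1, d ∈ pre := fun d hd =>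
      (hW.pre_mem d).2 (Or.inr (Or.inl hd))
    obtain ⟨r1, r2, r3⟩ := F4_leak (a := a) (F := F) (Mg := Mg) (e.B.s w.2.1 w.2.2.1) hb0 hW.nice
      hW.cnB hqp (hWpre _ k1) hPl s js k3 k4 k5 k6 k7 hlab
    set v : Option V := some ((F s js).run (fO w.2.2.1)) with hv
    have e1 : leakStep F e η cont = .mB (.inr (obsL η P)) (leakC F η P) fun m =>
        match m with
        | .lk r => cont { (e.upB (leakC F η P) m).setPr η false P r with pend := none }
        | _ => .stop 4 := by
      unfold leakStep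
      rw [hT]
      rfl
    set e' : Env X S J K V StA StB RA RB :=
      { (e.upB (leakC F η P) (.lk v : Pb Mg J V)).setPr η false P v with pend := none } with he'
    have hrs : Proc.rsB SV (leakC F η P : CS StB S J K → Comp (Th X S J K) K
        (CS StB S J K × Pb Mg J V)) e.B w = .lk v := congrArg Prod.snd r1
    rw [e1] at hQ ⊢
    obtain ⟨q1, q2, q3⟩ := hQ
    simp only [Proc.hits, hrs] at q1
    simp only [Proc.lf, hrs] at q2
    simp only [Proc.flat, Comp.asked_bind, r1] at q3
    have hst : e'.B.s w.2.1 w.2.2.1 = e.B.s w.2.1 w.2.2.1 := congrArg Prod.fst r1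
    have hhit : ∀ d ∈ (((F s js).asked (fO w.2.2.1)).map .x : List (Th X S J K)),
        d ∈ e.A.q w.1 w.2.2.1 → d ∈ e.kn.map Prod.fst := by
      intro d hd hd'
      by_contra hd''
      rw [if_pos ⟨hDw, d, by rw [r2]; exact hd, hd', hd''⟩] at q1
      omega
    have hWI := F4_wiB (F := F) hW hT _ hhit s js k3 k4 k5 k6 k7
    have hG := gi_leakB (Mg := Mg) F hF hg η P r0 v (.lk v) hp hT
    have hrl' : w ∈ rl SV e'.A e'.B e'.kn := by
      simp only [rl, Finset.mem_filter, Finset.mem_univ, true_and] at hrl ⊢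
      exact ⟨hrl.1, ⟨hrl.2.1, congrArg Prod.snd r1⟩, hrl.2.2⟩
    have hfin := hc e' (pre ++ ((F s js).asked (fO w.2.2.1)).map .x) hG ⟨by
        have e2 : e'.B.q w.2.1 w.2.2.1 = e.B.q w.2.1 w.2.2.1 ++
            ((F s js).asked (fO w.2.2.1)).map .x := by
          rw [← r2]; rfl
        rw [hst, e2]
        exact hWI, hrl'⟩ ⟨rfl, hst, fun d hd => hd⟩ ⟨(Nat.add_eq_zero_iff.1 q1).2, q2, by
          rw [hst, List.append_assoc, ← r2]
          exact q3⟩
    obtain ⟨f1, f2⟩ := hfin
    refine ⟨?_, ?_⟩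
    · simp only [Proc.faith, r1, r3, true_and]
      rw [hst] at f1
      exact f1
    · simp only [Proc.lf, Proc.fin, hrs]
      exact f2

/-! ## Row F5: the learning loop.  In a label step the handle is known: otherwise it is heavy, since
by `down` of `GI` who has touched the label has touched the handle. -/

theorem hv_down (hg : GI a n m e) (η π : K)
    (h : Hv SV cel L e.A e.B e.kn (.l η π)) (h' : ¬ Hv SV cel L e.A e.B e.kn (.h η)) :
    .h η ∈ e.kn.map Prod.fst := by
  by_contra hn
  apply h'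
  refine ⟨hn, h.2.trans (Nat.mul_le_mul_left L (Nat.add_le_add ?_ ?_))⟩
  · unfold tA
    refine Finset.card_le_card fun z hz => ?_
    rw [Finset.mem_filter] at hz ⊢
    refine ⟨hz.1, ?_⟩
    have hz1 := hz.1
    simp only [gp, Finset.mem_filter, Finset.mem_product] at hz1
    exact (hg.sA z.1 hz1.1.1).cn.down η π hz.2
  · unfold tB
    refine Finset.card_le_card fun z hz => ?_
    rw [Finset.mem_filter] at hz ⊢
    refine ⟨hz.1, ?_⟩
    have hz1 := hz.1
    simp only [gp, Finset.mem_filter, Finset.mem_product] at hz1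
    exact (hg.sB z.2 hz1.1.2).cn.down η π hz.2

omit [Finite X] [Finite S] [Finite J] [Fintype RA] [Fintype RB] in
private theorem F5_stop (ρ : Qry X S J K → Ans J K V) (k : ℕ) :
    Fa ρ t sa sb (.stop (k + 1) : PT X S J K V Mg StA StB) e w :=
  ⟨trivial, fun h => absurd h (by simp [Proc.lf])⟩

private theorem F5_kn (h : WE F e w pre) (d : Th X S J K) (v : K) (hd : (d, v) ∈ e.kn) :
    w.2.2.1 d = v := by
  have h2 := h.2
  simp only [rl, Finset.mem_filter, Finset.mem_univ, true_and] at h2
  exact h2.2.2 (d, v) hd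

omit [Finite X] [Finite S] [Finite J] [Fintype K] in
private theorem F5_obs (O : Th X S J K → K) (s : S) (j : Option J) :
    (obsE s j : Comp (Qry X S J K) (Ans J K V) K).run (wd a F O) = O (.c s j) := by
  simp [obsE, Comp.run, wd, orc, LO]

theorem body_fa (hna : n ≤ a) (hF : ∀ f s js, ((F s js).asked f).length ≤ m)
    (cont : Env X S J K V StA StB RA RB → PT X S J K V Mg StA StB)
    (k : PT X S J K V Mg StA StB) (hg : GI a n m e) (h : WE F e w pre)
    (hk : Lgt N L e → Qt k e w pre → Fa (wd a F w.2.2.1) t sa sb k e w)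
    (hc : ∀ (e' : Env X S J K V StA StB RA RB) pre', GI a n m e' → WE F e' w pre' → Sm e e' w →
      Qt (cont e') e' w pre' → Fa (wd a F w.2.2.1) t sa sb (cont e') e' w)
    (hQ : Qt (body F N L e cont k) e w pre) :
    Fa (wd a F w.2.2.1) t sa sb (body F N L e cont k) e w := by
  unfold body at hQ ⊢
  by_cases h1 : Lgt N L e
  · rw [if_pos h1] at hQ ⊢
    exact hk h1 hQ
  rw [if_neg h1] at hQ ⊢
  by_cases h2 : ¬ Gd SV cel e.A e.B e.kn
  · rw [if_pos h2] at hQ ⊢
    exact F5_stop _ 1
  rw [if_neg h2] at hQ ⊢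
  by_cases hx : ∃ x, Hv SV cel N e.A e.B e.kn (.x x)
  · rw [dif_pos hx] at hQ ⊢
    exact xStep_fa hx.choose cont hg h hc hQ
  rw [dif_neg hx] at hQ ⊢
  by_cases hs : ∃ s, Hv SV cel N e.A e.B e.kn (.c s none)
  · rw [dif_pos hs] at hQ ⊢
    exact keyStep_fa hs.choose hs.choose_spec.1 cont hg h hc hQ
  rw [dif_neg hs] at hQ ⊢
  by_cases hj : ∃ z : S × J × K, Hv SV cel N e.A e.B e.kn (.c z.1 (some z.2.1)) ∧
      (.c z.1 none, z.2.2) ∈ e.kn
  · rw [dif_pos hj] at hQ ⊢
    have hz := hj.choose_spec.2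
    refine lcell_fa (ex := fun _ _ => False) hj.choose.1 hj.choose.2.1 hj.choose.2.2
      (obsE hj.choose.1 (some hj.choose.2.1)) (F5_obs _ _ _) (F5_kn h _ _ hz)
      (List.mem_map.2 ⟨_, hz, rfl⟩) cont hg h ?_ hQ
    intro e' pre' hg' h' hs' hQ'
    exact hc e' pre' hg' (wx_mono h' fun s π hh => hh.1) hs' hQ'
  rw [dif_neg hj] at hQ ⊢
  by_cases h3 : ∃ d, cel d ∧ Hv SV cel N e.A e.B e.kn d
  · rw [if_pos h3] at hQ ⊢
    exact F5_stop _ 3
  rw [if_neg h3] at hQ ⊢
  cases hp : e.pend with
  | some η =>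
    simp only [hp] at hQ ⊢
    exact leakStep_fa hna hF η hp cont hg h hc hQ
  | none =>
    simp only [hp] at hQ ⊢
    by_cases h4 : ∃ η, Hv SV cel L e.A e.B e.kn (.h η)
    · rw [dif_pos h4] at hQ ⊢
      exact handleStep_fa _ h4.choose_spec.1 hp cont hg h hc hQ
    rw [dif_neg h4] at hQ ⊢
    by_cases h5 : ∃ z : K × K, Hv SV cel L e.A e.B e.kn (.l z.1 z.2)
    · rw [dif_pos h5] at hQ ⊢
      refine labelStep_fa hna _ _ ?_ h5.choose_spec.1 hp cont hg h hc hQ
      exact hv_down hg _ _ h5.choose_spec fun hh => h4 ⟨_, hh⟩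
    · rw [dif_neg h5] at hQ ⊢
      exact F5_stop _ 3

theorem closeT_fa (hna : n ≤ a) (hF : ∀ f s js, ((F s js).asked f).length ≤ m)
    (k : ℕ → Env X S J K V StA StB RA RB → PT X S J K V Mg StA StB) :
    ∀ j (e : Env X S J K V StA StB RA RB) pre, GI a n m e → WE F e w pre →
      (∀ j' (e' : Env X S J K V StA StB RA RB) pre', GI a n m e' → WE F e' w pre' → Sm e e' w →
        Lgt N L e' → Qt (k j' e') e' w pre' → Fa (wd a F w.2.2.1) t sa sb (k j' e') e' w) →
      Qt (closeT F N L k j e) e w pre →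
      Fa (wd a F w.2.2.1) t sa sb (closeT F N L k j e) e w := by
  intro j
  induction j with
  | zero =>
    intro e pre hg h hk hQ
    unfold closeT at hQ ⊢
    by_cases h1 : Lgt N L e
    · rw [if_pos h1] at hQ ⊢
      exact hk 0 e pre hg h ⟨rfl, rfl, fun _ h => h⟩ h1 hQ
    · rw [if_neg h1] at hQ ⊢
      exact F5_stop _ 0
  | succ j ih =>
    intro e pre hg h hk hQ
    refine body_fa hna hF (closeT F N L k j) (k (j + 1) e) hg h
      (fun hl hQ' => hk (j + 1) e pre hg h ⟨rfl, rfl, fun _ h => h⟩ hl hQ') ?_ hQ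
    intro e' pre' hg' h' hs' hQ'
    refine ih e' pre' hg' h' ?_ hQ'
    intro j'' e'' pre'' hg'' h'' hs'' hl'' hQ''
    exact hk j'' e'' pre'' hg'' h'' ⟨hs''.1.trans hs'.1, hs''.2.1.trans hs'.2.1,
      fun d hd => hs''.2.2 d (hs'.2.2 d hd)⟩ hl'' hQ''

end

section

variable {X S J K V Mg RA RB : Type} [Finite X] [Finite S] [Finite J] [Fintype K]
  [Nonempty K] [Fintype RA] [Fintype RB]

variable {I I' : Type} (A : Party (Qry X S J K) (Ans J K V) Mg I)
  (B : Party (Qry X S J K) (Ans J K V) Mg I')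

variable {F : S → List J → Comp X K V} {G : V → List ℕ → Comp X K V} {a n m N L : ℕ}
  {e : Env X S J K V A.St B.St RA RB}
  {w : RA × RB × Orc (SV : Th X S J K → Finset K)} {pre : List (Th X S J K)}

/-! ## Row F6: steps of the protocol.  `WI` gives the context `Rt` for the party which runs
(`pend = none`, so all entries of `pr` have a value; the list `js` of an entry has at most `n`
elements by `SI.lab`), then `cmp_run`; afterwards `WI` again (`cmp_inv`, `nice_cmp`). -/

private theorem F6_step {I0 : Type} (P : Party (Qry X S J K) (Ans J K V) Mg I0) (a : ℕ)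
    (F : S → List J → Comp X K V) (G : V → List ℕ → Comp X K V) (m0 μ : Mg)
    (T : Tb S J K V) (c : CS P.St S J K) (O : Th X S J K → K) :
    (stepC a F G P m0 T μ c).asked O = (cmp a F G T (P.step c.st μ) c.own c.fuel).asked O := by
  unfold stepC
  rw [Comp.asked_bind]
  rcases ((cmp a F G T (P.step c.st μ) c.own c.fuel).run O).1 with _ | x
  · simp
  · simp

private theorem F6_run {I0 : Type} (P : Party (Qry X S J K) (Ans J K V) Mg I0) (a : ℕ)
    (F : S → List J → Comp X K V) (G : V → List ℕ → Comp X K V) (m0 μ : Mg)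
    (T : Tb S J K V) (c : CS P.St S J K) (O : Th X S J K → K) (x : P.St × Mg)
    (own' : Own S J K) (n' : ℕ)
    (h : (cmp a F G T (P.step c.st μ) c.own c.fuel).run O = (some x, own', n')) :
    (stepC a F G P m0 T μ c).run O = (⟨x.1, own', n'⟩, .msg x.2) := by
  unfold stepC
  rw [Comp.run_bind, h]
  rfl

/-- at most `n` different labels are owned -/
private theorem F6_len {St : Type} {a n m : ℕ} {pd : Prop} {p : Finset (Th X S J K)}
    {c : CS St S J K} {q : List (Th X S J K)} {O : Th X S J K → K} (h : SI a n m pd p c q O)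
    (s : S) (js : List J) (hn : js.Nodup) (hj : ∀ j ∈ js, .c s (some j) ∈ q) : js.length ≤ n := by
  have h1 : (js.map fun j => (s, some j, O (.c s (some j)))).Subperm (labs c.own) := by
    apply List.Nodup.subperm
    · exact hn.map fun j j' hjj => by
        have h2 : (some j, O (.c s (some j))) = (some j', O (.c s (some j'))) := (Prod.mk.inj hjj).2
        exact Option.some.inj (Prod.mk.inj h2).1
    · intro u hu
      obtain ⟨j, hj1, rfl⟩ := List.mem_map.1 hu
      refine List.mem_filter.2 ⟨h.cn.keys s (some j) (hj j hj1), ?_⟩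
      exact decide_eq_true (Option.some_ne_none j)
  have h2 := h1.length_le
  rw [List.length_map] at h2
  have h3 := h.lab
  omega

private theorem F6_supA (hw : w ∈ rl SV e.A e.B e.kn) : (w.1, w.2.2) ∈ sup SV e.A e.kn := by
  simp only [rl, sup, Finset.mem_filter, Finset.mem_univ, true_and] at hw ⊢
  exact ⟨hw.1, hw.2.2⟩

private theorem F6_supB (hw : w ∈ rl SV e.A e.B e.kn) : (w.2.1, w.2.2) ∈ sup SV e.B e.kn := by
  simp only [rl, sup, Finset.mem_filter, Finset.mem_univ, true_and] at hw ⊢
  exact ⟨hw.2.1, hw.2.2⟩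

theorem wi_rtA (hna : n ≤ a) (hg : GI a n m e) (h : WE F e w pre) (hp : e.pend = none)
    (hb : ¬ Bad gK w.2.2.1 pre) :
    Rt a F w.2.2.1 e.T (e.B.q w.2.1 w.2.2.1) (e.kn.map Prod.fst)
      (e.A.s w.1 w.2.2.1).own pre := by
  obtain ⟨h, hw⟩ := h
  have hsA := hg.sA _ (F6_supA A B hw)
  have hsB := hg.sB _ (F6_supB A B hw)
  exact {
    val := fun u hu => ⟨(h.cnA.val u hu).1, (h.pre_mem _).2 (Or.inl (h.cnA.val u hu).2)⟩
    hd := h.cnA.hd
    keys := fun s j hs => by
      rcases (h.pre_mem _).1 hs with h1 | h1 | h1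
      · exact Or.inl (h.cnA.keys s j h1)
      · exact Or.inr (Or.inl h1)
      · exact Or.inr (Or.inr h1)
    cm := fun u hu h1 => h.all _ (h.cnA.val u hu).2 h1
    yp := fun d hd => (h.pre_mem d).2 (Or.inr (Or.inl hd))
    wp := fun d hd => (h.pre_mem d).2 (Or.inr (Or.inr hd))
    nice := h.nice
    yh := fun s j hs => (h.cnB.val _ (h.cnB.hd _ (h.cnB.keys s j hs))).2
    yi := h.cnB.its
    wh := h.wh
    tr1 := h.tr1
    tr2 := h.tr2
    op1 := h.op1
    op2 := h.op2
    pub := fun s j h1 h2 => (h.pub s j h1 h2).resolve_right id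
    pr1 := fun s hs hsW hh => by
      obtain ⟨P, r, e1, e2⟩ := h.prB s hs hsW hh
      obtain ⟨-, -, h2, s', js, h3, h4, h5, h6, h7, h8⟩ := h.pr1 _ _ _ _ e1
      have h4' : (.c s' none : Th X S J K) ∈ e.B.q w.2.1 w.2.2.1 := by simpa using h4
      have h6' : ∀ j ∈ js, (.c s' (some j) : Th X S J K) ∈ e.B.q w.2.1 w.2.2.1 := by
        simpa using h6
      have hss : s' = s := uniq_h hb h.nice ((h.pre_mem _).2 (Or.inr (Or.inl h4')))
        ((h.pre_mem _).2 (Or.inr (Or.inl hs))) h3
      subst hss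
      have hr : r = some ((F s' js).run (fO w.2.2.1)) := by
        rcases h8 with h8 | h8
        · have := h2 h8
          rw [hp] at this
          cases this
        · exact h8
      refine ⟨false, js, (F6_len hsB s' js h5 h6').trans hna, ?_, ?_⟩
      · rw [e1, hr, h7]
      · intro j hj
        rw [← h7]
        exact e2 j hj
    pr2 := fun η o P v e1 => by
      obtain ⟨-, -, -, s, js, h3, h4, h5, h6, h7, h8⟩ := h.pr1 _ _ _ _ e1
      refine ⟨s, js, h3, ?_, h7, ?_, ?_⟩
      · rw [h.pre_mem]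
        cases o
        · exact Or.inr (Or.inl (by simpa using h4))
        · exact Or.inl (by simpa using h4)
      · cases o
        · exact (F6_len hsB s js h5 (by simpa using h6)).trans hna
        · exact (F6_len hsA s js h5 (by simpa using h6)).trans hna
      · rcases h8 with h8 | h8
        · cases h8
        · exact Option.some.inj h8 }

theorem msgA_fa (hna : n ≤ a) (hG : ∀ f s js js' (i : List ℕ), js.length ≤ a →
      js'.map some = i.map (fun x => js[x]?) → (G ((F s js).run f) i).run f = (F s js').run f)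
    (m0 μ : Mg) (hg : GI a n m e) (h : WE F e w pre) (hp : e.pend = none)
    (hf : ((A.step (e.A.s w.1 w.2.2.1).st μ).asked (wd a F w.2.2.1)).length ≤
      (e.A.s w.1 w.2.2.1).fuel)
    (hb : ¬ Bad gK w.2.2.1
      (pre ++ (stepC a F G A m0 e.T μ (e.A.s w.1 w.2.2.1)).asked w.2.2.1))
    (hh : ¬ hitA SV (stepC a F G A m0 e.T μ) e.A e.B e.kn w) :
    ∃ own', ((stepC a F G A m0 e.T μ (e.A.s w.1 w.2.2.1)).run w.2.2.1) =
      (⟨((A.step (e.A.s w.1 w.2.2.1).st μ).run (wd a F w.2.2.1)).1, own',
        (e.A.s w.1 w.2.2.1).fuel -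
          ((A.step (e.A.s w.1 w.2.2.1).st μ).asked (wd a F w.2.2.1)).length⟩,
        .msg ((A.step (e.A.s w.1 w.2.2.1).st μ).run (wd a F w.2.2.1)).2) ∧
      WE F (e.upA (stepC a F G A m0 e.T μ)
        (.msg ((A.step (e.A.s w.1 w.2.2.1).st μ).run (wd a F w.2.2.1)).2)) w
        (pre ++ (stepC a F G A m0 e.T μ (e.A.s w.1 w.2.2.1)).asked w.2.2.1) := by
  have hbp : ¬ Bad gK w.2.2.1 pre := fun hb' => hb (bad_append hb')
  have hrt := wi_rtA A B hna hg h hp hbp
  have hq := F6_step A a F G m0 μ e.T (e.A.s w.1 w.2.2.1) w.2.2.1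
  have hhit : ∀ d ∈ (stepC a F G A m0 e.T μ (e.A.s w.1 w.2.2.1)).asked w.2.2.1,
      d ∈ e.B.q w.2.1 w.2.2.1 → d ∈ e.kn.map Prod.fst := by
    intro d hd hd'
    by_contra hcon
    exact hh ⟨d, hd, hd', hcon⟩
  obtain ⟨own', hrun, -⟩ := cmp_run a F G hG w.2.2.1 e.T (e.B.q w.2.1 w.2.2.1) (e.kn.map Prod.fst)
    (A.step (e.A.s w.1 w.2.2.1).st μ) (e.A.s w.1 w.2.2.1).own pre (e.A.s w.1 w.2.2.1).fuel hrt hf
    (by rw [← hq]; exact hb) (by rw [← hq]; exact hhit)
  have hrun' := F6_run A a F G m0 μ e.T (e.A.s w.1 w.2.2.1) w.2.2.1 _ _ _ hrun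
  refine ⟨own', hrun', ?_⟩
  obtain ⟨h, hw⟩ := h
  have o1 := (cmp_inv a F G e.T w.2.2.1 (A.step (e.A.s w.1 w.2.2.1).st μ)
    (e.A.s w.1 w.2.2.1).own (e.A.s w.1 w.2.2.1).fuel (e.A.q w.1 w.2.2.1) h.cnA).2
  have hnice : Nice w.2.2.1 ((stepC a F G A m0 e.T μ (e.A.s w.1 w.2.2.1)).asked w.2.2.1) := by
    rw [hq]
    exact nice_cmp a F G e.T w.2.2.1 _ _ _
  rw [hrun, ← hq] at o1
  constructor
  · show WI F w.2.2.1
      (((stepC a F G A m0 e.T μ (e.A.s w.1 w.2.2.1)).run w.2.2.1).1).own
      (e.B.s w.2.1 w.2.2.1).own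
      (e.A.q w.1 w.2.2.1 ++ (stepC a F G A m0 e.T μ (e.A.s w.1 w.2.2.1)).asked w.2.2.1)
      (e.B.q w.2.1 w.2.2.1) (e.kn.map Prod.fst)
      (pre ++ (stepC a F G A m0 e.T μ (e.A.s w.1 w.2.2.1)).asked w.2.2.1) e.T e.pend
      (fun _ _ => False)
    rw [hrun']
    exact {
      all := fun d hd hd' => by
        rcases List.mem_append.1 hd with h1 | h1
        · exact h.all d h1 hd'
        · exact hhit d h1 hd'
      cnA := o1
      cnB := h.cnB
      pre_mem := fun d => by
        rw [List.mem_append, List.mem_append, h.pre_mem]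
        tauto
      nice := nice_append h.nice hnice
      tr1 := h.tr1
      tr2 := h.tr2
      op1 := h.op1
      op2 := h.op2
      wh := h.wh
      itW := h.itW
      downW := h.downW
      pub := h.pub
      prA := fun s hs hsW hhW => by
        have hsp : (.c s none : Th X S J K) ∈ pre :=
          fresh_h hbp ((h.pre_mem _).2 (Or.inr (Or.inr hhW))) rfl
        refine h.prA s ?_ hsW hhW
        rcases (h.pre_mem _).1 hsp with h1 | h1 | h1
        · exact h1
        · rcases List.mem_append.1 hs with h2 | h2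
          · exact h2
          · exact absurd (hhit _ h2 h1) hsW
        · exact absurd h1 hsW
      prB := h.prB
      pr1 := fun η o P r e1 => by
        obtain ⟨h1, h2, h2', s, js, h3, h4, h5, h6, h7⟩ := h.pr1 _ _ _ _ e1
        refine ⟨h1, h2, h2', s, js, h3, ?_, h5, ?_, h7⟩
        · cases o
          · exact h4
          · exact List.mem_append.2 (Or.inl h4)
        · intro j hj
          cases o
          · exact h6 j hj
          · exact List.mem_append.2 (Or.inl (h6 j hj)) }
  · simp only [rl, Finset.mem_filter, Finset.mem_univ, true_and] at hw ⊢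
    refine ⟨⟨hw.1, ?_⟩, hw.2⟩
    show ((stepC a F G A m0 e.T μ (e.A.s w.1 w.2.2.1)).run w.2.2.1).2 = _
    rw [hrun']

/-! ## Row F7 (symmetric) -/

omit [Finite X] [Finite S] [Finite J] [Fintype K] [Nonempty K] in
private theorem F7_len {own : Own S J K} {q : List (Th X S J K)} {O : Th X S J K → K}
    (hc : Cn own q O) {s : S} {js : List J} (hn : js.Nodup) (hj : ∀ j ∈ js, .c s (some j) ∈ q) :
    js.length ≤ (labs own).length := by
  have h1 : (js.map fun j => (s, some j, O (.c s (some j)))).Nodup := by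
    refine hn.map ?_
    intro j j' hjj
    have := congrArg (fun z : S × Option J × K => z.2.1) hjj
    exact Option.some.inj this
  have h2 : (js.map fun j => (s, some j, O (.c s (some j)))) ⊆ labs own := by
    intro z hz
    obtain ⟨j, hj1, rfl⟩ := List.mem_map.1 hz
    unfold labs
    rw [List.mem_filter]
    refine ⟨hc.keys s (some j) (hj j hj1), ?_⟩
    simp
  have h3 := (h1.subperm h2).length_le
  rw [List.length_map] at h3
  exact h3

private theorem F7_lenA (hg : GI a n m e) (hw : w ∈ rl SV e.A e.B e.kn)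
    {s : S} {js : List J} (hn : js.Nodup) (hj : ∀ j ∈ js, .c s (some j) ∈ e.A.q w.1 w.2.2.1) :
    js.length ≤ n := by
  simp only [rl, Finset.mem_filter, Finset.mem_univ, true_and] at hw
  have hs : (w.1, w.2.2) ∈ sup SV e.A e.kn := by
    simp only [sup, Finset.mem_filter, Finset.mem_univ, true_and]
    exact ⟨hw.1, hw.2.2⟩
  have h := hg.sA _ hs
  have h1 := F7_len h.cn hn hj
  have h2 := h.lab
  exact h1.trans ((Nat.le_add_right _ _).trans h2)

private theorem F7_lenB (hg : GI a n m e) (hw : w ∈ rl SV e.A e.B e.kn)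
    {s : S} {js : List J} (hn : js.Nodup) (hj : ∀ j ∈ js, .c s (some j) ∈ e.B.q w.2.1 w.2.2.1) :
    js.length ≤ n := by
  simp only [rl, Finset.mem_filter, Finset.mem_univ, true_and] at hw
  have hs : (w.2.1, w.2.2) ∈ sup SV e.B e.kn := by
    simp only [sup, Finset.mem_filter, Finset.mem_univ, true_and]
    exact ⟨hw.2.1, hw.2.2⟩
  have h := hg.sB _ hs
  have h1 := F7_len h.cn hn hj
  have h2 := h.lab
  exact h1.trans ((Nat.le_add_right _ _).trans h2)

omit [Finite X] [Finite S] [Finite J] [Fintype K] [Nonempty K] in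
private theorem F7_asked {I0 : Type} (P : Party (Qry X S J K) (Ans J K V) Mg I0)
    (a : ℕ) (F : S → List J → Comp X K V) (G : V → List ℕ → Comp X K V) (m0 μ : Mg)
    (T : Tb S J K V) (c : CS P.St S J K) (O : Th X S J K → K) :
    (stepC a F G P m0 T μ c).asked O = (cmp a F G T (P.step c.st μ) c.own c.fuel).asked O := by
  unfold stepC
  rw [Comp.asked_bind]
  rcases ((cmp a F G T (P.step c.st μ) c.own c.fuel).run O).1 with _ | x
  · simp
  · simp

omit [Finite X] [Finite S] [Finite J] [Fintype K] [Nonempty K] in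
private theorem F7_run {I0 : Type} (P : Party (Qry X S J K) (Ans J K V) Mg I0)
    (a : ℕ) (F : S → List J → Comp X K V) (G : V → List ℕ → Comp X K V) (m0 μ : Mg)
    (T : Tb S J K V) (c : CS P.St S J K) (O : Th X S J K → K) (x : P.St × Mg)
    (own' : Own S J K) (n' : ℕ)
    (h : (cmp a F G T (P.step c.st μ) c.own c.fuel).run O = (some x, own', n')) :
    (stepC a F G P m0 T μ c).run O = (⟨x.1, own', n'⟩, .msg x.2) := by
  unfold stepC
  rw [Comp.run_bind, h]
  rfl

theorem wi_rtB (hna : n ≤ a) (hg : GI a n m e) (h : WE F e w pre) (hp : e.pend = none)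
    (hb : ¬ Bad gK w.2.2.1 pre) :
    Rt a F w.2.2.1 e.T (e.A.q w.1 w.2.2.1) (e.kn.map Prod.fst)
      (e.B.s w.2.1 w.2.2.1).own pre := by
  obtain ⟨h, hw⟩ := h
  refine ⟨fun u hu => ⟨(h.cnB.val u hu).1, (h.pre_mem _).2 (Or.inr (Or.inl (h.cnB.val u hu).2))⟩,
    h.cnB.hd, ?_, fun u hu hu' => h.all _ hu' (h.cnB.val u hu).2,
    fun d hd => (h.pre_mem d).2 (Or.inl hd), fun d hd => (h.pre_mem d).2 (Or.inr (Or.inr hd)),
    h.nice, fun s j hs => (h.cnA.val _ (h.cnA.hd _ (h.cnA.keys s j hs))).2, h.cnA.its, h.wh,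
    h.tr1, h.tr2, h.op1, h.op2, fun s j h1 h2 => (h.pub s j h1 h2).resolve_right id, ?_, ?_⟩
  · intro s j hs
    rcases (h.pre_mem _).1 hs with h1 | h1 | h1
    · exact Or.inr (Or.inl h1)
    · exact Or.inl (h.cnB.keys s j h1)
    · exact Or.inr (Or.inr h1)
  · intro s hs hsW hh
    obtain ⟨P, r, e1, e2⟩ := h.prA s hs hsW hh
    obtain ⟨-, -, h2, s', js, h3, h4, h5, h6, h7, h8⟩ := h.pr1 _ _ _ _ e1
    have h4' : (.c s' none : Th X S J K) ∈ e.A.q w.1 w.2.2.1 := by simpa using h4
    have h6' : ∀ j ∈ js, (.c s' (some j) : Th X S J K) ∈ e.A.q w.1 w.2.2.1 := by simpa using h6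
    have hss : s' = s := uniq_h hb h.nice ((h.pre_mem _).2 (Or.inl h4'))
      ((h.pre_mem _).2 (Or.inl hs)) h3
    subst hss
    have hr : r = some ((F s' js).run (fO w.2.2.1)) := by
      rcases h8 with h8 | h8
      · have := h2 h8
        rw [hp] at this
        cases this
      · exact h8
    subst h7
    exact ⟨true, js, (F7_lenA A B hg hw h5 h6').trans hna, by rw [e1, hr], e2⟩
  · intro η o P v e1
    obtain ⟨-, -, -, s, js, h3, h4, h5, h6, h7, h8⟩ := h.pr1 _ _ _ _ e1
    refine ⟨s, js, h3, ?_, h7, ?_, ?_⟩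
    · rw [h.pre_mem]
      cases o
      · exact Or.inr (Or.inl (by simpa using h4))
      · exact Or.inl (by simpa using h4)
    · cases o
      · exact (F7_lenB A B hg hw h5 (by simpa using h6)).trans hna
      · exact (F7_lenA A B hg hw h5 (by simpa using h6)).trans hna
    · rcases h8 with h8 | h8
      · cases h8
      · exact Option.some.inj h8

theorem msgB_fa (hna : n ≤ a) (hG : ∀ f s js js' (i : List ℕ), js.length ≤ a →
      js'.map some = i.map (fun x => js[x]?) → (G ((F s js).run f) i).run f = (F s js').run f)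
    (m0 μ : Mg) (hg : GI a n m e) (h : WE F e w pre) (hp : e.pend = none)
    (hf : ((B.step (e.B.s w.2.1 w.2.2.1).st μ).asked (wd a F w.2.2.1)).length ≤
      (e.B.s w.2.1 w.2.2.1).fuel)
    (hb : ¬ Bad gK w.2.2.1
      (pre ++ (stepC a F G B m0 e.T μ (e.B.s w.2.1 w.2.2.1)).asked w.2.2.1))
    (hh : ¬ hitB SV (stepC a F G B m0 e.T μ) e.A e.B e.kn w) :
    ∃ own', ((stepC a F G B m0 e.T μ (e.B.s w.2.1 w.2.2.1)).run w.2.2.1) =
      (⟨((B.step (e.B.s w.2.1 w.2.2.1).st μ).run (wd a F w.2.2.1)).1, own',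
        (e.B.s w.2.1 w.2.2.1).fuel -
          ((B.step (e.B.s w.2.1 w.2.2.1).st μ).asked (wd a F w.2.2.1)).length⟩,
        .msg ((B.step (e.B.s w.2.1 w.2.2.1).st μ).run (wd a F w.2.2.1)).2) ∧
      WE F (e.upB (stepC a F G B m0 e.T μ)
        (.msg ((B.step (e.B.s w.2.1 w.2.2.1).st μ).run (wd a F w.2.2.1)).2)) w
        (pre ++ (stepC a F G B m0 e.T μ (e.B.s w.2.1 w.2.2.1)).asked w.2.2.1) := by
  have hbp : ¬ Bad gK w.2.2.1 pre := fun hb' => hb (bad_append hb')
  have hrt := wi_rtB A B hna hg h hp hbp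
  have hq := F7_asked B a F G m0 μ e.T (e.B.s w.2.1 w.2.2.1) w.2.2.1
  have hhit : ∀ d ∈ (stepC a F G B m0 e.T μ (e.B.s w.2.1 w.2.2.1)).asked w.2.2.1,
      d ∈ e.A.q w.1 w.2.2.1 → d ∈ e.kn.map Prod.fst := by
    intro d hd hd'
    by_contra hcon
    exact hh ⟨d, hd, hd', hcon⟩
  obtain ⟨own', hrun, -⟩ := cmp_run a F G hG w.2.2.1 e.T (e.A.q w.1 w.2.2.1)
    (e.kn.map Prod.fst) (B.step (e.B.s w.2.1 w.2.2.1).st μ) (e.B.s w.2.1 w.2.2.1).own pre
    (e.B.s w.2.1 w.2.2.1).fuel hrt hf (by rw [← hq]; exact hb) (by rw [← hq]; exact hhit)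
  have hrun' := F7_run B a F G m0 μ e.T (e.B.s w.2.1 w.2.2.1) w.2.2.1 _ _ _ hrun
  refine ⟨own', hrun', ?_⟩
  obtain ⟨h, hw⟩ := h
  obtain ⟨-, o2⟩ := cmp_inv a F G e.T w.2.2.1 (B.step (e.B.s w.2.1 w.2.2.1).st μ)
    (e.B.s w.2.1 w.2.2.1).own (e.B.s w.2.1 w.2.2.1).fuel (e.B.q w.2.1 w.2.2.1) h.cnB
  have hnice : Nice w.2.2.1
      ((stepC a F G B m0 e.T μ (e.B.s w.2.1 w.2.2.1)).asked w.2.2.1) := by
    rw [hq]
    exact nice_cmp a F G e.T w.2.2.1 _ _ _
  rw [hrun, ← hq] at o2
  constructor
  · show WI F w.2.2.1 (e.A.s w.1 w.2.2.1).own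
      (((stepC a F G B m0 e.T μ (e.B.s w.2.1 w.2.2.1)).run w.2.2.1).1).own
      (e.A.q w.1 w.2.2.1)
      (e.B.q w.2.1 w.2.2.1 ++ (stepC a F G B m0 e.T μ (e.B.s w.2.1 w.2.2.1)).asked w.2.2.1)
      (e.kn.map Prod.fst)
      (pre ++ (stepC a F G B m0 e.T μ (e.B.s w.2.1 w.2.2.1)).asked w.2.2.1) e.T e.pend
      (fun _ _ => False)
    rw [hrun']
    refine ⟨?_, h.cnA, o2, ?_, nice_append h.nice hnice, h.tr1, h.tr2, h.op1, h.op2, h.wh,
      h.itW, h.downW, h.pub, h.prA, ?_, ?_⟩
    · intro d hd' hd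
      rcases List.mem_append.1 hd with h1 | h1
      · exact h.all d hd' h1
      · exact hhit d h1 hd'
    · intro d
      rw [List.mem_append, List.mem_append, h.pre_mem]
      tauto
    · intro s hs hsW hhW
      have hsp : (.c s none : Th X S J K) ∈ pre :=
        fresh_h hbp ((h.pre_mem _).2 (Or.inr (Or.inr hhW))) rfl
      refine h.prB s ?_ hsW hhW
      rcases (h.pre_mem _).1 hsp with h1 | h1 | h1
      · rcases List.mem_append.1 hs with h2 | h2
        · exact h2
        · exact absurd (hhit _ h2 h1) hsW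
      · exact h1
      · exact absurd h1 hsW
    · intro η o P r e1
      obtain ⟨h1, h2, h3, s, js, h4, h5, h6, h7, h8⟩ := h.pr1 _ _ _ _ e1
      refine ⟨h1, h2, h3, s, js, h4, ?_, h6, ?_, h8⟩
      · cases o
        · exact List.mem_append.2 (Or.inl h5)
        · exact h5
      · cases o
        · exact fun j hj => List.mem_append.2 (Or.inl (h7 j hj))
        · exact h7
  · simp only [rl, Finset.mem_filter, Finset.mem_univ, true_and] at hw ⊢
    refine ⟨hw.1, ⟨hw.2.1, ?_⟩, hw.2.2⟩
    show ((stepC a F G B m0 e.T μ (e.B.s w.2.1 w.2.2.1)).run w.2.2.1).2 = _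
    rw [hrun']

end

/-- The messages of a transcript. -/
def flat2 {Mg : Type} : List (Mg × Mg) → List Mg
  | [] => []
  | (x, y) :: l => x :: y :: flat2 l

end Pool.Agent.Fe
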