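import Pool.Agent.Lib.MP_ae38e0_lc.Fe.World

import Pool.Agent.Lib.MP_ae38e0_lc.Nbb.Fresh

set_option autoImplicit false

/-!
# Local answers are the real ones (rows K0, K1)
-/

namespace Pool.Agent.Fe

open Pool.Agent.LinOT Pool.Agent.Nbb Classical

variable {X S J K V α : Type}

/-- The real oracle which belongs to an oracle on the things. -/
noncomputable def wd (a : ℕ) (F : S → List J → Comp X K V) (O : Th X S J K → K) :
    Qry X S J K → Ans J K V := orc a F (fO O) (LO O)

/-- The item `d` matches the value `v` of the cell `y`. -/
def gK (d y : Th X S J K) (v : K) : Prop :=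
  match d, y with
  | .h η, .c _ none => v = η
  | .l _ π, .c _ (some _) => v = π
  | _, _ => False

/-- Each cell of `L` in the list is followed by its item. -/
def Nice (O : Th X S J K → K) (l : List (Th X S J K)) : Prop :=
  ∀ l1 s j l2, l = l1 ++ .c s j :: l2 → ∃ l3, l2 = itm O s j :: l3

/-! ## Row K0a: basic facts -/

theorem run_lift (O : Th X S J K → K) (c : Comp X K α) :
    (lift c : Comp (Th X S J K) K α).run O = c.run (fO O) := by
  induction c with
  | ret a => rfl
  | ask x next ih => exact ih (O (.x x))

theorem asked_lift (O : Th X S J K → K) (c : Comp X K α) :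
    (lift c : Comp (Th X S J K) K α).asked O = (c.asked (fO O)).map .x := by
  induction c with
  | ret a => rfl
  | ask x next ih =>
    have h := ih (O (.x x))
    simp only [lift, Comp.asked_ask, List.map_cons, List.cons.injEq, true_and]
    exact h

theorem nice_nil (O : Th X S J K → K) : Nice O [] := by
  intro l1 s j l2 h
  simp at h

/-- No cell of `L` in the list. -/
theorem nice_of_no {O : Th X S J K → K} {l : List (Th X S J K)} (h : ∀ s j, .c s j ∉ l) :
    Nice O l := by
  intro l1 s j l2 he
  exact absurd (he ▸ List.mem_append_right _ List.mem_cons_self) (h s j)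

theorem nice_append {O : Th X S J K → K} {l l' : List (Th X S J K)} (h : Nice O l)
    (h' : Nice O l') : Nice O (l ++ l') := by
  intro l1 s j l2 he
  rcases List.append_eq_append_iff.1 he with ⟨a, -, ha⟩ | ⟨c, hc1, hc2⟩
  · exact h' a s j l2 ha
  · cases c with
    | nil => exact h' [] s j l2 hc2.symm
    | cons d c =>
      simp only [List.cons_append, List.cons.injEq] at hc2
      obtain ⟨rfl, rfl⟩ := hc2
      obtain ⟨l3, rfl⟩ := h l1 s j c hc1
      exact ⟨l3 ++ l', rfl⟩

theorem nice_cell (O : Th X S J K → K) (s : S) (j : Option J) : Nice O [.c s j, itm O s j] := by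
  intro l1 s' j' l2 he
  match l1, he with
  | [], he =>
    simp only [List.nil_append, List.cons.injEq, Th.c.injEq] at he
    obtain ⟨⟨rfl, rfl⟩, rfl⟩ := he
    exact ⟨[], rfl⟩
  | [_], he =>
    simp only [List.cons_append, List.nil_append, List.cons.injEq] at he
    exfalso
    have h1 := he.2.1
    cases j with
    | none => simp [itm] at h1
    | some j => simp [itm] at h1
  | _ :: _ :: l1, he =>
    simp at he

/-- A touched handle is the handle of a key of the list only. -/
theorem fresh_h {O : Th X S J K → K} {l : List (Th X S J K)} (h : ¬ Bad gK O l) {s : S} {η : K}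
    (hη : .h η ∈ l) (hs : O (.c s none) = η) : .c s none ∈ l := by
  by_contra hn
  obtain ⟨i, hi⟩ := List.mem_iff_getElem?.1 hη
  exact h ⟨i, .h η, .c s none, hi, hs, fun hm => hn (List.mem_of_mem_take hm)⟩

/-- A touched label is a label of the list only. -/
theorem fresh_l {O : Th X S J K → K} {l : List (Th X S J K)} (h : ¬ Bad gK O l) {s : S} {j : J}
    {η π : K} (hη : .l η π ∈ l) (hs : O (.c s (some j)) = π) : .c s (some j) ∈ l := by
  by_contra hn
  obtain ⟨i, hi⟩ := List.mem_iff_getElem?.1 hη
  exact h ⟨i, .l η π, .c s (some j), hi, hs, fun hm => hn (List.mem_of_mem_take hm)⟩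

private theorem K0a_one {O : Th X S J K → K} {l l1 l2 : List (Th X S J K)}
    (h : ¬ Bad gK O l) (hn : Nice O l) {s : S} {j : Option J} {y : Th X S J K}
    (hl : l = l1 ++ .c s j :: l2) (hy : y ∉ l1) (hg : gK (itm O s j) y (O y)) : y = .c s j := by
  by_contra hne
  obtain ⟨l3, rfl⟩ := hn l1 s j l2 hl
  refine h ⟨l1.length + 1, itm O s j, y, ?_, hg, ?_⟩
  · rw [hl, List.getElem?_append_right (by omega)]
    simp
  · rw [hl]
    intro hm
    rw [List.take_append] at hm
    simp only [List.take_of_length_le (show l1.length ≤ l1.length + 1 by omega),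
      Nat.add_sub_cancel_left, List.take_succ_cons, List.take_zero, List.mem_append,
      List.mem_singleton] at hm
    rcases hm with hm | hm
    · exact hy hm
    · exact hne hm

private theorem K0a_two {O : Th X S J K → K} {l : List (Th X S J K)} (h : ¬ Bad gK O l)
    (hn : Nice O l) {s s' : S} {j j' : Option J} (hs : .c s j ∈ l) (hs' : .c s' j' ∈ l)
    (hg : gK (itm O s j) (.c s' j') (O (.c s' j'))) (hg' : gK (itm O s' j') (.c s j) (O (.c s j))) :
    (.c s' j' : Th X S J K) = .c s j := by
  obtain ⟨a, b, hab, ha⟩ := List.eq_append_cons_of_mem hs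
  by_cases hc : .c s' j' ∈ a
  · obtain ⟨c, d, rfl⟩ := List.append_of_mem hc
    have hl : l = c ++ .c s' j' :: (d ++ .c s j :: b) := by rw [hab]; simp
    have hsc : .c s j ∉ c := fun hm => ha (List.mem_append_left _ hm)
    exact (K0a_one h hn hl hsc hg').symm
  · exact K0a_one h hn hab hc hg

/-- Different keys of the list have different handles. -/
theorem uniq_h {O : Th X S J K → K} {l : List (Th X S J K)} (h : ¬ Bad gK O l) (hn : Nice O l)
    {s s' : S} (hs : .c s none ∈ l) (hs' : .c s' none ∈ l)
    (he : O (.c s none) = O (.c s' none)) : s = s' := by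
  have h1 := K0a_two h hn hs hs' he.symm he
  rw [Th.c.injEq] at h1
  exact h1.1.symm

/-- Different labels of the list have different values. -/
theorem uniq_l {O : Th X S J K → K} {l : List (Th X S J K)} (h : ¬ Bad gK O l) (hn : Nice O l)
    {s s' : S} {j j' : J} (hs : .c s (some j) ∈ l) (hs' : .c s' (some j') ∈ l)
    (he : O (.c s (some j)) = O (.c s' (some j'))) : s = s' ∧ j = j' := by
  have h1 := K0a_two h hn hs hs' he.symm he
  rw [Th.c.injEq, Option.some.injEq] at h1
  exact ⟨h1.1.symm, h1.2.symm⟩

theorem bad_append {O : Th X S J K → K} {l l' : List (Th X S J K)} (h : Bad gK O l) :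
    Bad gK O (l ++ l') := by
  obtain ⟨i, d, y, h1, h2, h3⟩ := h
  have hi : i < l.length := by
    by_contra hc
    rw [List.getElem?_eq_none (by omega)] at h1
    exact absurd h1 (by simp)
  refine ⟨i, d, y, ?_, h2, ?_⟩
  · rw [List.getElem?_append_left hi, h1]
  · rw [List.take_append_of_le_length hi.le]
    exact h3

/-- `rsv` gives the list of the values. -/
theorem rsv_some {β γ : Type} {g : β → Option γ} {l : List β} {r : List γ} :
    rsv g l = some r ↔ l.map g = r.map some := by
  induction l generalizing r with
  | nil => cases r <;> simp [rsv]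
  | cons x l ih =>
    have h1 : rsv g (x :: l) = match g x, rsv g l with
      | some y, some r => some (y :: r)
      | _, _ => none := rfl
    rw [h1, List.map_cons]
    rcases hx : g x with _ | y
    · cases r <;> simp
    · rcases hl : rsv g l with _ | r'
      · refine iff_of_false (by simp) fun h => ?_
        cases r with
        | nil => simp at h
        | cons z r =>
          rw [List.map_cons, List.cons.injEq] at h
          rw [ih.2 h.2] at hl
          simp at hl
      · rw [ih.1 hl]
        simp only [Option.some.injEq]
        constructor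
        · rintro rfl
          rfl
        · intro h
          have h2 : List.map some (y :: r') = List.map some r := h
          exact (List.map_injective_iff.2 (Option.some_injective _)) h2

theorem rsv_none {β γ : Type} {g : β → Option γ} {l : List β} (h : rsv g l = none) :
    ∃ x ∈ l, g x = none := by
  by_contra hn
  push Not at hn
  have h1 : ∀ l' : List β, (∀ x ∈ l', g x ≠ none) → ∃ r : List γ, l'.map g = r.map some := by
    intro l'
    induction l' with
    | nil => exact fun _ => ⟨[], rfl⟩
    | cons x l' ih =>
      intro hx
      obtain ⟨r, hr⟩ := ih fun y hy => hx y (List.mem_cons_of_mem _ hy)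
      obtain ⟨y, hy⟩ := Option.ne_none_iff_exists'.1 (hx x List.mem_cons_self)
      exact ⟨y :: r, by rw [List.map_cons, List.map_cons, hr, hy]⟩
  obtain ⟨r, hr⟩ := h1 l hn
  rw [rsv_some.2 hr] at h
  simp at h

theorem posn_some {P : List K} {π : K} {i : ℕ} (h : posn P π = some i) : P[i]? = some π := by
  obtain ⟨h1, h2, -⟩ := List.findIdx?_eq_some_iff_getElem.1 h
  rw [List.getElem?_eq_getElem h1]
  simpa using h2

theorem posn_none {P : List K} {π : K} (h : posn P π = none) : π ∉ P := by
  intro hm
  have h1 := List.findIdx?_eq_none_iff.1 h π hm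
  simp at h1

theorem lkH_some {own : Own S J K} {η : K} {s : S} (h : lkH own η = some s) :
    (s, none, η) ∈ own := by
  obtain ⟨e, he, rfl⟩ := Option.map_eq_some_iff.1 h
  have h1 := List.find?_some he
  have h2 := List.mem_of_find?_eq_some he
  simp only [decide_eq_true_eq] at h1
  obtain ⟨e1, e2, e3⟩ := e
  obtain ⟨h3, h4⟩ := h1
  simp only at h3 h4
  subst h3 h4
  exact h2

theorem lkH_none {own : Own S J K} {η : K} (h : lkH own η = none) (s : S) :
    (s, none, η) ∉ own := by
  intro hm
  have h1 := List.find?_eq_none.1 (Option.map_eq_none_iff.1 h) _ hm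
  simp at h1

theorem lkL_some {own : Own S J K} {s : S} {π : K} {j : J} (h : lkL own s π = some j) :
    (s, some j, π) ∈ own := by
  obtain ⟨e, he, h0⟩ := Option.bind_eq_some_iff.1 h
  have h1 := List.find?_some he
  have h2 := List.mem_of_find?_eq_some he
  simp only [decide_eq_true_eq] at h1
  obtain ⟨e1, e2, e3⟩ := e
  obtain ⟨h3, -, h4⟩ := h1
  simp only at h0 h3 h4
  subst h0 h3 h4
  exact h2

theorem lkL_none {own : Own S J K} {s : S} {π : K} (h : lkL own s π = none) (j : J) :
    (s, some j, π) ∉ own := by
  intro hm
  rcases hf : own.find? (fun e => decide (e.1 = s ∧ e.2.1 ≠ none ∧ e.2.2 = π)) with _ | e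
  · have h1 := List.find?_eq_none.1 hf _ hm
    simp at h1
  · have h1 := List.find?_some hf
    simp only [decide_eq_true_eq] at h1
    unfold lkL at h
    rw [hf] at h
    exact h1.2.1 h

theorem evA_cells (F : S → List J → Comp X K V) (G : V → List ℕ → Comp X K V)
    (own : Own S J K) (T : Tb S J K V) (η : K) (l : List K) (O : Th X S J K → K) :
    ∀ d ∈ (evA F G own T η l).asked O, ∃ x, d = .x x := by
  intro d hd
  unfold evA evK at hd
  repeat' split at hd
  all_goals
    simp only [Comp.asked_bind, Comp.asked_ret, List.append_nil, asked_lift, List.mem_map,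
      List.not_mem_nil] at hd
  all_goals
    obtain ⟨x, -, hx⟩ := hd
    exact ⟨x, hx.symm⟩

theorem evA_len (F : S → List J → Comp X K V) (G : V → List ℕ → Comp X K V) (m : ℕ)
    (hF : ∀ f s js, ((F s js).asked f).length ≤ m) (hG : ∀ f v i, ((G v i).asked f).length ≤ m)
    (own : Own S J K) (T : Tb S J K V) (η : K) (l : List K) (O : Th X S J K → K) :
    ((evA F G own T η l).asked O).length ≤ m := by
  unfold evA evK
  repeat' split
  all_goals
    simp only [Comp.asked_bind, Comp.asked_ret, List.append_nil, asked_lift, List.length_map,
      List.length_nil, Nat.zero_le]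
  all_goals
    first
      | exact hF _ _ _
      | exact hG _ _ _

/-- Each computation of the compiled party lists a cell of `L` followed by its item. -/
theorem nice_cmp (a : ℕ) (F : S → List J → Comp X K V) (G : V → List ℕ → Comp X K V)
    (T : Tb S J K V) (O : Th X S J K → K) (c : Comp (Qry X S J K) (Ans J K V) α)
    (own : Own S J K) (n : ℕ) : Nice O ((cmp a F G T c own n).asked O) := by
  induction c generalizing own n with
  | ret a => exact nice_nil O
  | ask q next ih =>
    cases n with
    | zero =>
      rcases q with x | ⟨s, _ | j⟩ | ⟨s, π⟩ | ⟨η, l⟩ <;> exact nice_nil O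
    | succ n =>
      rcases q with x | ⟨s, _ | j⟩ | ⟨s, π⟩ | ⟨η, l⟩
      · simp only [cmp, Comp.asked_ask]
        exact nice_append (l := [(.x x : Th X S J K)]) (nice_of_no (by intro s j; simp)) (ih _ _ _)
      · simp only [cmp, Comp.asked_ask]
        exact nice_append (l := [(.c s none : Th X S J K), .h (O (.c s none))])
          (nice_cell O s none) (ih _ _ _)
      · simp only [cmp, Comp.asked_ask]
        exact nice_append (l := [(.c s none : Th X S J K), .h (O (.c s none))])
          (nice_cell O s none) (nice_append (l := [(.c s (some j) : Th X S J K),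
            .l (O (.c s none)) (O (.c s (some j)))]) (nice_cell O s (some j)) (ih _ _ _))
      · simp only [cmp, Comp.asked_ask]
        exact nice_append (l := [(.c s none : Th X S J K), .h (O (.c s none))])
          (nice_cell O s none) (nice_append (l := [(.l (O (.c s none)) π : Th X S J K)])
            (nice_of_no (by intro s j; simp)) (ih _ _ _))
      · simp only [cmp]
        split
        · simp only [Comp.asked_bind, Comp.asked_askAll]
          refine nice_append (nice_of_no fun s j hs => ?_) (nice_append (nice_of_no fun s j hs => ?_)
            (ih _ _ _))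
          · simp [itev] at hs
          · obtain ⟨x, hx⟩ := evA_cells F G own T η l O _ hs
            exact absurd hx (by simp)
        · exact ih _ _ _

/-! ## The context of a running party -/

/-- What holds when a party with the list `own` runs: `Yq` are the things touched by the other
party, `W` the known things, `pre` all things touched so far. -/
structure Rt (a : ℕ) (F : S → List J → Comp X K V) (O : Th X S J K → K) (T : Tb S J K V)
    (Yq W : List (Th X S J K)) (own : Own S J K) (pre : List (Th X S J K)) : Prop where
  val : ∀ e ∈ own, e.2.2 = O (.c e.1 e.2.1) ∧ .c e.1 e.2.1 ∈ pre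
  hd : ∀ e ∈ own, (e.1, none, O (.c e.1 none)) ∈ own
  keys : ∀ s j, .c s j ∈ pre → (s, j, O (.c s j)) ∈ own ∨ .c s j ∈ Yq ∨ .c s j ∈ W
  cm : ∀ e ∈ own, .c e.1 e.2.1 ∈ Yq → .c e.1 e.2.1 ∈ W
  yp : ∀ d ∈ Yq, d ∈ pre
  wp : ∀ d ∈ W, d ∈ pre
  nice : Nice O pre
  yh : ∀ s j, .c s j ∈ Yq → .c s none ∈ Yq
  yi : ∀ s j, .c s j ∈ Yq → itm O s j ∈ Yq
  wh : ∀ s j, .c s j ∈ W → .c s none ∈ W
  tr1 : ∀ s, .c s none ∈ W → T.tr (O (.c s none)) = some s
  tr2 : ∀ η s, T.tr η = some s → .c s none ∈ W ∧ O (.c s none) = η
  op1 : ∀ s j, .c s (some j) ∈ W → T.op s (O (.c s (some j))) = some j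
  op2 : ∀ s π j, T.op s π = some j → .c s (some j) ∈ W ∧ O (.c s (some j)) = π
  pub : ∀ s j, .c s none ∈ W → .l (O (.c s none)) (O (.c s (some j))) ∈ W → .c s (some j) ∈ W
  pr1 : ∀ s, .c s none ∈ Yq → .c s none ∉ W → .h (O (.c s none)) ∈ W → ∃ (o : Bool) (js : List J),
    js.length ≤ a ∧ T.pr (O (.c s none)) = some (o, lbs O s js, some ((F s js).run (fO O))) ∧
      ∀ j, .l (O (.c s none)) (O (.c s (some j))) ∈ W → O (.c s (some j)) ∈ lbs O s js
  pr2 : ∀ η o P v, T.pr η = some (o, P, some v) → ∃ (s : S) (js : List J),
    O (.c s none) = η ∧ .c s none ∈ pre ∧ P = lbs O s js ∧ js.length ≤ a ∧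
      v = (F s js).run (fO O)

/-- The evaluation of the real world: if all keys with handle `η` are `s`, and `js` is the only
list of indices with these labels, it is the evaluation of `s` and `js`. -/
theorem orc_ev_some (a : ℕ) (F : S → List J → Comp X K V) (O : Th X S J K → K) (η : K)
    (l : List K) (s : S) (js : List J) (ha : l.length ≤ a) (h1 : O (.c s none) = η)
    (h2 : lbs O s js = l) (h3 : ∀ s', O (.c s' none) = η → s' = s)
    (h4 : ∀ js', lbs O s js' = l → js' = js) :
    wd a F O (.ev η l) = .res (some ((F s js).run (fO O))) := by
  have hM : Mt (LO O) η l (s, js) := ⟨h1, h2⟩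
  have hu : ∀ p : S × List J, Mt (LO O) η l p → p = (s, js) := by
    rintro ⟨s', js'⟩ ⟨e1, e2⟩
    have e3 : s' = s := h3 s' e1
    subst e3
    have e4 : js' = js := h4 js' e2
    rw [e4]
  have h : l.length ≤ a ∧ ∃! p, Mt (LO O) η l p := ⟨ha, (s, js), hM, hu⟩
  have hc : h.2.choose = (s, js) := hu _ h.2.choose_spec.1
  show Ans.res (if h : l.length ≤ a ∧ ∃! p, Mt (LO O) η l p then
      some ((F h.2.choose.1 h.2.choose.2).run (fO O)) else none) = _
  rw [dif_pos h, hc]

theorem orc_ev_none (a : ℕ) (F : S → List J → Comp X K V) (O : Th X S J K → K) (η : K)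
    (l : List K) (h : ∀ s js, O (.c s none) = η → lbs O s js ≠ l) :
    wd a F O (.ev η l) = .res none := by
  have h' : ¬ (l.length ≤ a ∧ ∃! p, Mt (LO O) η l p) := by
    rintro ⟨-, p, ⟨e1, e2⟩, -⟩
    exact h p.1 p.2 e1 e2
  show Ans.res (if h : l.length ≤ a ∧ ∃! p, Mt (LO O) η l p then
      some ((F h.2.choose.1 h.2.choose.2).run (fO O)) else none) = _
  rw [dif_neg h']

theorem orc_dec_some (a : ℕ) (F : S → List J → Comp X K V) (O : Th X S J K → K) (s : S) (π : K)
    (j : J) (h1 : O (.c s (some j)) = π) (h2 : ∀ j', O (.c s (some j')) = π → j' = j) :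
    wd a F O (.dec s π) = .ind (some j) := by
  have h : ∃! j, LO O s (some j) = π := ⟨j, h1, h2⟩
  have hc : h.choose = j := h2 _ h.choose_spec.1
  show Ans.ind (if h : ∃! j, LO O s (some j) = π then some h.choose else none) = _
  rw [dif_pos h, hc]

theorem orc_dec_none (a : ℕ) (F : S → List J → Comp X K V) (O : Th X S J K → K) (s : S) (π : K)
    (h : ∀ j, O (.c s (some j)) ≠ π) : wd a F O (.dec s π) = .ind none := by
  have h' : ¬ ∃! j, LO O s (some j) = π := by
    rintro ⟨j, e, -⟩
    exact h j e
  show Ans.ind (if h : ∃! j, LO O s (some j) = π then some h.choose else none) = _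
  rw [dif_neg h']

/-- the indices computed by `g` are right -/
private theorem K0d_map {β γ : Type} {g : β → Option γ} {e : γ → β} :
    ∀ (l : List β) (js : List γ), (∀ x ∈ l, ∀ j, g x = some j → e j = x) →
      l.map g = js.map some → js.map e = l
  | [], js, _, h => by
    have h1 : js = [] := by simpa using h.symm
    rw [h1]
    rfl
  | x :: l, [], _, h => by simp at h
  | x :: l, j :: js, hg, h => by
    rw [List.map_cons, List.map_cons, List.cons.injEq] at h
    rw [List.map_cons, hg x List.mem_cons_self j h.1,
      K0d_map l js (fun y hy => hg y (List.mem_cons_of_mem _ hy)) h.2]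

/-- the list of the indices is unique -/
private theorem K0d_inj {β γ : Type} {e : γ → β} :
    ∀ (l : List β) (js js' : List γ), (∀ j j', e j ∈ l → e j = e j' → j = j') →
      js.map e = l → js'.map e = l → js = js'
  | [], js, js', _, h, h' => by
    rw [List.map_eq_nil_iff] at h h'
    rw [h, h']
  | x :: l, [], js', _, h, _ => by simp at h
  | x :: l, _ :: _, [], _, _, h' => by simp at h'
  | x :: l, j :: js, j' :: js', hi, h, h' => by
    rw [List.map_cons, List.cons.injEq] at h h'
    have h1 : j = j' := hi j j' (by rw [h.1]; exact List.mem_cons_self) (h.1.trans h'.1.symm)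
    rw [h1, K0d_inj l js js' (fun i i' hl => hi i i' (List.mem_cons_of_mem _ hl)) h.2 h'.2]

/-- positions in the list of the labels give indices -/
private theorem K0d_pos {γ : Type} {e : γ → K} {js : List γ} :
    ∀ (l : List K) (idx : List ℕ), l.map (posn (js.map e)) = idx.map some →
      ∃ js' : List γ, js'.map some = idx.map (fun x => js[x]?) ∧ js'.map e = l
  | [], idx, h => by
    have h1 : idx = [] := by simpa using h.symm
    exact ⟨[], by rw [h1]; rfl, rfl⟩
  | x :: l, [], h => by simp at h
  | x :: l, i :: idx, h => by
    rw [List.map_cons, List.map_cons, List.cons.injEq] at h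
    obtain ⟨js', h1, h2⟩ := K0d_pos l idx h.2
    have h3 := posn_some h.1
    rw [List.getElem?_map] at h3
    rcases h4 : js[i]? with _ | j
    · rw [h4] at h3
      exact absurd h3 (by simp)
    · rw [h4] at h3
      have h5 : e j = x := by simpa using h3
      refine ⟨j :: js', ?_, ?_⟩
      · rw [List.map_cons, List.map_cons, h1, h4]
      · rw [List.map_cons, h5, h2]

/-- the evaluation with a known key is right if its labels are looked up correctly -/
private theorem K0d_key (a : ℕ) (F : S → List J → Comp X K V) (O : Th X S J K → K)
    (T : Tb S J K V) (own : Own S J K) (η : K) (l : List K) (hl : l.length ≤ a) (s : S)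
    (hs : O (.c s none) = η) (hu : ∀ s', O (.c s' none) = η → s' = s)
    (hA : ∀ π ∈ l, ∀ j, O (.c s (some j)) = π → dl own T s π = some j)
    (hB : ∀ π ∈ l, ∀ j, dl own T s π = some j → O (.c s (some j)) = π) :
    .res ((evK F own T s l).run O) = wd a F O (.ev η l) := by
  unfold evK
  rcases hr : rsv (dl own T s) l with _ | js
  · dsimp only
    obtain ⟨π, hπ, hn⟩ := rsv_none hr
    rw [orc_ev_none a F O η l (fun s' js' hs' he => ?_)]
    · rfl
    · rw [hu s' hs'] at he
      have h1 : π ∈ lbs O s js' := by rw [he]; exact hπ
      obtain ⟨j, -, hj⟩ := List.mem_map.1 h1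
      rw [hA π hπ j hj] at hn
      exact absurd hn (by simp)
  · dsimp only
    have h1 := rsv_some.1 hr
    have h2 : lbs O s js = l := K0d_map l js hB h1
    rw [orc_ev_some a F O η l s js hl hs h2 hu (fun js' hj' => ?_), Comp.run_bind, run_lift]
    · rfl
    · refine K0d_inj l js' js (fun j j' hj he => ?_) hj' h2
      have h3 := hA _ hj j rfl
      rw [hA _ hj j' he.symm] at h3
      exact (Option.some.inj h3).symm

/-- Row K0.  The local answer is right.  Let `pre` contain the items of the query.
* If some key `s` has the handle `η` then it is in `pre` (`fresh_h`), and it is the only one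
  (`uniq_h`); if `π` in `l` is a label `(s, j)` then the cell `.c s (some j)` is in `pre`
  (`fresh_l`), and it is the only one (`uniq_l`).
* `s` is own or public: a label `(s, j)` of `l` is own (`lkL`), or in `W` (`op1`), or in `Yq`; then
  `.c s none` is in `Yq` (`yh`) so it is in `W` (`cm`, or `s` public), and `.l η π` is in `Yq`
  (`yi`), so in `W` (`hW`), so `.c s (some j)` is in `W` (`pub`).  So `rsv (dl own T s) l` is the
  list of the indices, or fails if some element of `l` is no label of `s`.
* `s` is a private key of the other party: then `.h η` is touched by both, so it is in `W` (`hW`),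
  and `pr1` applies; all labels of `l` are touched by both, so they are in `W`, so in `P`; use `hG`
  with the positions (`posn_some`).  If some element of `l` is no label then it is not in `P`.
* No key has the handle `η`: all three lookups fail (`val`, `tr2`, `pr2`). -/
theorem evA_run (a : ℕ) (F : S → List J → Comp X K V) (G : V → List ℕ → Comp X K V)
    (hG : ∀ f s js js' (i : List ℕ), js.length ≤ a → js'.map some = i.map (fun x => js[x]?) →
      (G ((F s js).run f) i).run f = (F s js').run f)
    (O : Th X S J K → K) (T : Tb S J K V) (Yq W : List (Th X S J K)) (own : Own S J K)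
    (pre : List (Th X S J K)) (h : Rt a F O T Yq W own pre) (hb : ¬ Bad gK O pre) (η : K)
    (l : List K) (hl : l.length ≤ a) (hp : ∀ d ∈ itev η l, d ∈ pre)
    (hW : ∀ d ∈ itev η l, d ∈ Yq → d ∈ W) :
    .res ((evA F G own T η l).run O) = wd a F O (.ev η l) := by
  have hη : (.h η : Th X S J K) ∈ itev η l := List.mem_cons_self
  have hπ : ∀ π ∈ l, (.l η π : Th X S J K) ∈ itev η l := fun π h1 =>
    List.mem_cons_of_mem _ (List.mem_map.2 ⟨π, h1, rfl⟩)
  have hpre : ∀ s, O (.c s none) = η → (.c s none : Th X S J K) ∈ pre := fun s hs =>
    fresh_h hb (hp _ hη) hs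
  have huniq : ∀ s s', O (.c s none) = η → O (.c s' none) = η → s' = s := fun s s' hs hs' =>
    uniq_h hb h.nice (hpre s' hs') (hpre s hs) (hs'.trans hs.symm)
  have hlab : ∀ π ∈ l, ∀ s j, O (.c s (some j)) = π → (.c s (some j) : Th X S J K) ∈ pre :=
    fun π h1 s j hs => fresh_l hb (hp _ (hπ π h1)) hs
  have huL : ∀ π ∈ l, ∀ s j j', O (.c s (some j)) = π → O (.c s (some j')) = π → j = j' :=
    fun π h1 s j j' hj hj' => (uniq_l hb h.nice (hlab π h1 s j hj) (hlab π h1 s j' hj')
      (hj.trans hj'.symm)).2
  have key : ∀ s : S, O (.c s none) = η → ((.c s none : Th X S J K) ∈ Yq → .c s none ∈ W) →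
      .res ((evK F own T s l).run O) = wd a F O (.ev η l) := by
    intro s hs hsW
    have hB : ∀ π ∈ l, ∀ j, dl own T s π = some j → O (.c s (some j)) = π := by
      intro π _ j hj
      unfold dl at hj
      rcases hk : lkL own s π with _ | j'
      · rw [hk] at hj
        exact (h.op2 s π j hj).2
      · rw [hk] at hj
        have h1 : j' = j := Option.some.inj hj
        rw [← h1]
        exact (h.val _ (lkL_some hk)).1.symm
    refine K0d_key a F O T own η l hl s hs (huniq s · hs) (fun π h1 j hj => ?_) hB
    rcases hk : lkL own s π with _ | j'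
    · have h2 : dl own T s π = T.op s π := by
        unfold dl
        rw [hk]
      rw [h2, ← hj]
      refine h.op1 s j ?_
      rcases h.keys s (some j) (hlab π h1 s j hj) with h3 | h3 | h3
      · rw [hj] at h3
        exact absurd h3 (lkL_none hk j)
      · refine h.pub s j (hsW (h.yh s _ h3)) (hW _ ?_ (h.yi s _ h3))
        show (.l (O (.c s none)) (O (.c s (some j))) : Th X S J K) ∈ itev η l
        rw [hs, hj]
        exact hπ π h1
      · exact h3
    · have h2 : dl own T s π = some j' := by
        unfold dl
        rw [hk]
      rw [h2, huL π h1 s j' j (h.val _ (lkL_some hk)).1.symm hj]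
  -- a key which is neither own nor known
  have hY : lkH own η = none → T.tr η = none → ∀ s, O (.c s none) = η →
      (.c s none : Th X S J K) ∉ W ∧ (∀ π ∈ l, ∀ j, O (.c s (some j)) = π →
        (.l (O (.c s none)) (O (.c s (some j))) : Th X S J K) ∈ W) ∧
      ∃ (o : Bool) (js : List J), T.pr η = some (o, lbs O s js, some ((F s js).run (fO O))) ∧
        ∀ j, (.l (O (.c s none)) (O (.c s (some j))) : Th X S J K) ∈ W →
          O (.c s (some j)) ∈ lbs O s js := by
    intro hlk ht s hs
    have hnW : (.c s none : Th X S J K) ∉ W := by
      intro hsW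
      have := h.tr1 s hsW
      rw [hs, ht] at this
      exact absurd this (by simp)
    have hno : (s, none, O (.c s none)) ∉ own := by
      rw [hs]
      exact lkH_none hlk s
    have hsY : (.c s none : Th X S J K) ∈ Yq := by
      rcases h.keys s none (hpre s hs) with h1 | h1 | h1
      · exact absurd h1 hno
      · exact h1
      · exact absurd h1 hnW
    have hhW : (.h (O (.c s none)) : Th X S J K) ∈ W := by
      refine hW _ ?_ (h.yi s none hsY)
      show (.h (O (.c s none)) : Th X S J K) ∈ itev η l
      rw [hs]
      exact hη
    obtain ⟨o, js, -, h1, h2⟩ := h.pr1 s hsY hnW hhW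
    rw [hs] at h1
    refine ⟨hnW, fun π h3 j hj => ?_, o, js, h1, h2⟩
    rcases h.keys s (some j) (hlab π h3 s j hj) with h4 | h4 | h4
    · exact absurd (h.hd _ h4) hno
    · refine hW _ ?_ (h.yi s _ h4)
      show (.l (O (.c s none)) (O (.c s (some j))) : Th X S J K) ∈ itev η l
      rw [hs, hj]
      exact hπ π h3
    · exact absurd (h.wh s _ h4) hnW
  unfold evA
  rcases hlk : lkH own η with _ | s
  · rcases ht : T.tr η with _ | s
    · rcases hr : T.pr η with _ | ⟨o, P, _ | v⟩
      · dsimp only
        rw [orc_ev_none a F O η l (fun s js hs _ => ?_)]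
        · rfl
        · obtain ⟨-, -, o, js', h1, -⟩ := hY hlk ht s hs
          rw [hr] at h1
          exact absurd h1 (by simp)
      · dsimp only
        rw [orc_ev_none a F O η l (fun s js hs _ => ?_)]
        · rfl
        · obtain ⟨-, -, o, js', h1, -⟩ := hY hlk ht s hs
          rw [hr] at h1
          exact absurd h1 (by simp)
      · dsimp only
        obtain ⟨s, js, hs, -, hP, hja, hv⟩ := h.pr2 η o P v hr
        obtain ⟨-, h3, o', js', h1, h2⟩ := hY hlk ht s hs
        rw [hr] at h1
        have hP' : lbs O s js' = P := by
          simp only [Option.some.injEq, Prod.mk.injEq] at h1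
          exact h1.2.1.symm
        rw [hP'] at h2
        rcases hx : rsv (posn P) l with _ | idx
        · dsimp only
          obtain ⟨π, h4, h5⟩ := rsv_none hx
          rw [orc_ev_none a F O η l (fun s' js3 hs' he => ?_)]
          · rfl
          · rw [huniq s s' hs hs'] at he
            have h6 : π ∈ lbs O s js3 := by rw [he]; exact h4
            obtain ⟨j, -, hj⟩ := List.mem_map.1 h6
            refine posn_none h5 ?_
            rw [← hj]
            exact h2 j (h3 π h4 j hj)
        · dsimp only
          have h4 := rsv_some.1 hx
          rw [hP] at h4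
          obtain ⟨js2, h5, h6⟩ := K0d_pos (e := fun j => O (.c s (some j))) l idx h4
          rw [Comp.run_bind, run_lift, orc_ev_some a F O η l s js2 hl hs h6 (huniq s · hs)
            (fun js3 hj3 => K0d_inj l js3 js2 (fun j j' hj he => huL _ hj s j j' rfl he.symm) hj3 h6),
            hv, hG (fO O) s js js2 idx hja h5]
          rfl
    · dsimp only
      obtain ⟨h1, h2⟩ := h.tr2 η s ht
      exact key s h2 fun _ => h1
  · dsimp only
    have h1 := lkH_some hlk
    exact key s (h.val _ h1).1.symm (h.cm _ h1)

/-- The index is right: `pre` contains `.l (O (.c s none)) π`, which is in `W` if the other party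
has touched it, and `s` is public or not touched by the other party. -/
theorem dl_run (a : ℕ) (F : S → List J → Comp X K V) (O : Th X S J K → K) (T : Tb S J K V)
    (Yq W : List (Th X S J K)) (own : Own S J K) (pre : List (Th X S J K))
    (h : Rt a F O T Yq W own pre) (hb : ¬ Bad gK O pre) (s : S) (π : K)
    (hp : .l (O (.c s none)) π ∈ pre) (h1 : .c s none ∈ Yq → .c s none ∈ W)
    (h2 : .l (O (.c s none)) π ∈ Yq → .l (O (.c s none)) π ∈ W) :
    .ind (dl own T s π) = wd a F O (.dec s π) := by
  by_cases hj : ∃ j, O (.c s (some j)) = π
  · obtain ⟨j, hj⟩ := hj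
    have hm : ∀ j', O (.c s (some j')) = π → (.c s (some j') : Th X S J K) ∈ pre :=
      fun j' e => fresh_l hb hp e
    have hu : ∀ j', O (.c s (some j')) = π → j' = j := fun j' e =>
      (uniq_l hb h.nice (hm j' e) (hm j hj) (e.trans hj.symm)).2
    rw [orc_dec_some a F O s π j hj hu]
    unfold dl
    rcases hl : lkL own s π with _ | j'
    · dsimp only
      have hW : (.c s (some j) : Th X S J K) ∈ W := by
        rcases h.keys s (some j) (hm j hj) with h3 | h3 | h3
        · rw [hj] at h3
          exact absurd h3 (lkL_none hl j)
        · have h4 := h.yi s (some j) h3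
          have h5 : (.l (O (.c s none)) π : Th X S J K) ∈ Yq := by
            rw [← hj]
            exact h4
          have h6 := h2 h5
          rw [← hj] at h6
          exact h.pub s j (h1 (h.yh s (some j) h3)) h6
        · exact h3
      have h7 := h.op1 s j hW
      rw [hj] at h7
      rw [h7]
    · dsimp only
      have h3 := (h.val _ (lkL_some hl)).1
      rw [hu j' h3.symm]
  · have hj' : ∀ j, O (.c s (some j)) ≠ π := fun j e => hj ⟨j, e⟩
    rw [orc_dec_none a F O s π hj']
    unfold dl
    rcases hl : lkL own s π with _ | j'
    · dsimp only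
      rcases ho : T.op s π with _ | j'
      · rfl
      · exact absurd (h.op2 s π j' ho).2 (hj' j')
    · exact absurd (h.val _ (lkL_some hl)).1.symm (hj' j')

private theorem K1_rt {a : ℕ} {F : S → List J → Comp X K V} {O : Th X S J K → K}
    {T : Tb S J K V} {Yq W : List (Th X S J K)} {own : Own S J K} {pre : List (Th X S J K)}
    (h : Rt a F O T Yq W own pre) (ow : Own S J K) (l : List (Th X S J K))
    (hv : ∀ e ∈ ow, e.2.2 = O (.c e.1 e.2.1) ∧ .c e.1 e.2.1 ∈ l)
    (hh : ∀ e ∈ ow, (e.1, none, O (.c e.1 none)) ∈ ow)
    (hk : ∀ s j, .c s j ∈ l → (s, j, O (.c s j)) ∈ ow)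
    (hc : ∀ e ∈ ow, .c e.1 e.2.1 ∈ Yq → .c e.1 e.2.1 ∈ W) (hn : Nice O l) :
    Rt a F O T Yq W (own ++ ow) (pre ++ l) where
  val := fun e he => by
    rcases List.mem_append.1 he with he | he
    · exact ⟨(h.val e he).1, List.mem_append_left _ (h.val e he).2⟩
    · exact ⟨(hv e he).1, List.mem_append_right _ (hv e he).2⟩
  hd := fun e he => by
    rcases List.mem_append.1 he with he | he
    · exact List.mem_append_left _ (h.hd e he)
    · exact List.mem_append_right _ (hh e he)
  keys := fun s j hs => by
    rcases List.mem_append.1 hs with hs | hs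
    · rcases h.keys s j hs with h1 | h1
      · exact Or.inl (List.mem_append_left _ h1)
      · exact Or.inr h1
    · exact Or.inl (List.mem_append_right _ (hk s j hs))
  cm := fun e he => by
    rcases List.mem_append.1 he with he | he
    · exact h.cm e he
    · exact hc e he
  yp := fun d hd => List.mem_append_left _ (h.yp d hd)
  wp := fun d hd => List.mem_append_left _ (h.wp d hd)
  nice := nice_append h.nice hn
  yh := h.yh
  yi := h.yi
  wh := h.wh
  tr1 := h.tr1
  tr2 := h.tr2
  op1 := h.op1
  op2 := h.op2
  pub := h.pub
  pr1 := h.pr1
  pr2 := fun η o P v hv => by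
    obtain ⟨s, js, h1, h2, h3⟩ := h.pr2 η o P v hv
    exact ⟨s, js, h1, List.mem_append_left _ h2, h3⟩

private theorem K1_rt_no {a : ℕ} {F : S → List J → Comp X K V} {O : Th X S J K → K}
    {T : Tb S J K V} {Yq W : List (Th X S J K)} {own : Own S J K} {pre : List (Th X S J K)}
    (h : Rt a F O T Yq W own pre) (l : List (Th X S J K)) (hl : ∀ s j, .c s j ∉ l) :
    Rt a F O T Yq W own (pre ++ l) := by
  have h1 := K1_rt h [] l (fun e he => absurd he (List.not_mem_nil)) (fun e he => absurd he (List.not_mem_nil))
    (fun s j hs => absurd hs (hl s j)) (fun e he => absurd he (List.not_mem_nil)) (nice_of_no hl)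
  rwa [List.append_nil] at h1

private theorem K1_no_itev (η : K) (l : List K) (s : S) (j : Option J) :
    .c s j ∉ (itev η l : List (Th X S J K)) := by
  intro h
  unfold itev at h
  rcases List.mem_cons.1 h with h | h
  · cases h
  · obtain ⟨x, _, hx⟩ := List.mem_map.1 h
    cases hx

/-- Row K1.  Induction on `c`; `pre ++ asked` is the list after the computation. -/
theorem cmp_run (a : ℕ) (F : S → List J → Comp X K V) (G : V → List ℕ → Comp X K V)
    (hG : ∀ f s js js' (i : List ℕ), js.length ≤ a → js'.map some = i.map (fun x => js[x]?) →
      (G ((F s js).run f) i).run f = (F s js').run f)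
    (O : Th X S J K → K) (T : Tb S J K V) (Yq W : List (Th X S J K))
    (c : Comp (Qry X S J K) (Ans J K V) α) : ∀ (own : Own S J K) (pre : List (Th X S J K)) (n : ℕ),
    Rt a F O T Yq W own pre → (c.asked (wd a F O)).length ≤ n →
    ¬ Bad gK O (pre ++ (cmp a F G T c own n).asked O) →
    (∀ d ∈ (cmp a F G T c own n).asked O, d ∈ Yq → d ∈ W) →
    ∃ own', (cmp a F G T c own n).run O =
        (some (c.run (wd a F O)), own', n - (c.asked (wd a F O)).length) ∧
      Rt a F O T Yq W own' (pre ++ (cmp a F G T c own n).asked O) := by
  induction c with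
  | ret x =>
    intro own pre n hR hn hb hw
    have e : cmp a F G T (.ret x) own n = .ret (some x, own, n) := by rw [cmp]
    rw [e]
    refine ⟨own, rfl, ?_⟩
    rw [Comp.asked_ret, List.append_nil]
    exact hR
  | ask q next ih =>
    intro own pre n hR hn hb hw
    rw [Comp.asked_ask, List.length_cons] at hn
    cases n with
    | zero => exact absurd hn (Nat.not_succ_le_zero _)
    | succ n =>
      have hn' : ((next (wd a F O q)).asked (wd a F O)).length ≤ n := Nat.le_of_succ_le_succ hn
      rw [Comp.run_ask, Comp.asked_ask, List.length_cons, Nat.succ_sub_succ]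
      cases q with
      | f x =>
        have e : cmp a F G T (.ask (.f x) next) own (n + 1) =
            .ask (.x x) fun v => cmp a F G T (next (.val v)) own n := by rw [cmp]
        rw [e] at hb hw ⊢
        rw [Comp.asked_ask] at hb hw ⊢
        rw [Comp.run_ask]
        have hw' : wd a F O (.f x) = .val (O (.x x)) := rfl
        rw [hw'] at hn' ⊢
        have hl : ∀ s j, Th.c s j ∉ ([Th.x x] : List (Th X S J K)) := by
          intro s j h
          rw [List.mem_singleton] at h
          cases h
        have e2 : ∀ r : List (Th X S J K), pre ++ (Th.x x :: r) = (pre ++ [Th.x x]) ++ r := by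
          intro r; simp
        rw [e2] at hb ⊢
        exact ih _ own (pre ++ [Th.x x]) n (K1_rt_no hR _ hl) hn' hb
          fun d hd => hw d (List.mem_cons_of_mem _ hd)
      | enc s j =>
        cases j with
        | none =>
          have e : cmp a F G T (.ask (.enc s none) next) own (n + 1) =
              .ask (.c s none) fun η => .ask (.h η) fun _ =>
                cmp a F G T (next (.val η)) (own ++ [(s, none, η)]) n := by rw [cmp]
          rw [e] at hb hw ⊢
          rw [Comp.asked_ask, Comp.asked_ask] at hb hw ⊢
          rw [Comp.run_ask, Comp.run_ask]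
          have hw' : wd a F O (.enc s none) = .val (O (.c s none)) := rfl
          rw [hw'] at hn' ⊢
          have e2 : ∀ r : List (Th X S J K), pre ++ (Th.c s none :: Th.h (O (.c s none)) :: r) =
              (pre ++ [Th.c s none, Th.h (O (.c s none))]) ++ r := by
            intro r; simp
          rw [e2] at hb ⊢
          refine ih _ (own ++ [(s, none, O (.c s none))]) _ n (K1_rt hR _ _ ?_ ?_ ?_ ?_ ?_) hn' hb
            fun d hd => hw d (List.mem_cons_of_mem _ (List.mem_cons_of_mem _ hd))
          · intro e he
            rw [List.mem_singleton] at he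
            subst he
            exact ⟨rfl, List.mem_cons_self⟩
          · intro e he
            rw [List.mem_singleton] at he
            subst he
            exact List.mem_singleton.2 rfl
          · intro s' j' hs
            rcases List.mem_cons.1 hs with hs | hs
            · injection hs with h1 h2
              subst h1 h2
              exact List.mem_singleton.2 rfl
            · rw [List.mem_singleton] at hs
              cases hs
          · intro e he
            rw [List.mem_singleton] at he
            subst he
            exact hw _ List.mem_cons_self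
          · exact nice_cell O s none
        | some j =>
          have e : cmp a F G T (.ask (.enc s (some j)) next) own (n + 1) =
              .ask (.c s none) fun η => .ask (.h η) fun _ =>
                .ask (.c s (some j)) fun π => .ask (.l η π) fun _ =>
                  cmp a F G T (next (.val π)) (own ++ [(s, none, η), (s, some j, π)]) n := by rw [cmp]
          rw [e] at hb hw ⊢
          rw [Comp.asked_ask, Comp.asked_ask, Comp.asked_ask, Comp.asked_ask] at hb hw ⊢
          rw [Comp.run_ask, Comp.run_ask, Comp.run_ask, Comp.run_ask]
          have hw' : wd a F O (.enc s (some j)) = .val (O (.c s (some j))) := rfl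
          rw [hw'] at hn' ⊢
          have e2 : ∀ r : List (Th X S J K), pre ++ (Th.c s none :: Th.h (O (.c s none)) ::
              Th.c s (some j) :: Th.l (O (.c s none)) (O (.c s (some j))) :: r) =
              (pre ++ [Th.c s none, Th.h (O (.c s none)), Th.c s (some j),
                Th.l (O (.c s none)) (O (.c s (some j)))]) ++ r := by
            intro r; simp
          rw [e2] at hb ⊢
          refine ih _ (own ++ [(s, none, O (.c s none)), (s, some j, O (.c s (some j)))]) _ n
            (K1_rt hR _ _ ?_ ?_ ?_ ?_ ?_) hn' hb
            fun d hd => hw d (List.mem_cons_of_mem _ (List.mem_cons_of_mem _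
              (List.mem_cons_of_mem _ (List.mem_cons_of_mem _ hd))))
          · intro e he
            rcases List.mem_cons.1 he with he | he
            · subst he
              exact ⟨rfl, List.mem_cons_self⟩
            · rw [List.mem_singleton] at he
              subst he
              exact ⟨rfl, List.mem_cons_of_mem _ (List.mem_cons_of_mem _ List.mem_cons_self)⟩
          · intro e he
            rcases List.mem_cons.1 he with he | he
            · subst he
              exact List.mem_cons_self
            · rw [List.mem_singleton] at he
              subst he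
              exact List.mem_cons_self
          · intro s' j' hs
            rcases List.mem_cons.1 hs with hs | hs
            · injection hs with h1 h2
              subst h1 h2
              exact List.mem_cons_self
            · rcases List.mem_cons.1 hs with hs | hs
              · cases hs
              · rcases List.mem_cons.1 hs with hs | hs
                · injection hs with h1 h2
                  subst h1 h2
                  exact List.mem_cons_of_mem _ List.mem_cons_self
                · rw [List.mem_singleton] at hs
                  cases hs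
          · intro e he
            rcases List.mem_cons.1 he with he | he
            · subst he
              exact hw _ List.mem_cons_self
            · rw [List.mem_singleton] at he
              subst he
              exact hw _ (List.mem_cons_of_mem _ (List.mem_cons_of_mem _ List.mem_cons_self))
          · exact nice_append (nice_cell O s none) (nice_cell O s (some j))
      | dec s π =>
        have e : cmp a F G T (.ask (.dec s π) next) own (n + 1) =
            .ask (.c s none) fun η => .ask (.h η) fun _ => .ask (.l η π) fun _ =>
              cmp a F G T (next (.ind (dl (own ++ [(s, none, η)]) T s π)))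
                (own ++ [(s, none, η)]) n := by rw [cmp]
        rw [e] at hb hw ⊢
        rw [Comp.asked_ask, Comp.asked_ask, Comp.asked_ask] at hb hw ⊢
        rw [Comp.run_ask, Comp.run_ask, Comp.run_ask]
        have e2 : ∀ r : List (Th X S J K), pre ++ (Th.c s none :: Th.h (O (.c s none)) ::
            Th.l (O (.c s none)) π :: r) =
            (pre ++ [Th.c s none, Th.h (O (.c s none)), Th.l (O (.c s none)) π]) ++ r := by
          intro r; simp
        rw [e2] at hb ⊢
        have hR1 : Rt a F O T Yq W (own ++ [(s, none, O (.c s none))])
            (pre ++ [Th.c s none, Th.h (O (.c s none)), Th.l (O (.c s none)) π]) := by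
          refine K1_rt hR _ _ ?_ ?_ ?_ ?_ ?_
          · intro e he
            rw [List.mem_singleton] at he
            subst he
            exact ⟨rfl, List.mem_cons_self⟩
          · intro e he
            rw [List.mem_singleton] at he
            subst he
            exact List.mem_singleton.2 rfl
          · intro s' j' hs
            rcases List.mem_cons.1 hs with hs | hs
            · injection hs with h1 h2
              subst h1 h2
              exact List.mem_singleton.2 rfl
            · rcases List.mem_cons.1 hs with hs | hs
              · cases hs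
              · rw [List.mem_singleton] at hs
                cases hs
          · intro e he
            rw [List.mem_singleton] at he
            subst he
            exact hw _ List.mem_cons_self
          · refine nice_append (l' := [Th.l (O (.c s none)) π]) (nice_cell O s none)
              (nice_of_no fun s' j' h => ?_)
            rw [List.mem_singleton] at h
            cases h
        have hb1 : ¬ Bad gK O (pre ++ [Th.c s none, Th.h (O (.c s none)),
            Th.l (O (.c s none)) π]) := fun h => hb (bad_append h)
        have hres := dl_run a F O T Yq W _ _ hR1 hb1 s π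
          (List.mem_append_right _ (List.mem_cons_of_mem _ (List.mem_cons_of_mem _
            List.mem_cons_self)))
          (hw _ List.mem_cons_self)
          (hw _ (List.mem_cons_of_mem _ (List.mem_cons_of_mem _ List.mem_cons_self)))
        rw [← hres] at hn' ⊢
        exact ih _ _ _ n hR1 hn' hb fun d hd => hw d (List.mem_cons_of_mem _
          (List.mem_cons_of_mem _ (List.mem_cons_of_mem _ hd)))
      | ev η l =>
        by_cases hla : l.length ≤ a
        · have e : cmp a F G T (.ask (.ev η l) next) own (n + 1) =
              (Comp.askAll (itev η l)).bind fun _ =>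
                (evA F G own T η l).bind fun r => cmp a F G T (next (.res r)) own n := by
            rw [cmp, if_pos hla]
          rw [e] at hb hw ⊢
          rw [Comp.asked_bind, Comp.asked_askAll, Comp.asked_bind] at hb hw ⊢
          rw [Comp.run_bind, Comp.run_bind]
          have hR1 : Rt a F O T Yq W own (pre ++ itev η l) := K1_rt_no hR _ (K1_no_itev η l)
          have hb1 : ¬ Bad gK O (pre ++ itev η l) := by
            intro h
            apply hb
            rw [← List.append_assoc]
            exact bad_append h
          have hres := evA_run a F G hG O T Yq W own (pre ++ itev η l) hR1 hb1 η l hla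
            (fun d hd => List.mem_append_right _ hd)
            (fun d hd => hw d (List.mem_append_left _ hd))
          rw [← hres] at hn' ⊢
          have hl : ∀ s j, Th.c s j ∉ (evA F G own T η l).asked O := by
            intro s j h
            obtain ⟨x, hx⟩ := evA_cells F G own T η l O _ h
            cases hx
          have hR2 := K1_rt_no hR1 _ hl
          have e2 : ∀ r : List (Th X S J K),
              pre ++ (itev η l ++ ((evA F G own T η l).asked O ++ r)) =
                (pre ++ itev η l ++ (evA F G own T η l).asked O) ++ r := by
            intro r; simp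
          rw [e2] at hb ⊢
          exact ih _ own _ n hR2 hn' hb
            fun d hd => hw d (List.mem_append_right _ (List.mem_append_right _ hd))
        · have e : cmp a F G T (.ask (.ev η l) next) own (n + 1) =
              cmp a F G T (next (.res none)) own n := by
            rw [cmp, if_neg hla]
          rw [e] at hb hw ⊢
          have hw' : wd a F O (.ev η l) = .res none := by
            show Ans.res (dite _ _ _) = _
            rw [dif_neg (fun h => hla h.1)]
          rw [hw'] at hn' ⊢
          exact ih _ own _ n hR hn' hb hw

end Pool.Agent.Fe
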