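import Pool.Agent.Lib.MP_ae38e0_lc.Fe.Build

import Pool.Agent.Lib.MP_ae38e0_lc.Fe.Real

set_option autoImplicit false

/-!
# Invariants of the public state
-/

namespace Pool.Agent.Fe

open Pool.Agent.LinOT Pool.Agent.Nbb Classical

variable {X S J K V Mg StA StB RA RB : Type}

/-- The list `own` of a party belongs to the list `q` of the things touched by it. -/
structure Cn (own : Own S J K) (q : List (Th X S J K)) (O : Th X S J K → K) : Prop where
  val : ∀ e ∈ own, e.2.2 = O (.c e.1 e.2.1) ∧ .c e.1 e.2.1 ∈ q
  hd : ∀ e ∈ own, (e.1, none, O (.c e.1 none)) ∈ own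
  keys : ∀ s j, .c s j ∈ q → (s, j, O (.c s j)) ∈ own
  its : ∀ s j, .c s j ∈ q → itm O s j ∈ q
  down : ∀ η π, .l η π ∈ q → .h η ∈ q

/-- The labels of the list. -/
noncomputable def labs (own : Own S J K) : Own S J K := own.filter fun e => decide (e.2.1 ≠ none)

/-- What holds for a state `c` of a compiled party, whose list is `q`: `pd` says that the party has
still to evaluate once, `p` are the items which it has confirmed. -/
structure SI {St : Type} (a n m : ℕ) (pd : Prop) (p : Finset (Th X S J K))
    (c : CS St S J K) (q : List (Th X S J K)) (O : Th X S J K → K) : Prop where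
  cn : Cn c.own q O
  fl : c.fuel ≤ n
  own : c.own.length + 2 * c.fuel ≤ 2 * n
  lab : (labs c.own).length + c.fuel ≤ n
  len : q.length + (if pd then m else 0) ≤ (n - c.fuel) * (a + m + 4) + m * p.card
  pos : ∀ d ∈ p, ∃ e ∈ c.own, d = itm O e.1 e.2.1

/-- The bound for the lists. -/
def nn (a n m : ℕ) : ℕ := n * (a + 3 * m + 4)

/-- Row I1.  There are at most `own.length` confirmed items. -/
theorem SI.bound {St : Type} {a n m : ℕ} {pd : Prop} {p : Finset (Th X S J K)}
    {c : CS St S J K} {q : List (Th X S J K)} {O : Th X S J K → K}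
    (h : SI a n m pd p c q O) : q.length + (if pd then m else 0) ≤ nn a n m := by
  have h1 : p ⊆ (c.own.map fun e => (itm O e.1 e.2.1 : Th X S J K)).toFinset := by
    intro d hd
    obtain ⟨e, he, hde⟩ := h.pos d hd
    rw [List.mem_toFinset, List.mem_map]
    exact ⟨e, he, hde.symm⟩
  have h2 : p.card ≤ c.own.length := by
    have := (Finset.card_le_card h1).trans (List.toFinset_card_le _)
    rwa [List.length_map] at this
  have h4 : p.card ≤ 2 * (n - c.fuel) := by
    have := h.own
    omega
  refine h.len.trans ?_
  calc (n - c.fuel) * (a + m + 4) + m * p.card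
      ≤ (n - c.fuel) * (a + m + 4) + m * (2 * (n - c.fuel)) :=
        Nat.add_le_add_left (Nat.mul_le_mul_left _ h4) _
    _ = (n - c.fuel) * (a + 3 * m + 4) := by ring
    _ ≤ n * (a + 3 * m + 4) := Nat.mul_le_mul_right _ (Nat.sub_le _ _)

private theorem I1_evK (F : S → List J → Comp X K V) (m : ℕ)
    (hF : ∀ f s js, ((F s js).asked f).length ≤ m)
    (T : Tb S J K V) (O : Th X S J K → K) (own : Own S J K) (s : S)
    (l : List K) : ((evK F own T s l).asked O).length ≤ m := by
  unfold evK
  split
  · simp [Comp.asked_bind, asked_lift, hF]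
  · simp

private theorem I1_evA (F : S → List J → Comp X K V)
    (G : V → List ℕ → Comp X K V) (m : ℕ)
    (hF : ∀ f s js, ((F s js).asked f).length ≤ m) (hG : ∀ f v i, ((G v i).asked f).length ≤ m)
    (T : Tb S J K V) (O : Th X S J K → K) (own : Own S J K) (η : K)
    (l : List K) : ((evA F G own T η l).asked O).length ≤ m := by
  unfold evA
  split
  · exact I1_evK F m hF T O own _ l
  · split
    · exact I1_evK F m hF T O own _ l
    · split
      · split
        · simp [Comp.asked_bind, asked_lift, hG]
        · simp
      · simp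

private theorem I1_labs_h (own : Own S J K) (s : S) (η : K) :
    labs (own ++ [(s, none, η)]) = labs own := by
  unfold labs
  rw [List.filter_append]
  simp

private theorem I1_labs_l (own : Own S J K) (s : S) (j : J) (η π : K) :
    (labs (own ++ [(s, none, η), (s, some j, π)])).length = (labs own).length + 1 := by
  unfold labs
  rw [List.filter_append]
  simp

private theorem I1_itev (η : K) (l : List K) :
    (itev η l : List (Th X S J K)).length = l.length + 1 := by
  unfold itev
  simp

/-- Lengths in a computation of a compiled party. -/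
theorem cmp_len {α : Type} (a : ℕ) (F : S → List J → Comp X K V) (G : V → List ℕ → Comp X K V)
    (m : ℕ) (hF : ∀ f s js, ((F s js).asked f).length ≤ m)
    (hG : ∀ f v i, ((G v i).asked f).length ≤ m) (T : Tb S J K V) (O : Th X S J K → K)
    (c : Comp (Qry X S J K) (Ans J K V) α) :
    ∀ (own : Own S J K) (n : ℕ),
      ((cmp a F G T c own n).run O).2.2 ≤ n ∧
      ((cmp a F G T c own n).run O).2.1.length + 2 * ((cmp a F G T c own n).run O).2.2 ≤
        own.length + 2 * n ∧
      (labs ((cmp a F G T c own n).run O).2.1).length + ((cmp a F G T c own n).run O).2.2 ≤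
        (labs own).length + n ∧
      ((cmp a F G T c own n).asked O).length +
        ((cmp a F G T c own n).run O).2.2 * (a + m + 4) ≤ n * (a + m + 4) := by
  induction c with
  | ret x =>
    intro own n
    simp [cmp]
  | ask q next ih =>
    intro own n
    cases n with
    | zero => simp [cmp]
    | succ n =>
      cases q with
      | f x =>
        obtain ⟨h1, h2, h3, h4⟩ := ih (.val (O (.x x))) own n
        simp only [cmp, Comp.run_ask, Comp.asked_ask, List.length_cons]
        refine ⟨by omega, by omega, by omega, ?_⟩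
        rw [Nat.succ_mul]
        omega
      | enc s j =>
        cases j with
        | none =>
          obtain ⟨h1, h2, h3, h4⟩ := ih (.val (O (.c s none))) (own ++ [(s, none, O (.c s none))]) n
          rw [List.length_append, List.length_singleton] at h2
          rw [I1_labs_h] at h3
          simp only [cmp, Comp.run_ask, Comp.asked_ask, List.length_cons]
          refine ⟨by omega, by omega, by omega, ?_⟩
          rw [Nat.succ_mul]
          omega
        | some j =>
          obtain ⟨h1, h2, h3, h4⟩ := ih (.val (O (.c s (some j))))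
            (own ++ [(s, none, O (.c s none)), (s, some j, O (.c s (some j)))]) n
          rw [List.length_append, List.length_cons, List.length_singleton] at h2
          rw [I1_labs_l] at h3
          simp only [cmp, Comp.run_ask, Comp.asked_ask, List.length_cons]
          refine ⟨by omega, by omega, by omega, ?_⟩
          rw [Nat.succ_mul]
          omega
      | dec s π =>
        obtain ⟨h1, h2, h3, h4⟩ := ih (.ind (dl (own ++ [(s, none, O (.c s none))]) T s π))
          (own ++ [(s, none, O (.c s none))]) n
        rw [List.length_append, List.length_singleton] at h2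
        rw [I1_labs_h] at h3
        simp only [cmp, Comp.run_ask, Comp.asked_ask, List.length_cons]
        refine ⟨by omega, by omega, by omega, ?_⟩
        rw [Nat.succ_mul]
        omega
      | ev η l =>
        by_cases hl : l.length ≤ a
        · obtain ⟨h1, h2, h3, h4⟩ := ih (.res ((evA F G own T η l).run O)) own n
          have h5 := I1_itev (X := X) (S := S) (J := J) η l
          have h6 := I1_evA F G m hF hG T O own η l
          simp only [cmp, if_pos hl, Comp.run_bind, Comp.asked_bind,
            Comp.asked_askAll, List.length_append]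
          refine ⟨by omega, by omega, by omega, ?_⟩
          rw [Nat.succ_mul]
          omega
        · obtain ⟨h1, h2, h3, h4⟩ := ih (.res none) own n
          simp only [cmp, if_neg hl]
          refine ⟨by omega, by omega, by omega, ?_⟩
          rw [Nat.succ_mul]
          omega

private theorem I3_ext {own own' : Own S J K} {q q' : List (Th X S J K)} {O : Th X S J K → K}
    (h : Cn own q O)
    (hv : ∀ e ∈ own', e.2.2 = O (.c e.1 e.2.1) ∧ .c e.1 e.2.1 ∈ q')
    (hh : ∀ e ∈ own', (e.1, none, O (.c e.1 none)) ∈ own')
    (hk : ∀ s j, .c s j ∈ q' → (s, j, O (.c s j)) ∈ own')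
    (hi : ∀ s j, .c s j ∈ q' → itm O s j ∈ q')
    (hd : ∀ η π, .l η π ∈ q' → .h η ∈ q') : Cn (own ++ own') (q ++ q') O := by
  refine ⟨?_, ?_, ?_, ?_, ?_⟩
  · intro e he
    rcases List.mem_append.1 he with he | he
    · exact ⟨(h.val e he).1, List.mem_append_left _ (h.val e he).2⟩
    · exact ⟨(hv e he).1, List.mem_append_right _ (hv e he).2⟩
  · intro e he
    rcases List.mem_append.1 he with he | he
    · exact List.mem_append_left _ (h.hd e he)
    · exact List.mem_append_right _ (hh e he)
  · intro s j hs
    rcases List.mem_append.1 hs with hs | hs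
    · exact List.mem_append_left _ (h.keys s j hs)
    · exact List.mem_append_right _ (hk s j hs)
  · intro s j hs
    rcases List.mem_append.1 hs with hs | hs
    · exact List.mem_append_left _ (h.its s j hs)
    · exact List.mem_append_right _ (hi s j hs)
  · intro η π hs
    rcases List.mem_append.1 hs with hs | hs
    · exact List.mem_append_left _ (h.down η π hs)
    · exact List.mem_append_right _ (hd η π hs)

private theorem I3_same {own : Own S J K} {q q' : List (Th X S J K)} {O : Th X S J K → K}
    (h : Cn own q O) (hk : ∀ s j, (.c s j : Th X S J K) ∉ q')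
    (hd : ∀ η π, .l η π ∈ q' → .h η ∈ q') : Cn own (q ++ q') O := by
  have h1 := I3_ext (own' := []) (q' := q') h (by simp) (by simp)
    (fun s j hs => absurd hs (hk s j)) (fun s j hs => absurd hs (hk s j)) hd
  rw [List.append_nil] at h1
  exact h1

private theorem I3_step {own own' O' : Own S J K} {q q' l : List (Th X S J K)}
    {O : Th X S J K → K}
    (hih : (∀ e ∈ own ++ own', e ∈ O') ∧ Cn O' (q ++ q' ++ l) O) :
    (∀ e ∈ own, e ∈ O') ∧ Cn O' (q ++ (q' ++ l)) O := by
  rw [← List.append_assoc]
  exact ⟨fun e he => hih.1 e (List.mem_append_left _ he), hih.2⟩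

/-- Row I3.  The list and the keys in a computation of a compiled party. -/
theorem cmp_inv {α : Type} (a : ℕ) (F : S → List J → Comp X K V) (G : V → List ℕ → Comp X K V)
    (T : Tb S J K V) (O : Th X S J K → K) (c : Comp (Qry X S J K) (Ans J K V) α) :
    ∀ (own : Own S J K) (n : ℕ) (q : List (Th X S J K)), Cn own q O →
      (∀ e ∈ own, e ∈ ((cmp a F G T c own n).run O).2.1) ∧
      Cn ((cmp a F G T c own n).run O).2.1 (q ++ (cmp a F G T c own n).asked O) O := by
  induction c with
  | ret x =>
    intro own n q h
    cases n <;>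
    · simp only [cmp, Comp.run_ret, Comp.asked_ret, List.append_nil]
      exact ⟨fun e he => he, h⟩
  | ask u next ih =>
    intro own n q h
    cases n with
    | zero =>
      simp only [cmp, Comp.run_ret, Comp.asked_ret, List.append_nil]
      exact ⟨fun e he => he, h⟩
    | succ n =>
      cases u with
      | f x =>
        simp only [cmp, Comp.run_ask, Comp.asked_ask]
        have h1 := ih (.val (O (.x x))) own n (q ++ [.x x])
          (I3_same h (by simp) (by simp))
        rw [List.append_assoc] at h1
        exact h1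
      | enc s j =>
        cases j with
        | none =>
          simp only [cmp, Comp.run_ask, Comp.asked_ask]
          have h1 := ih (.val (O (.c s none))) (own ++ [(s, none, O (.c s none))]) n
            (q ++ [.c s none, .h (O (.c s none))]) (I3_ext h ?_ ?_ ?_ ?_ ?_)
          · exact I3_step h1
          · intro e he
            obtain rfl : e = (s, none, O (.c s none)) := by simpa using he
            exact ⟨rfl, by simp⟩
          · intro e he
            obtain rfl : e = (s, none, O (.c s none)) := by simpa using he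
            simp
          · intro s' j' hs
            have h2 : s' = s ∧ j' = none := by simpa using hs
            obtain ⟨rfl, rfl⟩ := h2
            simp
          · intro s' j' hs
            have h2 : s' = s ∧ j' = none := by simpa using hs
            obtain ⟨rfl, rfl⟩ := h2
            simp [itm]
          · intro η π hs
            simp at hs
        | some j =>
          simp only [cmp, Comp.run_ask, Comp.asked_ask]
          have h1 := ih (.val (O (.c s (some j))))
            (own ++ [(s, none, O (.c s none)), (s, some j, O (.c s (some j)))]) n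
            (q ++ [.c s none, .h (O (.c s none)), .c s (some j),
              .l (O (.c s none)) (O (.c s (some j)))]) (I3_ext h ?_ ?_ ?_ ?_ ?_)
          · exact I3_step h1
          · intro e he
            have h2 : e = (s, none, O (.c s none)) ∨ e = (s, some j, O (.c s (some j))) := by
              simpa using he
            rcases h2 with rfl | rfl
            · exact ⟨rfl, by simp⟩
            · exact ⟨rfl, by simp⟩
          · intro e he
            have h2 : e = (s, none, O (.c s none)) ∨ e = (s, some j, O (.c s (some j))) := by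
              simpa using he
            rcases h2 with rfl | rfl
            · simp
            · simp
          · intro s' j' hs
            have h2 : (s' = s ∧ j' = none) ∨ (s' = s ∧ j' = some j) := by simpa using hs
            rcases h2 with ⟨rfl, rfl⟩ | ⟨rfl, rfl⟩
            · simp
            · simp
          · intro s' j' hs
            have h2 : (s' = s ∧ j' = none) ∨ (s' = s ∧ j' = some j) := by simpa using hs
            rcases h2 with ⟨rfl, rfl⟩ | ⟨rfl, rfl⟩
            · simp [itm]
            · simp [itm]
          · intro η π hs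
            have h2 : η = O (.c s none) ∧ π = O (.c s (some j)) := by simpa using hs
            rw [h2.1]
            simp
      | dec s π0 =>
        simp only [cmp, Comp.run_ask, Comp.asked_ask]
        have h1 := ih (.ind (dl (own ++ [(s, none, O (.c s none))]) T s π0))
          (own ++ [(s, none, O (.c s none))]) n
          (q ++ [.c s none, .h (O (.c s none)), .l (O (.c s none)) π0]) (I3_ext h ?_ ?_ ?_ ?_ ?_)
        · exact I3_step h1
        · intro e he
          obtain rfl : e = (s, none, O (.c s none)) := by simpa using he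
          exact ⟨rfl, by simp⟩
        · intro e he
          obtain rfl : e = (s, none, O (.c s none)) := by simpa using he
          simp
        · intro s' j' hs
          have h2 : s' = s ∧ j' = none := by simpa using hs
          obtain ⟨rfl, rfl⟩ := h2
          simp
        · intro s' j' hs
          have h2 : s' = s ∧ j' = none := by simpa using hs
          obtain ⟨rfl, rfl⟩ := h2
          simp [itm]
        · intro η π hs
          have h2 : η = O (.c s none) ∧ π = π0 := by simpa using hs
          rw [h2.1]
          simp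
      | ev η0 l0 =>
        by_cases hl : l0.length ≤ a
        · simp only [cmp, if_pos hl, Comp.run_bind, Comp.asked_bind, Comp.asked_askAll]
          have hc := evA_cells F G own T η0 l0 O
          have h1 := ih (.res ((evA F G own T η0 l0).run O)) own n
            (q ++ (itev η0 l0 ++ (evA F G own T η0 l0).asked O)) (I3_same h ?_ ?_)
          · rw [List.append_assoc, List.append_assoc] at h1
            exact h1
          · intro s j hs
            rcases List.mem_append.1 hs with hs | hs
            · unfold itev at hs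
              simp at hs
            · obtain ⟨x, hx⟩ := hc _ hs
              simp at hx
          · intro η π hs
            refine List.mem_append_left _ ?_
            rcases List.mem_append.1 hs with hs | hs
            · unfold itev at hs ⊢
              have h2 : π ∈ l0 ∧ η0 = η := by simpa using hs
              rw [h2.2]
              simp
            · obtain ⟨x, hx⟩ := hc _ hs
              simp at hx
        · simp only [cmp, if_neg hl]
          exact ih (.res none) own n q h

/-- The owner of the pending handle is the first (`true`) or second party. -/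
def pd (o : Bool) (e : Env X S J K V StA StB RA RB) : Prop :=
  ∃ η P r, e.pend = some η ∧ e.T.pr η = some (o, P, r)

section GI

variable [Finite X] [Finite S] [Finite J] [Fintype K] [Nonempty K] [Fintype RA] [Fintype RB]

/-- The invariants of the public state. -/
structure GI (a n m : ℕ) (e : Env X S J K V StA StB RA RB) : Prop where
  lA : e.A.Loc
  lB : e.B.Loc
  sA : ∀ p ∈ sup SV e.A e.kn,
    SI a n m (pd true e) e.pA (e.A.s p.1 p.2.1) (e.A.q p.1 p.2.1) p.2.1
  sB : ∀ p ∈ sup SV e.B e.kn,
    SI a n m (pd false e) e.pB (e.B.s p.1 p.2.1) (e.B.q p.1 p.2.1) p.2.1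
  wA : ∀ d ∈ e.pA, d ∈ e.kn.map Prod.fst
  wB : ∀ d ∈ e.pB, d ∈ e.kn.map Prod.fst
  kh : ∀ s v, (.c s none, v) ∈ e.kn → .h v ∈ e.kn.map Prod.fst
  ko : ∀ s j v, (.c s (some j), v) ∈ e.kn → e.T.op s v ≠ none
  tk : ∀ η s, e.T.tr η = some s → (.c s none, η) ∈ e.kn

variable {a n m : ℕ} {e : Env X S J K V StA StB RA RB}

/-! ## Row I4: learning -/

omit [Finite X] [Finite S] [Finite J] [Fintype RB] in
theorem sup_mono [Finite X] [Finite S] [Finite J]
    (Z : Sd (Th X S J K) K (CS StA S J K) RA) (kn l : List (Th X S J K × K)) :
    sup SV Z (kn ++ l) ⊆ sup SV Z kn := by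
  intro p hp
  rw [mem_sup] at hp ⊢
  exact ⟨hp.1, fun w hw => hp.2 w (List.mem_append_left _ hw)⟩

/-- learning a list of things, with new tables of the known keys and labels -/
private theorem I4_kn (h : GI a n m e) (l : List (Th X S J K × K)) (t : K → Option S)
    (o : S → K → Option J)
    (hl : ∀ (s : S) (v : K), ((Th.c s none : Th X S J K), v) ∈ l →
      (Th.h v : Th X S J K) ∈ l.map Prod.fst)
    (ho : ∀ (s : S) (j : J) (v : K), ((Th.c s (some j) : Th X S J K), v) ∈ l → o s v ≠ none)
    (ho' : ∀ (s : S) (v : K), e.T.op s v ≠ none → o s v ≠ none)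
    (ht : ∀ (η : K) (s : S), t η = some s → e.T.tr η = some s ∨
      ((Th.c s none : Th X S J K), η) ∈ l) :
    GI a n m { e with kn := e.kn ++ l, T := { e.T with tr := t, op := o } } := by
  have hA : sup SV e.A (e.kn ++ l) ⊆ sup SV e.A e.kn := by
    intro p hp
    rw [mem_sup] at hp ⊢
    exact ⟨hp.1, fun w hw => hp.2 w (List.mem_append_left _ hw)⟩
  have hB : sup SV e.B (e.kn ++ l) ⊆ sup SV e.B e.kn := by
    intro p hp
    rw [mem_sup] at hp ⊢
    exact ⟨hp.1, fun w hw => hp.2 w (List.mem_append_left _ hw)⟩
  have hw : ∀ d, d ∈ e.kn.map Prod.fst → d ∈ (e.kn ++ l).map Prod.fst := by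
    intro d hd
    rw [List.map_append]
    exact List.mem_append_left _ hd
  constructor
  · exact h.lA
  · exact h.lB
  · intro p hp
    exact h.sA p (hA hp)
  · intro p hp
    exact h.sB p (hB hp)
  · intro d hd
    exact hw d (h.wA d hd)
  · intro d hd
    exact hw d (h.wB d hd)
  · intro s u hu
    rcases List.mem_append.1 hu with h1 | h1
    · exact hw _ (h.kh s u h1)
    · have h2 := hl s u h1
      change _ ∈ (e.kn ++ l).map Prod.fst
      rw [List.map_append]
      exact List.mem_append_right _ h2
  · intro s j u hu
    rcases List.mem_append.1 hu with h1 | h1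
    · exact ho' s u (h.ko s j u h1)
    · exact ho s j u h1
  · intro η s hs
    rcases ht η s hs with h1 | h1
    · exact List.mem_append_left _ (h.tk η s h1)
    · exact List.mem_append_right _ h1

theorem gi_x (h : GI a n m e) (x : X) (v : K) : GI a n m (e.kna (.x x) v) := by
  refine I4_kn h [(Th.x x, v)] e.T.tr e.T.op ?_ ?_ (fun s v h => h) (fun η s h => Or.inl h)
  · intro s u hu
    have h1 := congrArg Prod.fst (List.mem_singleton.1 hu)
    exact absurd h1 (by simp)
  · intro s j u hu
    have h1 := congrArg Prod.fst (List.mem_singleton.1 hu)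
    exact absurd h1 (by simp)

theorem gi_item (h : GI a n m e) (d : Th X S J K) (hd : ¬ cel d) (v : K) :
    GI a n m (e.kna d v) := by
  refine I4_kn h [(d, v)] e.T.tr e.T.op ?_ ?_ (fun s v h => h) (fun η s h => Or.inl h)
  · intro s u hu
    have h1 : (Th.c s none : Th X S J K) = d := congrArg Prod.fst (List.mem_singleton.1 hu)
    rw [← h1] at hd
    exact absurd trivial hd
  · intro s j u hu
    have h1 : (Th.c s (some j) : Th X S J K) = d := congrArg Prod.fst (List.mem_singleton.1 hu)
    rw [← h1] at hd
    exact absurd trivial hd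

theorem gi_key (h : GI a n m e) (s : S) (η u : K) :
    GI a n m (((e.kna (.c s none) η).kna (.h η) u).setTr η s) := by
  have h0 : ((e.kna (.c s none) η).kna (.h η) u).setTr η s =
      { e with kn := e.kn ++ [(Th.c s none, η), (Th.h η, u)],
               T := { e.T with tr := Function.update e.T.tr η (some s), op := e.T.op } } := by
    unfold Env.setTr Env.kna
    simp only [List.append_assoc, List.singleton_append]
  rw [h0]
  refine I4_kn h _ _ _ ?_ ?_ (fun s v h => h) ?_
  · intro s' v hv
    rcases List.mem_cons.1 hv with h1 | h1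
    · have h2 : v = η := congrArg Prod.snd h1
      subst h2
      simp
    · have h2 := congrArg Prod.fst (List.mem_singleton.1 h1)
      exact absurd h2 (by simp)
  · intro s' j v hv
    rcases List.mem_cons.1 hv with h1 | h1
    · have h2 := congrArg Prod.fst h1
      exact absurd h2 (by simp)
    · have h2 := congrArg Prod.fst (List.mem_singleton.1 h1)
      exact absurd h2 (by simp)
  · intro η' s' hs
    by_cases hη : η' = η
    · subst hη
      rw [Function.update_self] at hs
      obtain rfl : s = s' := Option.some_inj.1 hs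
      exact Or.inr List.mem_cons_self
    · rw [Function.update_of_ne hη] at hs
      exact Or.inl hs

theorem gi_lc (h : GI a n m e) (s : S) (j : J) (η v u : K) :
    GI a n m (((e.kna (.c s (some j)) v).kna (.l η v) u).setOp s v j) := by
  have h0 : ((e.kna (.c s (some j)) v).kna (.l η v) u).setOp s v j =
      { e with kn := e.kn ++ [(Th.c s (some j), v), (Th.l η v, u)],
               T := { e.T with tr := e.T.tr,
                               op := fun s' π' => if s' = s ∧ π' = v then some j
                                 else e.T.op s' π' } } := by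
    unfold Env.setOp Env.kna
    simp only [List.append_assoc, List.singleton_append]
  rw [h0]
  refine I4_kn h _ _ _ ?_ ?_ ?_ (fun η s h => Or.inl h)
  · intro s' w hw
    rcases List.mem_cons.1 hw with h1 | h1
    · have h2 := congrArg Prod.fst h1
      exact absurd h2 (by simp)
    · have h2 := congrArg Prod.fst (List.mem_singleton.1 h1)
      exact absurd h2 (by simp)
  · intro s' j' w hw
    rcases List.mem_cons.1 hw with h1 | h1
    · have h2 : (Th.c s' (some j') : Th X S J K) = Th.c s (some j) := congrArg Prod.fst h1
      have h3 : w = v := congrArg Prod.snd h1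
      have h4 : s' = s := by
        simp only [Th.c.injEq] at h2
        exact h2.1
      rw [if_pos ⟨h4, h3⟩]
      exact Option.some_ne_none _
    · have h2 := congrArg Prod.fst (List.mem_singleton.1 h1)
      exact absurd h2 (by simp)
  · intro s' w hw
    show (if s' = s ∧ w = v then some j else e.T.op s' w) ≠ none
    split
    · exact Option.some_ne_none _
    · exact hw

/-! ## Row I5: silent steps, confirmed items -/

/-- A silent step of the first party (`bitH`, `bitL`, `tellC`). -/
theorem gi_silA (h : GI a n m e) (g : CS StA S J K → Pb Mg J V) (b : Pb Mg J V) :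
    GI a n m (e.upA (fun c => .ret (c, g c)) b) where
  lA := upd_loc h.lA _ b
  lB := h.lB
  sA := fun p hp => by
    have hp' : p ∈ sup SV e.A e.kn := by
      rw [mem_sup] at hp ⊢
      exact ⟨hp.1.1, hp.2⟩
    have h1 := h.sA p hp'
    have e2 : (e.upA (fun c => .ret (c, g c)) b).A.q p.1 p.2.1 = e.A.q p.1 p.2.1 :=
      List.append_nil _
    rw [e2]
    exact h1
  sB := h.sB
  wA := h.wA
  wB := h.wB
  kh := h.kh
  ko := h.ko
  tk := h.tk

theorem gi_silB (h : GI a n m e) (g : CS StB S J K → Pb Mg J V) (b : Pb Mg J V) :
    GI a n m (e.upB (fun c => .ret (c, g c)) b) where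
  lA := h.lA
  lB := upd_loc h.lB _ b
  sA := h.sA
  sB := fun p hp => by
    have hp' : p ∈ sup SV e.B e.kn := by
      rw [mem_sup] at hp ⊢
      exact ⟨hp.1.1, hp.2⟩
    have h1 := h.sB p hp'
    have e2 : (e.upB (fun c => .ret (c, g c)) b).B.q p.1 p.2.1 = e.B.q p.1 p.2.1 :=
      List.append_nil _
    rw [e2]
    exact h1
  wA := h.wA
  wB := h.wB
  kh := h.kh
  ko := h.ko
  tk := h.tk

/-- the side which confirms an item -/
private theorem I5_conf {St : Type} {P P' : Prop} {p : Finset (Th X S J K)} {c : CS St S J K}
    {q : List (Th X S J K)} {O : Th X S J K → K} (h : SI a n m P p c q O) (hP : ¬ P)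
    (d : Th X S J K) (hd : d ∉ p) (hs : ∃ u ∈ c.own, d = itm O u.1 u.2.1) :
    SI a n m P' (insert d p) c q O where
  cn := h.cn
  fl := h.fl
  own := h.own
  lab := h.lab
  len := by
    have h1 := h.len
    rw [if_neg hP] at h1
    rw [Finset.card_insert_of_notMem hd]
    have h2 : (if P' then m else 0) ≤ m := by split_ifs <;> omega
    have h3 : m * (p.card + 1) = m * p.card + m := by ring
    omega
  pos := by
    intro d' hd'
    rcases Finset.mem_insert.1 hd' with h1 | h1
    · rw [h1]
      exact hs
    · exact h.pos d' h1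

/-- the other side -/
private theorem I5_same {St : Type} {P P' : Prop} {p : Finset (Th X S J K)} {c : CS St S J K}
    {q : List (Th X S J K)} {O : Th X S J K → K} (h : SI a n m P p c q O)
    (hP' : ¬ P') : SI a n m P' p c q O where
  cn := h.cn
  fl := h.fl
  own := h.own
  lab := h.lab
  len := by
    have h1 := h.len
    rw [if_neg hP']
    omega
  pos := h.pos

/-- The first party confirms the item `d`: all its consistent states have `d` among the items of
their cells, and `d` was not confirmed before. -/
theorem gi_confA (h : GI a n m e) (η : K) (d : Th X S J K) (P : List K)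
    (hd : d ∈ e.kn.map Prod.fst) (hd' : d ∉ e.pA) (hp : e.pend = none)
    (hs : ∀ p ∈ sup SV e.A e.kn, ∃ u ∈ (e.A.s p.1 p.2.1).own, d = itm p.2.1 u.1 u.2.1) :
    GI a n m ((e.setPr η true P none).conf η true d) where
  lA := h.lA
  lB := h.lB
  sA := fun p hpp => by
    refine I5_conf (h.sA p hpp) ?_ d hd' (hs p hpp)
    rintro ⟨η', P', r, h1, -⟩
    rw [hp] at h1
    exact absurd h1 (by simp)
  sB := fun p hpp => by
    refine I5_same (h.sB p hpp) ?_
    rintro ⟨η', P', r, h1, h2⟩
    have h1' : some η = some η' := h1
    have h3 : η = η' := Option.some.inj h1'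
    subst h3
    have h2' : Function.update e.T.pr η (some (true, P, none)) η = some (false, P', r) := h2
    rw [Function.update_self] at h2'
    have h4 := congrArg Prod.fst (Option.some.inj h2')
    exact absurd h4 (by simp)
  wA := fun d' hd' => by
    have h1 : d' ∈ insert d e.pA := hd'
    rcases Finset.mem_insert.1 h1 with h2 | h2
    · rw [h2]
      exact hd
    · exact h.wA d' h2
  wB := fun d' hd' => h.wB d' hd'
  kh := h.kh
  ko := h.ko
  tk := h.tk

theorem gi_confB (h : GI a n m e) (η : K) (d : Th X S J K) (P : List K)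
    (hd : d ∈ e.kn.map Prod.fst) (hd' : d ∉ e.pB) (hp : e.pend = none)
    (hs : ∀ p ∈ sup SV e.B e.kn, ∃ u ∈ (e.B.s p.1 p.2.1).own, d = itm p.2.1 u.1 u.2.1) :
    GI a n m ((e.setPr η false P none).conf η false d) where
  lA := h.lA
  lB := h.lB
  sA := fun p hpp => by
    refine I5_same (h.sA p hpp) ?_
    rintro ⟨η', P', r, h1, h2⟩
    have h1' : some η = some η' := h1
    have h3 : η = η' := Option.some.inj h1'
    subst h3
    have h2' : Function.update e.T.pr η (some (false, P, none)) η = some (true, P', r) := h2
    rw [Function.update_self] at h2'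
    have h4 := congrArg Prod.fst (Option.some.inj h2')
    exact absurd h4 (by simp)
  sB := fun p hpp => by
    refine I5_conf (h.sB p hpp) ?_ d hd' (hs p hpp)
    rintro ⟨η', P', r, h1, -⟩
    rw [hp] at h1
    exact absurd h1 (by simp)
  wA := fun d' hd' => h.wA d' hd'
  wB := fun d' hd' => by
    have h1 : d' ∈ insert d e.pB := hd'
    rcases Finset.mem_insert.1 h1 with h2 | h2
    · rw [h2]
      exact hd
    · exact h.wB d' h2
  kh := h.kh
  ko := h.ko
  tk := h.tk

/-! ## Row I6: evaluation by the owner -/

omit [Finite X] [Finite S] [Finite J] [Fintype K] [Nonempty K] in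
private theorem I6_leak {St : Type} {P0 P1 : Prop} {p : Finset (Th X S J K)}
    {c : CS St S J K} {q : List (Th X S J K)} {O : Th X S J K → K}
    (F : S → List J → Comp X K V) (hF : ∀ f s js, ((F s js).asked f).length ≤ m)
    (h : SI a n m P0 p c q O) (hP : P0) (hP' : ¬ P1) (η : K) (P : List K) :
    SI a n m P1 p ((leakC F η P c : Comp _ _ (CS St S J K × Pb Mg J V)).run O).1
      (q ++ (leakC F η P c : Comp _ _ (CS St S J K × Pb Mg J V)).asked O) O := by
  obtain ⟨l, hl, hc, hq⟩ : ∃ l : List X, l.length ≤ m ∧
      ((leakC F η P c : Comp _ _ (CS St S J K × Pb Mg J V)).run O).1 = c ∧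
      (leakC F η P c : Comp _ _ (CS St S J K × Pb Mg J V)).asked O = l.map .x := by
    unfold leakC
    split
    · rename_i s _
      split
      · rename_i js _
        refine ⟨(F s js).asked (fO O), hF _ _ _, ?_, ?_⟩
        · rw [Comp.run_bind]
          rfl
        · rw [Comp.asked_bind, asked_lift]
          exact List.append_nil _
      · exact ⟨[], Nat.zero_le _, rfl, rfl⟩
    · exact ⟨[], Nat.zero_le _, rfl, rfl⟩
  rw [hc, hq]
  have hx : ∀ d ∈ l.map (Th.x : X → Th X S J K), ∃ x, d = .x x := by
    intro d hd
    obtain ⟨x, _, hx⟩ := List.mem_map.1 hd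
    exact ⟨x, hx.symm⟩
  have hs : ∀ (s : S) (j : Option J), .c s j ∈ q ++ l.map (Th.x : X → Th X S J K) →
      .c s j ∈ q := by
    intro s j hs
    rcases List.mem_append.1 hs with h1 | h1
    · exact h1
    · obtain ⟨x, hx'⟩ := hx _ h1
      cases hx'
  have hh : ∀ (η π : K), .l η π ∈ q ++ l.map (Th.x : X → Th X S J K) →
      .l η π ∈ q := by
    intro η π hs
    rcases List.mem_append.1 hs with h1 | h1
    · exact h1
    · obtain ⟨x, hx'⟩ := hx _ h1
      cases hx'
  refine ⟨⟨fun e he => ⟨(h.cn.val e he).1, List.mem_append_left _ (h.cn.val e he).2⟩,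
    h.cn.hd, fun s j h1 => h.cn.keys s j (hs s j h1),
    fun s j h1 => List.mem_append_left _ (h.cn.its s j (hs s j h1)),
    fun η π h1 => List.mem_append_left _ (h.cn.down η π (hh η π h1))⟩, h.fl, h.own, h.lab, ?_,
    h.pos⟩
  have h1 := h.len
  rw [if_pos hP] at h1
  rw [if_neg hP', List.length_append, List.length_map]
  omega

omit [Finite X] [Finite S] [Finite J] [Fintype K] [Nonempty K] in
private theorem I6_none {St : Type} {P0 P1 : Prop} {p : Finset (Th X S J K)}
    {c : CS St S J K} {q : List (Th X S J K)} {O : Th X S J K → K}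
    (h : SI a n m P0 p c q O) (hP' : ¬ P1) : SI a n m P1 p c q O := by
  refine ⟨h.cn, h.fl, h.own, h.lab, ?_, h.pos⟩
  have h1 := h.len
  rw [if_neg hP']
  omega

theorem gi_leakA (F : S → List J → Comp X K V)
    (hF : ∀ f s js, ((F s js).asked f).length ≤ m) (h : GI a n m e) (η : K) (P : List K)
    (r0 r : Option V) (b : Pb Mg J V) (hp : e.pend = some η)
    (hT : e.T.pr η = some (true, P, r0)) :
    GI a n m { (e.upA (leakC F η P) b).setPr η true P r with pend := none } := by
  have hpd : pd true e := ⟨η, P, r0, hp, hT⟩
  refine ⟨upd_loc h.lA _ _, h.lB, fun p hp' => ?_, fun p hp' => ?_, h.wA, h.wB, h.kh, h.ko,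
    h.tk⟩
  · have hm : p ∈ sup SV e.A e.kn := by
      have h1 := (mem_sup SV).1 hp'
      exact (mem_sup SV).2 ⟨h1.1.1, h1.2⟩
    exact I6_leak F hF (h.sA p hm) hpd (fun hh => by
      obtain ⟨_, _, _, h1, _⟩ := hh
      exact absurd h1 (by simp)) η P
  · exact I6_none (h.sB p hp') (fun hh => by
      obtain ⟨_, _, _, h1, _⟩ := hh
      exact absurd h1 (by simp))

theorem gi_leakB (F : S → List J → Comp X K V)
    (hF : ∀ f s js, ((F s js).asked f).length ≤ m) (h : GI a n m e) (η : K) (P : List K)
    (r0 r : Option V) (b : Pb Mg J V) (hp : e.pend = some η)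
    (hT : e.T.pr η = some (false, P, r0)) :
    GI a n m { (e.upB (leakC F η P) b).setPr η false P r with pend := none } := by
  have hpd : pd false e := ⟨η, P, r0, hp, hT⟩
  refine ⟨h.lA, upd_loc h.lB _ _, fun p hp' => ?_, fun p hp' => ?_, h.wA, h.wB, h.kh, h.ko,
    h.tk⟩
  · exact I6_none (h.sA p hp') (fun hh => by
      obtain ⟨_, _, _, h1, _⟩ := hh
      exact absurd h1 (by simp))
  · have hm : p ∈ sup SV e.B e.kn := by
      have h1 := (mem_sup SV).1 hp'
      exact (mem_sup SV).2 ⟨h1.1.1, h1.2⟩
    exact I6_leak F hF (h.sB p hm) hpd (fun hh => by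
      obtain ⟨_, _, _, h1, _⟩ := hh
      exact absurd h1 (by simp)) η P

theorem gi_leak0 (h : GI a n m e) : GI a n m { e with pend := none } := by
  refine ⟨h.lA, h.lB, fun p hp' => ?_, fun p hp' => ?_, h.wA, h.wB, h.kh, h.ko, h.tk⟩
  · exact I6_none (h.sA p hp') (fun hh => by
      obtain ⟨_, _, _, h1, _⟩ := hh
      exact absurd h1 (by simp))
  · exact I6_none (h.sB p hp') (fun hh => by
      obtain ⟨_, _, _, h1, _⟩ := hh
      exact absurd h1 (by simp))

/-! ## Row I7: steps of the protocol -/

variable {I I' : Type} (A : Party (Qry X S J K) (Ans J K V) Mg I)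
  (B : Party (Qry X S J K) (Ans J K V) Mg I')

omit [Finite X] [Finite S] [Finite J] [Fintype K] [Nonempty K] in
private theorem I7_none {St : Type} {P P' : Prop} {p : Finset (Th X S J K)}
    {c : CS St S J K} {q : List (Th X S J K)} {O : Th X S J K → K}
    (h : SI a n m P p c q O) (hP' : ¬ P') : SI a n m P' p c q O := by
  refine ⟨h.cn, h.fl, h.own, h.lab, ?_, h.pos⟩
  have h1 := h.len
  rw [if_neg hP']
  omega

omit [Finite X] [Finite S] [Finite J] [Fintype K] [Nonempty K] in
private theorem I7_cmp {α St' St : Type} {P P' : Prop} {p : Finset (Th X S J K)}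
    {c : CS St S J K} {q : List (Th X S J K)} {O : Th X S J K → K}
    (F : S → List J → Comp X K V) (G : V → List ℕ → Comp X K V)
    (hF : ∀ f s js, ((F s js).asked f).length ≤ m) (hG : ∀ f v i, ((G v i).asked f).length ≤ m)
    (T : Tb S J K V) (g : Comp (Qry X S J K) (Ans J K V) α) (st : St')
    (h : SI a n m P p c q O) (hP' : ¬ P') :
    SI a n m P' p (⟨st, ((cmp a F G T g c.own c.fuel).run O).2.1,
        ((cmp a F G T g c.own c.fuel).run O).2.2⟩ : CS St' S J K)
      (q ++ (cmp a F G T g c.own c.fuel).asked O) O := by
  obtain ⟨a1, a2⟩ := cmp_inv a F G T O g c.own c.fuel q h.cn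
  obtain ⟨b1, b2, b3, b4⟩ := cmp_len a F G m hF hG T O g c.own c.fuel
  have hfl := h.fl
  refine ⟨a2, ?_, ?_, ?_, ?_, ?_⟩
  · show ((cmp a F G T g c.own c.fuel).run O).2.2 ≤ n
    omega
  · have h1 := h.own
    show ((cmp a F G T g c.own c.fuel).run O).2.1.length +
      2 * ((cmp a F G T g c.own c.fuel).run O).2.2 ≤ 2 * n
    omega
  · have h1 := h.lab
    show (labs ((cmp a F G T g c.own c.fuel).run O).2.1).length +
      ((cmp a F G T g c.own c.fuel).run O).2.2 ≤ n
    omega
  · have h1 := h.len
    rw [if_neg hP', List.length_append]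
    show q.length + ((cmp a F G T g c.own c.fuel).asked O).length + 0 ≤
      (n - ((cmp a F G T g c.own c.fuel).run O).2.2) * (a + m + 4) + m * p.card
    obtain ⟨u, hu⟩ : ∃ u, c.fuel = ((cmp a F G T g c.own c.fuel).run O).2.2 + u :=
      Nat.exists_eq_add_of_le b1
    obtain ⟨w, hw⟩ : ∃ w, n = c.fuel + w := Nat.exists_eq_add_of_le hfl
    set f' := ((cmp a F G T g c.own c.fuel).run O).2.2 with hf'
    set t := a + m + 4 with ht
    have e1 : n - c.fuel = w := by omega
    have e2 : n - f' = u + w := by omega
    rw [e1] at h1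
    rw [e2]
    have e3 : c.fuel * t = f' * t + u * t := by rw [← add_mul, ← hu]
    rw [e3] at b4
    rw [add_mul]
    have h3 : q.length ≤ w * t + m * p.card := le_trans (Nat.le_add_right _ _) h1
    omega
  · intro d hd
    obtain ⟨e, he, he'⟩ := h.pos d hd
    exact ⟨e, a1 e he, he'⟩

omit [Finite X] [Finite S] [Finite J] [Fintype K] [Nonempty K] in
private theorem I7_step {Mg' I : Type} {P P' : Prop} {p : Finset (Th X S J K)}
    (F : S → List J → Comp X K V) (G : V → List ℕ → Comp X K V)
    (hF : ∀ f s js, ((F s js).asked f).length ≤ m) (hG : ∀ f v i, ((G v i).asked f).length ≤ m)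
    (A : Party (Qry X S J K) (Ans J K V) Mg' I) {c : CS A.St S J K} {q : List (Th X S J K)}
    {O : Th X S J K → K} (m0 μ : Mg') (T : Tb S J K V)
    (h : SI a n m P p c q O) (hP' : ¬ P') :
    SI a n m P' p ((stepC a F G A m0 T μ c).run O).1 (q ++ (stepC a F G A m0 T μ c).asked O) O := by
  have h1 : (stepC a F G A m0 T μ c).asked O =
      (cmp a F G T (A.step c.st μ) c.own c.fuel).asked O := by
    unfold stepC
    rw [Comp.asked_bind]
    split <;> exact List.append_nil _
  have h2 : ∃ st, ((stepC a F G A m0 T μ c).run O).1 =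
      ⟨st, ((cmp a F G T (A.step c.st μ) c.own c.fuel).run O).2.1,
        ((cmp a F G T (A.step c.st μ) c.own c.fuel).run O).2.2⟩ := by
    unfold stepC
    rw [Comp.run_bind]
    split <;> exact ⟨_, rfl⟩
  obtain ⟨st, h2⟩ := h2
  rw [h1, h2]
  exact I7_cmp F G hF hG T (A.step c.st μ) st h hP'

theorem gi_msgA (F : S → List J → Comp X K V) (G : V → List ℕ → Comp X K V)
    (hF : ∀ f s js, ((F s js).asked f).length ≤ m) (hG : ∀ f v i, ((G v i).asked f).length ≤ m)
    (m0 μ : Mg) (e : Env X S J K V A.St B.St RA RB) (h : GI a n m e) (hp : e.pend = none)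
    (T : Tb S J K V) (b : Pb Mg J V) : GI a n m (e.upA (stepC a F G A m0 T μ) b) := by
  have hpd : ∀ o, ¬ pd o (e.upA (stepC a F G A m0 T μ) b) := by
    rintro o ⟨η', ex', r', h1, h2⟩
    have h3 : e.pend = some η' := h1
    rw [hp] at h3
    exact absurd h3 (by simp)
  refine ⟨upd_loc h.lA _ _, h.lB, fun p hp' => ?_, fun p hp' => ?_, h.wA, h.wB, h.kh, h.ko, h.tk⟩
  · have hm : p ∈ sup SV e.A e.kn := by
      have h1 := (mem_sup SV).1 hp'
      exact (mem_sup SV).2 ⟨h1.1.1, h1.2⟩
    exact I7_step F G hF hG A m0 μ T (h.sA p hm) (hpd true)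
  · exact I7_none (h.sB p hp') (hpd false)

theorem gi_msgB (F : S → List J → Comp X K V) (G : V → List ℕ → Comp X K V)
    (hF : ∀ f s js, ((F s js).asked f).length ≤ m) (hG : ∀ f v i, ((G v i).asked f).length ≤ m)
    (m0 μ : Mg) (e : Env X S J K V A.St B.St RA RB) (h : GI a n m e) (hp : e.pend = none)
    (T : Tb S J K V) (b : Pb Mg J V) : GI a n m (e.upB (stepC a F G B m0 T μ) b) := by
  have hpd : ∀ o, ¬ pd o (e.upB (stepC a F G B m0 T μ) b) := by
    rintro o ⟨η', ex', r', h1, h2⟩
    have h3 : e.pend = some η' := h1
    rw [hp] at h3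
    exact absurd h3 (by simp)
  refine ⟨h.lA, upd_loc h.lB _ _, fun p hp' => ?_, fun p hp' => ?_, h.wA, h.wB, h.kh, h.ko, h.tk⟩
  · exact I7_none (h.sA p hp') (hpd true)
  · have hm : p ∈ sup SV e.B e.kn := by
      have h1 := (mem_sup SV).1 hp'
      exact (mem_sup SV).2 ⟨h1.1.1, h1.2⟩
    exact I7_step F G hF hG B m0 μ T (h.sB p hm) (hpd false)

theorem gi_env0 (iA : RA → A.St) (iB : RB → B.St) :
    GI a n m (env0 A B n iA iB : Env X S J K V A.St B.St RA RB) := by
  have hpd : ∀ o, ¬ pd o (env0 A B n iA iB : Env X S J K V A.St B.St RA RB) := by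
    rintro o ⟨η', ex', r', h1, h2⟩
    have h3 : (none : Option K) = some η' := h1
    exact absurd h3 (by simp)
  have hs : ∀ (St : Type) (P : Prop) (st : St) (O : Th X S J K → K), ¬ P →
      SI a n m P ∅ (⟨st, [], n⟩ : CS St S J K) [] O := by
    intro St P st O hP
    refine ⟨⟨fun e he => absurd he List.not_mem_nil, fun e he => absurd he List.not_mem_nil,
      fun s j h => absurd h List.not_mem_nil, fun s j h => absurd h List.not_mem_nil,
      fun _ _ h => absurd h List.not_mem_nil⟩, le_refl n, ?_, ?_, ?_,
      fun d h => absurd h (Finset.notMem_empty d)⟩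
    · show 0 + 2 * n ≤ 2 * n
      omega
    · show 0 + n ≤ n
      omega
    · rw [if_neg hP]
      exact Nat.zero_le _
  refine ⟨⟨fun _ _ _ _ => rfl, fun _ _ _ _ => rfl, fun _ _ _ _ => rfl⟩,
    ⟨fun _ _ _ _ => rfl, fun _ _ _ _ => rfl, fun _ _ _ _ => rfl⟩,
    fun p _ => hs _ _ _ _ (hpd true), fun p _ => hs _ _ _ _ (hpd false),
    fun d h => absurd h (Finset.notMem_empty d), fun d h => absurd h (Finset.notMem_empty d),
    fun s v h => absurd h List.not_mem_nil, fun s j v h => absurd h List.not_mem_nil,
    fun η s h => ?_⟩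
  have h3 : (none : Option S) = some s := h
  exact absurd h3 (by simp)

/-! ## Row I8: the lists are short -/

/-- The number of confirmed items. -/
private theorem I8_card {St : Type} {a n m : ℕ} {pd : Prop} {p : Finset (Th X S J K)}
    {c : CS St S J K} {q : List (Th X S J K)} {O : Th X S J K → K}
    (h : SI a n m pd p c q O) : p.card ≤ c.own.length := by
  have h1 : p ⊆ (c.own.map fun e => (itm O e.1 e.2.1 : Th X S J K)).toFinset := by
    intro d hd
    obtain ⟨e, he, hde⟩ := h.pos d hd
    rw [List.mem_toFinset, List.mem_map]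
    exact ⟨e, he, hde.symm⟩
  refine (Finset.card_le_card h1).trans ((List.toFinset_card_le _).trans ?_)
  rw [List.length_map]

/-- The arithmetic of a protocol step. -/
private theorem I8_arith {a n m q b f f' o p : ℕ} (hf : f ≤ n) (ho : o + 2 * f ≤ 2 * n)
    (hq : q ≤ (n - f) * (a + m + 4) + m * p) (hp : p ≤ o)
    (ha : b + f' * (a + m + 4) ≤ f * (a + m + 4)) : q + b ≤ n * (a + 3 * m + 4) := by
  have h1 : (n - f) * (a + m + 4) + f * (a + m + 4) = n * (a + m + 4) := by
    rw [← Nat.add_mul, Nat.sub_add_cancel hf]
  have h2 : m * p ≤ m * (2 * n) := Nat.mul_le_mul_left _ (hp.trans (by omega))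
  have h3 : b ≤ f * (a + m + 4) := (Nat.le_add_right _ _).trans ha
  calc q + b ≤ (n - f) * (a + m + 4) + m * p + f * (a + m + 4) := Nat.add_le_add hq h3
    _ = n * (a + m + 4) + m * p := by rw [← h1]; ring
    _ ≤ n * (a + m + 4) + m * (2 * n) := Nat.add_le_add_left h2 _
    _ = n * (a + 3 * m + 4) := by ring

/-- A protocol step for one party. -/
private theorem I8_step {Mg I : Type} (P : Party (Qry X S J K) (Ans J K V) Mg I)
    (F : S → List J → Comp X K V) (G : V → List ℕ → Comp X K V) {a n m : ℕ}
    (hF : ∀ f s js, ((F s js).asked f).length ≤ m) (hG : ∀ f v i, ((G v i).asked f).length ≤ m)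
    (m0 μ : Mg) (T : Tb S J K V) {pd : Prop} {p : Finset (Th X S J K)}
    {c : CS P.St S J K} {q : List (Th X S J K)} {O : Th X S J K → K}
    (h : SI a n m pd p c q O) :
    (q ++ (stepC a F G P m0 T μ c).asked O).length ≤ nn a n m := by
  rw [List.length_append]
  have hl := (cmp_len a F G m hF hG T O (P.step c.st μ) c.own c.fuel).2.2.2
  have ha : (stepC a F G P m0 T μ c).asked O =
      (cmp a F G T (P.step c.st μ) c.own c.fuel).asked O := by
    unfold stepC
    rw [Comp.asked_bind]
    rcases (cmp a F G T (P.step c.st μ) c.own c.fuel).run O with ⟨r1, r2, r3⟩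
    cases r1 <;> simp
  rw [ha]
  exact I8_arith h.fl h.own ((Nat.le_add_right _ _).trans h.len) (I8_card h) hl

/-- An evaluation by the owner. -/
private theorem I8_leak {St Mg : Type} (F : S → List J → Comp X K V) {a n m : ℕ}
    (hF : ∀ f s js, ((F s js).asked f).length ≤ m) (η : K) (P : List K)
    {pd : Prop} (hp : pd) {p : Finset (Th X S J K)}
    {c : CS St S J K} {q : List (Th X S J K)} {O : Th X S J K → K}
    (h : SI a n m pd p c q O) :
    (q ++ (leakC F η P c : Comp _ _ (_ × Pb Mg J V)).asked O).length ≤ nn a n m := by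
  rw [List.length_append]
  have hb := h.bound
  rw [if_pos hp] at hb
  have ha : ((leakC F η P c : Comp _ _ (_ × Pb Mg J V)).asked O).length ≤ m := by
    unfold leakC
    cases lkH c.own η with
    | none => exact Nat.zero_le _
    | some s =>
      simp only
      cases rsv (lkL c.own s) P with
      | none => exact Nat.zero_le _
      | some js =>
        simp only
        rw [Comp.asked_bind, Comp.asked_ret, List.append_nil, asked_lift, List.length_map]
        exact hF _ _ _
  exact (Nat.add_le_add_left ha _).trans hb

theorem gi_bdA (h : GI a n m e) : Bd SV (nn a n m) e.A e.kn := by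
  intro p hp
  exact (Nat.le_add_right _ _).trans (h.sA p hp).bound

theorem gi_bdB (h : GI a n m e) : Bd SV (nn a n m) e.B e.kn := by
  intro p hp
  exact (Nat.le_add_right _ _).trans (h.sB p hp).bound

theorem gi_bd_leakA (F : S → List J → Comp X K V)
    (hF : ∀ f s js, ((F s js).asked f).length ≤ m) (h : GI a n m e) (η : K) (P : List K)
    (hp : pd true e) :
    Bd SV (nn a n m) (e.A.ext (leakC F η P : _ → Comp _ _ (_ × Pb Mg J V))) e.kn := by
  intro p hp'
  exact I8_leak (Mg := Mg) F hF η P hp (h.sA p hp')

theorem gi_bd_leakB (F : S → List J → Comp X K V)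
    (hF : ∀ f s js, ((F s js).asked f).length ≤ m) (h : GI a n m e) (η : K) (P : List K)
    (hp : pd false e) :
    Bd SV (nn a n m) (e.B.ext (leakC F η P : _ → Comp _ _ (_ × Pb Mg J V))) e.kn := by
  intro p hp'
  exact I8_leak (Mg := Mg) F hF η P hp (h.sB p hp')

theorem gi_bd_msgA (F : S → List J → Comp X K V) (G : V → List ℕ → Comp X K V)
    (hF : ∀ f s js, ((F s js).asked f).length ≤ m) (hG : ∀ f v i, ((G v i).asked f).length ≤ m)
    (m0 μ : Mg) (e : Env X S J K V A.St B.St RA RB) (h : GI a n m e) (T : Tb S J K V) :
    Bd SV (nn a n m) (e.A.ext (stepC a F G A m0 T μ)) e.kn := by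
  intro p hp
  exact I8_step A F G hF hG m0 μ T (h.sA p hp)

theorem gi_bd_msgB (F : S → List J → Comp X K V) (G : V → List ℕ → Comp X K V)
    (hF : ∀ f s js, ((F s js).asked f).length ≤ m) (hG : ∀ f v i, ((G v i).asked f).length ≤ m)
    (m0 μ : Mg) (e : Env X S J K V A.St B.St RA RB) (h : GI a n m e) (T : Tb S J K V) :
    Bd SV (nn a n m) (e.B.ext (stepC a F G B m0 T μ)) e.kn := by
  intro p hp
  exact I8_step B F G hF hG m0 μ T (h.sB p hp)

end GI

end Pool.Agent.Fe
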