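import Pool.Agent.Lib.MP_ae38e0_lc.Fe.World

set_option autoImplicit false

/-!
# Probabilities and adversaries
-/

namespace Pool.Agent.Fe

open Pool.Agent.LinOT Classical

/-- Probability of an event for a uniformly random element of a finite set. -/
noncomputable def prob {α : Type} (p : α → Prop) : ℝ :=
  (Nat.card {a // p a} : ℝ) / Nat.card α

/-- The pair of oracles consisting of `O` and of the adversary `E` (which itself uses `O`). -/
def withAdv {Q K T : Type} (O : Q → K) (E : T → Comp Q K Bool) : Q ⊕ T → K ⊕ Bool :=
  Sum.elim (fun q => Sum.inl (O q)) (fun t => Sum.inr ((E t).run O))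

/-- A world: a function and an encoding. -/
abbrev World (X S J K : Type) : Type := (X → K) × (S → Option J → K)

section

variable {X S J K V M : Type}

/-- The oracle of a world. -/
noncomputable def ora (a : ℕ) (F : S → List J → Comp X K V) (w : World X S J K) :
    Qry X S J K → Ans J K V := orc a F w.1 w.2

/-- In `N` rounds the party with input `x` asks at most `n` queries, whatever it receives. -/
def limited {I : Type} (a : ℕ) (F : S → List J → Comp X K V)
    (P : Party (Qry X S J K) (Ans J K V) M I) (x : I) (N n : ℕ) : Prop :=
  ∀ (w : World X S J K) (τ : P.Tape) (l : List (M × M)), l.length = N →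
    (P.asked (ora a F w) (P.init x τ) l).length ≤ n

variable (a : ℕ) (F : S → List J → Comp X K V) (R : Party (Qry X S J K) (Ans J K V) M Bool)
  (D : Party (Qry X S J K) (Ans J K V) M (Bool × Bool))

/-- The execution of `N` rounds of the protocol with receiver `R` (choice bit `c`) and sender `D`
(bits `b0`, `b1`) in a random world with random tapes. -/
noncomputable def play (N : ℕ) (m0 : M) (c b0 b1 : Bool) (p : World X S J K × R.Tape × D.Tape) :
    List (M × M) × R.St × D.St :=
  exec R D (ora a F p.1) N (R.init c p.2.1) (D.init (b0, b1) p.2.2) m0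

/-- The probability that the receiver with choice bit `c` does not output `b_c`. -/
noncomputable def err (out : R.St → Option Bool) (N : ℕ) (m0 : M) (c b0 b1 : Bool) : ℝ :=
  prob fun p : World X S J K × R.Tape × D.Tape =>
    out (play a F R D N m0 c b0 b1 p).2.1 ≠ some (if c then b1 else b0)

/-- The probability that `E`, applied to the transcript, says `true`. -/
noncomputable def acc (N : ℕ) (m0 : M) (E : List (M × M) → Comp (Qry X S J K) (Ans J K V) Bool)
    (c b0 b1 : Bool) : ℝ :=
  prob fun p : World X S J K × R.Tape × D.Tape =>
    (E (play a F R D N m0 c b0 b1 p).1).run (ora a F p.1) = true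

/-- The sum of the three distinguishing advantages of `E`, applied to the transcript: for the
sender with `b0 = false` and with `b0 = true` between the choice bits of the receiver, and for the
receiver with choice bit `true` between the values of `b0`. -/
noncomputable def advSum (N : ℕ) (m0 : M)
    (E : List (M × M) → Comp (Qry X S J K) (Ans J K V) Bool) (b1 : Bool) : ℝ :=
  |acc a F R D N m0 E true false b1 - acc a F R D N m0 E false false b1| +
  |acc a F R D N m0 E true true b1 - acc a F R D N m0 E false true b1| +
  |acc a F R D N m0 E true true b1 - acc a F R D N m0 E true false b1|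

end

/-! ## Row G1: probabilities -/

section prob

variable {α β : Type} [Fintype α] [Fintype β]

theorem prob_eq (p : α → Prop) [DecidablePred p] :
    prob p = ((Finset.univ.filter p).card : ℝ) / Fintype.card α := by
  unfold prob
  rw [Nat.card_eq_fintype_card, Nat.card_eq_fintype_card, Fintype.card_subtype]

theorem prob_mono {p r : α → Prop} (h : ∀ a, p a → r a) : prob p ≤ prob r := by
  rw [prob_eq, prob_eq]
  apply div_le_div_of_nonneg_right _ (Nat.cast_nonneg _)
  exact_mod_cast Finset.card_le_card (Finset.monotone_filter_right _ (fun a _ => h a))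

theorem prob_not [Nonempty α] (p : α → Prop) : prob (fun a => ¬ p a) = 1 - prob p := by
  rw [prob_eq, prob_eq]
  have h : (Finset.univ.filter p).card + (Finset.univ.filter fun a => ¬ p a).card =
      Fintype.card α := by
    rw [Finset.card_filter_add_card_filter_not, Finset.card_univ]
  have hpos : (0 : ℝ) < Fintype.card α := by exact_mod_cast Fintype.card_pos
  have h' : ((Finset.univ.filter p).card : ℝ) + ((Finset.univ.filter fun a => ¬ p a).card : ℝ) =
      Fintype.card α := by exact_mod_cast h
  rw [eq_sub_iff_add_eq, ← add_div, add_comm, h', div_self hpos.ne']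

omit [Fintype α] [Fintype β] in
theorem prob_equiv (e : α ≃ β) (p : β → Prop) : prob (fun a => p (e a)) = prob p := by
  unfold prob
  rw [Nat.card_congr e, Nat.card_congr (e.subtypeEquivOfSubtype (p := p))]

/-- The average over a bit. -/
theorem prob_bool {T U W : Type} [Fintype T] [Fintype U] [Fintype W] [Nonempty T] [Nonempty U]
    [Nonempty W] (p : Bool → W → T → U → Prop) :
    prob (fun w : T × (Bool × U) × W => p w.2.1.1 w.2.2 w.1 w.2.1.2) =
      (prob (fun w : W × T × U => p false w.1 w.2.1 w.2.2) +
        prob (fun w : W × T × U => p true w.1 w.2.1 w.2.2)) / 2 := by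
  rw [prob_eq, prob_eq, prob_eq]
  have h1 : (Finset.univ.filter fun w : T × (Bool × U) × W =>
      p w.2.1.1 w.2.2 w.1 w.2.1.2).card =
      (Finset.univ.filter fun w : W × T × U => p false w.1 w.2.1 w.2.2).card +
      (Finset.univ.filter fun w : W × T × U => p true w.1 w.2.1 w.2.2).card := by
    let e : T × (Bool × U) × W ≃ Bool × (W × T × U) :=
      { toFun := fun w => (w.2.1.1, (w.2.2, w.1, w.2.1.2))
        invFun := fun w => (w.2.2.1, (w.1, w.2.2.2), w.2.1)
        left_inv := fun w => rfl
        right_inv := fun w => rfl }
    rw [Finset.card_filter, Finset.card_filter, Finset.card_filter,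
      Fintype.sum_equiv e (fun w => if p w.2.1.1 w.2.2 w.1 w.2.1.2 then 1 else 0)
        (fun w => if p w.1 w.2.1 w.2.2.1 w.2.2.2 then 1 else 0) (fun w => rfl),
      Fintype.sum_prod_type, Fintype.sum_bool, add_comm]
  have hT : (Fintype.card T : ℝ) ≠ 0 := by exact_mod_cast Fintype.card_ne_zero
  have hU : (Fintype.card U : ℝ) ≠ 0 := by exact_mod_cast Fintype.card_ne_zero
  have hV : (Fintype.card W : ℝ) ≠ 0 := by exact_mod_cast Fintype.card_ne_zero
  rw [h1]
  simp only [Fintype.card_prod, Fintype.card_bool]
  push_cast
  field_simp

end prob

/-- A computation which calls the adversary, as a computation with oracle `O` alone. -/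
def sim {Q K T α : Type} (E : T → Comp Q K Bool) : Comp (Q ⊕ T) (K ⊕ Bool) α → Comp Q K α
  | .ret a => .ret a
  | .ask x next =>
    match x with
    | .inl q => .ask q (fun k => sim E (next (.inl k)))
    | .inr t => (E t).bind (fun b => sim E (next (.inr b)))

theorem run_sim {Q K T α : Type} (E : T → Comp Q K Bool) (O : Q → K)
    (c : Comp (Q ⊕ T) (K ⊕ Bool) α) : (sim E c).run O = c.run (withAdv O E) := by
  induction c with
  | ret a => rfl
  | ask x next ih =>
    rcases x with q | t
    · simp [sim, withAdv, ih]
    · simp [sim, withAdv, ih]

theorem asked_sim {Q K T α : Type} (E : T → Comp Q K Bool) (O : Q → K) (B : ℕ) (hB : 1 ≤ B)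
    (hE : ∀ t, ((E t).asked O).length ≤ B) (c : Comp (Q ⊕ T) (K ⊕ Bool) α) :
    ((sim E c).asked O).length ≤ B * (c.asked (withAdv O E)).length := by
  induction c with
  | ret a => simp [sim]
  | ask x next ih =>
    rcases x with q | t
    · have := ih (.inl (O q))
      simp only [sim, Comp.asked_ask, List.length_cons]
      rw [Nat.mul_add]
      have e : withAdv O E (.inl q) = .inl (O q) := rfl
      rw [e]
      omega
    · have h1 := ih (.inr ((E t).run O))
      have h2 := hE t
      simp only [sim, Comp.asked_bind, Comp.asked_ask, List.length_cons, List.length_append]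
      rw [Nat.mul_add]
      have e : withAdv O E (.inr t) = .inr ((E t).run O) := rfl
      rw [e]
      omega

/-! ## Row G2: oracles on things and worlds -/

section

variable {X S J K : Type} [Fintype K] [Nonempty K]

/-- The oracles on the things with values in `SV` are the worlds. -/
noncomputable def orcE : {O : Th X S J K → K // ∀ q, O q ∈ SV q} ≃ World X S J K where
  toFun O := (fO O.1, LO O.1)
  invFun w := ⟨fun t => match t with
    | .x x => w.1 x
    | .c s j => w.2 s j
    | .h _ => k0
    | .l _ _ => k0, by
      intro t
      cases t <;> simp [SV]⟩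
  left_inv := by
    rintro ⟨O, hO⟩
    apply Subtype.ext
    funext t
    have h := hO t
    cases t with
    | x x => rfl
    | c s j => rfl
    | h η =>
      simp only [SV, Finset.mem_singleton] at h
      exact h.symm
    | l η π =>
      simp only [SV, Finset.mem_singleton] at h
      exact h.symm
  right_inv := fun w => rfl

end

end Pool.Agent.Fe
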