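import Pool.Agent.Lib.MP_ae38e0_lc.Fe.Real

import Pool.Agent.Lib.MP_ae38e0_lc.Fe.Game

import Pool.Agent.Lib.MP_ae38e0_lc.Nbb.Swap

import Pool.Agent.Lib.MP_ae38e0_lc.Fe.Inv

set_option autoImplicit false

/-!
# The function is one-way (row W1)
-/

namespace Pool.Agent.Fe

open Pool.Agent.LinOT Pool.Agent.Nbb Classical

variable {X S J K V : Type} [Fintype X] [Fintype S] [Fintype J] [Fintype K] [Nonempty X]
  [Nonempty K]

/-- The table without entries. -/
def tb0 : Tb S J K V := ⟨fun _ => none, fun _ _ => none, fun _ => none⟩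

/-- The inverter with local answers; it asks its input first and its output last. -/
noncomputable def invC (a : ℕ) (F : S → List J → Comp X K V) (G : V → List ℕ → Comp X K V)
    (Iv : K → Comp (Qry X S J K) (Ans J K V) X) (q : ℕ) (u : K) :
    Comp (Th X S J K) K (Option X) :=
  (cmp a F G tb0 (Iv u) [] q).bind fun r => match r.1 with
    | some x => .ask (.x x) fun _ => .ret (some x)
    | none => .ret none

theorem invC_len (a : ℕ) (F : S → List J → Comp X K V) (G : V → List ℕ → Comp X K V) (m : ℕ)
    (hF : ∀ f s js, ((F s js).asked f).length ≤ m) (hG : ∀ f v i, ((G v i).asked f).length ≤ m)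
    (Iv : K → Comp (Qry X S J K) (Ans J K V) X) (q : ℕ) (O : Th X S J K → K)
    (u : K) : ((invC a F G Iv q u).asked O).length ≤ q * (a + m + 4) + 1 := by
  have h := (cmp_len a F G m hF hG tb0 O (Iv u) [] q).2.2.2
  unfold invC
  rw [Comp.asked_bind, List.length_append]
  have h2 : ((match ((cmp a F G tb0 (Iv u) [] q).run O).1 with
      | some x => (Comp.ask (Th.x x) fun _ => Comp.ret (some x) :
          Comp (Th X S J K) K (Option X))
      | none => Comp.ret none).asked O).length ≤ 1 := by
    cases ((cmp a F G tb0 (Iv u) [] q).run O).1 with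
    | none => simp
    | some x => simp
  have h3 : 0 ≤ ((cmp a F G tb0 (Iv u) [] q).run O).2.2 * (a + m + 4) := Nat.zero_le _
  omega

/-- Outside of `Bad` the inverter with local answers is the real one (`cmp_run` with the empty
table, `pre = [.x x]`, `Yq = W = []`). -/
theorem invC_run (a : ℕ) (F : S → List J → Comp X K V) (G : V → List ℕ → Comp X K V)
    (mono : ∀ f s js js' (i : List ℕ), js.length ≤ a →
      js'.map some = i.map (fun x => js[x]?) → (G ((F s js).run f) i).run f = (F s js').run f)
    (Iv : K → Comp (Qry X S J K) (Ans J K V) X) (q : ℕ)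
    (hq : ∀ y ρ, ((Iv y).asked ρ).length ≤ q) (O : Th X S J K → K) (x : X)
    (hb : ¬ Bad gK O (.x x :: (invC a F G Iv q (O (.x x))).asked O)) :
    (invC a F G Iv q (O (.x x))).run O = some ((Iv (O (.x x))).run (wd a F O)) ∧
      .x ((Iv (O (.x x))).run (wd a F O)) ∈ (invC a F G Iv q (O (.x x))).asked O := by
  have hnil : ∀ d : Th X S J K, d ∈ ([] : List (Th X S J K)) → False := fun d h => by cases h
  have hx : ∀ s j, (.c s j : Th X S J K) ∈ [(.x x : Th X S J K)] → False := by
    intro s j h
    simp at h
  have hrt : Rt a F O tb0 [] [] [] [.x x] := by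
    refine ⟨?_, ?_, ?_, ?_, ?_, ?_, ?_, ?_, ?_, ?_, ?_, ?_, ?_, ?_, ?_, ?_, ?_⟩
    · intro e he; cases he
    · intro e he; cases he
    · intro s j h; exact absurd h (hx s j)
    · intro e he; cases he
    · intro d hd; cases hd
    · intro d hd; cases hd
    · exact nice_of_no (fun s j h => hx s j h)
    · intro s j h; cases h
    · intro s j h; cases h
    · intro s j h; cases h
    · intro s h; cases h
    · intro η s h; simp [tb0] at h
    · intro s j h; cases h
    · intro s π j h; simp [tb0] at h
    · intro s j h; cases h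
    · intro s h; cases h
    · intro η o P v h; simp [tb0] at h
  have hbad : ¬ Bad gK O ([.x x] ++ (cmp a F G tb0 (Iv (O (.x x))) [] q).asked O) := by
    intro h
    apply hb
    unfold invC
    rw [Comp.asked_bind]
    have h1 := bad_append (l' := ((match ((cmp a F G tb0 (Iv (O (.x x))) [] q).run O).1 with
      | some x => (Comp.ask (Th.x x) fun _ => Comp.ret (some x) :
          Comp (Th X S J K) K (Option X))
      | none => Comp.ret none).asked O)) h
    simpa using h1
  obtain ⟨own', h1, _⟩ := cmp_run a F G mono O tb0 [] [] (Iv (O (.x x))) [] [.x x] q hrt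
    (hq _ _) hbad (fun d _ hd => by cases hd)
  have e1 : ((cmp a F G tb0 (Iv (O (.x x))) [] q).run O).1 =
      some ((Iv (O (.x x))).run (wd a F O)) := by rw [h1]
  unfold invC
  rw [Comp.run_bind, Comp.asked_bind]
  simp only [e1, Comp.run_ask, Comp.run_ret, Comp.asked_ask, Comp.asked_ret, true_and,
    List.mem_append, List.mem_singleton, or_true]

private theorem W1_pair (x x' : X) (hx : x' ≠ x) :
    Fintype.card K * (Finset.univ.filter fun O :
        Orc (SV : Th X S J K → Finset K) => fO O.1 x' = fO O.1 x).card ≤
      Fintype.card (Orc (SV : Th X S J K → Finset K)) := by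
  have key : Function.Injective (fun z : K × {O : Orc (SV : Th X S J K → Finset K) //
      fO O.1 x' = fO O.1 x} =>
      (⟨Function.update z.2.1.1 (.x x') z.1, by
        intro t
        by_cases ht : t = .x x'
        · subst ht
          simp [SV]
        · rw [Function.update_of_ne ht]
          exact z.2.1.2 t⟩ : Orc (SV : Th X S J K → Finset K))) := by
    rintro ⟨k1, O1, h1⟩ ⟨k2, O2, h2⟩ h
    have h3 := congrArg Subtype.val h
    dsimp only at h3
    have h4 : ∀ t, t ≠ .x x' → O1.1 t = O2.1 t := by
      intro t ht
      have := congrFun h3 t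
      rwa [Function.update_of_ne ht, Function.update_of_ne ht] at this
    have h5 : k1 = k2 := by
      have := congrFun h3 (.x x')
      rwa [Function.update_self, Function.update_self] at this
    have h7 : (Th.x x : Th X S J K) ≠ .x x' := fun h => hx (Th.x.inj h).symm
    have h8 : O1 = O2 := by
      apply Subtype.ext
      funext t
      by_cases ht : t = .x x'
      · subst ht
        have e1 : O1.1 (.x x') = O1.1 (.x x) := h1
        have e2 : O2.1 (.x x') = O2.1 (.x x) := h2
        rw [e1, e2]
        exact h4 _ h7
      · exact h4 t ht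
    subst h5 h8
    rfl
  have h := Fintype.card_le_of_injective _ key
  rw [Fintype.card_prod, Fintype.card_subtype] at h
  exact h

/-- Few points have a partner with the same value. -/
theorem coll_card :
    Fintype.card K * (Finset.univ.filter fun z :
        Orc (SV : Th X S J K → Finset K) × X =>
          ∃ x' ≠ z.2, fO z.1.1 x' = fO z.1.1 z.2).card ≤
      Fintype.card X ^ 2 * Fintype.card (Orc (SV : Th X S J K → Finset K)) := by
  have h1 : (Finset.univ.filter fun z :
        Orc (SV : Th X S J K → Finset K) × X =>
          ∃ x' ≠ z.2, fO z.1.1 x' = fO z.1.1 z.2) ⊆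
      (Finset.univ : Finset (X × X)).biUnion fun p =>
        if p.2 ≠ p.1 then (Finset.univ.filter fun O :
          Orc (SV : Th X S J K → Finset K) => fO O.1 p.2 = fO O.1 p.1) ×ˢ {p.1}
        else ∅ := by
    intro z hz
    obtain ⟨x', hx, he⟩ := (Finset.mem_filter.1 hz).2
    refine Finset.mem_biUnion.2 ⟨(z.2, x'), Finset.mem_univ _, ?_⟩
    rw [if_pos hx]
    exact Finset.mem_product.2 ⟨Finset.mem_filter.2 ⟨Finset.mem_univ _, he⟩,
      Finset.mem_singleton_self _⟩
  refine (Nat.mul_le_mul_left _ ((Finset.card_le_card h1).trans Finset.card_biUnion_le)).trans ?_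
  rw [Finset.mul_sum]
  refine (Finset.sum_le_card_nsmul _ _
    (Fintype.card (Orc (SV : Th X S J K → Finset K))) ?_).trans ?_
  · rintro ⟨x, x'⟩ _
    dsimp only
    split_ifs with hx
    · rw [Finset.card_product, Finset.card_singleton, mul_one]
      exact W1_pair x x' hx
    · simp
  · rw [smul_eq_mul, Finset.card_univ, Fintype.card_prod, sq]

omit [Fintype X] [Fintype S] [Fintype J] [Nonempty X] in
/-- An item matches the value of a cell with probability at most `1 / |K|`. -/
theorem gK_few (d y : Th X S J K) :
    Fintype.card K * ((SV y).filter fun v => gK d y v).card ≤ (SV y).card := by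
  have hempty : (∀ v, ¬ gK d y v) →
      Fintype.card K * ((SV y).filter fun v => gK d y v).card ≤ (SV y).card := by
    intro h
    rw [Finset.filter_false_of_mem (fun v _ => h v), Finset.card_empty, mul_zero]
    exact Nat.zero_le _
  have hone : ∀ u : K, Fintype.card K * ((Finset.univ : Finset K).filter fun v => v = u).card ≤
      (Finset.univ : Finset K).card := by
    intro u
    rw [Finset.filter_eq' Finset.univ u, if_pos (Finset.mem_univ u), Finset.card_singleton,
      mul_one, Finset.card_univ]
  cases y with
  | x x => exact hempty (fun v => by cases d <;> simp [gK])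
  | h η => exact hempty (fun v => by cases d <;> simp [gK])
  | l η π => exact hempty (fun v => by cases d <;> simp [gK])
  | c s j =>
    cases d with
    | x x => exact hempty (fun v => by simp [gK])
    | c s' j' => exact hempty (fun v => by simp [gK])
    | h η =>
      cases j with
      | none => exact hone η
      | some j => exact hempty (fun v => by simp [gK])
    | l η π =>
      cases j with
      | none => exact hempty (fun v => by simp [gK])
      | some j => exact hone π

omit [Fintype X] [Fintype K] [Nonempty X] [Nonempty K] in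
/-- The cells whose value can be matched. -/
theorem gK_cells : ∃ Y : Finset (Th X S J K), Y.card ≤ Fintype.card S * (Fintype.card J + 1) ∧
    ∀ (d y : Th X S J K) (v : K), gK d y v → y ∈ Y := by
  refine ⟨(Finset.univ : Finset (S × Option J)).image (fun z => (Th.c z.1 z.2 : Th X S J K)),
    Finset.card_image_le.trans (le_of_eq ?_), ?_⟩
  · rw [Finset.card_univ, Fintype.card_prod, Fintype.card_option]
  · intro d y v hg
    cases y with
    | c s j => exact Finset.mem_image.2 ⟨(s, j), Finset.mem_univ _, rfl⟩
    | x x => exact absurd hg (by cases d <;> simp [gK])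
    | h η => exact absurd hg (by cases d <;> simp [gK])
    | l η π => exact absurd hg (by cases d <;> simp [gK])

/-- Row W2.  The events: `Bad` for the list `.x x :: ...` (`bad_le` for each `x`, with the
computation which asks `.x x` and then runs `invC`); the output is another preimage (`coll_card`);
otherwise `.x x` is in the list of `invC` (`hit_card` with `q = .x`).  Then `orcE`. -/
theorem oneway_fe (a : ℕ) (F : S → List J → Comp X K V) (G : V → List ℕ → Comp X K V) (m : ℕ)
    (hF : ∀ f s js, ((F s js).asked f).length ≤ m) (hG : ∀ f v i, ((G v i).asked f).length ≤ m)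
    (mono : ∀ f s js js' (i : List ℕ), js.length ≤ a →
      js'.map some = i.map (fun x => js[x]?) → (G ((F s js).run f) i).run f = (F s js').run f)
    (Iv : K → Comp (Qry X S J K) (Ans J K V) X) (q : ℕ)
    (hq : ∀ y ρ, ((Iv y).asked ρ).length ≤ q) :
    prob (fun p : World X S J K × X =>
      p.1.1 ((Iv (p.1.1 p.2)).run (ora a F p.1)) = p.1.1 p.2) ≤
      ((q : ℝ) + 1) * (a + m + 4) / Fintype.card X +
      (((q : ℝ) + 1) * (a + m + 4) * (Fintype.card S * (Fintype.card J + 1)) + Fintype.card X) /
        Fintype.card K := by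
  classical
  set I : ℕ := q * (a + m + 4) + 1 with hI
  have hlen : ∀ (O : Th X S J K → K) (u : K),
      ((invC a F G Iv q u).asked O).length ≤ I := fun O u => invC_len a F G m hF hG Iv q O u
  set Oq := Orc (SV : Th X S J K → Finset K) with hOr
  let e : Oq × X ≃ World X S J K × X := orcE.prodCongr (Equiv.refl X)
  have hOrne : Nonempty Oq := by
    obtain ⟨k⟩ := ‹Nonempty K›
    exact ⟨orcE.symm (fun _ => k, fun _ _ => k)⟩
  have h0 : prob (fun p : World X S J K × X =>
      p.1.1 ((Iv (p.1.1 p.2)).run (ora a F p.1)) = p.1.1 p.2) =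
      prob (fun z : Oq × X => fO z.1.1 ((Iv (z.1.1 (.x z.2))).run (wd a F z.1.1)) =
        z.1.1 (.x z.2)) := by
    rw [← prob_equiv e]
    rfl
  rw [h0, prob_eq]
  -- the three events
  set EA : Finset (Oq × X) := Finset.univ.filter fun z =>
    Bad gK z.1.1 (.x z.2 :: (invC a F G Iv q (z.1.1 (.x z.2))).asked z.1.1) with hEA
  set EB : Finset (Oq × X) := Finset.univ.filter fun z =>
    ∃ x' ≠ z.2, fO z.1.1 x' = fO z.1.1 z.2 with hEB
  set EC : Finset (Oq × X) := Finset.univ.filter fun z =>
    (.x z.2 : Th X S J K) ∈ (invC a F G Iv q (z.1.1 (.x z.2))).asked z.1.1 with hEC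
  have hsub : (Finset.univ.filter fun z : Oq × X =>
      fO z.1.1 ((Iv (z.1.1 (.x z.2))).run (wd a F z.1.1)) = z.1.1 (.x z.2)) ⊆
      EA ∪ EB ∪ EC := by
    rintro ⟨O, x⟩ hz
    rw [Finset.mem_filter] at hz
    have hz := hz.2
    rw [Finset.mem_union, Finset.mem_union]
    by_cases ha : Bad gK O.1 (.x x :: (invC a F G Iv q (O.1 (.x x))).asked O.1)
    · exact Or.inl (Or.inl (Finset.mem_filter.2 ⟨Finset.mem_univ _, ha⟩))
    · have hr := invC_run a F G mono Iv q hq O.1 x ha
      by_cases hx : (Iv (O.1 (.x x))).run (wd a F O.1) = x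
      · right
        refine Finset.mem_filter.2 ⟨Finset.mem_univ _, ?_⟩
        have := hr.2
        rw [hx] at this
        exact this
      · left; right
        exact Finset.mem_filter.2 ⟨Finset.mem_univ _, _, hx, hz⟩
  have hcard := (Finset.card_le_card hsub).trans
    ((Finset.card_union_le _ _).trans (Nat.add_le_add_right (Finset.card_union_le _ _) _))
  -- event A
  obtain ⟨Y, hYc, hY⟩ := gK_cells (X := X) (S := S) (J := J) (K := K)
  have hA : Fintype.card K * EA.card ≤
      (I + 1) * (Fintype.card S * (Fintype.card J + 1)) * Fintype.card Oq * Fintype.card X := by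
    have h1 : EA.card = ∑ x : X, (Finset.univ.filter fun O : Oq =>
        Bad gK O.1 (.x x :: (invC a F G Iv q (O.1 (.x x))).asked O.1)).card := by
      rw [hEA, Finset.card_filter, Fintype.sum_prod_type_right]
      refine Finset.sum_congr rfl fun x _ => ?_
      rw [Finset.card_filter]
    rw [h1, Finset.mul_sum]
    have h2 : ∀ x ∈ (Finset.univ : Finset X), Fintype.card K * (Finset.univ.filter fun O : Oq =>
        Bad gK O.1 (.x x :: (invC a F G Iv q (O.1 (.x x))).asked O.1)).card ≤
        (I + 1) * (Fintype.card S * (Fintype.card J + 1)) * Fintype.card Oq := by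
      intro x _
      have h3 := bad_le (SV : Th X S J K → Finset K) gK (Fintype.card K) (I + 1) Y hY
        gK_few (.ask (.x x) fun u => invC a F G Iv q u) (by
          intro O
          rw [Comp.asked_ask, List.length_cons]
          exact Nat.succ_le_succ (hlen O.1 _))
      refine h3.trans ?_
      exact Nat.mul_le_mul_right _ (Nat.mul_le_mul_left _ hYc)
    refine (Finset.sum_le_sum h2).trans ?_
    rw [Finset.sum_const, Finset.card_univ, smul_eq_mul, mul_comm]
  -- event B
  have hB : Fintype.card K * EB.card ≤ Fintype.card X ^ 2 * Fintype.card Oq := coll_card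
  -- event C
  have hC : EC.card ≤ I * Fintype.card Oq := by
    obtain ⟨x0⟩ := ‹Nonempty X›
    exact hit_card (SV : Th X S J K → Finset K) (fun x : X => (.x x : Th X S J K))
      (fun a b hab => by injection hab) (SV (.x x0 : Th X S J K)) (fun i => rfl)
      (by
        obtain ⟨k⟩ := ‹Nonempty K›
        exact ⟨k, by simp [SV]⟩)
      (fun u => invC a F G Iv q u) I (fun O u => hlen O.1 u)
  -- conclusion
  have hK : (0 : ℝ) < Fintype.card K := by exact_mod_cast Fintype.card_pos
  have hX : (0 : ℝ) < Fintype.card X := by exact_mod_cast Fintype.card_pos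
  have hO : (0 : ℝ) < Fintype.card Oq := by exact_mod_cast Fintype.card_pos
  have hA' : (EA.card : ℝ) ≤
      (I + 1) * (Fintype.card S * (Fintype.card J + 1)) * Fintype.card Oq * Fintype.card X /
        Fintype.card K := by
    rw [le_div_iff₀ hK, mul_comm]
    exact_mod_cast hA
  have hB' : (EB.card : ℝ) ≤ Fintype.card X ^ 2 * Fintype.card Oq / Fintype.card K := by
    rw [le_div_iff₀ hK, mul_comm]
    exact_mod_cast hB
  have hC' : (EC.card : ℝ) ≤ I * Fintype.card Oq := by exact_mod_cast hC
  have hI1 : ((I : ℝ) + 1) ≤ ((q : ℝ) + 1) * (a + m + 4) := by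
    rw [hI]
    push_cast
    have hj : (0 : ℝ) ≤ a := Nat.cast_nonneg _
    have hm : (0 : ℝ) ≤ m := Nat.cast_nonneg _
    nlinarith
  have hS : (0 : ℝ) ≤ (Fintype.card S : ℝ) * (Fintype.card J + 1) := by positivity
  rw [Fintype.card_prod, Nat.cast_mul, div_le_iff₀ (mul_pos hO hX)]
  have hcard' : ((Finset.univ.filter fun z : Oq × X =>
      fO z.1.1 ((Iv (z.1.1 (.x z.2))).run (wd a F z.1.1)) = z.1.1 (.x z.2)).card : ℝ) ≤
      EA.card + EB.card + EC.card := by exact_mod_cast hcard
  refine hcard'.trans ((add_le_add (add_le_add hA' hB') hC').trans ?_)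
  have e1 : (((q : ℝ) + 1) * (a + m + 4) / Fintype.card X +
      (((q : ℝ) + 1) * (a + m + 4) * (Fintype.card S * (Fintype.card J + 1)) + Fintype.card X) /
        Fintype.card K) * (Fintype.card Oq * Fintype.card X) =
      ((q : ℝ) + 1) * (a + m + 4) * (Fintype.card S * (Fintype.card J + 1)) * Fintype.card Oq *
        Fintype.card X / Fintype.card K + Fintype.card X ^ 2 * Fintype.card Oq / Fintype.card K +
      ((q : ℝ) + 1) * (a + m + 4) * Fintype.card Oq := by
    field_simp
    ring
  rw [e1]
  refine add_le_add (add_le_add ?_ le_rfl) ?_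
  · refine div_le_div_of_nonneg_right ?_ hK.le
    refine mul_le_mul_of_nonneg_right (mul_le_mul_of_nonneg_right
      (mul_le_mul_of_nonneg_right hI1 hS) hO.le) hX.le
  · refine mul_le_mul_of_nonneg_right ?_ hO.le
    linarith

end Pool.Agent.Fe
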