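import Pool.Agent.Lib.MP_ae38e0_lc.Fe.Lab

import Pool.Agent.Lib.MP_ae38e0_lc.Fe.Inv

import Pool.Agent.Lib.MP_ae38e0_lc.Fe.OneW

import Pool.Agent.Lib.MP_ae38e0_lc.Nbb.Adapt

set_option autoImplicit false

/-!
# The labels hide, adaptively (rows H1 - H4)

The distinguisher `D` asks for labels with a pair of indices `(j0, j1)`; it gets the label with index
`j0` of the key `(t0, r)` (`c = false`), or with index `j1` of the key `(t1, r)` (`c = true`).
-/

namespace Pool.Agent.Fe

open Pool.Agent.LinOT Pool.Agent.Nbb Classical

/-- A fair list of pairs: at most `a` pairs, no index twice, and the labels with the first indices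
of the key of type `t0` reveal the same as those with the second indices of the key of type `t1`. -/
def Fair {X T J K V : Type} (a : ℕ) (F : T → List J → Comp X K V) (f : X → K) (t0 t1 : T)
    (js : List (J × J)) : Prop :=
  js.length ≤ a ∧ (js.map Prod.fst).Nodup ∧ (js.map Prod.snd).Nodup ∧
    (F t0 (js.map Prod.fst)).run f = (F t1 (js.map Prod.snd)).run f

/-- A computation on the things. -/
def liftT {Q Y K α : Type} : Comp Q K α → Comp (Q ⊕ Y) K α
  | .ret x => .ret x
  | .ask x next => .ask (.inl x) fun v => liftT (next v)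

/-- A computation with renamed queries. -/
def renm {Q Q' K α : Type} (φ : Q → Q') : Comp Q K α → Comp Q' K α
  | .ret x => .ret x
  | .ask x next => .ask (φ x) fun v => renm φ (next v)

/-- The table with one entry. -/
noncomputable def tb1 {S J K V : Type} (η : K) (P : List K) (v : V) : Tb S J K V :=
  ⟨fun _ => none, fun _ _ => none, Function.update (fun _ => none) η (some (true, P, some v))⟩

section

variable {X T U J K V : Type}

variable (a : ℕ) (F : T → List J → Comp X K V) (G : V → List ℕ → Comp X K V) (f : X → K) (t0 t1 : T)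

/-- The distinguisher with local answers: `η` is the handle, `own` are the labels computed by
itself, `n` the number of the queries which are still allowed, `js` the list of the pairs asked so
far, `P` the list of the labels obtained. -/
noncomputable def loc (η : K) :
    ℕ → Comp (Qry X (T × U) J K ⊕ J × J) (Ans J K V ⊕ K) Bool → Own (T × U) J K → ℕ →
      List (J × J) → List K →
      Comp (Th X (T × U) J K ⊕ (Option (Fin a) × Option (J × J))) K (Option Bool)
  | 0, _, _, _, _, _ => .ret none
  | N + 1, D, own, n, js, P =>
    (liftT (cmp a (fun s => F s.1) G (tb1 η P ((F t0 (js.map Prod.fst)).run f)) (seg D) own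
      n)).bind fun r =>
      match r.1 with
      | none => .ret none
      | some (.inl b) => .ret (some b)
      | some (.inr (z, nx)) =>
        if h : Fair a F f t0 t1 (js ++ [z]) then
          .ask (.inr (some ⟨js.length, by simpa using h.1⟩, some z)) fun π =>
            .ask (.inl (.l η π)) fun _ => loc η N (nx π) r.2.1 r.2.2 (js ++ [z]) (P ++ [π])
        else .ret none

/-- The same from the beginning. -/
noncomputable def loc0 (D : K → Comp (Qry X (T × U) J K ⊕ J × J) (Ans J K V ⊕ K) Bool) (q : ℕ) :
    Comp (Th X (T × U) J K ⊕ (Option (Fin a) × Option (J × J))) K (Option Bool) :=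
  .ask (.inr (none, none)) fun η => .ask (.inl (.h η)) fun _ =>
    loc a F G f t0 t1 η (a + 1) (D η) [] q [] []

end

/-- The index which belongs to `c`. -/
def ix {J : Type} : Bool → J × J → J
  | false, z => z.1
  | true, z => z.2

/-- The cell of the key `s` which belongs to a query of the distinguisher. -/
def cellOf {X S J K : Type} (s : S) (c : Bool) : Option (J × J) → Th X S J K
  | none => .c s none
  | some z => .c s (some (ix c z))

/-- The thing touched by a query. -/
def tch {X S J K I : Type} (s : S) (c : Bool) : Th X S J K ⊕ (I × Option (J × J)) → Th X S J K :=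
  Sum.elim id fun z => cellOf s c z.2

/-- The real label oracle. -/
def rlab {X S J K : Type} (O : Th X S J K → K) (s : S) (c : Bool) (z : J × J) : K :=
  O (.c s (some (ix c z)))

/-! ## Row H1: basic facts -/

section

variable {Q Q' Y K α : Type}

theorem run_liftT (O : Q ⊕ Y → K) (c : Comp Q K α) :
    (liftT c).run O = c.run (fun x => O (.inl x)) := by
  induction c with
  | ret x => rfl
  | ask x next ih => simp only [liftT, Comp.run_ask, ih]

theorem asked_liftT (O : Q ⊕ Y → K) (c : Comp Q K α) :
    (liftT c).asked O = (c.asked (fun x => O (.inl x))).map .inl := by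
  induction c with
  | ret x => rfl
  | ask x next ih => simp only [liftT, Comp.asked_ask, ih, List.map_cons]

theorem run_renm (φ : Q → Q') (O : Q' → K) (c : Comp Q K α) :
    (renm φ c).run O = c.run (fun x => O (φ x)) := by
  induction c with
  | ret x => rfl
  | ask x next ih => simp only [renm, Comp.run_ask, ih]

theorem asked_renm (φ : Q → Q') (O : Q' → K) (c : Comp Q K α) :
    (renm φ c).asked O = (c.asked (fun x => O (φ x))).map φ := by
  induction c with
  | ret x => rfl
  | ask x next ih => simp only [renm, Comp.asked_ask, ih, List.map_cons]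

end

section

variable {X T U J K V : Type}

variable {a : ℕ} {F : T → List J → Comp X K V} {G : V → List ℕ → Comp X K V} {f : X → K} {t0 t1 : T}

private theorem H1_range {β γ : Type} (g : β → γ) (js js' : List β) :
    (js.map g).map some = (List.range js.length).map (fun x => ((js ++ js').map g)[x]?) := by
  apply List.ext_getElem
  · simp
  · intro i h1 h2
    have hi : i < js.length := by simpa using h1
    simp [List.getElem?_append, hi]

/-- `G` for the positions `List.range js.length`. -/
theorem fair_pre (hG : ∀ f t js js' (i : List ℕ), js.length ≤ a →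
      js'.map some = i.map (fun x => js[x]?) → (G ((F t js).run f) i).run f = (F t js').run f)
    (js js' : List (J × J)) (h : Fair a F f t0 t1 (js ++ js')) : Fair a F f t0 t1 js := by
  obtain ⟨h1, h2, h3, h4⟩ := h
  refine ⟨?_, ?_, ?_, ?_⟩
  · rw [List.length_append] at h1
    omega
  · rw [List.map_append] at h2
    exact (List.nodup_append.mp h2).1
  · rw [List.map_append] at h3
    exact (List.nodup_append.mp h3).1
  · have e0 := hG f t0 ((js ++ js').map Prod.fst) (js.map Prod.fst) (List.range js.length)
      (by simpa using h1) (H1_range Prod.fst js js')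
    have e1 := hG f t1 ((js ++ js').map Prod.snd) (js.map Prod.snd) (List.range js.length)
      (by simpa using h1) (H1_range Prod.snd js js')
    rw [← e0, ← e1, h4]

/-- The number of the queries. -/
theorem loc_len (m : ℕ) (hF : ∀ f t js, ((F t js).asked f).length ≤ m)
    (hG' : ∀ f v i, ((G v i).asked f).length ≤ m) (η : K)
    (an : Th X (T × U) J K ⊕ (Option (Fin a) × Option (J × J)) → K) :
    ∀ (N : ℕ) (D : Comp (Qry X (T × U) J K ⊕ J × J) (Ans J K V ⊕ K) Bool)
      (own : Own (T × U) J K) (n : ℕ) (js : List (J × J)) (P : List K),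
      ((loc a F G f t0 t1 η N D own n js P).asked an).length ≤
        n * (a + m + 4) + 2 * (a - js.length) := by
  intro N
  induction N with
  | zero =>
    intro D own n js P
    simp [loc]
  | succ N ih =>
    intro D own n js P
    have hc := (cmp_len a (fun s : T × U => F s.1) G m (fun f s js => hF f s.1 js) hG'
      (tb1 η P ((F t0 (js.map Prod.fst)).run f)) (fun x => an (.inl x)) (seg D) own n).2.2.2
    simp only [loc, Comp.asked_bind, List.length_append, asked_liftT, List.length_map, run_liftT]
    generalize hr : (cmp a (fun s : T × U => F s.1) G (tb1 η P ((F t0 (js.map Prod.fst)).run f))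
      (seg D) own n).run (fun x => an (.inl x)) = r at hc ⊢
    generalize ((cmp a (fun s : T × U => F s.1) G (tb1 η P ((F t0 (js.map Prod.fst)).run f))
      (seg D) own n).asked (fun x => an (.inl x))).length = L at hc ⊢
    obtain ⟨r1, own', n'⟩ := r
    rcases r1 with _ | b | ⟨z, nx⟩
    · simp only [Comp.asked_ret, List.length_nil]
      omega
    · simp only [Comp.asked_ret, List.length_nil]
      omega
    · dsimp only
      split_ifs with h
      · have h1 : js.length + 1 ≤ a := by simpa using h.1
        simp only [Comp.asked_ask, List.length_cons]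
        have := ih (nx (an (.inr (some ⟨js.length, by simpa using h.1⟩, some z)))) own' n'
          (js ++ [z]) (P ++ [an (.inr (some ⟨js.length, by simpa using h.1⟩, some z))])
        have e2 : (js ++ [z]).length = js.length + 1 := by simp
        have e3 : 2 * (a - (js ++ [z]).length) = 2 * (a - (js.length + 1)) := by rw [e2]
        refine le_trans (add_le_add (le_refl L) (add_le_add (add_le_add this (le_refl 1))
          (le_refl 1))) ?_
        rw [e3]
        simp only at hc
        omega
      · simp only [Comp.asked_ret, List.length_nil]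
        omega

theorem loc0_len (m : ℕ) (hF : ∀ f t js, ((F t js).asked f).length ≤ m)
    (hG' : ∀ f v i, ((G v i).asked f).length ≤ m)
    (D : K → Comp (Qry X (T × U) J K ⊕ J × J) (Ans J K V ⊕ K) Bool) (q : ℕ)
    (an : Th X (T × U) J K ⊕ (Option (Fin a) × Option (J × J)) → K) :
    ((loc0 a F G f t0 t1 D q).asked an).length ≤ (q + 2) * (a + m + 4) := by
  have h := loc_len (f := f) (t0 := t0) (t1 := t1) m hF hG' (an (.inr (none, none))) an (a + 1)
    (D (an (.inr (none, none)))) [] q [] []
  simp only [loc0, Comp.asked_ask, List.length_cons]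
  simp only [List.length_nil, Nat.sub_zero] at h
  have e : (q + 2) * (a + m + 4) = q * (a + m + 4) + 2 * (a + m + 4) := by ring
  rw [e]
  omega

/-- Row H1s: the slots.  For `loc η N D own n js P` the queries `.inr` are
`(some i, some z)` with `z = (js ++ zs)[i]`, where `js ++ zs` is fair (or `zs = []`). -/
private theorem H1s_loc (η : K) (an : Th X (T × U) J K ⊕ (Option (Fin a) × Option (J × J)) → K) :
    ∀ (N : ℕ) (D : Comp (Qry X (T × U) J K ⊕ J × J) (Ans J K V ⊕ K) Bool)
      (own : Own (T × U) J K) (n : ℕ) (js : List (J × J)) (P : List K),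
      ∃ zs : List (J × J), (zs = [] ∨ Fair a F f t0 t1 (js ++ zs)) ∧
        ∀ z, .inr z ∈ (loc a F G f t0 t1 η N D own n js P).asked an →
          ∃ (i : Fin a) (w : J × J), z = (some i, some w) ∧ js.length ≤ i.val ∧
            (js ++ zs)[i.val]? = some w := by
  intro N
  induction N with
  | zero =>
    intro D own n js P
    refine ⟨[], Or.inl rfl, fun z hz => ?_⟩
    rw [loc, Comp.asked_ret] at hz
    exact absurd hz List.not_mem_nil
  | succ N ih =>
    intro D own n js P
    have hno : ∀ (c : Comp (Th X (T × U) J K) K
        (Option (Bool ⊕ (J × J) × (K → Comp (Qry X (T × U) J K ⊕ J × J) (Ans J K V ⊕ K) Bool)) ×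
          Own (T × U) J K × ℕ)) (z : Option (Fin a) × Option (J × J)),
        .inr z ∉ (liftT c : Comp (Th X (T × U) J K ⊕ (Option (Fin a) × Option (J × J))) K _).asked an := by
      intro c z hz
      rw [asked_liftT, List.mem_map] at hz
      obtain ⟨x, _, hx⟩ := hz
      exact absurd hx (by simp)
    rw [loc]
    simp only [Comp.asked_bind, List.mem_append]
    generalize (liftT (cmp a (fun s => F s.1) G (tb1 η P ((F t0 (js.map Prod.fst)).run f)) (seg D) own
      n) : Comp (Th X (T × U) J K ⊕ (Option (Fin a) × Option (J × J))) K _).run an = r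
    obtain ⟨r1, own', n'⟩ := r
    rcases r1 with _ | b | ⟨w, nx⟩
    · refine ⟨[], Or.inl rfl, fun z hz => ?_⟩
      rcases hz with hz | hz
      · exact absurd hz (hno _ z)
      · exact absurd hz (by simp)
    · refine ⟨[], Or.inl rfl, fun z hz => ?_⟩
      rcases hz with hz | hz
      · exact absurd hz (hno _ z)
      · exact absurd hz (by simp)
    · by_cases h : Fair a F f t0 t1 (js ++ [w])
      · obtain ⟨zs, hzs, hall⟩ := ih (nx (an (.inr (some ⟨js.length, by simpa using h.1⟩, some w)))) own' n'
          (js ++ [w]) (P ++ [an (.inr (some ⟨js.length, by simpa using h.1⟩, some w))])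
        refine ⟨w :: zs, Or.inr ?_, fun z hz => ?_⟩
        · rcases hzs with rfl | hzs
          · exact h
          · rw [List.append_assoc, List.singleton_append] at hzs
            exact hzs
        · rcases hz with hz | hz
          · exact absurd hz (hno _ z)
          · simp only [dif_pos h, Comp.asked_ask, List.mem_cons, reduceCtorEq, false_or] at hz
            rcases hz with hz | hz
            · rw [Sum.inr.injEq] at hz
              subst hz
              refine ⟨⟨js.length, by simpa using h.1⟩, w, rfl, le_rfl, ?_⟩
              simp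
            · obtain ⟨i, w', h1, h2, h3⟩ := hall z hz
              rw [List.append_assoc, List.singleton_append] at h3
              refine ⟨i, w', h1, ?_, h3⟩
              rw [List.length_append] at h2
              omega
      · refine ⟨[], Or.inl rfl, fun z hz => ?_⟩
        rcases hz with hz | hz
        · exact absurd hz (hno _ z)
        · simp only [dif_neg h] at hz
          exact absurd hz (by simp)

private theorem H1s_inj {α β : Type} {l : List α} {g : α → β} (hl : (l.map g).Nodup) {i j : ℕ} {x y : α}
    (hi : l[i]? = some x) (hj : l[j]? = some y) (h : g x = g y) : i = j := by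
  have h1 : (l.map g)[i]? = some (g x) := by
    rw [List.getElem?_map, hi]
    rfl
  have h2 : (l.map g)[j]? = some (g x) := by
    rw [List.getElem?_map, hj, h]
    rfl
  have h3 : i < (l.map g).length := by
    by_contra h4
    rw [List.getElem?_eq_none (by omega)] at h1
    exact absurd h1 (by simp)
  exact (List.getElem?_inj h3 hl).1 (h1.trans h2.symm)

theorem loc0_slots (D : K → Comp (Qry X (T × U) J K ⊕ J × J) (Ans J K V ⊕ K) Bool) (q : ℕ)
    (an : Th X (T × U) J K ⊕ (Option (Fin a) × Option (J × J)) → K) (s : T × U) (c : Bool)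
    (z z' : Option (Fin a) × Option (J × J))
    (hz : .inr z ∈ (loc0 a F G f t0 t1 D q).asked an)
    (hz' : .inr z' ∈ (loc0 a F G f t0 t1 D q).asked an) :
    z.1 = z'.1 ↔ (cellOf s c z.2 : Th X (T × U) J K) = cellOf s c z'.2 := by
  rw [loc0] at hz hz'
  simp only [Comp.asked_ask, List.mem_cons, reduceCtorEq, false_or] at hz hz'
  obtain ⟨zs, hzs, hall⟩ := H1s_loc (F := F) (G := G) (f := f) (t0 := t0) (t1 := t1)
    (an (.inr (none, none))) an (a + 1) (D (an (.inr (none, none)))) [] q [] []
  rw [List.nil_append] at hzs hall
  have key : ∀ (i i' : Fin a) (w w' : J × J), zs[i.val]? = some w → zs[i'.val]? = some w' →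
      (i = i' ↔ ix c w = ix c w') := by
    intro i i' w w' h1 h2
    constructor
    · intro h
      rw [h, h2] at h1
      rw [Option.some.inj h1]
    · intro h
      have hf : Fair a F f t0 t1 zs := by
        rcases hzs with h3 | h3
        · rw [h3] at h1
          exact absurd h1 (by simp)
        · exact h3
      apply Fin.ext
      cases c
      · exact H1s_inj hf.2.1 h1 h2 h
      · exact H1s_inj hf.2.2.1 h1 h2 h
  rcases hz with hz | hz
  · rcases hz' with hz' | hz'
    · rw [Sum.inr.injEq] at hz hz'
      rw [hz, hz']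
      exact iff_of_true rfl rfl
    · obtain ⟨i, w, h1, -, h2⟩ := hall z' hz'
      rw [Sum.inr.injEq] at hz
      rw [hz, h1]
      refine iff_of_false (by simp) ?_
      simp [cellOf]
  · obtain ⟨i, w, h1, -, h2⟩ := hall z hz
    rcases hz' with hz' | hz'
    · rw [Sum.inr.injEq] at hz'
      rw [hz', h1]
      refine iff_of_false (by simp) ?_
      simp [cellOf]
    · obtain ⟨i', w', h1', -, h2'⟩ := hall z' hz'
      rw [h1, h1']
      have h3 := key i i' w w' h2 h2'
      simp only [Option.some.injEq, cellOf, Th.c.injEq, true_and]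
      exact h3

/-! ## Row H1r: the context of the distinguisher -/

/-- The things touched by the key `s`, when the labels `js` were given. -/
def hY (O : Th X (T × U) J K → K) (s : T × U) (js : List J) : List (Th X (T × U) J K) :=
  .c s none :: itm O s none :: js.flatMap fun j => [.c s (some j), itm O s (some j)]

/-- The public items. -/
def hW (O : Th X (T × U) J K → K) (s : T × U) (js : List J) : List (Th X (T × U) J K) :=
  itm O s none :: js.map fun j => itm O s (some j)

private theorem H1r_itm_ne (O : Th X (T × U) J K → K) (s s' : T × U) (j j' : Option J) :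
    (.c s' j' : Th X (T × U) J K) ≠ itm O s j := by
  cases j <;> simp [itm]

private theorem H1r_c (O : Th X (T × U) J K → K) (s s' : T × U) (js : List J) (j' : Option J)
    (h : (.c s' j' : Th X (T × U) J K) ∈ hY O s js) : s' = s ∧ itm O s' j' ∈ hY O s js := by
  rw [hY, List.mem_cons, List.mem_cons, List.mem_flatMap] at h
  rcases h with h | h | ⟨x, hx, h⟩
  · have h1 := (Th.c.injEq _ _ _ _).mp h
    obtain ⟨rfl, rfl⟩ := h1
    exact ⟨rfl, List.mem_cons_of_mem _ List.mem_cons_self⟩
  · exact absurd h (H1r_itm_ne O s s' none j')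
  · rw [List.mem_cons, List.mem_singleton] at h
    rcases h with h | h
    · have h1 := (Th.c.injEq _ _ _ _).mp h
      obtain ⟨rfl, rfl⟩ := h1
      refine ⟨rfl, ?_⟩
      rw [hY]
      refine List.mem_cons_of_mem _ (List.mem_cons_of_mem _ (List.mem_flatMap.2 ⟨x, hx, ?_⟩))
      exact List.mem_cons_of_mem _ List.mem_cons_self
    · exact absurd h (H1r_itm_ne O s s' (some x) j')

private theorem H1r_cW (O : Th X (T × U) J K → K) (s s' : T × U) (js : List J) (j' : Option J) :
    (.c s' j' : Th X (T × U) J K) ∉ hW O s js := by
  intro h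
  rw [hW, List.mem_cons, List.mem_map] at h
  rcases h with h | ⟨x, -, h⟩
  · exact H1r_itm_ne O s s' none j' h
  · exact H1r_itm_ne O s s' (some x) j' h.symm

private theorem H1r_none (O : Th X (T × U) J K → K) (s : T × U) (js : List J) :
    (.c s none : Th X (T × U) J K) ∈ hY O s js := by
  rw [hY]
  exact List.mem_cons_self

private theorem H1r_tb (η η' : K) (P P' : List K) (o : Bool) (v v' : V)
    (h : (tb1 (S := T × U) (J := J) η P v).pr η' = some (o, P', some v')) :
    η' = η ∧ P' = P ∧ v' = v := by
  have h0 : (tb1 (S := T × U) (J := J) η P v).pr η' =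
      Function.update (fun _ => none) η (some (true, P, some v)) η' := rfl
  rw [h0] at h
  by_cases he : η' = η
  · subst he
    rw [Function.update_self] at h
    simp only [Option.some.injEq, Prod.mk.injEq] at h
    exact ⟨rfl, h.2.1.symm, h.2.2.symm⟩
  · rw [Function.update_of_ne he] at h
    exact absurd h (by simp)

/-- The context, from its list of the things touched. -/
private theorem H1r_rt (O : Th X (T × U) J K → K) (s : T × U) (hf : fO O = f) (js : List J)
    (hj : js.length ≤ a) (own : Own (T × U) J K) (ho : ∀ e ∈ own, e.1 ≠ s)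
    (pre : List (Th X (T × U) J K))
    (h1 : ∀ e ∈ own, e.2.2 = O (.c e.1 e.2.1) ∧ .c e.1 e.2.1 ∈ pre)
    (h2 : ∀ e ∈ own, (e.1, none, O (.c e.1 none)) ∈ own)
    (h3 : ∀ s' j, .c s' j ∈ pre → (s', j, O (.c s' j)) ∈ own ∨ .c s' j ∈ hY O s js)
    (h4 : ∀ d ∈ hY O s js, d ∈ pre) (h5 : Nice O pre) :
    Rt a (fun s => F s.1) O (tb1 (O (.c s none)) (lbs O s js) ((F s.1 js).run f)) (hY O s js)
      (hW O s js) own pre := by
  refine ⟨h1, h2, fun s' j hm => ?_, fun e he hm => ?_, h4, fun d hd => h4 d ?_, h5,
    fun s' j hm => ?_, fun s' j hm => (H1r_c O s s' js j hm).2, fun s' j hm => ?_,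
    fun s' hm => absurd hm (H1r_cW O s s' js none), fun η s' hm => ?_,
    fun s' j hm => absurd hm (H1r_cW O s s' js (some j)), fun s' π j hm => ?_,
    fun s' j hm _ => absurd hm (H1r_cW O s s' js none), fun s' hm _ _ => ?_, fun η o P v hm => ?_⟩
  · rcases h3 s' j hm with h | h
    · exact Or.inl h
    · exact Or.inr (Or.inl h)
  · exact absurd (H1r_c O s e.1 js e.2.1 hm).1 (ho e he)
  · rw [hW, List.mem_cons, List.mem_map] at hd
    rw [hY, List.mem_cons, List.mem_cons, List.mem_flatMap]
    rcases hd with h | ⟨x, hx, h⟩
    · exact Or.inr (Or.inl h)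
    · exact Or.inr (Or.inr ⟨x, hx, h ▸ List.mem_cons_of_mem _ List.mem_cons_self⟩)
  · rw [(H1r_c O s s' js j hm).1]
    exact H1r_none O s js
  · exact absurd hm (H1r_cW O s s' js j)
  · exact absurd (show (none : Option (T × U)) = some s' from hm) (by simp)
  · exact absurd (show (none : Option J) = some j from hm) (by simp)
  · obtain rfl : s' = s := (H1r_c O s s' js none hm).1
    refine ⟨true, js, hj, ?_, fun j hl => ?_⟩
    · rw [hf]
      show Function.update (fun _ : K => (none : Option (Bool × List K × Option V))) (O (.c s' none))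
        (some (true, lbs O s' js, some ((F s'.1 js).run f))) (O (.c s' none)) = _
      rw [Function.update_self]
    · rw [hW, List.mem_cons, List.mem_map] at hl
      rcases hl with h | ⟨x, hx, h⟩
      · exact absurd h (by simp [itm])
      · have h6 : O (.c s' (some x)) = O (.c s' (some j)) := by
          simp only [itm, Th.l.injEq] at h
          exact h.2
        rw [← h6, lbs]
        exact List.mem_map.2 ⟨x, hx, rfl⟩
  · obtain ⟨e1, e2, e3⟩ := H1r_tb _ _ _ _ _ _ _ hm
    refine ⟨s, js, e1.symm, h4 _ (H1r_none O s js), e2, hj, ?_⟩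
    rw [hf]
    exact e3

theorem rt_start (O : Th X (T × U) J K → K) (s : T × U) (hf : fO O = f)
    (hb : ¬ Bad gK O [.c s none, itm O s none]) :
    Rt a (fun s => F s.1) O (tb1 (O (.c s none)) [] ((F s.1 []).run f)) (hY O s []) (hW O s []) []
      [.c s none, itm O s none] := by
  refine H1r_rt O s hf [] (Nat.zero_le _) [] (fun e he => absurd he List.not_mem_nil) _
    (fun e he => absurd he List.not_mem_nil) (fun e he => absurd he List.not_mem_nil)
    (fun s' j hm => Or.inr ?_) (fun d hd => ?_) (nice_cell O s none)
  · exact hm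
  · exact hd

/-- A further label is given. -/
theorem rt_lab (O : Th X (T × U) J K → K) (s : T × U) (hf : fO O = f) (js : List J) (j : J)
    (hj : js.length + 1 ≤ a) (own : Own (T × U) J K) (ho : ∀ e ∈ own, e.1 ≠ s)
    (pre : List (Th X (T × U) J K))
    (h : Rt a (fun s => F s.1) O (tb1 (O (.c s none)) (lbs O s js) ((F s.1 js).run f))
      (hY O s js) (hW O s js) own pre)
    (hb : ¬ Bad gK O (pre ++ [.c s (some j), itm O s (some j)])) :
    Rt a (fun s => F s.1) O
      (tb1 (O (.c s none)) (lbs O s (js ++ [j])) ((F s.1 (js ++ [j])).run f))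
      (hY O s (js ++ [j])) (hW O s (js ++ [j])) own
      (pre ++ [.c s (some j), itm O s (some j)]) := by
  have hY' : hY O s (js ++ [j]) = hY O s js ++ [.c s (some j), itm O s (some j)] := by
    rw [hY, hY, List.flatMap_append]
    simp
  refine H1r_rt O s hf (js ++ [j]) (by rw [List.length_append]; exact hj) own ho _
    (fun e he => ⟨(h.val e he).1, List.mem_append_left _ (h.val e he).2⟩) h.hd
    (fun s' j' hm => ?_) (fun d hd => ?_) (nice_append h.nice (nice_cell O s (some j)))
  · rw [hY']
    rcases List.mem_append.1 hm with hm | hm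
    · rcases h.keys s' j' hm with h1 | h1 | h1
      · exact Or.inl h1
      · exact Or.inr (List.mem_append_left _ h1)
      · exact absurd h1 (H1r_cW O s s' js j')
    · exact Or.inr (List.mem_append_right _ hm)
  · rw [hY'] at hd
    rcases List.mem_append.1 hd with hd | hd
    · exact List.mem_append_left _ (h.yp d hd)
    · exact List.mem_append_right _ hd

/-! ## Row H1m: the local answers are right.  Induction on `N`; each segment by `cmp_run`
(`hh` excludes the cells of `s`, the other things of `hY` are in `hW`), `seg_run`; then `fair_pre`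
(so the pair is accepted) and `rt_lab`.  For `∀ e ∈ own', e.1 ≠ s` use `cmp_inv` with
`q = own.flatMap fun e => [.c e.1 e.2.1, itm O e.1 e.2.1]` (`Cn own q O` follows from `Rt.val` and
`Rt.hd`): the cell of an entry of `own'` is a cell of an entry of `own`, or it is asked, which `hh`
excludes for the key `s`. -/

/-- a list of touched things which belongs to `own` -/
private def H1m_q {X S J K : Type} (O : Th X S J K → K) (own : Own S J K) : List (Th X S J K) :=
  own.flatMap fun e => [.c e.1 e.2.1, itm O e.1 e.2.1]

private theorem H1m_mem {X S J K : Type} {O : Th X S J K → K} {own : Own S J K} {s : S}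
    {j : Option J} (h : (.c s j : Th X S J K) ∈ H1m_q O own) :
    ∃ e ∈ own, e.1 = s ∧ e.2.1 = j := by
  unfold H1m_q at h
  rw [List.mem_flatMap] at h
  obtain ⟨e, he, h⟩ := h
  rw [List.mem_cons, List.mem_singleton] at h
  rcases h with h | h
  · injection h with h1 h2
    exact ⟨e, he, h1.symm, h2.symm⟩
  · obtain ⟨e1, e2, e3⟩ := e
    cases e2 with
    | none => exact absurd h (by simp [itm])
    | some i => exact absurd h (by simp [itm])

private theorem H1m_cn {X S J K : Type} {O : Th X S J K → K} {own : Own S J K}
    (h1 : ∀ e ∈ own, e.2.2 = O (.c e.1 e.2.1))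
    (h2 : ∀ e ∈ own, (e.1, none, O (.c e.1 none)) ∈ own) : Cn own (H1m_q O own) O where
  val e he := by
    refine ⟨h1 e he, ?_⟩
    unfold H1m_q
    rw [List.mem_flatMap]
    exact ⟨e, he, by simp⟩
  hd := h2
  keys s j h := by
    obtain ⟨e, he, rfl, rfl⟩ := H1m_mem h
    rw [← h1 e he]
    exact he
  its s j h := by
    obtain ⟨e, he, rfl, rfl⟩ := H1m_mem h
    unfold H1m_q
    rw [List.mem_flatMap]
    exact ⟨e, he, by simp⟩
  down η π h := by
    unfold H1m_q at h ⊢
    rw [List.mem_flatMap] at h ⊢
    obtain ⟨e, he, h⟩ := h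
    rw [List.mem_cons, List.mem_singleton] at h
    rcases h with h | h
    · exact absurd h (by simp)
    · refine ⟨_, h2 e he, ?_⟩
      obtain ⟨e1, e2, e3⟩ := e
      cases e2 with
      | none => exact absurd h (by simp [itm])
      | some i =>
        simp only [itm] at h
        injection h with h3 h4
        rw [h3]
        simp [itm]

/-- the segment up to the next query -/
private theorem H1m_seg {X T U J K V : Type} {a : ℕ} {F : T → List J → Comp X K V}
    {G : V → List ℕ → Comp X K V}
    (hG : ∀ f t js js' (i : List ℕ), js.length ≤ a →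
      js'.map some = i.map (fun x => js[x]?) → (G ((F t js).run f) i).run f = (F t js').run f)
    (O : Th X (T × U) J K → K) (s : T × U) (js : List J) {α : Type} (Tb : Tb (T × U) J K V)
    (D : Comp (Qry X (T × U) J K) (Ans J K V) α)
    (own : Own (T × U) J K) (n : ℕ) (pre : List (Th X (T × U) J K)) (ho : ∀ e ∈ own, e.1 ≠ s)
    (h : Rt a (fun s => F s.1) O Tb (hY O s js) (hW O s js) own pre)
    (hn : (D.asked (wd a (fun s => F s.1) O)).length ≤ n)
    (hh : ∀ j, .c s j ∉ (cmp a (fun s => F s.1) G Tb D own n).asked O)
    (hb : ¬ Bad gK O (pre ++ (cmp a (fun s => F s.1) G Tb D own n).asked O)) :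
    ∃ own', (cmp a (fun s => F s.1) G Tb D own n).run O =
        (some (D.run (wd a (fun s => F s.1) O)), own',
          n - (D.asked (wd a (fun s => F s.1) O)).length) ∧
      Rt a (fun s => F s.1) O Tb (hY O s js) (hW O s js) own'
        (pre ++ (cmp a (fun s => F s.1) G Tb D own n).asked O) ∧ ∀ e ∈ own', e.1 ≠ s := by
  have hYW : ∀ d ∈ (cmp a (fun s => F s.1) G Tb D own n).asked O, d ∈ hY O s js → d ∈ hW O s js := by
    intro d hd hy
    unfold hY at hy
    unfold hW
    rw [List.mem_cons, List.mem_cons, List.mem_flatMap] at hy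
    rcases hy with hy | hy | ⟨j, hj, hy⟩
    · exact absurd (hy ▸ hd) (hh none)
    · rw [hy]
      exact List.mem_cons_self
    · rw [List.mem_cons, List.mem_singleton] at hy
      rcases hy with hy | hy
      · exact absurd (hy ▸ hd) (hh (some j))
      · rw [hy]
        exact List.mem_cons_of_mem _ (List.mem_map_of_mem hj)
  obtain ⟨own', h1, h2⟩ := cmp_run a (fun s : T × U => F s.1) G
    (fun f s js js' i h3 h4 => hG f s.1 js js' i h3 h4) O Tb (hY O s js) (hW O s js) D own pre n h
    hn hb hYW
  refine ⟨own', h1, h2, ?_⟩
  have h3 := (cmp_inv a (fun s : T × U => F s.1) G Tb O D own n (H1m_q O own)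
    (H1m_cn (fun e he => (h.val e he).1) h.hd)).2
  rw [h1] at h3
  intro e he hes
  have h4 := (h3.val e he).2
  rw [List.mem_append] at h4
  rcases h4 with h4 | h4
  · obtain ⟨e', he', h5, _⟩ := H1m_mem h4
    exact ho e' he' (h5.trans hes)
  · rw [hes] at h4
    exact hh _ h4

private theorem H1m_val {X T J K V : Type} {a : ℕ} {F : T → List J → Comp X K V} {f : X → K}
    {t0 t1 : T} {t : T} {c : Bool} (ht : t = if c then t1 else t0) {js : List (J × J)}
    (h : Fair a F f t0 t1 js) :
    (F t0 (js.map Prod.fst)).run f = (F t (js.map (ix c))).run f := by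
  cases c with
  | false =>
    rw [ht]
    rfl
  | true =>
    rw [ht]
    exact h.2.2.2

theorem loc_run (hG : ∀ f t js js' (i : List ℕ), js.length ≤ a →
      js'.map some = i.map (fun x => js[x]?) → (G ((F t js).run f) i).run f = (F t js').run f)
    (O : Th X (T × U) J K → K) (hf : fO O = f) (s : T × U) (c : Bool)
    (hs : s.1 = if c then t1 else t0) :
    ∀ (N : ℕ) (D : Comp (Qry X (T × U) J K ⊕ J × J) (Ans J K V ⊕ K) Bool)
      (own : Own (T × U) J K) (n : ℕ) (js : List (J × J)) (pre : List (Th X (T × U) J K)),
      a + 1 ≤ js.length + N → (∀ e ∈ own, e.1 ≠ s) →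
      Rt a (fun s => F s.1) O (tb1 (O (.c s none)) (lbs O s (js.map (ix c)))
        ((F t0 (js.map Prod.fst)).run f)) (hY O s (js.map (ix c))) (hW O s (js.map (ix c)))
        own pre →
      (D.asked (qlab (wd a (fun s => F s.1) O) (rlab O s c))).length ≤ n →
      Fair a F f t0 t1 (js ++ zqs (D.asked (qlab (wd a (fun s => F s.1) O) (rlab O s c)))) →
      (∀ j, .inl (.c s j) ∉ (loc a F G f t0 t1 (O (.c s none)) N D own n js
        (lbs O s (js.map (ix c)))).asked (ansR O (cellOf s c))) →
      ¬ Bad gK O (pre ++ ((loc a F G f t0 t1 (O (.c s none)) N D own n js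
        (lbs O s (js.map (ix c)))).asked (ansR O (cellOf s c))).map (tch s c)) →
      (loc a F G f t0 t1 (O (.c s none)) N D own n js (lbs O s (js.map (ix c)))).run
          (ansR O (cellOf s c)) =
        some (D.run (qlab (wd a (fun s => F s.1) O) (rlab O s c))) := by
  intro N
  induction N with
  | zero =>
    intro D own n js pre h1 _ _ _ h2 _ _
    have h3 := h2.1
    rw [List.length_append] at h3
    omega
  | succ N ih =>
    intro D own n js pre hN ho hR hn hfair hh hb
    have hfj : Fair a F f t0 t1 js := fair_pre hG js _ hfair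
    set A := cmp a (fun s : T × U => F s.1) G (tb1 (O (.c s none)) (lbs O s (js.map (ix c)))
      ((F t0 (js.map Prod.fst)).run f)) (seg D) own n with hA
    -- the asked list of the whole
    have e1 : (loc a F G f t0 t1 (O (.c s none)) (N + 1) D own n js
        (lbs O s (js.map (ix c)))) = (liftT A).bind fun r =>
      match r.1 with
      | none => .ret none
      | some (.inl b) => .ret (some b)
      | some (.inr (z, nx)) =>
        if h : Fair a F f t0 t1 (js ++ [z]) then
          .ask (.inr (some ⟨js.length, by simpa using h.1⟩, some z)) fun π =>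
            .ask (.inl (.l (O (.c s none)) π)) fun _ =>
              loc a F G f t0 t1 (O (.c s none)) N (nx π) r.2.1 r.2.2 (js ++ [z])
                (lbs O s (js.map (ix c)) ++ [π])
        else .ret none := rfl
    rw [e1, Comp.asked_bind, asked_liftT, run_liftT] at hh hb
    rw [e1, Comp.run_bind, run_liftT]
    have hO : (fun x => (ansR O (cellOf s c) : Th X (T × U) J K ⊕
        (Option (Fin a) × Option (J × J)) → K) (.inl x)) = O := rfl
    rw [hO] at hh hb ⊢
    have htch : ∀ l : List (Th X (T × U) J K), (l.map (Sum.inl : _ → Th X (T × U) J K ⊕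
        (Option (Fin a) × Option (J × J)))).map (tch s c) = l := by
      intro l
      rw [List.map_map]
      exact List.map_id l
    rw [List.map_append, htch, ← List.append_assoc] at hb
    have hseg := seg_run (wd a (fun s : T × U => F s.1) O) (rlab O s c) D
    have hnseg : ((seg D).asked (wd a (fun s : T × U => F s.1) O)).length ≤ n := by
      rcases hr : (seg D).run (wd a (fun s : T × U => F s.1) O) with x | ⟨z, nx⟩
      · have := (hseg.1 x hr).2.1
        omega
      · have := (hseg.2 z nx hr).2.1
        omega
    obtain ⟨own', h1, h2, h3⟩ := H1m_seg hG O s (js.map (ix c)) _ (seg D) own n pre ho hR hnseg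
      (fun j hj => hh j (List.mem_append_left _ (List.mem_map_of_mem hj)))
      (fun hb' => hb (bad_append hb'))
    rw [← hA] at h1 h2
    rw [h1] at hh hb ⊢
    rcases hr : (seg D).run (wd a (fun s : T × U => F s.1) O) with x | ⟨z, nx⟩
    · rw [(hseg.1 x hr).1]
      rfl
    · obtain ⟨g1, g2, g3⟩ := hseg.2 z nx hr
      rw [hr] at hh hb
      rw [g3] at hfair
      have hfair' : Fair a F f t0 t1 ((js ++ [z]) ++ zqs ((nx (rlab O s c z)).asked
          (qlab (wd a (fun s : T × U => F s.1) O) (rlab O s c)))) := by
        rw [List.append_assoc]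
        exact hfair
      have hfz : Fair a F f t0 t1 (js ++ [z]) := fair_pre hG (js ++ [z]) _ hfair'
      simp only [dif_pos hfz] at hh hb ⊢
      have hlb : lbs O s (js.map (ix c)) ++ [rlab O s c z] = lbs O s ((js ++ [z]).map (ix c)) := by
        unfold lbs rlab
        rw [List.map_append, List.map_append]
        rfl
      have hmp : (js ++ [z]).map (ix c) = js.map (ix c) ++ [ix c z] := by
        rw [List.map_append]
        rfl
      have hja : (js.map (ix c)).length + 1 ≤ a := by
        have := hfz.1
        rw [List.length_append, List.length_singleton] at this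
        rw [List.length_map]
        exact this
      have h4 := rt_lab (F := F) O s hf (js.map (ix c)) (ix c z) hja own' h3 (pre ++ A.asked O) (by
          rw [← H1m_val hs hfj]
          exact h2) (fun hb' => hb (by
          have := bad_append (l' := ((loc a F G f t0 t1 (O (.c s none)) N (nx (rlab O s c z)) own'
            (n - ((seg D).asked (wd a (fun s : T × U => F s.1) O)).length) (js ++ [z])
              (lbs O s (js.map (ix c)) ++ [rlab O s c z])).asked
              (ansR O (cellOf s c))).map (tch s c)) hb'
          rw [List.append_assoc] at this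
          exact this))
      rw [← hmp, ← H1m_val hs hfz] at h4
      have h5 := ih (nx (rlab O s c z)) own'
        (n - ((seg D).asked (wd a (fun s : T × U => F s.1) O)).length) (js ++ [z])
        (pre ++ A.asked O ++ [.c s (some (ix c z)), itm O s (some (ix c z))])
        (by
          rw [List.length_append, List.length_singleton]
          omega) h3 h4 (by omega) hfair' (by
          intro j hj
          refine hh j (List.mem_append_right _ ?_)
          rw [← hlb] at hj
          exact List.mem_cons_of_mem _ (List.mem_cons_of_mem _ hj)) (by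
          intro hb'
          apply hb
          rw [← hlb, List.append_assoc] at hb'
          exact hb')
      rw [g1, ← h5, ← hlb]
      rfl

theorem loc0_run (hG : ∀ f t js js' (i : List ℕ), js.length ≤ a →
      js'.map some = i.map (fun x => js[x]?) → (G ((F t js).run f) i).run f = (F t js').run f)
    (D : K → Comp (Qry X (T × U) J K ⊕ J × J) (Ans J K V ⊕ K) Bool) (q : ℕ)
    (hD : ∀ η (O : Qry X (T × U) J K → Ans J K V) (lab : J × J → K),
      ((D η).asked (qlab O lab)).length ≤ q ∧
        Fair a F f t0 t1 (zqs ((D η).asked (qlab O lab))))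
    (O : Th X (T × U) J K → K) (hf : fO O = f) (s : T × U) (c : Bool)
    (hs : s.1 = if c then t1 else t0)
    (hh : ∀ j, .inl (.c s j) ∉ (loc0 a F G f t0 t1 D q).asked (ansR O (cellOf s c)))
    (hb : ¬ Bad gK O (((loc0 a F G f t0 t1 D q).asked (ansR O (cellOf s c))).map (tch s c))) :
    (loc0 a F G f t0 t1 D q).run (ansR O (cellOf s c)) =
      some ((D (O (.c s none))).run (qlab (wd a (fun s => F s.1) O) (rlab O s c))) := by
  have hask : (loc0 a F G f t0 t1 D q).asked (ansR O (cellOf s c)) =
      .inr (none, none) :: .inl (.h (O (.c s none))) ::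
        (loc a F G f t0 t1 (O (.c s none)) (a + 1) (D (O (.c s none))) [] q [] []).asked
          (ansR O (cellOf s c)) := rfl
  have hrun : (loc0 a F G f t0 t1 D q).run (ansR O (cellOf s c)) =
      (loc a F G f t0 t1 (O (.c s none)) (a + 1) (D (O (.c s none))) [] q [] []).run
        (ansR O (cellOf s c)) := rfl
  rw [hask] at hh hb
  have hb' : ¬ Bad gK O ([.c s none, itm O s none] ++
      ((loc a F G f t0 t1 (O (.c s none)) (a + 1) (D (O (.c s none))) [] q [] []).asked
        (ansR O (cellOf s c))).map (tch s c)) := hb
  have hd := hD (O (.c s none)) (wd a (fun s => F s.1) O) (rlab O s c)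
  have hfair : Fair a F f t0 t1 [] := fair_pre hG [] _ (by rw [List.nil_append]; exact hd.2)
  have h0 : (F s.1 []).run f = (F t0 []).run f := by
    cases c with
    | false => rw [hs]; rfl
    | true => rw [hs]; exact hfair.2.2.2.symm
  have hrt := rt_start (a := a) (F := F) (f := f) O s hf (fun h => hb' (bad_append h))
  rw [h0] at hrt
  rw [hrun]
  refine loc_run hG O hf s c hs (a + 1) (D (O (.c s none))) [] q [] [.c s none, itm O s none]
    (by simp) (by simp) hrt hd.1 (by rw [List.nil_append]; exact hd.2) ?_ hb'
  intro j hj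
  exact hh j (List.mem_cons_of_mem _ (List.mem_cons_of_mem _ hj))

end

/-! ## Row H2: the events -/

section

variable {X S J K : Type} [Fintype K] [Nonempty K]

/-- The possible values of a thing when the function is `f`. -/
noncomputable def SVf (f : X → K) (t : Th X S J K) : Finset K :=
  match t with
  | .x x => {f x}
  | .c _ _ => Finset.univ
  | .h _ => {k0}
  | .l _ _ => {k0}

/-- The oracles on the things whose function is `f` are the encodings. -/
noncomputable def orcF (f : X → K) :
    Orc (SVf f : Th X S J K → Finset K) ≃ (S → Option J → K) where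
  toFun O := LO O.1
  invFun w := ⟨fun t => match t with
    | .x x => f x
    | .c s j => w s j
    | .h _ => k0
    | .l _ _ => k0, by
      intro t
      cases t <;> simp [SVf]⟩
  left_inv := by
    rintro ⟨O, hO⟩
    apply Subtype.ext
    funext t
    have h := hO t
    cases t with
    | x x =>
      simp only [SVf, Finset.mem_singleton] at h
      exact h.symm
    | c s j => rfl
    | h η =>
      simp only [SVf, Finset.mem_singleton] at h
      exact h.symm
    | l η π =>
      simp only [SVf, Finset.mem_singleton] at h
      exact h.symm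
  right_inv := fun w => rfl

/-- The function of such an oracle. -/
theorem fO_orcF (f : X → K) (O : Orc (SVf f : Th X S J K → Finset K)) : fO O.1 = f := by
  funext x
  have h := O.2 (.x x)
  simp only [SVf, Finset.mem_singleton] at h
  unfold fO
  rw [h]

end

section

variable {X T U J K V : Type} [Fintype X] [Fintype T] [Fintype U] [Fintype J] [Fintype K]
  [Nonempty K]

variable (a : ℕ) (F : T → List J → Comp X K V) (G : V → List ℕ → Comp X K V) (f : X → K)
  (t0 t1 : T) (D : K → Comp (Qry X (T × U) J K ⊕ J × J) (Ans J K V ⊕ K) Bool) (q : ℕ)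

private theorem H2_few {X S J K : Type} [Fintype K] [Nonempty K] (f : X → K) (d y : Th X S J K) :
    Fintype.card K * ((SVf f y).filter fun v => gK d y v).card ≤ (SVf f y).card := by
  have hempty : (∀ v, ¬ gK d y v) →
      Fintype.card K * ((SVf f y).filter fun v => gK d y v).card ≤ (SVf f y).card := by
    intro h
    rw [Finset.filter_false_of_mem (fun v _ => h v), Finset.card_empty, mul_zero]
    exact Nat.zero_le _
  have hone : ∀ u : K, Fintype.card K * ((Finset.univ : Finset K).filter fun v => v = u).card ≤
      (Finset.univ : Finset K).card := by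
    intro u
    rw [Finset.filter_eq' Finset.univ u, if_pos (Finset.mem_univ u), Finset.card_singleton,
      mul_one, Finset.card_univ]
  cases y with
  | x x => exact hempty (fun v => by cases d <;> simp [gK])
  | h η => exact hempty (fun v => by cases d <;> simp [gK])
  | l η π => exact hempty (fun v => by cases d <;> simp [gK])
  | c s j =>
    cases d with
    | x x => exact hempty (fun v => by simp [gK])
    | c s' j' => exact hempty (fun v => by simp [gK])
    | h η =>
      cases j with
      | none => exact hone η
      | some j => exact hempty (fun v => by simp [gK])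
    | l η π =>
      cases j with
      | none => exact hempty (fun v => by simp [gK])
      | some j => exact hone π

private theorem H2_ans {X S J K I : Type} (O : Th X S J K → K) (s : S) (c : Bool) :
    (fun x : Th X S J K ⊕ (I × Option (J × J)) => O (tch s c x)) = ansR O (cellOf s c) := by
  funext x
  cases x <;> rfl

/-- Row H2.  `bad_le` for the computation `renm (tch s c) (loc0 ..)`, with `gK_cells` and the analogue
of `gK_few` for `SVf`. -/
theorem badL_count (m : ℕ) (hF : ∀ f t js, ((F t js).asked f).length ≤ m)
    (hG' : ∀ f v i, ((G v i).asked f).length ≤ m) (s : T × U) (c : Bool) :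
    Fintype.card K * (Finset.univ.filter fun
      O : Orc (SVf f : Th X (T × U) J K → Finset K) =>
        Bad gK O.1 (((loc0 a F G f t0 t1 D q).asked (ansR O.1 (cellOf s c))).map (tch s c))).card ≤
      (q + 2) * (a + m + 4) * (Fintype.card (T × U) * (Fintype.card J + 1)) *
        Fintype.card (Orc (SVf f : Th X (T × U) J K → Finset K)) := by
  obtain ⟨Y, hYc, hY⟩ := gK_cells (X := X) (S := T × U) (J := J) (K := K)
  have hask : ∀ O : Orc (SVf f : Th X (T × U) J K → Finset K),
      (renm (tch s c) (loc0 a F G f t0 t1 D q)).asked O.1 =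
        ((loc0 a F G f t0 t1 D q).asked (ansR O.1 (cellOf s c))).map (tch s c) := by
    intro O
    rw [asked_renm, H2_ans]
  have h1 := bad_le (SVf f : Th X (T × U) J K → Finset K) gK (Fintype.card K)
    ((q + 2) * (a + m + 4)) Y hY (H2_few f) (renm (tch s c) (loc0 a F G f t0 t1 D q)) (by
      intro O
      rw [hask O, List.length_map]
      exact loc0_len m hF hG' D q _)
  simp only [hask] at h1
  refine h1.trans ?_
  exact Nat.mul_le_mul_right _ (Nat.mul_le_mul_left _ hYc)

/-- The number of the real executions with output `true`. -/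
noncomputable def realN (t : T) (c : Bool) : ℕ :=
  (Finset.univ.filter fun z : Orc (SVf f : Th X (T × U) J K → Finset K) × U =>
    (D (z.1.1 (.c (t, z.2) none))).run
      (qlab (wd a (fun s => F s.1) z.1.1) (rlab z.1.1 (t, z.2) c)) = true).card

/-- The number of the ideal executions with output `true`. -/
noncomputable def idealN : ℕ :=
  (Finset.univ.filter fun z : Orc (SVf f : Th X (T × U) J K → Finset K) ×
      (Option (Fin a) → K) =>
    (loc0 a F G f t0 t1 D q).run (ansI z.1.1 z.2) = some true).card

/-- counting pairs by the second component -/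
private theorem H3h_prod {W R : Type} [Fintype W] [Fintype R] (P : W × R → Prop)
    [DecidablePred P] :
    (Finset.univ.filter P).card = ∑ r : R, (Finset.univ.filter fun w : W => P (w, r)).card := by
  rw [Finset.card_filter, Fintype.sum_prod_type, Finset.sum_comm]
  refine Finset.sum_congr rfl fun r _ => ?_
  rw [Finset.card_filter]

/-- counting pairs by the first component -/
private theorem H3h_prod1 {W R : Type} [Fintype W] [Fintype R] (P : W × R → Prop)
    [DecidablePred P] :
    (Finset.univ.filter P).card = ∑ w : W, (Finset.univ.filter fun r : R => P (w, r)).card := by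
  rw [Finset.card_filter, Fintype.sum_prod_type]
  refine Finset.sum_congr rfl fun w _ => ?_
  rw [Finset.card_filter]

/-- equivalent predicates -/
private theorem H3h_congr {W : Type} (f1 f2 : Fintype W) (P Q : W → Prop) (i1 : DecidablePred P)
    (i2 : DecidablePred Q) (h : ∀ w, P w ↔ Q w) :
    (@Finset.filter W P i1 (@Finset.univ W f1)).card =
      (@Finset.filter W Q i2 (@Finset.univ W f2)).card := by
  congr 1
  ext w
  simp only [Finset.mem_filter, Finset.mem_univ, true_and, h w]

/-- complements -/
private theorem H3h_compl {W : Type} [Fintype W] (P Q : W → Prop) {i1 : DecidablePred P}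
    {i2 : DecidablePred Q} (i3 : DecidablePred fun w => ¬ P w) (i4 : DecidablePred fun w => ¬ Q w)
    (h : (@Finset.filter W (fun w => ¬ P w) i3 Finset.univ).card =
      (@Finset.filter W (fun w => ¬ Q w) i4 Finset.univ).card) :
    (@Finset.filter W P i1 Finset.univ).card = (@Finset.filter W Q i2 Finset.univ).card := by
  have h1 := @Finset.card_filter_add_card_filter_not W Finset.univ P i1 i3
  have h2 := @Finset.card_filter_add_card_filter_not W Finset.univ Q i2 i4
  omega

/-- Row H3h: few executions ask a cell of the key directly.  By `adapt_swap` (with `A = True`, the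
second part of `Gq` being `loc0_slots`) the real ones are as many as the ideal ones; there
`row_hit` for each oracle. -/
theorem hit_count (m : ℕ) (hF : ∀ f t js, ((F t js).asked f).length ≤ m)
    (hG' : ∀ f v i, ((G v i).asked f).length ≤ m) (t : T) (c : Bool) :
    (Finset.univ.filter fun z : (Orc (SVf f : Th X (T × U) J K → Finset K) ×
        (Option (Fin a) → K)) × U =>
      ∃ j, .inl (.c (t, z.2) j) ∈
        (loc0 a F G f t0 t1 D q).asked (ansI z.1.1.1 z.1.2)).card ≤
      (q + 2) * (a + m + 4) * Fintype.card (Orc (SVf f : Th X (T × U) J K → Finset K) ×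
        (Option (Fin a) → K)) ∧
    (Finset.univ.filter fun z : (Orc (SVf f : Th X (T × U) J K → Finset K) ×
        (Option (Fin a) → K)) × U =>
      ∃ j, .inl (.c (t, z.2) j) ∈
        (loc0 a F G f t0 t1 D q).asked (ansR z.1.1.1 (cellOf (t, z.2) c))).card ≤
      (q + 2) * (a + m + 4) * Fintype.card (Orc (SVf f : Th X (T × U) J K → Finset K) ×
        (Option (Fin a) → K)) := by
  have hA : (Finset.univ.filter fun z : (Orc (SVf f : Th X (T × U) J K → Finset K) ×
        (Option (Fin a) → K)) × U =>
      ∃ j, .inl (.c (t, z.2) j) ∈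
        (loc0 a F G f t0 t1 D q).asked (ansI z.1.1.1 z.1.2)).card ≤
      (q + 2) * (a + m + 4) * Fintype.card (Orc (SVf f : Th X (T × U) J K → Finset K) ×
        (Option (Fin a) → K)) := by
    rw [H3h_prod1]
    calc _ ≤ ∑ w : Orc (SVf f : Th X (T × U) J K → Finset K) × (Option (Fin a) → K),
          (q + 2) * (a + m + 4) := by
          refine Finset.sum_le_sum fun w _ => ?_
          have h1 := row_hit (fun (r : U) (x : Th X (T × U) J K) => ∃ j, x = .c (t, r) j) (by
            rintro i i' x ⟨j, rfl⟩ ⟨j', hj⟩
            injection hj with h2 _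
            exact (Prod.mk.inj h2).2) ((loc0 a F G f t0 t1 D q).asked (ansI w.1.1 w.2))
          refine le_trans (le_trans (le_of_eq ?_) h1) (loc0_len m hF hG' D q _)
          congr 1
          refine Finset.filter_congr fun r _ => ?_
          constructor
          · rintro ⟨j, hj⟩
            exact ⟨_, hj, j, rfl⟩
          · rintro ⟨x, hx, j, rfl⟩
            exact ⟨j, hx⟩
      _ = _ := by
          rw [Finset.sum_const, Finset.card_univ, smul_eq_mul, mul_comm]
  refine ⟨hA, le_trans (le_of_eq ?_) hA⟩
  rw [H3h_prod, H3h_prod]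
  refine Finset.sum_congr rfl fun r _ => ?_
  refine H3h_compl _ _ (fun _ => Classical.propDecidable _) (fun _ => Classical.propDecidable _) ?_
  have h2 := adapt_swap (SVf f : Th X (T × U) J K → Finset K) (fun x => ∃ j, x = .c (t, r) j)
    (cellOf (t, r) c : Option (J × J) → Th X (T × U) J K) (by
      intro z
      cases z with
      | none => exact ⟨none, rfl⟩
      | some z => exact ⟨_, rfl⟩) (by
      rintro x ⟨j, rfl⟩ v
      exact Finset.mem_univ v) (loc0 a F G f t0 t1 D q) (fun _ => True)
  refine Eq.trans ?_ (Eq.trans h2.symm ?_)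
  · refine H3h_congr _ _ _ _ _ _ fun w => ?_
    constructor
    · intro h
      refine ⟨⟨?_, fun z z' hz hz' => loc0_slots D q _ (t, r) c z z' hz hz'⟩, trivial⟩
      rintro x hx ⟨j, rfl⟩
      exact h ⟨j, hx⟩
    · rintro ⟨⟨h, _⟩, _⟩ ⟨j, hj⟩
      exact h _ hj ⟨j, rfl⟩
  · refine H3h_congr _ _ _ _ _ _ fun w => ?_
    constructor
    · rintro ⟨⟨h, _⟩, _⟩ ⟨j, hj⟩
      exact h _ hj ⟨j, rfl⟩
    · intro h
      refine ⟨⟨?_, fun z z' hz hz' => loc0_slots D q _ (t, r) c z z' hz hz'⟩, trivial⟩
      rintro x hx ⟨j, rfl⟩
      exact h ⟨j, hx⟩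

/-- A count over a product, slice by slice. -/
private theorem H3g_prod {α β : Type} [Fintype α] [Fintype β] (P Q : α × β → Prop)
    [DecidablePred P] [DecidablePred Q]
    (h : ∀ b, (Finset.univ.filter fun x : α => P (x, b)).card =
      (Finset.univ.filter fun x : α => Q (x, b)).card) :
    (Finset.univ.filter P).card = (Finset.univ.filter Q).card := by
  rw [Finset.card_filter, Finset.card_filter, Fintype.sum_prod_type_right,
    Fintype.sum_prod_type_right]
  refine Finset.sum_congr rfl fun b _ => ?_
  have h1 := h b
  rw [Finset.card_filter, Finset.card_filter] at h1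
  exact h1

/-- Row H3g: the executions which ask no cell of the key directly and have output `true`: as many
ideal as real ones (`adapt_swap` for each `r`). -/
theorem good_count (t : T) (c : Bool) :
    (Finset.univ.filter fun z : (Orc (SVf f : Th X (T × U) J K → Finset K) ×
        (Option (Fin a) → K)) × U =>
      (¬ ∃ j, .inl (.c (t, z.2) j) ∈
        (loc0 a F G f t0 t1 D q).asked (ansI z.1.1.1 z.1.2)) ∧
        (loc0 a F G f t0 t1 D q).run (ansI z.1.1.1 z.1.2) = some true).card =
    (Finset.univ.filter fun z : (Orc (SVf f : Th X (T × U) J K → Finset K) ×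
        (Option (Fin a) → K)) × U =>
      (¬ ∃ j, .inl (.c (t, z.2) j) ∈
        (loc0 a F G f t0 t1 D q).asked (ansR z.1.1.1 (cellOf (t, z.2) c))) ∧
        (loc0 a F G f t0 t1 D q).run (ansR z.1.1.1 (cellOf (t, z.2) c)) = some true).card := by
  refine H3g_prod _ _ fun r => ?_
  have hg : ∀ z : Option (J × J), ∃ j, (cellOf (t, r) c z : Th X (T × U) J K) = .c (t, r) j := by
    intro z
    cases z with
    | none => exact ⟨none, rfl⟩
    | some z => exact ⟨some (ix c z), rfl⟩
  have hS : ∀ x : Th X (T × U) J K, (∃ j, x = .c (t, r) j) → ∀ v : K, v ∈ SVf f x := by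
    rintro x ⟨j, rfl⟩ v
    simp [SVf]
  have hG : ∀ an : Th X (T × U) J K ⊕ (Option (Fin a) × Option (J × J)) → K,
      Gq (fun x : Th X (T × U) J K => ∃ j, x = .c (t, r) j) (cellOf (t, r) c)
        ((loc0 a F G f t0 t1 D q).asked an) ↔
      ¬ ∃ j, .inl (.c (t, r) j) ∈ (loc0 a F G f t0 t1 D q).asked an := by
    intro an
    constructor
    · rintro ⟨h1, -⟩ ⟨j, hj⟩
      exact h1 _ hj ⟨j, rfl⟩
    · intro h
      refine ⟨?_, ?_⟩
      · rintro x hx ⟨j, rfl⟩
        exact h ⟨j, hx⟩
      · intro z z' hz hz'
        exact loc0_slots D q an (t, r) c z z' hz hz'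
  have h := adapt_swap (SVf f : Th X (T × U) J K → Finset K)
    (fun x => ∃ j, x = .c (t, r) j) (cellOf (t, r) c) hg hS (loc0 a F G f t0 t1 D q)
    (fun b => b = some true)
  refine Eq.trans ?_ (Eq.trans h ?_)
  · refine H3h_congr _ _ _ _ _ _ fun w => ?_
    exact and_congr (hG _).symm Iff.rfl
  · refine H3h_congr _ _ _ _ _ _ fun w => ?_
    exact and_congr (hG _) Iff.rfl

/-- The triples with real output `true`. -/
private theorem H3_real (t : T) (c : Bool) :
    (Finset.univ.filter fun z : (Orc (SVf f : Th X (T × U) J K → Finset K) ×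
        (Option (Fin a) → K)) × U =>
      (D (z.1.1.1 (.c (t, z.2) none))).run
        (qlab (wd a (fun s => F s.1) z.1.1.1) (rlab z.1.1.1 (t, z.2) c)) = true).card =
      realN a F f D t c * Fintype.card (Option (Fin a) → K) := by
  unfold realN
  rw [← Finset.card_univ (α := Option (Fin a) → K), ← Finset.card_product]
  refine Finset.card_bij' (fun z _ => ((z.1.1, z.2), z.1.2)) (fun z _ => ((z.1.1, z.2), z.1.2))
    ?_ ?_ ?_ ?_
  · rintro ⟨⟨O, w⟩, r⟩ hz
    simp only [Finset.mem_filter, Finset.mem_univ, true_and] at hz
    simp only [Finset.mem_product, Finset.mem_filter, Finset.mem_univ, true_and, and_true]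
    exact hz
  · rintro ⟨⟨O, r⟩, w⟩ hz
    simp only [Finset.mem_product, Finset.mem_filter, Finset.mem_univ, true_and, and_true] at hz
    simp only [Finset.mem_filter, Finset.mem_univ, true_and]
    exact hz
  · rintro ⟨⟨O, w⟩, r⟩ _
    rfl
  · rintro ⟨⟨O, r⟩, w⟩ _
    rfl

/-- The triples with ideal output `true`. -/
private theorem H3_ideal :
    (Finset.univ.filter fun z : (Orc (SVf f : Th X (T × U) J K → Finset K) ×
        (Option (Fin a) → K)) × U =>
      (loc0 a F G f t0 t1 D q).run (ansI z.1.1.1 z.1.2) = some true).card =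
      idealN a F G f t0 t1 D q * Fintype.card U := by
  unfold idealN
  rw [← Finset.card_univ (α := U), ← Finset.card_product]
  refine congrArg Finset.card ?_
  ext ⟨⟨O, w⟩, r⟩
  simp only [Finset.mem_product, Finset.mem_filter, Finset.mem_univ, true_and, and_true]

/-- The triples with the event `Bad`. -/
private theorem H3_bad (m : ℕ) (hF : ∀ f t js, ((F t js).asked f).length ≤ m)
    (hG' : ∀ f v i, ((G v i).asked f).length ≤ m) (t : T) (c : Bool) :
    Fintype.card K * (Finset.univ.filter fun z :
        (Orc (SVf f : Th X (T × U) J K → Finset K) × (Option (Fin a) → K)) × U =>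
      Bad gK z.1.1.1 (((loc0 a F G f t0 t1 D q).asked
        (ansR z.1.1.1 (cellOf (t, z.2) c))).map (tch (t, z.2) c))).card ≤
      (q + 2) * (a + m + 4) * (Fintype.card (T × U) * (Fintype.card J + 1)) *
        Fintype.card (Orc (SVf f : Th X (T × U) J K → Finset K)) *
        Fintype.card (Option (Fin a) → K) * Fintype.card U := by
  have h1 : (Finset.univ.filter fun z :
        (Orc (SVf f : Th X (T × U) J K → Finset K) × (Option (Fin a) → K)) × U =>
      Bad gK z.1.1.1 (((loc0 a F G f t0 t1 D q).asked
        (ansR z.1.1.1 (cellOf (t, z.2) c))).map (tch (t, z.2) c))) =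
      (Finset.univ : Finset U).biUnion fun r =>
        ((Finset.univ.filter fun O : Orc (SVf f : Th X (T × U) J K → Finset K) =>
          Bad gK O.1 (((loc0 a F G f t0 t1 D q).asked
            (ansR O.1 (cellOf (t, r) c))).map (tch (t, r) c))) ×ˢ
              (Finset.univ : Finset (Option (Fin a) → K))) ×ˢ {r} := by
    ext ⟨⟨O, w⟩, r⟩
    simp only [Finset.mem_filter, Finset.mem_univ, true_and, Finset.mem_biUnion,
      Finset.mem_product, Finset.mem_singleton, and_true]
    constructor
    · intro h
      exact ⟨r, h, rfl⟩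
    · rintro ⟨r', h, rfl⟩
      exact h
  rw [h1]
  refine (Nat.mul_le_mul_left _ Finset.card_biUnion_le).trans ?_
  rw [Finset.mul_sum]
  refine (Finset.sum_le_card_nsmul _ _
    ((q + 2) * (a + m + 4) * (Fintype.card (T × U) * (Fintype.card J + 1)) *
        Fintype.card (Orc (SVf f : Th X (T × U) J K → Finset K)) *
        Fintype.card (Option (Fin a) → K)) ?_).trans ?_
  · intro r _
    rw [Finset.card_product, Finset.card_product, Finset.card_singleton, mul_one,
      Finset.card_univ, ← mul_assoc]
    exact Nat.mul_le_mul_right _ (badL_count a F G f t0 t1 D q m hF hG' (t, r) c)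
  · rw [smul_eq_mul, Finset.card_univ, Nat.mul_comm]

private theorem H3_arith (x y h b L Q k u o w : ℝ) (hu0 : 0 ≤ u) (hk : 0 < k)
    (hx : u = 0 → x = 0) (hy : u = 0 → y = 0) (h1 : x ≤ y + h + b) (h2 : y ≤ x + h + b)
    (hh : h ≤ L * (o * w)) (hb : k * b ≤ L * Q * o * w * u) :
    |x - y| ≤ (L / u + L * Q / k) * (o * u * w) := by
  have hb' : b ≤ L * Q / k * (o * u * w) := by
    rw [div_mul_eq_mul_div, le_div_iff₀ hk]
    calc b * k = k * b := mul_comm _ _
      _ ≤ L * Q * o * w * u := hb
      _ = L * Q * (o * u * w) := by ring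
  rcases hu0.eq_or_lt with hu | hu
  · rw [hx hu.symm, hy hu.symm, ← hu]
    simp
  · have hh' : h ≤ L / u * (o * u * w) := by
      have : L / u * (o * u * w) = L * (o * w) := by
        field_simp
      rw [this]
      exact hh
    rw [abs_le, add_mul]
    constructor <;> linarith

/-- Row H3.  Outside of the events `Bad` and `a cell of the key is asked` the real output is the
output with local answers (`loc0_run`); then `good_count`. -/
theorem dist_one (m : ℕ) (hF : ∀ f t js, ((F t js).asked f).length ≤ m)
    (hG' : ∀ f v i, ((G v i).asked f).length ≤ m)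
    (hG : ∀ f t js js' (i : List ℕ), js.length ≤ a →
      js'.map some = i.map (fun x => js[x]?) → (G ((F t js).run f) i).run f = (F t js').run f)
    (hD : ∀ η (O : Qry X (T × U) J K → Ans J K V) (lab : J × J → K),
      ((D η).asked (qlab O lab)).length ≤ q ∧
        Fair a F f t0 t1 (zqs ((D η).asked (qlab O lab))))
    (c : Bool) :
    |(realN a F f D (if c then t1 else t0) c : ℝ) * Fintype.card (Option (Fin a) → K) -
        idealN a F G f t0 t1 D q * Fintype.card U| ≤
      ((((q : ℝ) + 2) * (a + m + 4)) / Fintype.card U +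
        ((q : ℝ) + 2) * (a + m + 4) * (Fintype.card (T × U) * (Fintype.card J + 1)) /
          Fintype.card K) *
      ((Fintype.card (Orc (SVf f : Th X (T × U) J K → Finset K)) : ℝ) *
        Fintype.card U * Fintype.card (Option (Fin a) → K)) := by
  set t : T := if c then t1 else t0 with ht
  -- the events
  set RT := Finset.univ.filter fun z : (Orc (SVf f : Th X (T × U) J K → Finset K) ×
        (Option (Fin a) → K)) × U =>
      (D (z.1.1.1 (.c (t, z.2) none))).run
        (qlab (wd a (fun s => F s.1) z.1.1.1) (rlab z.1.1.1 (t, z.2) c)) = true with hRT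
  set IT := Finset.univ.filter fun z : (Orc (SVf f : Th X (T × U) J K → Finset K) ×
        (Option (Fin a) → K)) × U =>
      (loc0 a F G f t0 t1 D q).run (ansI z.1.1.1 z.1.2) = some true with hIT
  set HI := Finset.univ.filter fun z : (Orc (SVf f : Th X (T × U) J K → Finset K) ×
        (Option (Fin a) → K)) × U =>
      ∃ j, .inl (.c (t, z.2) j) ∈
        (loc0 a F G f t0 t1 D q).asked (ansI z.1.1.1 z.1.2) with hHI
  set HR := Finset.univ.filter fun z : (Orc (SVf f : Th X (T × U) J K → Finset K) ×
        (Option (Fin a) → K)) × U =>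
      ∃ j, .inl (.c (t, z.2) j) ∈
        (loc0 a F G f t0 t1 D q).asked (ansR z.1.1.1 (cellOf (t, z.2) c)) with hHR
  set GI := Finset.univ.filter fun z : (Orc (SVf f : Th X (T × U) J K → Finset K) ×
        (Option (Fin a) → K)) × U =>
      (¬ ∃ j, .inl (.c (t, z.2) j) ∈
        (loc0 a F G f t0 t1 D q).asked (ansI z.1.1.1 z.1.2)) ∧
        (loc0 a F G f t0 t1 D q).run (ansI z.1.1.1 z.1.2) = some true with hGI
  set GR := Finset.univ.filter fun z : (Orc (SVf f : Th X (T × U) J K → Finset K) ×
        (Option (Fin a) → K)) × U =>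
      (¬ ∃ j, .inl (.c (t, z.2) j) ∈
        (loc0 a F G f t0 t1 D q).asked (ansR z.1.1.1 (cellOf (t, z.2) c))) ∧
        (loc0 a F G f t0 t1 D q).run (ansR z.1.1.1 (cellOf (t, z.2) c)) = some true with hGR
  set BB := Finset.univ.filter fun z :
        (Orc (SVf f : Th X (T × U) J K → Finset K) × (Option (Fin a) → K)) × U =>
      Bad gK z.1.1.1 (((loc0 a F G f t0 t1 D q).asked
        (ansR z.1.1.1 (cellOf (t, z.2) c))).map (tch (t, z.2) c)) with hBB
  have cR : RT.card = realN a F f D t c * Fintype.card (Option (Fin a) → K) :=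
    H3_real a F f D t c
  have cI : IT.card = idealN a F G f t0 t1 D q * Fintype.card U :=
    H3_ideal a F G f t0 t1 D q
  have cB := H3_bad a F G f t0 t1 D q m hF hG' t c
  rw [← hBB] at cB
  have cH := hit_count a F G f t0 t1 D q m hF hG' t c
  rw [← hHI, ← hHR] at cH
  have cG : GI.card = GR.card := good_count a F G f t0 t1 D q t c
  -- outside of the events
  have key : ∀ z : (Orc (SVf f : Th X (T × U) J K → Finset K) ×
        (Option (Fin a) → K)) × U, z ∉ HR → z ∉ BB →
      (loc0 a F G f t0 t1 D q).run (ansR z.1.1.1 (cellOf (t, z.2) c)) =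
        some ((D (z.1.1.1 (.c (t, z.2) none))).run
        (qlab (wd a (fun s => F s.1) z.1.1.1) (rlab z.1.1.1 (t, z.2) c))) := by
    intro z h1 h2
    refine loc0_run hG D q hD z.1.1.1 (fO_orcF f z.1.1) (t, z.2) c ht ?_ ?_
    · intro j hj
      exact h1 (Finset.mem_filter.2 ⟨Finset.mem_univ _, j, hj⟩)
    · intro hb
      exact h2 (Finset.mem_filter.2 ⟨Finset.mem_univ _, hb⟩)
  have s1 : RT ⊆ GR ∪ (HR ∪ BB) := by
    intro z hz
    by_cases h1 : z ∈ HR
    · exact Finset.mem_union_right _ (Finset.mem_union_left _ h1)
    by_cases h2 : z ∈ BB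
    · exact Finset.mem_union_right _ (Finset.mem_union_right _ h2)
    refine Finset.mem_union_left _ (Finset.mem_filter.2 ⟨Finset.mem_univ _, ?_, ?_⟩)
    · intro h
      exact h1 (Finset.mem_filter.2 ⟨Finset.mem_univ _, h⟩)
    · rw [key z h1 h2, (Finset.mem_filter.1 hz).2]
  have s2 : GR ⊆ RT ∪ BB := by
    intro z hz
    by_cases h2 : z ∈ BB
    · exact Finset.mem_union_right _ h2
    have hz' := (Finset.mem_filter.1 hz).2
    have h1 : z ∉ HR := fun h => hz'.1 (Finset.mem_filter.1 h).2
    refine Finset.mem_union_left _ (Finset.mem_filter.2 ⟨Finset.mem_univ _, ?_⟩)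
    have := hz'.2
    rw [key z h1 h2] at this
    exact Option.some.inj this
  have s3 : GI ⊆ IT := by
    intro z hz
    exact Finset.mem_filter.2 ⟨Finset.mem_univ _, (Finset.mem_filter.1 hz).2.2⟩
  have s4 : IT ⊆ GI ∪ HI := by
    intro z hz
    by_cases h1 : z ∈ HI
    · exact Finset.mem_union_right _ h1
    refine Finset.mem_union_left _ (Finset.mem_filter.2 ⟨Finset.mem_univ _, ?_,
      (Finset.mem_filter.1 hz).2⟩)
    intro h
    exact h1 (Finset.mem_filter.2 ⟨Finset.mem_univ _, h⟩)
  have n1 := (Finset.card_le_card s1).trans ((Finset.card_union_le _ _).trans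
    (Nat.add_le_add_left (Finset.card_union_le _ _) _))
  have n2 := (Finset.card_le_card s2).trans (Finset.card_union_le _ _)
  have n3 := Finset.card_le_card s3
  have n4 := (Finset.card_le_card s4).trans (Finset.card_union_le _ _)
  have hcard : Fintype.card (Orc (SVf f : Th X (T × U) J K → Finset K) ×
        (Option (Fin a) → K)) = Fintype.card (Orc (SVf f : Th X (T × U) J K → Finset K)) *
        Fintype.card (Option (Fin a) → K) := Fintype.card_prod _ _
  rw [hcard] at cH
  have m1 : RT.card ≤ IT.card + max HI.card HR.card + BB.card := by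
    have := le_max_right HI.card HR.card
    omega
  have m2 : IT.card ≤ RT.card + max HI.card HR.card + BB.card := by
    have := le_max_left HI.card HR.card
    omega
  have m3 : max HI.card HR.card ≤ (q + 2) * (a + m + 4) *
      (Fintype.card (Orc (SVf f : Th X (T × U) J K → Finset K)) *
        Fintype.card (Option (Fin a) → K)) := max_le cH.1 cH.2
  rw [cR, cI] at m1 m2
  have hKpos : (0 : ℝ) < Fintype.card K := by exact_mod_cast Fintype.card_pos
  refine H3_arith _ _ ((max HI.card HR.card : ℕ) : ℝ) (BB.card : ℝ) _ _ _ _ _ _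
    (Nat.cast_nonneg _) hKpos ?_ ?_ (by exact_mod_cast m1) (by exact_mod_cast m2)
    (by exact_mod_cast m3) (by exact_mod_cast cB)
  · intro hu
    have hu' : Fintype.card U = 0 := by exact_mod_cast hu
    have hE : IsEmpty U := Fintype.card_eq_zero_iff.1 hu'
    have h0 : realN a F f D t c = 0 := by
      unfold realN
      rw [Finset.card_eq_zero]
      ext ⟨O, r⟩
      exact hE.elim r
    rw [h0]
    simp
  · intro hu
    rw [hu, mul_zero]

private theorem H4_prob (t : T) (c : Bool) :
    prob (fun p : (T × U → Option J → K) × U =>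
        (D (p.1 (t, p.2) none)).run (qlab (orc a (fun s => F s.1) f p.1)
          fun z => p.1 (t, p.2) (some (ix c z))) = true) =
      (realN a F f D t c : ℝ) /
        ((Fintype.card (Orc (SVf f : Th X (T × U) J K → Finset K)) : ℝ) * Fintype.card U) := by
  have e : Orc (SVf f : Th X (T × U) J K → Finset K) × U ≃
      (T × U → Option J → K) × U := Equiv.prodCongr (orcF f) (Equiv.refl U)
  have h1 : Nat.card {p : (T × U → Option J → K) × U //
      (D (p.1 (t, p.2) none)).run (qlab (orc a (fun s => F s.1) f p.1)
          fun z => p.1 (t, p.2) (some (ix c z))) = true} = realN a F f D t c := by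
    unfold realN
    rw [← Fintype.card_subtype, ← Nat.card_eq_fintype_card]
    refine (Nat.card_congr (Equiv.subtypeEquiv
      (Equiv.prodCongr (orcF f) (Equiv.refl U)) fun z => ?_)).symm
    have h2 : wd a (fun s : T × U => F s.1) z.1.1 =
        orc a (fun s : T × U => F s.1) f (orcF f z.1) := by
      unfold wd
      rw [fO_orcF]
      rfl
    rw [h2]
    rfl
  have h3 : (Nat.card ((T × U → Option J → K) × U) : ℝ) =
      (Fintype.card (Orc (SVf f : Th X (T × U) J K → Finset K)) : ℝ) * Fintype.card U := by
    rw [← Nat.card_congr e, Nat.card_prod, Nat.card_eq_fintype_card, Nat.card_eq_fintype_card,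
      Nat.cast_mul]
  unfold prob
  rw [h1, h3]

private theorem H4_real (a b c N M E : ℝ) (hN : 0 < N) (hM : 0 < M)
    (h0 : |a * M - c| ≤ E * (N * M)) (h1 : |b * M - c| ≤ E * (N * M)) :
    |a / N - b / N| ≤ 2 * E := by
  have h2 : |a - b| * M ≤ 2 * E * N * M := by
    have h3 : (a - b) * M = (a * M - c) - (b * M - c) := by ring
    rw [← abs_of_pos hM, ← abs_mul, abs_of_pos hM, h3]
    have h4 := abs_sub (a * M - c) (b * M - c)
    linarith
  have h5 : |a - b| ≤ 2 * E * N := le_of_mul_le_mul_right h2 hM
  rw [← sub_div, abs_div, abs_of_pos hN, div_le_iff₀ hN]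
  exact h5

/-- Row H4: both keys are compared with the ideal experiment; then `orcF`. -/
theorem hide_fe (m : ℕ) (hF : ∀ f t js, ((F t js).asked f).length ≤ m)
    (hG' : ∀ f v i, ((G v i).asked f).length ≤ m)
    (hG : ∀ f t js js' (i : List ℕ), js.length ≤ a →
      js'.map some = i.map (fun x => js[x]?) → (G ((F t js).run f) i).run f = (F t js').run f)
    (hD : ∀ η (O : Qry X (T × U) J K → Ans J K V) (lab : J × J → K),
      ((D η).asked (qlab O lab)).length ≤ q ∧
        Fair a F f t0 t1 (zqs ((D η).asked (qlab O lab)))) :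
    |prob (fun p : (T × U → Option J → K) × U =>
        (D (p.1 (t0, p.2) none)).run (qlab (orc a (fun s => F s.1) f p.1)
          fun z => p.1 (t0, p.2) (some z.1)) = true) -
      prob (fun p : (T × U → Option J → K) × U =>
        (D (p.1 (t1, p.2) none)).run (qlab (orc a (fun s => F s.1) f p.1)
          fun z => p.1 (t1, p.2) (some z.2)) = true)| ≤
      2 * (((q : ℝ) + 2) * (a + m + 4)) / Fintype.card U +
      2 * (((q : ℝ) + 2) * (a + m + 4)) *
        (Fintype.card T * Fintype.card U * (Fintype.card J + 1)) / Fintype.card K := by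
  have hM : (0 : ℝ) < Fintype.card (Option (Fin a) → K) := Nat.cast_pos.2 Fintype.card_pos
  have hO : (0 : ℝ) < Fintype.card (Orc (SVf f : Th X (T × U) J K → Finset K)) := by
    have hne : Nonempty (Orc (SVf f : Th X (T × U) J K → Finset K)) :=
      ⟨(orcF f).symm fun _ _ => k0⟩
    exact Nat.cast_pos.2 Fintype.card_pos
  have h0 := dist_one a F G f t0 t1 D q m hF hG' hG hD false
  have h1 := dist_one a F G f t0 t1 D q m hF hG' hG hD true
  have p0 := H4_prob a F f D t0 false
  have p1 := H4_prob a F f D t1 true
  simp only [ix] at p0 p1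
  rw [p0, p1]
  rw [if_neg Bool.false_ne_true] at h0
  rw [if_pos rfl] at h1
  rcases (Fintype.card U).eq_zero_or_pos with hU | hU
  · rw [hU]
    simp only [Nat.cast_zero, mul_zero, zero_mul, div_zero, sub_zero, abs_zero, zero_div, add_zero]
    exact le_refl 0
  · have hU' : (0 : ℝ) < Fintype.card U := Nat.cast_pos.2 hU
    have h2 := H4_real _ _ _ _ _ _ (mul_pos hO hU') hM h0 h1
    refine h2.trans (le_of_eq ?_)
    rw [Fintype.card_prod, Nat.cast_mul]
    ring

end

end Pool.Agent.Fe
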