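import Pool.Agent.Lib.MP_ae38e0_lc.Fe.OTN

import Pool.Agent.Lib.MP_ae38e0_lc.Fe.OneW

import Pool.Agent.Lib.MP_ae38e0_lc.Fe.Hide

set_option autoImplicit false

/-!
# The barrier, for functions `F` and `G` which are cheap for all lists
-/

namespace Pool.Agent.Fe

open Pool.Agent.LinOT Classical

theorem barrier (T J K V M : Type) [Fintype T] [Nonempty T] [Fintype J] [Fintype K] [Nonempty K]
    (k a m N n h : ℕ) (F : T → List J → Comp (Fin (2 ^ k)) K V)
    (G : V → List ℕ → Comp (Fin (2 ^ k)) K V)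
    (R : Party (Qry (Fin (2 ^ k)) (T × Fin (2 ^ k)) J K) (Ans J K V) M Bool)
    (D : Party (Qry (Fin (2 ^ k)) (T × Fin (2 ^ k)) J K) (Ans J K V) M (Bool × Bool))
    [Fintype R.Tape] [Fintype D.Tape] [Nonempty R.Tape] [Nonempty D.Tape]
    (out : R.St → Option Bool) (m0 : M)
    (hF : ∀ f t js, ((F t js).asked f).length ≤ m) (hG : ∀ f v i, ((G v i).asked f).length ≤ m)
    (mono : ∀ f t js js' (i : List ℕ), js.length ≤ a →
      js'.map some = i.map (fun x => js[x]?) → (G ((F t js).run f) i).run f = (F t js').run f)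
    (hn : 0 < n) (hh : 0 < h) (hna : n ≤ a) (hR : limited a (fun s => F s.1) R false N n)
    (hD : ∀ b, limited a (fun s => F s.1) D b N n) (δ : ℝ) (b1 : Bool)
    (hδ : ∀ b0, err a (fun s => F s.1) R D out N m0 false b0 b1 ≤ δ) (B : ℕ)
    (hB : B = 55296 * (n * (a + 3 * m + 4)) ^ 5 * h ^ 3) (C : ℝ)
    (hC : C = 2 ^ k * Fintype.card T * (Fintype.card J + 1) / Fintype.card K) :
    ∃ E : List (M × M) → Comp (Qry (Fin (2 ^ k)) (T × Fin (2 ^ k)) J K) (Ans J K V) Bool,
      (∀ t O, ((E t).asked O).length ≤ B) ∧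
      1 - 2 * δ - 6 / h - (B : ℝ) ^ 4 * C ≤ advSum a (fun s => F s.1) R D N m0 E b1 ∧
      ∀ (q : ℕ) (I : ℝ), I = (B * q + 2) * (a + m + 4) →
        (∀ Iv : K → Comp (Qry (Fin (2 ^ k)) (T × Fin (2 ^ k)) J K ⊕ List (M × M))
            (Ans J K V ⊕ Bool) (Fin (2 ^ k)),
          (∀ y O, ((Iv y).asked (withAdv O E)).length ≤ q) →
          prob (fun p : World (Fin (2 ^ k)) (T × Fin (2 ^ k)) J K × Fin (2 ^ k) =>
            p.1.1 ((Iv (p.1.1 p.2)).run (withAdv (ora a (fun s => F s.1) p.1) E)) = p.1.1 p.2) ≤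
            I / 2 ^ k + I * C + 2 ^ k / Fintype.card K) ∧
        (∀ (f : Fin (2 ^ k) → K) (t0 t1 : T) (D' : K →
            Comp (Qry (Fin (2 ^ k)) (T × Fin (2 ^ k)) J K ⊕ List (M × M) ⊕ J × J)
              (Ans J K V ⊕ Bool ⊕ K) Bool),
          (∀ η (O : Qry (Fin (2 ^ k)) (T × Fin (2 ^ k)) J K → Ans J K V) (lab : J × J → K),
            ((D' η).asked (withLab O E lab)).length ≤ q ∧
            Fair a F f t0 t1 (lqs ((D' η).asked (withLab O E lab)))) →
          |prob (fun p : (T × Fin (2 ^ k) → Option J → K) × Fin (2 ^ k) =>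
              (D' (p.1 (t0, p.2) none)).run (withLab (ora a (fun s => F s.1) (f, p.1)) E
                fun z => p.1 (t0, p.2) (some z.1)) = true) -
            prob (fun p : (T × Fin (2 ^ k) → Option J → K) × Fin (2 ^ k) =>
              (D' (p.1 (t1, p.2) none)).run (withLab (ora a (fun s => F s.1) (f, p.1)) E
                fun z => p.1 (t1, p.2) (some z.2)) = true)| ≤
            2 * I / 2 ^ k + 2 * I * C) := by
  have hX : Nonempty (Fin (2 ^ k)) := ⟨⟨0, by positivity⟩⟩
  have hnn : nn a n m = n * (a + 3 * m + 4) := rfl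
  have hB' : 55296 * nn a n m ^ 5 * h ^ 3 = B := by rw [hnn, hB]
  have hnn0 : 0 < nn a n m := by rw [hnn]; positivity
  have hB1 : 1 ≤ B := by rw [← hB']; exact Nat.succ_le_of_lt (by positivity)
  have hcX : (Fintype.card (Fin (2 ^ k)) : ℝ) = 2 ^ k := by rw [Fintype.card_fin]; push_cast; rfl
  have hcS : (Fintype.card (T × Fin (2 ^ k)) : ℝ) = 2 ^ k * Fintype.card T := by
    rw [Fintype.card_prod, Nat.cast_mul, hcX]; ring
  have hK0 : (0 : ℝ) < Fintype.card K := by exact_mod_cast Fintype.card_pos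
  obtain ⟨E, hE1, hE2⟩ := ot_fe (X := Fin (2 ^ k)) (S := T × Fin (2 ^ k)) (fun s => F s.1) G R D
    out m0 N a n m h hn hh hna (fun f s js => hF f s.1 js) hG
    (fun f s js js' i => mono f s.1 js js' i) hR hD δ b1 hδ
  have hE1' : ∀ t O, ((E t).asked O).length ≤ B := fun t O => by rw [← hB']; exact hE1 t O
  refine ⟨E, hE1', ?_, ?_⟩
  · have e1 : (55296 * (nn a n m : ℝ) ^ 5 * h ^ 3) = B := by rw [← hB']; push_cast; rfl
    rw [e1, hcS] at hE2
    refine le_trans (le_of_eq ?_) hE2
    rw [hC]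
    ring
  · intro q I hI
    have hq : ∀ x : ℕ, x ≤ q → B * x ≤ B * q := fun x hx => Nat.mul_le_mul_left B hx
    constructor
    · intro Iv hIv
      have h1 := oneway_fe (X := Fin (2 ^ k)) (S := T × Fin (2 ^ k)) a (fun s => F s.1) G m
        (fun f s js => hF f s.1 js) hG (fun f s js js' i => mono f s.1 js js' i)
        (fun y => sim E (Iv y)) (B * q)
        (fun y ρ => (asked_sim E ρ B hB1 (fun t => hE1' t ρ) (Iv y)).trans (hq _ (hIv y ρ)))
      simp only [run_sim] at h1
      rw [hcX, hcS] at h1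
      refine h1.trans ?_
      have hw : (0 : ℝ) ≤ (a : ℝ) + m + 4 := by positivity
      have hI2 : (((B * q : ℕ) : ℝ) + 1) * (a + m + 4) ≤ I := by
        rw [hI]
        push_cast
        nlinarith
      have hC0 : (0 : ℝ) ≤ 2 ^ k * Fintype.card T * (Fintype.card J + 1) := by positivity
      have e1 : I / 2 ^ k + I * C + 2 ^ k / Fintype.card K = I / 2 ^ k +
          (I * (2 ^ k * Fintype.card T * (Fintype.card J + 1)) + 2 ^ k) / Fintype.card K := by
        rw [hC]
        field_simp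
        ring
      rw [e1]
      have h2 : (((B * q : ℕ) : ℝ) + 1) * (a + m + 4) *
          (2 ^ k * Fintype.card T * (Fintype.card J + 1)) ≤
          I * (2 ^ k * Fintype.card T * (Fintype.card J + 1)) :=
        mul_le_mul_of_nonneg_right hI2 hC0
      exact add_le_add (div_le_div_of_nonneg_right hI2 (by positivity))
        (div_le_div_of_nonneg_right (by linarith) hK0.le)
    · intro f t0 t1 D' hD'
      have h1 := hide_fe (X := Fin (2 ^ k)) (U := Fin (2 ^ k)) a F G f t0 t1
        (fun η => siml E (D' η)) (B * q) m hF hG mono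
        (fun η ρ lab => ⟨(asked_siml E ρ lab B hB1 (fun t => hE1' t ρ) (D' η)).trans
          (hq _ (hD' η ρ lab).1), by rw [zqs_siml]; exact (hD' η ρ lab).2⟩)
      simp only [run_siml] at h1
      rw [hcX] at h1
      refine h1.trans (le_of_eq ?_)
      rw [hI, hC]
      push_cast
      field_simp

end Pool.Agent.Fe
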