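import Pool.Agent.Lib.MP_ae38e0_lc.Fe.Game

set_option autoImplicit false

/-!
# Computations with a label oracle (row H0)
-/

namespace Pool.Agent.Fe

open Pool.Agent.LinOT Classical

variable {Q R T Z K α : Type}

/-- The oracles of the game: `O`, the adversary `E` (which itself uses `O`), and a further oracle
`lab`. -/
def withLab (O : Q → R) (E : T → Comp Q R Bool) (lab : Z → K) : Q ⊕ T ⊕ Z → R ⊕ Bool ⊕ K :=
  Sum.elim (fun q => .inl (O q))
    (Sum.elim (fun t => .inr (.inl ((E t).run O))) fun z => .inr (.inr (lab z)))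

/-- The queries to the last oracle. -/
def lqs (l : List (Q ⊕ T ⊕ Z)) : List Z :=
  l.filterMap (Sum.elim (fun _ => none) (Sum.elim (fun _ => none) some))

/-- The same without the adversary. -/
def qlab (O : Q → R) (lab : Z → K) : Q ⊕ Z → R ⊕ K :=
  Sum.elim (fun q => .inl (O q)) fun z => .inr (lab z)

def zqs (l : List (Q ⊕ Z)) : List Z := l.filterMap (Sum.elim (fun _ => none) some)

def upl : R ⊕ K → R ⊕ Bool ⊕ K := Sum.elim .inl fun k => .inr (.inr k)

/-- A computation without queries to the last oracle; wrong answers are not expected. -/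
def liftQ (d : α) : Comp Q R α → Comp (Q ⊕ Z) (R ⊕ K) α
  | .ret x => .ret x
  | .ask q next => .ask (.inl q) fun r => match r with
    | .inl x => liftQ d (next x)
    | .inr _ => .ret d

/-- A computation which calls the adversary, as a computation with the other oracles alone. -/
def siml (E : T → Comp Q R Bool) : Comp (Q ⊕ T ⊕ Z) (R ⊕ Bool ⊕ K) α → Comp (Q ⊕ Z) (R ⊕ K) α
  | .ret x => .ret x
  | .ask (.inl q) next => .ask (.inl q) fun r => siml E (next (upl r))
  | .ask (.inr (.inl t)) next => (liftQ false (E t)).bind fun b => siml E (next (.inr (.inl b)))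
  | .ask (.inr (.inr z)) next => .ask (.inr z) fun r => siml E (next (upl r))

/-- The computation up to the next query to the last oracle. -/
def seg : Comp (Q ⊕ Z) (R ⊕ K) α → Comp Q R (α ⊕ Z × (K → Comp (Q ⊕ Z) (R ⊕ K) α))
  | .ret x => .ret (.inl x)
  | .ask (.inl q) next => .ask q fun r => seg (next (.inl r))
  | .ask (.inr z) next => .ret (.inr (z, fun π => next (.inr π)))

/-! ## Row H0 -/

private theorem H0_run_liftQ (O : Q → R) (lab : Z → K) (d : α) (c : Comp Q R α) :
    (liftQ d c : Comp (Q ⊕ Z) (R ⊕ K) α).run (qlab O lab) = c.run O := by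
  induction c with
  | ret x => rfl
  | ask q next ih =>
    rw [liftQ]
    exact ih (O q)

private theorem H0_asked_liftQ (O : Q → R) (lab : Z → K) (d : α) (c : Comp Q R α) :
    (liftQ d c : Comp (Q ⊕ Z) (R ⊕ K) α).asked (qlab O lab) = (c.asked O).map .inl := by
  induction c with
  | ret x => rfl
  | ask q next ih =>
    rw [liftQ]
    exact congrArg (fun l => Sum.inl q :: l) (ih (O q))

private theorem H0_zqs_append (l l' : List (Q ⊕ Z)) : zqs (l ++ l') = zqs l ++ zqs l' := by
  rw [zqs, zqs, zqs, List.filterMap_append]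

private theorem H0_zqs_inl (l : List Q) : zqs (l.map .inl : List (Q ⊕ Z)) = [] := by
  induction l with
  | nil => rfl
  | cons q l ih => exact ih

theorem run_siml (E : T → Comp Q R Bool) (O : Q → R) (lab : Z → K)
    (c : Comp (Q ⊕ T ⊕ Z) (R ⊕ Bool ⊕ K) α) :
    (siml E c).run (qlab O lab) = c.run (withLab O E lab) := by
  induction c with
  | ret x => rfl
  | ask q next ih =>
    rcases q with q | t | z
    · exact ih (.inl (O q))
    · have h : (siml E (.ask (.inr (.inl t)) next) : Comp (Q ⊕ Z) (R ⊕ K) α) =
          (liftQ false (E t)).bind fun b => siml E (next (.inr (.inl b))) := rfl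
      rw [h, Comp.run_bind, H0_run_liftQ]
      exact ih (.inr (.inl ((E t).run O)))
    · exact ih (.inr (.inr (lab z)))

theorem asked_siml (E : T → Comp Q R Bool) (O : Q → R) (lab : Z → K) (B : ℕ) (hB : 1 ≤ B)
    (hE : ∀ t, ((E t).asked O).length ≤ B) (c : Comp (Q ⊕ T ⊕ Z) (R ⊕ Bool ⊕ K) α) :
    ((siml E c).asked (qlab O lab)).length ≤ B * (c.asked (withLab O E lab)).length := by
  induction c with
  | ret x => exact Nat.zero_le _
  | ask q next ih =>
    rcases q with q | t | z
    · have h1 : ((siml E (.ask (.inl q) next) : Comp (Q ⊕ Z) (R ⊕ K) α).asked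
          (qlab O lab)).length = ((siml E (next (.inl (O q)))).asked (qlab O lab)).length + 1 := rfl
      have h2 : ((Comp.ask (.inl q) next : Comp (Q ⊕ T ⊕ Z) (R ⊕ Bool ⊕ K) α).asked
          (withLab O E lab)).length =
          ((next (.inl (O q))).asked (withLab O E lab)).length + 1 := rfl
      rw [h1, h2, Nat.mul_add, Nat.mul_one]
      exact Nat.add_le_add (ih _) hB
    · have h : (siml E (.ask (.inr (.inl t)) next) : Comp (Q ⊕ Z) (R ⊕ K) α) =
          (liftQ false (E t)).bind fun b => siml E (next (.inr (.inl b))) := rfl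
      have h2 : ((Comp.ask (.inr (.inl t)) next : Comp (Q ⊕ T ⊕ Z) (R ⊕ Bool ⊕ K) α).asked
          (withLab O E lab)).length =
          ((next (.inr (.inl ((E t).run O)))).asked (withLab O E lab)).length + 1 := rfl
      rw [h, h2, Comp.asked_bind, H0_run_liftQ, H0_asked_liftQ, List.length_append,
        List.length_map, Nat.mul_add, Nat.mul_one, Nat.add_comm]
      exact Nat.add_le_add (ih _) (hE t)
    · have h1 : ((siml E (.ask (.inr (.inr z)) next) : Comp (Q ⊕ Z) (R ⊕ K) α).asked
          (qlab O lab)).length =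
          ((siml E (next (.inr (.inr (lab z))))).asked (qlab O lab)).length + 1 := rfl
      have h2 : ((Comp.ask (.inr (.inr z)) next : Comp (Q ⊕ T ⊕ Z) (R ⊕ Bool ⊕ K) α).asked
          (withLab O E lab)).length =
          ((next (.inr (.inr (lab z)))).asked (withLab O E lab)).length + 1 := rfl
      rw [h1, h2, Nat.mul_add, Nat.mul_one]
      exact Nat.add_le_add (ih _) hB

theorem zqs_siml (E : T → Comp Q R Bool) (O : Q → R) (lab : Z → K)
    (c : Comp (Q ⊕ T ⊕ Z) (R ⊕ Bool ⊕ K) α) :
    zqs ((siml E c).asked (qlab O lab)) = lqs (c.asked (withLab O E lab)) := by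
  induction c with
  | ret x => rfl
  | ask q next ih =>
    rcases q with q | t | z
    · exact ih (.inl (O q))
    · have h : (siml E (.ask (.inr (.inl t)) next) : Comp (Q ⊕ Z) (R ⊕ K) α) =
          (liftQ false (E t)).bind fun b => siml E (next (.inr (.inl b))) := rfl
      rw [h, Comp.asked_bind, H0_run_liftQ, H0_asked_liftQ, H0_zqs_append, H0_zqs_inl,
        List.nil_append]
      exact ih (.inr (.inl ((E t).run O)))
    · exact congrArg (fun l => z :: l) (ih (.inr (.inr (lab z))))

/-- The execution is the execution up to the next query, and then the rest. -/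
theorem seg_run (O : Q → R) (lab : Z → K) (D : Comp (Q ⊕ Z) (R ⊕ K) α) :
    (∀ x, (seg D).run O = .inl x → D.run (qlab O lab) = x ∧
      (D.asked (qlab O lab)).length = ((seg D).asked O).length ∧
      zqs (D.asked (qlab O lab)) = []) ∧
    ∀ z nx, (seg D).run O = .inr (z, nx) →
      D.run (qlab O lab) = (nx (lab z)).run (qlab O lab) ∧
      (D.asked (qlab O lab)).length =
        ((seg D).asked O).length + 1 + ((nx (lab z)).asked (qlab O lab)).length ∧
      zqs (D.asked (qlab O lab)) = z :: zqs ((nx (lab z)).asked (qlab O lab)) := by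
  induction D with
  | ret x =>
    refine ⟨?_, ?_⟩
    · intro y hy
      have h : x = y := Sum.inl.inj hy
      subst h
      exact ⟨rfl, rfl, rfl⟩
    · intro z nx h
      cases h
  | ask q next ih =>
    rcases q with q | z
    · obtain ⟨ih1, ih2⟩ := ih (.inl (O q))
      refine ⟨?_, ?_⟩
      · intro y hy
        obtain ⟨h1, h2, h3⟩ := ih1 y hy
        exact ⟨h1, congrArg (fun n => n + 1) h2, h3⟩
      · intro z nx h
        obtain ⟨h1, h2, h3⟩ := ih2 z nx h
        refine ⟨h1, ?_, h3⟩
        have e1 : ((Comp.ask (.inl q) next : Comp (Q ⊕ Z) (R ⊕ K) α).asked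
          (qlab O lab)).length = ((next (.inl (O q))).asked (qlab O lab)).length + 1 := rfl
        have e2 : ((seg (.ask (.inl q) next : Comp (Q ⊕ Z) (R ⊕ K) α)).asked O).length =
          ((seg (next (.inl (O q)))).asked O).length + 1 := rfl
        rw [e1, e2, h2]
        omega
    · refine ⟨?_, ?_⟩
      · intro y hy
        cases hy
      · intro z' nx h
        have h' : (z, fun π => next (.inr π)) = (z', nx) := Sum.inr.inj h
        obtain ⟨rfl, rfl⟩ := Prod.mk.inj h'
        refine ⟨rfl, ?_, rfl⟩
        have e1 : ((Comp.ask (.inr z) next : Comp (Q ⊕ Z) (R ⊕ K) α).asked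
          (qlab O lab)).length = ((next (.inr (lab z))).asked (qlab O lab)).length + 1 := rfl
        have e2 : ((seg (.ask (.inr z) next : Comp (Q ⊕ Z) (R ⊕ K) α)).asked O).length = 0 := rfl
        rw [e1, e2, Nat.zero_add, Nat.add_comm]

end Pool.Agent.Fe
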