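import Pool.Agent.Lib.MP_ae38e0_lc.Fe.Inv

set_option autoImplicit false

/-!
# Each cell of the list of the process is followed by its item (row N1)
-/

namespace Pool.Agent.Fe

open Pool.Agent.LinOT Pool.Agent.Nbb Classical

variable {X S J K V Mg StA StB RA RB : Type} [Finite X] [Finite S] [Finite J] [Fintype K]
  [Nonempty K] [Fintype RA] [Fintype RB]

variable {I I' : Type} (A : Party (Qry X S J K) (Ans J K V) Mg I)
  (B : Party (Qry X S J K) (Ans J K V) Mg I')

set_option linter.unusedSectionVars false

private theorem N1_cons {O : Th X S J K → K} {l : List (Th X S J K)}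
    {d : Th X S J K} (hd : ∀ s j, d ≠ .c s j) (h : Nice O l) : Nice O (d :: l) := by
  have h1 : Nice O [d] := nice_of_no fun s j hs => hd s j (List.mem_singleton.1 hs).symm
  exact nice_append h1 h

private theorem N1_cell {O : Th X S J K → K} {l : List (Th X S J K)} (s : S) (j : Option J)
    (h : Nice O l) : Nice O (.c s j :: itm O s j :: l) :=
  nice_append (nice_cell O s j) h

/-- all lists of the process are nice -/
private def N1_P (O : Th X S J K → K) (p : PT X S J K V Mg StA StB) : Prop :=
  ∀ a b, Nice O ((p.flat a b).asked O)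

/-- the invariant of the public state -/
private def N1_I (O : Th X S J K → K) (e : Env X S J K V StA StB RA RB) : Prop :=
  Kn e.kn O ∧ ∀ η s, e.T.tr η = some s → (.c s none, η) ∈ e.kn

private theorem N1_kna {O : Th X S J K → K} {e : Env X S J K V StA StB RA RB} (h : N1_I O e)
    (d : Th X S J K) : N1_I O (e.kna d (O d)) := by
  refine ⟨fun w hw => ?_, fun η s hs => ?_⟩
  · rcases List.mem_append.1 hw with h1 | h1
    · exact h.1 w h1
    · rw [List.mem_singleton.1 h1]
  · exact List.mem_append.2 (Or.inl (h.2 η s hs))

private theorem N1_upA {O : Th X S J K → K} {e : Env X S J K V StA StB RA RB} (h : N1_I O e)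
    (c : CS StA S J K → Comp (Th X S J K) K (CS StA S J K × Pb Mg J V)) (m : Pb Mg J V) :
    N1_I O (e.upA c m) := h

private theorem N1_upB {O : Th X S J K → K} {e : Env X S J K V StA StB RA RB} (h : N1_I O e)
    (c : CS StB S J K → Comp (Th X S J K) K (CS StB S J K × Pb Mg J V)) (m : Pb Mg J V) :
    N1_I O (e.upB c m) := h

private theorem N1_setOp {O : Th X S J K → K} {e : Env X S J K V StA StB RA RB} (h : N1_I O e)
    (s : S) (π : K) (j : J) : N1_I O (e.setOp s π j) := h

private theorem N1_setPr {O : Th X S J K → K} {e : Env X S J K V StA StB RA RB} (h : N1_I O e)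
    (η : K) (o : Bool) (P : List K) (r : Option V) : N1_I O (e.setPr η o P r) := h

private theorem N1_conf {O : Th X S J K → K} {e : Env X S J K V StA StB RA RB} (h : N1_I O e)
    (η : K) (o : Bool) (d : Th X S J K) : N1_I O (e.conf η o d) := h

private theorem N1_setTr {O : Th X S J K → K} {e : Env X S J K V StA StB RA RB} (h : N1_I O e)
    (η : K) (s : S) (hs : (.c s none, η) ∈ e.kn) : N1_I O (e.setTr η s) := by
  refine ⟨h.1, fun η' s' h' => ?_⟩
  have h1 : Function.update e.T.tr η (some s) η' = some s' := h'
  by_cases hη : η' = η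
  · subst hη
    rw [Function.update_self] at h1
    rw [Option.some.injEq] at h1
    subst h1
    exact hs
  · rw [Function.update_of_ne hη] at h1
    exact h.2 η' s' h1

private theorem N1_stop (O : Th X S J K → K) (k : ℕ) :
    N1_P O (.stop k : PT X S J K V Mg StA StB) := fun _ _ => nice_nil O

private theorem N1_learn {O : Th X S J K → K} {q : Th X S J K}
    (hq : ∀ s j, q ≠ .c s j) (o : Comp (Qry X S J K) (Ans J K V) K)
    {next : K → PT X S J K V Mg StA StB} (h : N1_P O (next (O q))) :
    N1_P O (.learn q o next) := by
  intro a b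
  exact N1_cons hq (h a b)

private theorem N1_learn2 {O : Th X S J K → K} (s : S) (j : Option J)
    (o : Comp (Qry X S J K) (Ans J K V) K) (o' : K → Comp (Qry X S J K) (Ans J K V) K)
    {it : K → Th X S J K} {next : K → K → PT X S J K V Mg StA StB}
    (hit : it (O (.c s j)) = itm O s j) (h : N1_P O (next (O (.c s j)) (O (it (O (.c s j)))))) :
    N1_P O (.learn (.c s j) o fun v => .learn (it v) (o' v) fun u => next v u) := by
  intro a b
  show Nice O (.c s j :: it (O (.c s j)) ::
    ((next (O (.c s j)) (O (it (O (.c s j))))).flat a b).asked O)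
  have h1 := N1_cell s j (h a b)
  rw [← hit] at h1
  exact h1

private theorem N1_mA {O : Th X S J K → K}
    (o : (Mg → Pb Mg J V) ⊕ Comp (Qry X S J K) (Ans J K V) (Pb Mg J V))
    {c : CS StA S J K → Comp (Th X S J K) K (CS StA S J K × Pb Mg J V)}
    {next : Pb Mg J V → PT X S J K V Mg StA StB} (hc : ∀ a, Nice O ((c a).asked O))
    (h : ∀ m, N1_P O (next m)) : N1_P O (.mA o c next) := by
  intro a b
  show Nice O (((c a).bind fun x => (next x.2).flat x.1 b).asked O)
  rw [Comp.asked_bind]
  exact nice_append (hc a) (h _ _ _)

private theorem N1_mB {O : Th X S J K → K}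
    (o : (Mg → Pb Mg J V) ⊕ Comp (Qry X S J K) (Ans J K V) (Pb Mg J V))
    {c : CS StB S J K → Comp (Th X S J K) K (CS StB S J K × Pb Mg J V)}
    {next : Pb Mg J V → PT X S J K V Mg StA StB} (hc : ∀ a, Nice O ((c a).asked O))
    (h : ∀ m, N1_P O (next m)) : N1_P O (.mB o c next) := by
  intro a b
  show Nice O (((c b).bind fun x => (next x.2).flat a x.1).asked O)
  rw [Comp.asked_bind]
  exact nice_append (hc b) (h _ _ _)

private theorem N1_leak {St : Type} (O : Th X S J K → K)
    (F : S → List J → Comp X K V) (η : K) (P : List K) (c : CS St S J K) :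
    Nice O ((leakC (Mg := Mg) F η P c).asked O) := by
  unfold leakC
  split
  · split
    · rw [Comp.asked_bind, asked_lift]
      refine nice_append (nice_of_no fun s j hs => ?_) (nice_nil O)
      obtain ⟨x, _, hx⟩ := List.mem_map.1 hs
      exact absurd hx (by simp)
    · exact nice_nil O
  · exact nice_nil O

private theorem N1_step {I : Type} (O : Th X S J K → K) (a : ℕ)
    (F : S → List J → Comp X K V) (G : V → List ℕ → Comp X K V)
    (P : Party (Qry X S J K) (Ans J K V) Mg I) (m0 : Mg) (T : Tb S J K V) (μ : Mg)
    (c : CS P.St S J K) : Nice O ((stepC a F G P m0 T μ c).asked O) := by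
  unfold stepC
  rw [Comp.asked_bind]
  refine nice_append (nice_cmp a F G T O _ _ _) ?_
  split
  · exact nice_nil O
  · exact nice_nil O

private theorem N1_xStep {O : Th X S J K → K} {e : Env X S J K V StA StB RA RB} (hI : N1_I O e)
    (x : X) {cont : Env X S J K V StA StB RA RB → PT X S J K V Mg StA StB}
    (h : ∀ e, N1_I O e → N1_P O (cont e)) : N1_P O (xStep e x cont) := by
  unfold xStep
  exact N1_learn (fun s j h => by simp at h) _ (h _ (N1_kna hI _))

private theorem N1_lcell {O : Th X S J K → K} (s : S) (j : J) (η : K) (hη : O (.c s none) = η)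
    (o : Comp (Qry X S J K) (Ans J K V) K) {e : Env X S J K V StA StB RA RB} (hI : N1_I O e)
    {cont : Env X S J K V StA StB RA RB → PT X S J K V Mg StA StB}
    (h : ∀ e, N1_I O e → N1_P O (cont e)) : N1_P O (lcell s j η o e cont) := by
  unfold lcell
  refine N1_learn2 (it := fun v => .l η v) s (some j) o (fun _ => .ret k0) ?_ ?_
  · subst hη
    rfl
  · exact h _ (N1_setOp (N1_kna (N1_kna hI _) _) _ _ _)

private theorem N1_openL {O : Th X S J K → K} (o : Bool) (s : S) (η : K)
    (hη : O (.c s none) = η) (l : List K) :
    ∀ {e : Env X S J K V StA StB RA RB} (_ : N1_I O e)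
      {cont : Env X S J K V StA StB RA RB → PT X S J K V Mg StA StB}
      (_ : ∀ e, N1_I O e → N1_P O (cont e)), N1_P O (openL o s η l e cont) := by
  induction l with
  | nil =>
    intro e hI cont h
    exact h e hI
  | cons π l ih =>
    intro e hI cont h
    unfold openL
    split
    · refine N1_mA _ (fun a => nice_nil O) (fun m => ?_)
      split
      · exact N1_lcell s _ η hη _ (N1_upA hI _ _) fun e' he' => ih he' h
      · exact ih (N1_upA hI _ _) h
      · exact N1_stop O 4
    · refine N1_mB _ (fun a => nice_nil O) (fun m => ?_)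
      split
      · exact N1_lcell s _ η hη _ (N1_upB hI _ _) fun e' he' => ih he' h
      · exact ih (N1_upB hI _ _) h
      · exact N1_stop O 4

private theorem N1_keyStep {O : Th X S J K → K} {e : Env X S J K V StA StB RA RB}
    (hI : N1_I O e) (s : S)
    {cont : Env X S J K V StA StB RA RB → PT X S J K V Mg StA StB}
    (h : ∀ e, N1_I O e → N1_P O (cont e)) : N1_P O (keyStep e s cont) := by
  have hI' : N1_I O (((e.kna (.c s none) (O (.c s none))).kna (.h (O (.c s none)))
      (O (.h (O (.c s none))))).setTr (O (.c s none)) s) := by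
    refine N1_setTr (N1_kna (N1_kna hI _) _) _ _ ?_
    exact List.mem_append.2 (Or.inl (List.mem_append.2 (Or.inr (List.mem_singleton.2 rfl))))
  unfold keyStep
  refine N1_learn2 (it := fun v => .h v) s none _ (fun _ => .ret k0) rfl ?_
  split
  · exact N1_openL _ s _ rfl _ hI' h
  · exact h _ hI'

private theorem N1_handle {O : Th X S J K → K} {e : Env X S J K V StA StB RA RB}
    (hI : N1_I O e) (η : K)
    {cont : Env X S J K V StA StB RA RB → PT X S J K V Mg StA StB}
    (h : ∀ e, N1_I O e → N1_P O (cont e)) : N1_P O (handleStep e η cont) := by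
  unfold handleStep
  refine N1_learn (fun s j h => by simp at h) _ ?_
  refine N1_mA _ (fun a => nice_nil O) (fun m1 => ?_)
  refine N1_mB _ (fun a => nice_nil O) (fun m2 => ?_)
  split
  · exact h _ (N1_kna hI _)
  · split
    · exact h _ (N1_kna hI _)
    · exact N1_stop O 3
  · split
    · exact N1_stop O 3
    · exact h _ (N1_kna hI _)
  · exact N1_stop O 3
  · exact N1_stop O 4

private theorem N1_openStep {O : Th X S J K → K} (d : Prop)
    {e : Env X S J K V StA StB RA RB} (hI : N1_I O e) (s : S) (η π : K)
    (hη : O (.c s none) = η)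
    {cont : Env X S J K V StA StB RA RB → PT X S J K V Mg StA StB}
    (h : ∀ e, N1_I O e → N1_P O (cont e)) : N1_P O (openStep d e s η π cont) := by
  unfold openStep
  refine N1_mA _ (fun a => nice_nil O) (fun m1 => ?_)
  refine N1_mB _ (fun a => nice_nil O) (fun m2 => ?_)
  split
  · exact h _ hI
  · split
    · exact N1_lcell s _ η hη _ (N1_upB (N1_upA hI _ _) _ _) h
    · exact N1_stop O 3
  · split
    · exact N1_stop O 3
    · exact N1_lcell s _ η hη _ (N1_upB (N1_upA hI _ _) _ _) h
  · exact N1_stop O 3
  · exact N1_stop O 4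

private theorem N1_label {O : Th X S J K → K} {e : Env X S J K V StA StB RA RB}
    (hI : N1_I O e) (η π : K)
    {cont : Env X S J K V StA StB RA RB → PT X S J K V Mg StA StB}
    (h : ∀ e, N1_I O e → N1_P O (cont e)) : N1_P O (labelStep e η π cont) := by
  unfold labelStep
  refine N1_learn (fun s j h => by simp at h) _ ?_
  split
  · rename_i s hs
    split
    · exact h _ (N1_kna hI _)
    · exact N1_openStep _ (N1_kna hI _) s η π (hI.1 _ (hI.2 η s hs)) h
  · refine N1_mA _ (fun a => nice_nil O) (fun m => ?_)
    split
    · exact h _ (N1_kna hI _)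
    · exact h _ (N1_kna hI _)
    · exact N1_stop O 4
  · refine N1_mB _ (fun a => nice_nil O) (fun m => ?_)
    split
    · exact h _ (N1_kna hI _)
    · exact h _ (N1_kna hI _)
    · exact N1_stop O 4
  · exact h _ (N1_kna hI _)

private theorem N1_leakStep {O : Th X S J K → K} (F : S → List J → Comp X K V)
    {e : Env X S J K V StA StB RA RB} (hI : N1_I O e) (η : K)
    {cont : Env X S J K V StA StB RA RB → PT X S J K V Mg StA StB}
    (h : ∀ e, N1_I O e → N1_P O (cont e)) : N1_P O (leakStep F e η cont) := by
  unfold leakStep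
  split
  · refine N1_mA _ (fun a => N1_leak O F η _ a) (fun m => ?_)
    split
    · exact h _ hI
    · exact N1_stop O 4
  · refine N1_mB _ (fun a => N1_leak O F η _ a) (fun m => ?_)
    split
    · exact h _ hI
    · exact N1_stop O 4
  · exact h _ hI

private theorem N1_body {O : Th X S J K → K} (F : S → List J → Comp X K V)
    (N L : ℕ) {e : Env X S J K V StA StB RA RB} (hI : N1_I O e)
    {cont : Env X S J K V StA StB RA RB → PT X S J K V Mg StA StB}
    {k : PT X S J K V Mg StA StB} (h : ∀ e, N1_I O e → N1_P O (cont e)) (hk : N1_P O k) :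
    N1_P O (body F N L e cont k) := by
  unfold body
  split
  · exact hk
  · split
    · exact N1_stop O 2
    · split
      · exact N1_xStep hI _ h
      · split
        · exact N1_keyStep hI _ h
        · split
          · rename_i hj
            exact N1_lcell _ _ _ (hI.1 _ hj.choose_spec.2) _ hI h
          · split
            · exact N1_stop O 4
            · split
              · exact N1_leakStep F hI _ h
              · split
                · exact N1_handle hI _ h
                · split
                  · exact N1_label hI _ _ h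
                  · exact N1_stop O 4

private theorem N1_close {O : Th X S J K → K} (F : S → List J → Comp X K V)
    (N L : ℕ) {k : ℕ → Env X S J K V StA StB RA RB → PT X S J K V Mg StA StB}
    (hk : ∀ j e, N1_I O e → N1_P O (k j e)) (j : ℕ) :
    ∀ e : Env X S J K V StA StB RA RB, N1_I O e → N1_P O (closeT F N L k j e) := by
  induction j with
  | zero =>
    intro e hI
    unfold closeT
    split
    · exact hk _ _ hI
    · exact N1_stop O 1
  | succ j ih =>
    intro e hI
    unfold closeT
    exact N1_body F N L hI ih (hk _ _ hI)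

private theorem N1_build (a : ℕ) (F : S → List J → Comp X K V) (G : V → List ℕ → Comp X K V)
    (m0 : Mg) (N L : ℕ) (O : Th X S J K → K) :
    ∀ (r : ℕ) (μ : Mg) (j : ℕ) (e : Env X S J K V A.St B.St RA RB), N1_I O e →
      N1_P O (build A B a F G m0 N L r μ j e) := by
  intro r
  induction r with
  | zero =>
    intro μ j e hI
    unfold build
    exact N1_close F N L (fun _ _ _ => N1_stop O 0) j e hI
  | succ r ih =>
    intro μ j e hI
    unfold build
    refine N1_close F N L (fun j e hI => ?_) j e hI
    refine N1_mA _ (fun x => N1_step O a F G A m0 e.T μ x) (fun m => ?_)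
    cases m with
    | msg x =>
      refine N1_close F N L (fun j e' hI' => ?_) j _ (N1_upA hI _ _)
      refine N1_mB _ (fun z => N1_step O a F G B m0 e'.T x z) (fun m' => ?_)
      cases m' with
      | msg y => exact ih y j _ (N1_upB hI' _ _)
      | bit _ => exact N1_stop O 4
      | lk _ => exact N1_stop O 4
      | ix _ => exact N1_stop O 4
    | bit _ => exact N1_stop O 4
    | lk _ => exact N1_stop O 4
    | ix _ => exact N1_stop O 4

/-- Row N1.  `hk`: the known values are those of `O`; `ht`: the keys of the table are known (so in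
`openL`, `openStep` and in the `lcell` of `body` the handle `η` is `O (.c s none)`).  Both are kept
along the list of the process.  For the steps of the parties: `nice_cmp`, and `nice_of_no` for
`leakC` (which asks only cells `.x x`). -/
theorem build_nice (a : ℕ) (F : S → List J → Comp X K V) (G : V → List ℕ → Comp X K V)
    (m0 : Mg) (N L : ℕ) (O : Th X S J K → K) :
    ∀ (r : ℕ) (μ : Mg) (j : ℕ) (e : Env X S J K V A.St B.St RA RB) (sA : CS A.St S J K)
      (sB : CS B.St S J K), Kn e.kn O → (∀ η s, e.T.tr η = some s → (.c s none, η) ∈ e.kn) →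
      Nice O (((build A B a F G m0 N L r μ j e).flat sA sB).asked O) := by
  intro r μ j e sA sB hk ht
  exact N1_build A B a F G m0 N L O r μ j e ⟨hk, ht⟩ sA sB

end Pool.Agent.Fe
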