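import Pool.Agent.Lib.MP_ae38e0_lc.Fe.Inv

import Pool.Agent.Lib.MP_ae38e0_lc.Nbb.Tri

import Pool.Agent.Lib.MP_ae38e0_lc.Nbb.Own

set_option autoImplicit false

/-!
# Wrong guesses of the owner (rows C1 - C3)
-/

namespace Pool.Agent.Fe

open Pool.Agent.LinOT Pool.Agent.Nbb Classical

variable {X S J K V Mg StA StB RA RB : Type} [Finite X] [Finite S] [Finite J] [Fintype K]
  [Nonempty K] [Fintype RA] [Fintype RB]

/-- `T3` for a state; the bad executions are those with `Bad`. -/
def T3E (FL : RA × RB × Orc (SV : Th X S J K → Finset K) → List (Th X S J K))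
    (N3 L j : ℕ) (p : PT X S J K V Mg StA StB) (e : Env X S J K V StA StB RA RB) : Prop :=
  T3 SV cel FL (fun w => Bad gK w.2.2.1 (FL w)) N3 L j p e.A e.B e.kn

variable {FL : RA × RB × Orc (SV : Th X S J K → Finset K) → List (Th X S J K)}
  {N N3 L a n m : ℕ} {e : Env X S J K V StA StB RA RB}

/-! ## Row C1 -/

theorem xStep_t3 (j : ℕ) (x : X)
    (cont : Env X S J K V StA StB RA RB → PT X S J K V Mg StA StB) (h : GI a n m e)
    (hc : ∀ e' : Env X S J K V StA StB RA RB, GI a n m e' → T3E FL N3 L j (cont e') e') :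
    T3E FL N3 L j (xStep e x cont) e := by
  refine t3_learn SV cel j _ _ _ _ _ _ (fun v _ => ?_)
  exact hc (e.kna (.x x) v) (gi_x h x v)

theorem lcell_t3 (j : ℕ) (s : S) (i : J) (η : K) (o : Comp (Qry X S J K) (Ans J K V) K)
    (cont : Env X S J K V StA StB RA RB → PT X S J K V Mg StA StB) (h : GI a n m e)
    (hc : ∀ e' : Env X S J K V StA StB RA RB, GI a n m e' → T3E FL N3 L j (cont e') e') :
    T3E FL N3 L j (lcell s i η o e cont) e := by
  refine t3_learn SV cel j _ _ _ _ _ _ (fun v _ => ?_)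
  refine t3_learn SV cel j _ _ _ _ _ _ (fun u _ => ?_)
  exact hc (((e.kna (.c s (some i)) v).kna (.l η v) u).setOp s v i) (gi_lc h s i η v u)

private theorem C1_openL (j : ℕ) (o : Bool) (s : S) (η : K)
    (cont : Env X S J K V StA StB RA RB → PT X S J K V Mg StA StB)
    (hc : ∀ e' : Env X S J K V StA StB RA RB, GI a n m e' → T3E FL N3 L j (cont e') e') :
    ∀ (l : List K) (e : Env X S J K V StA StB RA RB), GI a n m e →
      T3E FL N3 L j (openL o s η l e cont) e := by
  intro l
  induction l with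
  | nil =>
    intro e h
    exact hc e h
  | cons π l ih =>
    intro e h
    unfold openL
    cases o with
    | true =>
      rw [if_pos rfl]
      refine t3_mA SV cel j _ _ _ _ _ _ (fun b => ?_)
      have h2 : GI a n m (e.upA (tellC s π) b) := gi_silA h (fun c => .ix (lkL c.own s π)) b
      match b, h2 with
      | .ix (some i), h2 => exact lcell_t3 j s i η _ _ h2 (fun e' he' => ih e' he')
      | .ix none, h2 => exact ih _ h2
      | .msg x, _ => exact t3_stop SV cel j 4 (by decide) _ _ _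
      | .bit x, _ => exact t3_stop SV cel j 4 (by decide) _ _ _
      | .lk x, _ => exact t3_stop SV cel j 4 (by decide) _ _ _
    | false =>
      rw [if_neg Bool.false_ne_true]
      refine t3_mB SV cel j _ _ _ _ _ _ (fun b => ?_)
      have h2 : GI a n m (e.upB (tellC s π) b) := gi_silB h (fun c => .ix (lkL c.own s π)) b
      match b, h2 with
      | .ix (some i), h2 => exact lcell_t3 j s i η _ _ h2 (fun e' he' => ih e' he')
      | .ix none, h2 => exact ih _ h2
      | .msg x, _ => exact t3_stop SV cel j 4 (by decide) _ _ _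
      | .bit x, _ => exact t3_stop SV cel j 4 (by decide) _ _ _
      | .lk x, _ => exact t3_stop SV cel j 4 (by decide) _ _ _

theorem keyStep_t3 (j : ℕ) (s : S)
    (cont : Env X S J K V StA StB RA RB → PT X S J K V Mg StA StB) (h : GI a n m e)
    (hc : ∀ e' : Env X S J K V StA StB RA RB, GI a n m e' → T3E FL N3 L j (cont e') e') :
    T3E FL N3 L j (keyStep e s cont) e := by
  refine t3_learn SV cel j _ _ _ _ _ _ (fun η _ => ?_)
  refine t3_learn SV cel j _ _ _ _ _ _ (fun u _ => ?_)
  have h1 := gi_key h s η u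
  split
  · next o P r hT1 hT2 => exact C1_openL j o s η cont hc P _ h1
  · exact hc _ h1

theorem leakStep_t3 (F : S → List J → Comp X K V)
    (hF : ∀ f s js, ((F s js).asked f).length ≤ m) (j : ℕ) (η : K)
    (cont : Env X S J K V StA StB RA RB → PT X S J K V Mg StA StB) (h : GI a n m e)
    (hp : e.pend = some η)
    (hc : ∀ e' : Env X S J K V StA StB RA RB, GI a n m e' → T3E FL N3 L j (cont e') e') :
    T3E FL N3 L j (leakStep F e η cont) e := by
  unfold leakStep
  split
  · next P r0 hT =>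
    refine t3_mA SV cel j _ _ _ _ _ _ (fun b => ?_)
    match b with
    | .lk r => exact hc _ (gi_leakA F hF h η P r0 r (.lk r) hp hT)
    | .msg x => exact t3_stop SV cel j 4 (by decide) _ _ _
    | .bit x => exact t3_stop SV cel j 4 (by decide) _ _ _
    | .ix x => exact t3_stop SV cel j 4 (by decide) _ _ _
  · next P r0 hT =>
    refine t3_mB SV cel j _ _ _ _ _ _ (fun b => ?_)
    match b with
    | .lk r => exact hc _ (gi_leakB F hF h η P r0 r (.lk r) hp hT)
    | .msg x => exact t3_stop SV cel j 4 (by decide) _ _ _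
    | .bit x => exact t3_stop SV cel j 4 (by decide) _ _ _
    | .ix x => exact t3_stop SV cel j 4 (by decide) _ _ _
  · exact hc _ (gi_leak0 h)

/-! ## Row C2.  The wrong guesses at the handle `η`: `t3_core` with `β = Pb.bit`, `oA = ownH η`,
`wr b1 b2 = (b2 = true)` if `desH e η`, and `(b1 = true)` otherwise.  By `own_le` or `own_le'`
`N3 #{w in gr : wrong} <= 2 gr + 2 N3^2 #{w in gr : both}`, and `both` implies `Bad`: own keys `s`,
`s'` with handle `η`; they are equal by `uniq_h`, so the cell is common, so known, and then `.h η` is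
known (`kh`). -/

private theorem C2_card {α : Type} (s : Finset α) (p : α → Prop) (d1 d2 : DecidablePred p) :
    (@Finset.filter α p d1 s).card = (@Finset.filter α p d2 s).card := by
  rw [Subsingleton.elim d1 d2]

omit [Finite X] [Finite S] [Finite J] in
private theorem C2_hcel (q : Th X S J K) (hq : ¬ cel q) : (SV q).card ≤ 1 := by
  cases q with
  | x _ => exact absurd trivial hq
  | c _ _ => exact absurd trivial hq
  | h _ => exact (Finset.card_singleton _).le
  | l _ _ => exact (Finset.card_singleton _).le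

/-- In a good execution in which both parties own `η` the handle was guessed. -/
private theorem C2_both (h : GI a n m e) (η : K) (hη : .h η ∉ e.kn.map Prod.fst)
    (w : RA × RB × Orc (SV : Th X S J K → Finset K))
    (hw : w ∈ gr SV cel e.A e.B e.kn) (hn : Nice w.2.2.1 (FL w))
    (hA : ownH η (e.A.s w.1 w.2.2.1) = true) (hB : ownH η (e.B.s w.2.1 w.2.2.1) = true)
    (hXf : ∀ d ∈ e.A.q w.1 w.2.2.1, d ∈ FL w) (hYf : ∀ d ∈ e.B.q w.2.1 w.2.2.1, d ∈ FL w) :
    Bad gK w.2.2.1 (FL w) := by
  by_contra hbad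
  unfold gr at hw
  rw [Finset.mem_filter] at hw
  obtain ⟨hrl, hdw⟩ := hw
  rw [mem_rl] at hrl
  obtain ⟨hPA, hPB, hK⟩ := hrl
  have sA := (h.sA (w.1, w.2.2) ((mem_sup SV).2 ⟨hPA, hK⟩)).cn
  have sB := (h.sB (w.2.1, w.2.2) ((mem_sup SV).2 ⟨hPB, hK⟩)).cn
  obtain ⟨tA, hA'⟩ := Option.isSome_iff_exists.1 hA
  obtain ⟨tB, hB'⟩ := Option.isSome_iff_exists.1 hB
  obtain ⟨a3, a4⟩ := sA.val _ (lkH_some hA')
  obtain ⟨b3, b4⟩ := sB.val _ (lkH_some hB')
  have a3' : η = w.2.2.1 (.c tA none) := a3
  have b3' : η = w.2.2.1 (.c tB none) := b3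
  have a4' : (.c tA none : Th X S J K) ∈ e.A.q w.1 w.2.2.1 := a4
  have b4' : (.c tB none : Th X S J K) ∈ e.B.q w.2.1 w.2.2.1 := b4
  have hi : tA = tB := uniq_h hbad hn (hXf _ a4') (hYf _ b4') (a3'.symm.trans b3')
  subst hi
  have hmem : (.c tA none : Th X S J K) ∈ e.kn.map Prod.fst := hdw _ trivial a4' b4'
  obtain ⟨⟨t, v⟩, hv, ht⟩ := List.mem_map.1 hmem
  have ht' : t = .c tA none := ht
  subst ht'
  have h5 := h.kh tA v hv
  have h6 : w.2.2.1 (.c tA none) = v := hK _ hv
  rw [← h6, ← a3'] at h5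
  exact hη h5

omit [Finite X] [Finite S] [Finite J] [Fintype K] [Nonempty K] in
private theorem C2_own {St : Type} (η : K) (c : CS St S J K) (q : List (Th X S J K))
    (O : Th X S J K → K) (hcn : Cn c.own q O) (hb : ownH η c = true) :
    ∃ u ∈ c.own, (.h η : Th X S J K) = itm O u.1 u.2.1 := by
  obtain ⟨s, hs⟩ := Option.isSome_iff_exists.1 hb
  have h1 := lkH_some hs
  obtain ⟨h2, -⟩ := hcn.val _ h1
  refine ⟨(s, none, η), h1, ?_⟩
  show (.h η : Th X S J K) = .h (O (.c s none))
  rw [← h2]

theorem handleStep_t3 (η : K) (j : ℕ)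
    (cont : Env X S J K V StA StB RA RB → PT X S J K V Mg StA StB) (h : GI a n m e)
    (hnice : ∀ w, Nice w.2.2.1 (FL w)) (hN : 4 * nn a n m ≤ N) (hN0 : 0 < N) (hN3 : 0 < N3)
    (hN3' : 8 * nn a n m * N3 ≤ 3 * N) (hL : Lt SV cel N cel e.A e.B e.kn)
    (hη : Hv SV cel L e.A e.B e.kn (.h η)) (hg : Gd SV cel e.A e.B e.kn) (hp : e.pend = none)
    (hc : ∀ e' : Env X S J K V StA StB RA RB, GI a n m e' → T3E FL N3 L j (cont e') e') :
    T3E FL N3 L (j + 1) (handleStep e η cont) e := by
  have hcl : ¬ cel (.h η : Th X S J K) := fun h => h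
  have hβ : Function.Injective (Pb.bit : Bool → Pb Mg J V) := by
    intro a b hab
    injection hab
  have hoA : Lc e.A.q (fun r O => ownH η (e.A.s r O) = true) := by
    intro r O O' hO
    exact congrArg (fun st => ownH η st = true) (h.lA.1 r O O' hO)
  have hoB : Lc e.B.q (fun r O => ownH η (e.B.s r O) = true) := by
    intro r O O' hO
    exact congrArg (fun st => ownH η st = true) (h.lB.1 r O O' hO)
  have hboth : (∀ w ∈ rl SV e.A e.B e.kn, (∀ d ∈ e.A.q w.1 w.2.2.1, d ∈ FL w) ∧
        ∀ d ∈ e.B.q w.2.1 w.2.2.1, d ∈ FL w) →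
      ((gr SV cel e.A e.B e.kn).filter fun w => ownH η (e.A.s w.1 w.2.2.1) = true ∧
        ownH η (e.B.s w.2.1 w.2.2.1) = true).card ≤
      ((rl SV e.A e.B e.kn).filter fun w => Bad gK w.2.2.1 (FL w)).card := by
    intro hf
    refine Finset.card_le_card ?_
    intro w hw
    rw [Finset.mem_filter] at hw ⊢
    have hrl : w ∈ rl SV e.A e.B e.kn := Finset.filter_subset _ _ hw.1
    exact ⟨hrl, C2_both h η hη.1 w hw.1 (hnice w) hw.2.1 hw.2.2 (hf w hrl).1 (hf w hrl).2⟩
  have g0 : GI a n m (e.kna (.h η) k0) := gi_item h _ hcl k0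
  have g2 : ∀ b1 b2 : Bool, GI a n m (((e.kna (.h η) k0).upA (bitH η) (.bit b1 : Pb Mg J V)).upB
      (bitH η) (.bit b2 : Pb Mg J V)) := fun b1 b2 => gi_silB (gi_silA g0 _ _) _ _
  have hkn : (.h η : Th X S J K) ∈ (e.kn ++ [((.h η : Th X S J K), (k0 : K))]).map
      Prod.fst := by
    rw [List.map_append]
    exact List.mem_append_right _ (List.mem_singleton.2 rfl)
  by_cases hd : desH e η
  · refine t3_core SV cel e.A e.B e.kn (.h η) k0 rfl hcl Pb.bit hβ (ownH η) (ownH η) _ _ _ _ j
      (fun _ b2 => b2 = true) hη hg ?_ ?_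
    · intro b1 b2 hb
      have hb2 : b2 = false := by
        cases b2
        · rfl
        · exact absurd rfl hb
      subst hb2
      cases b1
      · exact hc _ (g2 false false)
      · simp only [if_pos hd]
        refine hc (((((e.kna (.h η) k0).upA (bitH η) (.bit true : Pb Mg J V)).upB (bitH η)
          (.bit false : Pb Mg J V)).setPr η true [] none).conf η true (.h η)) ?_
        refine gi_confA (g2 true false) η (.h η) [] hkn ?_ hp ?_
        · intro hm
          exact hη.1 (h.wA _ hm)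
        · intro p hp'
          have hsi := ((g2 true false).sA p hp').cn
          have hp2 := (mem_sup SV).1 hp'
          have h1 : (Pb.bit (ownH η (e.A.s p.1 p.2.1)) : Pb Mg J V) = .bit true := hp2.1.2
          have h2 : ownH η (e.A.s p.1 p.2.1) = true := by
            injection h1
          exact C2_own η _ _ _ hsi h2
    · intro hf
      have h1 := own_le SV cel C2_hcel N (nn a n m) N3 hN hN0 hN3 hN3' e.A e.B h.lA h.lB e.kn hL
        (gi_bdA h) (gi_bdB h) _ _ hoA hoB
        ((le_of_eq (congrArg (· * (sup SV e.A e.kn).card) (C2_card _ _ _ _))).trans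
          (le_trans hd (le_of_eq (congrArg (· * (sup SV e.B e.kn).card) (C2_card _ _ _ _)))))
      have h2 := hboth hf
      have h3 : N3 * ((gr SV cel e.A e.B e.kn).filter fun w =>
          ownH η (e.B.s w.2.1 w.2.2.1) = true).card ≤ 2 * (gr SV cel e.A e.B e.kn).card +
          2 * N3 ^ 2 * ((rl SV e.A e.B e.kn).filter fun w => Bad gK w.2.2.1 (FL w)).card :=
        (le_of_eq (congrArg (N3 * ·) (C2_card _ _ _ _))).trans (h1.trans
          (Nat.add_le_add_left (Nat.mul_le_mul_left _ ((le_of_eq (C2_card _ _ _ _)).trans h2)) _))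
      have h4 : (N3 : ℝ) * ((gr SV cel e.A e.B e.kn).filter fun w =>
          ownH η (e.B.s w.2.1 w.2.2.1) = true).card ≤ 2 * (gr SV cel e.A e.B e.kn).card +
          2 * (N3 : ℝ) ^ 2 * ((rl SV e.A e.B e.kn).filter fun w => Bad gK w.2.2.1 (FL w)).card := by
        exact_mod_cast h3
      exact (le_of_eq (congrArg (fun x : ℕ => (N3 : ℝ) * (x : ℝ)) (C2_card _ _ _ _))).trans h4
  · refine t3_core SV cel e.A e.B e.kn (.h η) k0 rfl hcl Pb.bit hβ (ownH η) (ownH η) _ _ _ _ j
      (fun b1 _ => b1 = true) hη hg ?_ ?_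
    · intro b1 b2 hb
      have hb1 : b1 = false := by
        cases b1
        · rfl
        · exact absurd rfl hb
      subst hb1
      cases b2
      · exact hc _ (g2 false false)
      · simp only [if_neg hd]
        refine hc (((((e.kna (.h η) k0).upA (bitH η) (.bit false : Pb Mg J V)).upB (bitH η)
          (.bit true : Pb Mg J V)).setPr η false [] none).conf η false (.h η)) ?_
        refine gi_confB (g2 false true) η (.h η) [] hkn ?_ hp ?_
        · intro hm
          exact hη.1 (h.wB _ hm)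
        · intro p hp'
          have hsi := ((g2 false true).sB p hp').cn
          have hp2 := (mem_sup SV).1 hp'
          have h1 : (Pb.bit (ownH η (e.B.s p.1 p.2.1)) : Pb Mg J V) = .bit true := hp2.1.2
          have h2 : ownH η (e.B.s p.1 p.2.1) = true := by
            injection h1
          exact C2_own η _ _ _ hsi h2
    · intro hf
      have hd' : ((sup SV e.A e.kn).filter fun p => ownH η (e.A.s p.1 p.2.1) = true).card *
          (sup SV e.B e.kn).card ≤
          ((sup SV e.B e.kn).filter fun p => ownH η (e.B.s p.1 p.2.1) = true).card *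
          (sup SV e.A e.kn).card := (not_le.1 hd).le
      have h1 := own_le' SV cel C2_hcel N (nn a n m) N3 hN hN0 hN3 hN3' e.A e.B h.lA h.lB e.kn hL
        (gi_bdA h) (gi_bdB h) _ _ hoA hoB
        ((le_of_eq (congrArg (· * (sup SV e.B e.kn).card) (C2_card _ _ _ _))).trans
          (le_trans hd' (le_of_eq (congrArg (· * (sup SV e.A e.kn).card) (C2_card _ _ _ _)))))
      have h2 := hboth hf
      have h3 : N3 * ((gr SV cel e.A e.B e.kn).filter fun w =>
          ownH η (e.A.s w.1 w.2.2.1) = true).card ≤ 2 * (gr SV cel e.A e.B e.kn).card +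
          2 * N3 ^ 2 * ((rl SV e.A e.B e.kn).filter fun w => Bad gK w.2.2.1 (FL w)).card :=
        (le_of_eq (congrArg (N3 * ·) (C2_card _ _ _ _))).trans (h1.trans
          (Nat.add_le_add_left (Nat.mul_le_mul_left _ ((le_of_eq (C2_card _ _ _ _)).trans h2)) _))
      have h4 : (N3 : ℝ) * ((gr SV cel e.A e.B e.kn).filter fun w =>
          ownH η (e.A.s w.1 w.2.2.1) = true).card ≤ 2 * (gr SV cel e.A e.B e.kn).card +
          2 * (N3 : ℝ) ^ 2 * ((rl SV e.A e.B e.kn).filter fun w => Bad gK w.2.2.1 (FL w)).card := by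
        exact_mod_cast h3
      exact (le_of_eq (congrArg (fun x : ℕ => (N3 : ℝ) * (x : ℝ)) (C2_card _ _ _ _))).trans h4

/-! ## Row C2b.  The wrong guesses at a label `π` of a known key `s`: `t3_core` with `γ = Option J`,
`β = Pb.ix`, `oA c = lkL c.own s π`, `wr o1 o2 = (o2.isSome = true)` if `desL e s π`, and
`(o1.isSome = true)` otherwise.  `both` implies `Bad`: by `uniq_l` the cell `.c s (some i)` is
common, so it is known, so `e.T.op s π ≠ none` (`ko`). -/

private theorem C2b_card {α : Type} (s : Finset α) (p : α → Prop) (d1 d2 : DecidablePred p) :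
    (@Finset.filter α p d1 s).card = (@Finset.filter α p d2 s).card := by
  rw [Subsingleton.elim d1 d2]

omit [Finite X] [Finite S] [Finite J] in
private theorem C2b_hcel (q : Th X S J K) (hq : ¬ cel q) : (SV q).card ≤ 1 := by
  cases q with
  | x _ => exact absurd trivial hq
  | c _ _ => exact absurd trivial hq
  | h _ => exact (Finset.card_singleton _).le
  | l _ _ => exact (Finset.card_singleton _).le

/-- In a good execution in which both parties own the label the value of the label was guessed. -/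
private theorem C2b_both (h : GI a n m e) (s : S) (π : K) (hop : e.T.op s π = none)
    (w : RA × RB × Orc (SV : Th X S J K → Finset K))
    (hw : w ∈ gr SV cel e.A e.B e.kn) (hn : Nice w.2.2.1 (FL w))
    (hA : (lkL (e.A.s w.1 w.2.2.1).own s π).isSome = true)
    (hB : (lkL (e.B.s w.2.1 w.2.2.1).own s π).isSome = true)
    (hXf : ∀ d ∈ e.A.q w.1 w.2.2.1, d ∈ FL w) (hYf : ∀ d ∈ e.B.q w.2.1 w.2.2.1, d ∈ FL w) :
    Bad gK w.2.2.1 (FL w) := by
  by_contra hbad
  unfold gr at hw
  rw [Finset.mem_filter] at hw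
  obtain ⟨hrl, hdw⟩ := hw
  rw [mem_rl] at hrl
  obtain ⟨hPA, hPB, hK⟩ := hrl
  have sA := (h.sA (w.1, w.2.2) ((mem_sup SV).2 ⟨hPA, hK⟩)).cn
  have sB := (h.sB (w.2.1, w.2.2) ((mem_sup SV).2 ⟨hPB, hK⟩)).cn
  obtain ⟨iA, hA'⟩ := Option.isSome_iff_exists.1 hA
  obtain ⟨iB, hB'⟩ := Option.isSome_iff_exists.1 hB
  obtain ⟨a3, a4⟩ := sA.val _ (lkL_some hA')
  obtain ⟨b3, b4⟩ := sB.val _ (lkL_some hB')
  have a3' : π = w.2.2.1 (.c s (some iA)) := a3
  have b3' : π = w.2.2.1 (.c s (some iB)) := b3
  have a4' : (.c s (some iA) : Th X S J K) ∈ e.A.q w.1 w.2.2.1 := a4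
  have b4' : (.c s (some iB) : Th X S J K) ∈ e.B.q w.2.1 w.2.2.1 := b4
  obtain ⟨-, hi⟩ := uniq_l hbad hn (hXf _ a4') (hYf _ b4') (a3'.symm.trans b3')
  subst hi
  have hmem : (.c s (some iA) : Th X S J K) ∈ e.kn.map Prod.fst := hdw _ trivial a4' b4'
  obtain ⟨⟨t, v⟩, hv, ht⟩ := List.mem_map.1 hmem
  have ht' : t = .c s (some iA) := ht
  subst ht'
  have h5 := h.ko s iA v hv
  have h6 : w.2.2.1 (.c s (some iA)) = v := hK _ hv
  rw [← h6, ← a3'] at h5
  exact h5 hop

theorem openStep_t3 (s : S) (η π : K) (j : ℕ)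
    (cont : Env X S J K V StA StB RA RB → PT X S J K V Mg StA StB) (h : GI a n m e)
    (hnice : ∀ w, Nice w.2.2.1 (FL w)) (hN : 4 * nn a n m ≤ N) (hN0 : 0 < N) (hN3 : 0 < N3)
    (hN3' : 8 * nn a n m * N3 ≤ 3 * N) (hL : Lt SV cel N cel e.A e.B e.kn)
    (hη : Hv SV cel L e.A e.B e.kn (.l η π)) (hg : Gd SV cel e.A e.B e.kn)
    (hop : e.T.op s π = none)
    (hc : ∀ e' : Env X S J K V StA StB RA RB, GI a n m e' → T3E FL N3 L j (cont e') e') :
    T3E FL N3 L (j + 1) (.learn (.l η π) (.ret k0) fun v =>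
      openStep (desL e s π) (e.kna (.l η π) v) s η π cont) e := by
  have hcl : ¬ cel (.l η π : Th X S J K) := fun h => h
  have hβ : Function.Injective (Pb.ix : Option J → Pb Mg J V) := by
    intro a b hab
    injection hab
  have hoA : Lc e.A.q (fun r O => (lkL (e.A.s r O).own s π).isSome = true) := by
    intro r O O' hO
    exact congrArg (fun st : CS StA S J K => (lkL st.own s π).isSome = true) (h.lA.1 r O O' hO)
  have hoB : Lc e.B.q (fun r O => (lkL (e.B.s r O).own s π).isSome = true) := by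
    intro r O O' hO
    exact congrArg (fun st : CS StB S J K => (lkL st.own s π).isSome = true) (h.lB.1 r O O' hO)
  have hboth : (∀ w ∈ rl SV e.A e.B e.kn, (∀ d ∈ e.A.q w.1 w.2.2.1, d ∈ FL w) ∧
        ∀ d ∈ e.B.q w.2.1 w.2.2.1, d ∈ FL w) →
      ((gr SV cel e.A e.B e.kn).filter fun w =>
        (lkL (e.A.s w.1 w.2.2.1).own s π).isSome = true ∧
        (lkL (e.B.s w.2.1 w.2.2.1).own s π).isSome = true).card ≤
      ((rl SV e.A e.B e.kn).filter fun w => Bad gK w.2.2.1 (FL w)).card := by
    intro hf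
    refine Finset.card_le_card ?_
    intro w hw
    rw [Finset.mem_filter] at hw ⊢
    have hrl : w ∈ rl SV e.A e.B e.kn := Finset.filter_subset _ _ hw.1
    exact ⟨hrl, C2b_both h s π hop w hw.1 (hnice w) hw.2.1 hw.2.2 (hf w hrl).1 (hf w hrl).2⟩
  have g0 : GI a n m (e.kna (.l η π) k0) := gi_item h _ hcl k0
  have g2 : ∀ b1 b2 : Option J, GI a n m (((e.kna (.l η π) k0).upA (tellC s π)
      (.ix b1 : Pb Mg J V)).upB (tellC s π) (.ix b2 : Pb Mg J V)) :=
    fun b1 b2 => gi_silB (gi_silA g0 _ _) _ _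
  by_cases hd : desL e s π
  · refine t3_core SV cel e.A e.B e.kn (.l η π) k0 rfl hcl Pb.ix hβ
      (fun c : CS StA S J K => lkL c.own s π) (fun c : CS StB S J K => lkL c.own s π) _ _ _ _ j
      (fun _ b2 => b2.isSome = true) hη hg ?_ ?_
    · intro b1 b2 hb
      have hb2 : b2 = none := by
        cases b2
        · rfl
        · exact absurd rfl hb
      subst hb2
      cases b1 with
      | none => exact hc _ (g2 none none)
      | some i =>
        simp only [if_pos hd]
        exact lcell_t3 j s i η (.ret π) cont (g2 (some i) none) hc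
    · intro hf
      have h1 := own_le SV cel C2b_hcel N (nn a n m) N3 hN hN0 hN3 hN3' e.A e.B h.lA h.lB e.kn hL
        (gi_bdA h) (gi_bdB h) _ _ hoA hoB
        ((le_of_eq (congrArg (· * (sup SV e.A e.kn).card) (C2b_card _ _ _ _))).trans
          (le_trans hd (le_of_eq (congrArg (· * (sup SV e.B e.kn).card) (C2b_card _ _ _ _)))))
      have h2 := hboth hf
      have h3 : N3 * ((gr SV cel e.A e.B e.kn).filter fun w =>
          (lkL (e.B.s w.2.1 w.2.2.1).own s π).isSome = true).card ≤
          2 * (gr SV cel e.A e.B e.kn).card +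
          2 * N3 ^ 2 * ((rl SV e.A e.B e.kn).filter fun w => Bad gK w.2.2.1 (FL w)).card :=
        (le_of_eq (congrArg (N3 * ·) (C2b_card _ _ _ _))).trans (h1.trans
          (Nat.add_le_add_left (Nat.mul_le_mul_left _ ((le_of_eq (C2b_card _ _ _ _)).trans h2)) _))
      have h4 : (N3 : ℝ) * ((gr SV cel e.A e.B e.kn).filter fun w =>
          (lkL (e.B.s w.2.1 w.2.2.1).own s π).isSome = true).card ≤
          2 * (gr SV cel e.A e.B e.kn).card +
          2 * (N3 : ℝ) ^ 2 * ((rl SV e.A e.B e.kn).filter fun w => Bad gK w.2.2.1 (FL w)).card := by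
        exact_mod_cast h3
      exact (le_of_eq (congrArg (fun x : ℕ => (N3 : ℝ) * (x : ℝ)) (C2b_card _ _ _ _))).trans h4
  · refine t3_core SV cel e.A e.B e.kn (.l η π) k0 rfl hcl Pb.ix hβ
      (fun c : CS StA S J K => lkL c.own s π) (fun c : CS StB S J K => lkL c.own s π) _ _ _ _ j
      (fun b1 _ => b1.isSome = true) hη hg ?_ ?_
    · intro b1 b2 hb
      have hb1 : b1 = none := by
        cases b1
        · rfl
        · exact absurd rfl hb
      subst hb1
      cases b2 with
      | none => exact hc _ (g2 none none)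
      | some i =>
        simp only [if_neg hd]
        exact lcell_t3 j s i η (.ret π) cont (g2 none (some i)) hc
    · intro hf
      have hd' : ((sup SV e.A e.kn).filter fun p =>
          (lkL (e.A.s p.1 p.2.1).own s π).isSome = true).card * (sup SV e.B e.kn).card ≤
          ((sup SV e.B e.kn).filter fun p =>
          (lkL (e.B.s p.1 p.2.1).own s π).isSome = true).card * (sup SV e.A e.kn).card :=
        (not_le.1 hd).le
      have h1 := own_le' SV cel C2b_hcel N (nn a n m) N3 hN hN0 hN3 hN3' e.A e.B h.lA h.lB e.kn hL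
        (gi_bdA h) (gi_bdB h) _ _ hoA hoB
        ((le_of_eq (congrArg (· * (sup SV e.B e.kn).card) (C2b_card _ _ _ _))).trans
          (le_trans hd' (le_of_eq (congrArg (· * (sup SV e.A e.kn).card) (C2b_card _ _ _ _)))))
      have h2 := hboth hf
      have h3 : N3 * ((gr SV cel e.A e.B e.kn).filter fun w =>
          (lkL (e.A.s w.1 w.2.2.1).own s π).isSome = true).card ≤
          2 * (gr SV cel e.A e.B e.kn).card +
          2 * N3 ^ 2 * ((rl SV e.A e.B e.kn).filter fun w => Bad gK w.2.2.1 (FL w)).card :=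
        (le_of_eq (congrArg (N3 * ·) (C2b_card _ _ _ _))).trans (h1.trans
          (Nat.add_le_add_left (Nat.mul_le_mul_left _ ((le_of_eq (C2b_card _ _ _ _)).trans h2)) _))
      have h4 : (N3 : ℝ) * ((gr SV cel e.A e.B e.kn).filter fun w =>
          (lkL (e.A.s w.1 w.2.2.1).own s π).isSome = true).card ≤
          2 * (gr SV cel e.A e.B e.kn).card +
          2 * (N3 : ℝ) ^ 2 * ((rl SV e.A e.B e.kn).filter fun w => Bad gK w.2.2.1 (FL w)).card := by
        exact_mod_cast h3
      exact (le_of_eq (congrArg (fun x : ℕ => (N3 : ℝ) * (x : ℝ)) (C2b_card _ _ _ _))).trans h4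

/-! ## Row C3 -/

omit [Finite X] [Finite S] [Finite J] [Fintype K] [Nonempty K] in
/-- a party which owns a label has it among its items -/
private theorem C3_own {St : Type} {η π : K} {c : CS St S J K} {q : List (Th X S J K)}
    {O : Th X S J K → K} (hc : Cn c.own q O) (h : ownL η π c = true) :
    ∃ u ∈ c.own, (Th.l η π : Th X S J K) = itm O u.1 u.2.1 := by
  unfold ownL at h
  split at h
  · next s hs =>
    obtain ⟨j, hj⟩ := Option.isSome_iff_exists.1 h
    have h1 := lkH_some hs
    have h2 := lkL_some hj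
    refine ⟨_, h2, ?_⟩
    have h3 : η = O (.c s none) := (hc.val _ h1).1
    have h4 : π = O (.c s (some j)) := (hc.val _ h2).1
    show (Th.l η π : Th X S J K) = .l (O (.c s none)) (O (.c s (some j)))
    rw [← h3, ← h4]
  · exact absurd h (by simp)

theorem labelStep_t3 (η π : K) (j : ℕ)
    (cont : Env X S J K V StA StB RA RB → PT X S J K V Mg StA StB) (h : GI a n m e)
    (hnice : ∀ w, Nice w.2.2.1 (FL w)) (hN : 4 * nn a n m ≤ N) (hN0 : 0 < N) (hN3 : 0 < N3)
    (hN3' : 8 * nn a n m * N3 ≤ 3 * N) (hL : Lt SV cel N cel e.A e.B e.kn)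
    (hη : Hv SV cel L e.A e.B e.kn (.l η π)) (hg : Gd SV cel e.A e.B e.kn) (hp : e.pend = none)
    (hc : ∀ e' : Env X S J K V StA StB RA RB, GI a n m e' → T3E FL N3 L j (cont e') e') :
    T3E FL N3 L (j + 1) (labelStep e η π cont) e := by
  have hcl : ¬ cel (.l η π : Th X S J K) := fun hh => hh
  have hmem : ∀ v : K, (Th.l η π : Th X S J K) ∈ (e.kn ++ [(Th.l η π, v)]).map Prod.fst := by
    intro v
    rw [List.map_append]
    exact List.mem_append_right _ (List.mem_singleton.2 rfl)
  cases htr : e.T.tr η with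
  | some s =>
    cases hop : e.T.op s π with
    | none =>
      have h1 := openStep_t3 (FL := FL) s η π j cont h hnice hN hN0 hN3 hN3' hL hη hg hop hc
      unfold labelStep
      simp only [htr, hop]
      exact h1
    | some i =>
      unfold labelStep
      simp only [htr, hop]
      refine t3_mono SV cel (Nat.le_succ j) _ _ _ _ (t3_learn SV cel j _ _ _ _ _ _ (fun v _ => ?_))
      exact hc _ (gi_item h _ hcl v)
  | none =>
    cases hpr : e.T.pr η with
    | none =>
      unfold labelStep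
      simp only [htr, hpr]
      refine t3_mono SV cel (Nat.le_succ j) _ _ _ _ (t3_learn SV cel j _ _ _ _ _ _ (fun v _ => ?_))
      exact hc _ (gi_item h _ hcl v)
    | some z =>
      obtain ⟨o, P, r⟩ := z
      cases o with
      | true =>
        unfold labelStep
        simp only [htr, hpr]
        refine t3_mono SV cel (Nat.le_succ j) _ _ _ _ (t3_learn SV cel j _ _ _ _ _ _ (fun v _ => ?_))
        refine t3_mA SV cel j _ _ _ _ _ _ (fun b => ?_)
        have h2 : GI a n m ((e.kna (.l η π) v).upA (bitL η π) b) :=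
          gi_silA (gi_item h _ hcl v) (fun c => .bit (ownL η π c)) b
        match b, h2 with
        | .bit true, h2 =>
          refine hc _ (gi_confA h2 η (.l η π) (P ++ [π]) (hmem v) (fun hh => hη.1 (h.wA _ hh)) hp ?_)
          intro p hp'
          have h5 := (h2.sA p hp').cn
          rw [mem_sup] at hp'
          have h3 : (Pb.bit (ownL η π (e.A.s p.1 p.2.1)) : Pb Mg J V) = .bit true := hp'.1.2
          have h4 : ownL η π (e.A.s p.1 p.2.1) = true := Pb.bit.inj h3
          exact C3_own h5 h4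
        | .bit false, h2 => exact hc _ h2
        | .msg x, _ => exact t3_stop SV cel j 4 (by decide) _ _ _
        | .lk x, _ => exact t3_stop SV cel j 4 (by decide) _ _ _
        | .ix x, _ => exact t3_stop SV cel j 4 (by decide) _ _ _
      | false =>
        unfold labelStep
        simp only [htr, hpr]
        refine t3_mono SV cel (Nat.le_succ j) _ _ _ _ (t3_learn SV cel j _ _ _ _ _ _ (fun v _ => ?_))
        refine t3_mB SV cel j _ _ _ _ _ _ (fun b => ?_)
        have h2 : GI a n m ((e.kna (.l η π) v).upB (bitL η π) b) :=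
          gi_silB (gi_item h _ hcl v) (fun c => .bit (ownL η π c)) b
        match b, h2 with
        | .bit true, h2 =>
          refine hc _ (gi_confB h2 η (.l η π) (P ++ [π]) (hmem v) (fun hh => hη.1 (h.wB _ hh)) hp ?_)
          intro p hp'
          have h5 := (h2.sB p hp').cn
          rw [mem_sup] at hp'
          have h3 : (Pb.bit (ownL η π (e.B.s p.1 p.2.1)) : Pb Mg J V) = .bit true := hp'.1.2
          have h4 : ownL η π (e.B.s p.1 p.2.1) = true := Pb.bit.inj h3
          exact C3_own h5 h4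
        | .bit false, h2 => exact hc _ h2
        | .msg x, _ => exact t3_stop SV cel j 4 (by decide) _ _ _
        | .lk x, _ => exact t3_stop SV cel j 4 (by decide) _ _ _
        | .ix x, _ => exact t3_stop SV cel j 4 (by decide) _ _ _

/-! ## Row C4 -/

private theorem C4_lt (N : ℕ) (h : ¬ ∃ d, cel d ∧ Hv SV cel N e.A e.B e.kn d) :
    Lt SV cel N cel e.A e.B e.kn := by
  intro d hD hd
  have h1 : ¬ ((gp SV cel e.A e.B e.kn).card ≤
      N * (tA SV cel e.A e.B e.kn d + tB SV cel e.A e.B e.kn d)) :=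
    fun hh => h ⟨d, hD, hd, hh⟩
  rw [not_le, Nat.mul_add] at h1
  constructor <;> omega

theorem body_t3 (F : S → List J → Comp X K V)
    (hF : ∀ f s js, ((F s js).asked f).length ≤ m) (j : ℕ)
    (cont : Env X S J K V StA StB RA RB → PT X S J K V Mg StA StB)
    (k : PT X S J K V Mg StA StB) (h : GI a n m e)
    (hnice : ∀ w, Nice w.2.2.1 (FL w)) (hN : 4 * nn a n m ≤ N) (hN0 : 0 < N) (hN3 : 0 < N3)
    (hN3' : 8 * nn a n m * N3 ≤ 3 * N) (hk : Lgt N L e → T3E FL N3 L (j + 1) k e)
    (hc : ∀ e' : Env X S J K V StA StB RA RB, GI a n m e' → T3E FL N3 L j (cont e') e') :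
    T3E FL N3 L (j + 1) (body F N L e cont k) e := by
  unfold body
  by_cases g1 : Lgt N L e
  · rw [if_pos g1]
    exact hk g1
  rw [if_neg g1]
  by_cases g2 : Gd SV cel e.A e.B e.kn
  swap
  · rw [if_pos g2]
    exact t3_stop SV cel (j + 1) 2 (by decide) _ _ _
  rw [if_neg (not_not.2 g2)]
  by_cases gx : ∃ x, Hv SV cel N e.A e.B e.kn (.x x)
  · rw [dif_pos gx]
    exact t3_mono SV cel (Nat.le_succ j) _ _ _ _ (xStep_t3 j _ cont h hc)
  rw [dif_neg gx]
  by_cases gs : ∃ s, Hv SV cel N e.A e.B e.kn (.c s none)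
  · rw [dif_pos gs]
    exact t3_mono SV cel (Nat.le_succ j) _ _ _ _ (keyStep_t3 j _ cont h hc)
  rw [dif_neg gs]
  by_cases gj : ∃ z : S × J × K, Hv SV cel N e.A e.B e.kn (.c z.1 (some z.2.1)) ∧
      (.c z.1 none, z.2.2) ∈ e.kn
  · rw [dif_pos gj]
    exact t3_mono SV cel (Nat.le_succ j) _ _ _ _ (lcell_t3 j _ _ _ _ cont h hc)
  rw [dif_neg gj]
  by_cases g3 : ∃ d, cel d ∧ Hv SV cel N e.A e.B e.kn d
  · rw [if_pos g3]
    exact t3_stop SV cel (j + 1) 4 (by decide) _ _ _
  rw [if_neg g3]
  split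
  · next η hp =>
    exact t3_mono SV cel (Nat.le_succ j) _ _ _ _ (leakStep_t3 F hF j η cont h hp hc)
  · next hp =>
    by_cases g4 : ∃ η, Hv SV cel L e.A e.B e.kn (.h η)
    · rw [dif_pos g4]
      exact handleStep_t3 _ j cont h hnice hN hN0 hN3 hN3' (C4_lt N g3) g4.choose_spec
        g2 hp hc
    rw [dif_neg g4]
    by_cases g5 : ∃ z : K × K, Hv SV cel L e.A e.B e.kn (.l z.1 z.2)
    · rw [dif_pos g5]
      exact labelStep_t3 _ _ j cont h hnice hN hN0 hN3 hN3' (C4_lt N g3) g5.choose_spec
        g2 hp hc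
    · rw [dif_neg g5]
      exact t3_stop SV cel (j + 1) 4 (by decide) _ _ _

theorem closeT_t3 (F : S → List J → Comp X K V)
    (hF : ∀ f s js, ((F s js).asked f).length ≤ m)
    (hnice : ∀ w, Nice w.2.2.1 (FL w)) (hN : 4 * nn a n m ≤ N) (hN0 : 0 < N) (hN3 : 0 < N3)
    (hN3' : 8 * nn a n m * N3 ≤ 3 * N)
    (k : ℕ → Env X S J K V StA StB RA RB → PT X S J K V Mg StA StB)
    (hk : ∀ j e, GI a n m e → Lgt N L e → T3E FL N3 L j (k j e) e) :
    ∀ j (e : Env X S J K V StA StB RA RB), GI a n m e →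
      T3E FL N3 L j (closeT F N L k j e) e := by
  intro j
  induction j with
  | zero =>
    intro e h
    unfold closeT
    split_ifs with g
    · exact hk 0 e h g
    · exact t3_stop SV cel 0 1 (by decide) _ _ _
  | succ j ih =>
    intro e h
    unfold closeT
    exact body_t3 F hF j _ _ h hnice hN hN0 hN3 hN3' (fun g => hk (j + 1) e h g) ih

variable {I I' : Type} (A : Party (Qry X S J K) (Ans J K V) Mg I)
  (B : Party (Qry X S J K) (Ans J K V) Mg I')

theorem build_t3 (F : S → List J → Comp X K V) (G : V → List ℕ → Comp X K V)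
    (hF : ∀ f s js, ((F s js).asked f).length ≤ m) (hG : ∀ f v i, ((G v i).asked f).length ≤ m)
    (hnice : ∀ w, Nice w.2.2.1 (FL w)) (hN : 4 * nn a n m ≤ N) (hN0 : 0 < N) (hN3 : 0 < N3)
    (hN3' : 8 * nn a n m * N3 ≤ 3 * N) (m0 : Mg) :
    ∀ (r : ℕ) (μ : Mg) (j : ℕ) (e : Env X S J K V A.St B.St RA RB), GI a n m e →
      T3E FL N3 L j (build A B a F G m0 N L r μ j e) e := by
  intro r
  induction r with
  | zero =>
    intro μ j e h
    unfold build
    exact closeT_t3 F hF hnice hN hN0 hN3 hN3' _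
      (fun j e _ _ => t3_stop SV cel j 0 (by decide) _ _ _) j e h
  | succ r ih =>
    intro μ j e h
    unfold build
    refine closeT_t3 F hF hnice hN hN0 hN3 hN3' _ (fun j e he hl => ?_) j e h
    refine t3_mA SV cel j _ _ _ _ _ _ (fun b => ?_)
    match b with
    | .msg x =>
      refine closeT_t3 F hF hnice hN hN0 hN3 hN3' _ (fun j e' he' hl' => ?_) j
        (e.upA (stepC a F G A m0 e.T μ) (.msg x))
        (gi_msgA A B F G hF hG m0 μ e he hl.2.2 e.T (.msg x))
      refine t3_mB SV cel j _ _ _ _ _ _ (fun b' => ?_)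
      match b' with
      | .msg y =>
        exact ih y j (e'.upB (stepC a F G B m0 e'.T x) (.msg y))
          (gi_msgB A B F G hF hG m0 x e' he' hl'.2.2 e'.T (.msg y))
      | .bit _ => exact t3_stop SV cel j 4 (by decide) _ _ _
      | .lk _ => exact t3_stop SV cel j 4 (by decide) _ _ _
      | .ix _ => exact t3_stop SV cel j 4 (by decide) _ _ _
    | .bit _ => exact t3_stop SV cel j 4 (by decide) _ _ _
    | .lk _ => exact t3_stop SV cel j 4 (by decide) _ _ _
    | .ix _ => exact t3_stop SV cel j 4 (by decide) _ _ _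

end Pool.Agent.Fe
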