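import Pool.Agent.Lib.MP_ae38e0_lc.Fe.Main

import Pool.Agent.Lib.MP_ae38e0_lc.Fe.Game

set_option autoImplicit false

/-!
# Oblivious transfer (row T1)
-/

namespace Pool.Agent.Fe

open Pool.Agent.LinOT Pool.Agent.Nbb Classical

variable {X S J K V M : Type} [Fintype X] [Fintype S] [Fintype J] [Fintype K] [Nonempty X]
  [Nonempty S] [Nonempty K]

/-- Row T1.  `attack_fe` with `RA = R.Tape`, `RB = Bool × D.Tape`, `iA τ = R.init false τ`,
`iB p = D.init (p.1, b1) p.2`, `outA _ s = out s`, `outB p _ = p.1`; divide by the number of the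
executions; replace oracles on the things by worlds (`orcE`, `prob_equiv`, `wd a F O =
ora a F (orcE O)` by `rfl`), then `prob_bool` and the triangle inequality. -/
theorem ot_fe (F : S → List J → Comp X K V) (G : V → List ℕ → Comp X K V)
    (R : Party (Qry X S J K) (Ans J K V) M Bool)
    (D : Party (Qry X S J K) (Ans J K V) M (Bool × Bool)) [Fintype R.Tape] [Fintype D.Tape]
    [Nonempty R.Tape] [Nonempty D.Tape] (out : R.St → Option Bool) (m0 : M) (N a n m h : ℕ)
    (hn : 0 < n) (hh : 0 < h) (hna : n ≤ a) (hF : ∀ f s js, ((F s js).asked f).length ≤ m)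
    (hG : ∀ f v i, ((G v i).asked f).length ≤ m)
    (mono : ∀ f s js js' (i : List ℕ), js.length ≤ a →
      js'.map some = i.map (fun x => js[x]?) → (G ((F s js).run f) i).run f = (F s js').run f)
    (hR : limited a F R false N n) (hD : ∀ b, limited a F D b N n) (δ : ℝ) (b1 : Bool)
    (hδ : ∀ b0, err a F R D out N m0 false b0 b1 ≤ δ) :
    ∃ E : List (M × M) → Comp (Qry X S J K) (Ans J K V) Bool,
      (∀ t ρ, ((E t).asked ρ).length ≤ 55296 * nn a n m ^ 5 * h ^ 3) ∧
      1 - 2 * δ - 6 / h - (55296 * (nn a n m : ℝ) ^ 5 * h ^ 3) ^ 4 *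
        (Fintype.card S * (Fintype.card J + 1)) / Fintype.card K ≤ advSum a F R D N m0 E b1 := by
  obtain ⟨E, hE1, hE2⟩ := attack_fe (RA := R.Tape) (RB := Bool × D.Tape) R D F G m0
    (fun τ => R.init false τ) (fun p => D.init (p.1, b1) p.2) (fun _ s => out s)
    (fun p _ => p.1) a n m h N hn hh hna hF hG mono
    (fun O ra l hl => hR (fO O, LO O) ra l hl)
    (fun O rb l hl => hD _ (fO O, LO O) rb.2 l hl)
  refine ⟨E, hE1, ?_⟩
  set C : ℝ := (Fintype.card (Cf.Om X S J K R.Tape (Bool × D.Tape)) : ℝ) with hC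
  have hne : Nonempty (Cf.Om X S J K R.Tape (Bool × D.Tape)) := by
    have h1 : Nonempty (World X S J K) := inferInstance
    obtain ⟨w⟩ := h1
    exact ⟨⟨Classical.arbitrary _, Classical.arbitrary _, orcE.symm w⟩⟩
  have hCpos : 0 < C := by
    rw [hC]
    exact_mod_cast Fintype.card_pos
  set e : Cf.Om X S J K R.Tape (Bool × D.Tape) ≃ R.Tape × (Bool × D.Tape) × World X S J K :=
    Equiv.prodCongr (Equiv.refl _) (Equiv.prodCongr (Equiv.refl _) orcE) with he
  have p1 : prob (fun w : R.Tape × (Bool × D.Tape) × World X S J K =>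
      out (exec R D (ora a F w.2.2) N (R.init false w.1) (D.init (w.2.1.1, b1) w.2.1.2) m0).2.1 =
        some w.2.1.1) =
      ((Finset.univ.filter fun w : Cf.Om X S J K R.Tape (Bool × D.Tape) =>
        out (exec R D (wd a F w.2.2.1) N (R.init false w.1) (D.init (w.2.1.1, b1) w.2.1.2) m0).2.1 =
          some w.2.1.1).card : ℝ) / C := by
    rw [← prob_equiv e, prob_eq]
    rfl
  have p2 : prob (fun w : R.Tape × (Bool × D.Tape) × World X S J K =>
      (E (exec R D (ora a F w.2.2) N (R.init false w.1) (D.init (w.2.1.1, b1) w.2.1.2) m0).1).run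
        (ora a F w.2.2) = w.2.1.1) =
      ((Finset.univ.filter fun w : Cf.Om X S J K R.Tape (Bool × D.Tape) =>
        (E (exec R D (wd a F w.2.2.1) N (R.init false w.1) (D.init (w.2.1.1, b1) w.2.1.2) m0).1).run
        (wd a F w.2.2.1) = w.2.1.1).card : ℝ) / C := by
    rw [← prob_equiv e, prob_eq]
    rfl
  have hE3 := div_le_div_of_nonneg_right hE2 hCpos.le
  rw [add_div, mul_div_assoc, div_self hCpos.ne', mul_one, ← p1, ← p2] at hE3
  have q1 := prob_bool (T := R.Tape) (U := D.Tape) (W := World X S J K) (fun b O τ τ' =>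
    out (exec R D (ora a F O) N (R.init false τ) (D.init (b, b1) τ') m0).2.1 = some b)
  have q2 := prob_bool (T := R.Tape) (U := D.Tape) (W := World X S J K) (fun b O τ τ' =>
    (E (exec R D (ora a F O) N (R.init false τ) (D.init (b, b1) τ') m0).1).run (ora a F O) = b)
  rw [q1, q2] at hE3
  have e1 : ∀ b0, 1 - δ ≤ prob (fun w : World X S J K × R.Tape × D.Tape =>
      out (exec R D (ora a F w.1) N (R.init false w.2.1) (D.init (b0, b1) w.2.2) m0).2.1 =
        some b0) := by
    intro b0
    have := hδ b0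
    unfold err at this
    rw [prob_not] at this
    unfold play at this
    simp only [Bool.false_eq_true, if_false] at this
    linarith
  have e2 : prob (fun w : World X S J K × R.Tape × D.Tape =>
      (E (exec R D (ora a F w.1) N (R.init false w.2.1) (D.init (false, b1) w.2.2) m0).1).run
        (ora a F w.1) = false) = 1 - acc a F R D N m0 E false false b1 := by
    unfold acc
    rw [← prob_not]
    congr 1
    funext w
    simp [play]
  have e3 : prob (fun w : World X S J K × R.Tape × D.Tape =>
      (E (exec R D (ora a F w.1) N (R.init false w.2.1) (D.init (true, b1) w.2.2) m0).1).run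
        (ora a F w.1) = true) = acc a F R D N m0 E false true b1 := rfl
  have f0 := e1 false
  have f1 := e1 true
  rw [e2, e3] at hE3
  have a1 := le_abs_self (acc a F R D N m0 E true false b1 - acc a F R D N m0 E false false b1)
  have a2 := neg_abs_le (acc a F R D N m0 E true true b1 - acc a F R D N m0 E false true b1)
  have a4 := le_abs_self (acc a F R D N m0 E true true b1 - acc a F R D N m0 E true false b1)
  have h6 : (55296 * (nn a n m : ℝ) ^ 5 * h ^ 3) ^ 4 *
      ((Fintype.card S : ℝ) * (Fintype.card J + 1)) / (2 * Fintype.card K) =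
      ((55296 * (nn a n m : ℝ) ^ 5 * h ^ 3) ^ 4 *
      ((Fintype.card S : ℝ) * (Fintype.card J + 1)) / Fintype.card K) / 2 := by
    rw [div_div, mul_comm (2 : ℝ)]
  rw [h6] at hE3
  have h7 : (6 : ℝ) / h = 2 * (3 / h) := by ring
  unfold advSum
  rw [h7]
  linarith

end Pool.Agent.Fe
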