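import Pool.Agent.Lib.MP_ae38e0_lc.Fe.Inv

set_option autoImplicit false

/-!
# The process fulfils the conditions `Ok` (rows O1 - O4)
-/

namespace Pool.Agent.Fe

open Pool.Agent.LinOT Pool.Agent.Nbb Classical

variable {X S J K V Mg StA StB RA RB : Type} [Finite X] [Finite S] [Finite J] [Fintype K]
  [Nonempty K] [Fintype RA] [Fintype RB]

/-- The conditions with the numbers used here. -/
def OkE (N L a n m : ℕ) (p : PT X S J K V Mg StA StB) (e : Env X S J K V StA StB RA RB) : Prop :=
  p.Ok SV cel N L (nn a n m) e.A e.B e.kn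

variable {N L a n m : ℕ} {e : Env X S J K V StA StB RA RB}

/-! ## Row O1 -/

theorem lt_of_not_hv (N : ℕ) (D : Th X S J K → Prop)
    (h : ¬ ∃ d, D d ∧ Hv SV cel N e.A e.B e.kn d) : Lt SV cel N D e.A e.B e.kn := by
  intro d hD hd
  have h1 : ¬ ((gp SV cel e.A e.B e.kn).card ≤
      N * (tA SV cel e.A e.B e.kn d + tB SV cel e.A e.B e.kn d)) :=
    fun hh => h ⟨d, hD, hd, hh⟩
  rw [not_le, Nat.mul_add] at h1
  constructor <;> omega

/-- A leaf is fine if its code is 1 or 3. -/
theorem ok_stop (h : GI a n m e) (k : ℕ) (hk : k = 1 ∨ k = 3) :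
    OkE N L a n m (.stop k : PT X S J K V Mg StA StB) e :=
  ⟨gi_bdA h, gi_bdB h, fun h4 => by omega, fun h4 => by omega, fun h4 => by omega, by omega⟩

/-- A leaf which is not reached is fine. -/
theorem ok_stop4 (h : GI a n m e) (hr : rl SV e.A e.B e.kn = ∅) :
    OkE N L a n m (.stop 4 : PT X S J K V Mg StA StB) e :=
  ⟨gi_bdA h, gi_bdB h, fun h4 => absurd h4 (by decide), fun h4 => absurd h4 (by decide),
    fun _ => hr, le_refl _⟩

private theorem O1_rlA (Z : Sd (Th X S J K) K (CS StA S J K) RA)
    (Y : Sd (Th X S J K) K (CS StB S J K) RB) (kn : List (Th X S J K × K))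
    (c : CS StA S J K → Comp (Th X S J K) K (CS StA S J K × Pb Mg J V)) (b : Pb Mg J V)
    (h : ∀ st O, ((c st).run O).2 ≠ b) : rl SV (Z.upd c b) Y kn = ∅ := by
  apply Finset.eq_empty_of_forall_notMem
  intro w hw
  unfold rl at hw
  rw [Finset.mem_filter] at hw
  exact h _ _ hw.2.1.2

private theorem O1_rlB (Z : Sd (Th X S J K) K (CS StA S J K) RA)
    (Y : Sd (Th X S J K) K (CS StB S J K) RB) (kn : List (Th X S J K × K))
    (c : CS StB S J K → Comp (Th X S J K) K (CS StB S J K × Pb Mg J V)) (b : Pb Mg J V)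
    (h : ∀ st O, ((c st).run O).2 ≠ b) : rl SV Z (Y.upd c b) kn = ∅ := by
  apply Finset.eq_empty_of_forall_notMem
  intro w hw
  unfold rl at hw
  rw [Finset.mem_filter] at hw
  exact h _ _ hw.2.2.1.2

theorem xStep_ok (x : X) (cont : Env X S J K V StA StB RA RB → PT X S J K V Mg StA StB)
    (h : GI a n m e)
    (hc : ∀ e' : Env X S J K V StA StB RA RB, GI a n m e' → OkE N L a n m (cont e') e') :
    OkE N L a n m (xStep e x cont) e := by
  intro v _
  exact hc (e.kna (.x x) v) (gi_x h x v)

theorem lcell_ok (s : S) (j : J) (η : K) (o : Comp (Qry X S J K) (Ans J K V) K)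
    (cont : Env X S J K V StA StB RA RB → PT X S J K V Mg StA StB) (h : GI a n m e)
    (hc : ∀ e' : Env X S J K V StA StB RA RB, GI a n m e' → OkE N L a n m (cont e') e') :
    OkE N L a n m (lcell s j η o e cont) e := by
  intro v _ u _
  exact hc (((e.kna (.c s (some j)) v).kna (.l η v) u).setOp s v j) (gi_lc h s j η v u)

theorem openL_ok (o : Bool) (s : S) (η : K) (l : List K)
    (cont : Env X S J K V StA StB RA RB → PT X S J K V Mg StA StB)
    (hc : ∀ e' : Env X S J K V StA StB RA RB, GI a n m e' → OkE N L a n m (cont e') e') :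
    ∀ e : Env X S J K V StA StB RA RB, GI a n m e →
      OkE N L a n m (openL o s η l e cont) e := by
  induction l with
  | nil =>
    intro e h
    exact hc e h
  | cons π l ih =>
    intro e h
    cases o with
    | true =>
      refine ⟨Or.inl fun st O => rfl, ?_⟩
      intro b
      have h2 : GI a n m (e.upA (tellC s π) b) :=
        gi_silA h (fun c => .ix (lkL c.own s π)) b
      have h4 : (∀ i, b ≠ .ix i) →
          OkE N L a n m (.stop 4 : PT X S J K V Mg StA StB) (e.upA (tellC s π) b) := by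
        intro hb
        refine ok_stop4 h2 (O1_rlA _ _ _ _ _ ?_)
        intro st O heq
        exact hb _ heq.symm
      rcases b with x | b | r | i
      · exact h4 (fun i hi => by cases hi)
      · exact h4 (fun i hi => by cases hi)
      · exact h4 (fun i hi => by cases hi)
      · rcases i with _ | j
        · exact ih _ h2
        · exact lcell_ok s j η (.ret π) _ h2 ih
    | false =>
      refine ⟨Or.inl fun st O => rfl, ?_⟩
      intro b
      have h2 : GI a n m (e.upB (tellC s π) b) :=
        gi_silB h (fun c => .ix (lkL c.own s π)) b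
      have h4 : (∀ i, b ≠ .ix i) →
          OkE N L a n m (.stop 4 : PT X S J K V Mg StA StB) (e.upB (tellC s π) b) := by
        intro hb
        refine ok_stop4 h2 (O1_rlB _ _ _ _ _ ?_)
        intro st O heq
        exact hb _ heq.symm
      rcases b with x | b | r | i
      · exact h4 (fun i hi => by cases hi)
      · exact h4 (fun i hi => by cases hi)
      · exact h4 (fun i hi => by cases hi)
      · rcases i with _ | j
        · exact ih _ h2
        · exact lcell_ok s j η (.ret π) _ h2 ih

theorem keyStep_ok (s : S) (cont : Env X S J K V StA StB RA RB → PT X S J K V Mg StA StB)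
    (h : GI a n m e)
    (hc : ∀ e' : Env X S J K V StA StB RA RB, GI a n m e' → OkE N L a n m (cont e') e') :
    OkE N L a n m (keyStep e s cont) e := by
  intro η _ u _
  have h1 : GI a n m (((e.kna (.c s none) η).kna (.h η) u).setTr η s) := gi_key h s η u
  have h0 := hc _ h1
  rcases htr : e.T.tr η with _ | y
  · rcases hpr : e.T.pr η with _ | ⟨o, P, r⟩
    · simp only
      exact h0
    · simp only
      exact openL_ok o s η P cont hc _ h1
  · simp only
    exact h0

/-- the evaluation by the owner touches only cells -/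
private theorem O2_leak_cel {St : Type} (F : S → List J → Comp X K V) (η : K) (P : List K)
    (c : CS St S J K) (O : Th X S J K → K) :
    ∀ d ∈ (leakC F η P c : Comp _ _ (_ × Pb Mg J V)).asked O, cel d := by
  intro d hd
  unfold leakC at hd
  split at hd
  · split at hd
    · rw [Comp.asked_bind, asked_lift] at hd
      rcases List.mem_append.1 hd with h1 | h1
      · obtain ⟨x, -, rfl⟩ := List.mem_map.1 h1
        exact trivial
      · exact absurd h1 (by simp)
    · exact absurd hd (by simp)
  · exact absurd hd (by simp)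

/-- the result of the evaluation by the owner is a leaked value -/
private theorem O2_leak_lk {St : Type} (F : S → List J → Comp X K V) (η : K) (P : List K)
    (c : CS St S J K) (O : Th X S J K → K) :
    ∃ r, ((leakC F η P c : Comp _ _ (_ × Pb Mg J V)).run O).2 = .lk r := by
  unfold leakC
  split
  · split
    · exact ⟨_, by rw [Comp.run_bind]; rfl⟩
    · exact ⟨none, rfl⟩
  · exact ⟨none, rfl⟩

/-- A leaf which is not reached is fine. -/
private theorem O2_stop4 {A' : Sd (Th X S J K) K (CS StA S J K) RA}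
    {B' : Sd (Th X S J K) K (CS StB S J K) RB}
    {kn : List (Th X S J K × K)} (hA : Bd SV (nn a n m) A' kn)
    (hB : Bd SV (nn a n m) B' kn) (hr : rl SV A' B' kn = ∅) :
    (.stop 4 : PT X S J K V Mg StA StB).Ok SV cel N L (nn a n m) A' B' kn :=
  ⟨hA, hB, fun h4 => absurd h4 (by decide), fun h4 => absurd h4 (by decide), fun _ => hr, le_refl _⟩

/-- Row O2. -/
theorem leakStep_ok (F : S → List J → Comp X K V)
    (hF : ∀ f s js, ((F s js).asked f).length ≤ m) (η : K)
    (cont : Env X S J K V StA StB RA RB → PT X S J K V Mg StA StB) (h : GI a n m e)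
    (hp : e.pend = some η) (hL : Lt SV cel N cel e.A e.B e.kn)
    (hc : ∀ e' : Env X S J K V StA StB RA RB, GI a n m e' → OkE N L a n m (cont e') e') :
    OkE N L a n m (leakStep F e η cont) e := by
  unfold leakStep
  split
  · next P r0 hT =>
    refine ⟨Or.inr ⟨hL, Or.inr fun st O => O2_leak_cel F η P st O,
      gi_bd_leakA F hF h η P ⟨η, P, r0, hp, hT⟩, gi_bdB h⟩, ?_⟩
    intro b
    have hno : ∀ b' : Pb Mg J V, (∀ r, b' ≠ .lk r) →
        (.stop 4 : PT X S J K V Mg StA StB).Ok SV cel N L (nn a n m)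
          (e.A.upd (leakC F η P) b') e.B e.kn := by
      intro b' hb'
      have hP : ∀ r O, ¬ (e.A.upd (leakC F η P) b').P r O := by
        rintro r O ⟨-, h2⟩
        obtain ⟨r', hr'⟩ := O2_leak_lk (Mg := Mg) F η P (e.A.s r O) O
        rw [hr'] at h2
        exact hb' r' h2.symm
      refine O2_stop4 ?_ (gi_bdB h) ?_
      · intro p hp'
        rw [mem_sup] at hp'
        exact absurd hp'.1 (hP _ _)
      · refine Finset.eq_empty_of_forall_notMem fun w hw => ?_
        rw [mem_rl] at hw
        exact hP _ _ hw.1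
    match b with
    | .lk r => exact hc _ (gi_leakA F hF h η P r0 r (.lk r) hp hT)
    | .msg x => exact hno _ (fun r => by simp)
    | .bit x => exact hno _ (fun r => by simp)
    | .ix x => exact hno _ (fun r => by simp)
  · next P r0 hT =>
    refine ⟨Or.inr ⟨hL, Or.inr fun st O => O2_leak_cel F η P st O, gi_bdA h,
      gi_bd_leakB F hF h η P ⟨η, P, r0, hp, hT⟩⟩, ?_⟩
    intro b
    have hno : ∀ b' : Pb Mg J V, (∀ r, b' ≠ .lk r) →
        (.stop 4 : PT X S J K V Mg StA StB).Ok SV cel N L (nn a n m)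
          e.A (e.B.upd (leakC F η P) b') e.kn := by
      intro b' hb'
      have hP : ∀ r O, ¬ (e.B.upd (leakC F η P) b').P r O := by
        rintro r O ⟨-, h2⟩
        obtain ⟨r', hr'⟩ := O2_leak_lk (Mg := Mg) F η P (e.B.s r O) O
        rw [hr'] at h2
        exact hb' r' h2.symm
      refine O2_stop4 (gi_bdA h) ?_ ?_
      · intro p hp'
        rw [mem_sup] at hp'
        exact absurd hp'.1 (hP _ _)
      · refine Finset.eq_empty_of_forall_notMem fun w hw => ?_
        rw [mem_rl] at hw
        exact hP _ _ hw.2.1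
    match b with
    | .lk r => exact hc _ (gi_leakB F hF h η P r0 r (.lk r) hp hT)
    | .msg x => exact hno _ (fun r => by simp)
    | .bit x => exact hno _ (fun r => by simp)
    | .ix x => exact hno _ (fun r => by simp)
  · next hT =>
    exact hc _ (gi_leak0 h)

private theorem O3_rlA (Z : Sd (Th X S J K) K (CS StA S J K) RA)
    (Y : Sd (Th X S J K) K (CS StB S J K) RB) (kn : List (Th X S J K × K))
    (c : CS StA S J K → Comp (Th X S J K) K (CS StA S J K × Pb Mg J V)) (b : Pb Mg J V)
    (h : ∀ st O, ((c st).run O).2 ≠ b) : rl SV (Z.upd c b) Y kn = ∅ := by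
  apply Finset.eq_empty_of_forall_notMem
  intro w hw
  unfold rl at hw
  rw [Finset.mem_filter] at hw
  exact h _ _ hw.2.1.2

private theorem O3_rlB (Z : Sd (Th X S J K) K (CS StA S J K) RA)
    (Y : Sd (Th X S J K) K (CS StB S J K) RB) (kn : List (Th X S J K × K))
    (c : CS StB S J K → Comp (Th X S J K) K (CS StB S J K × Pb Mg J V)) (b : Pb Mg J V)
    (h : ∀ st O, ((c st).run O).2 ≠ b) : rl SV Z (Y.upd c b) kn = ∅ := by
  apply Finset.eq_empty_of_forall_notMem
  intro w hw
  unfold rl at hw
  rw [Finset.mem_filter] at hw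
  exact h _ _ hw.2.2.1.2

omit [Finite X] [Finite S] [Finite J] [Fintype K] [Nonempty K] in
private theorem O3_ownH {St : Type} {η : K} {c : CS St S J K} {q : List (Th X S J K)}
    {O : Th X S J K → K} (hc : Cn c.own q O) (h : ownH η c = true) :
    ∃ u ∈ c.own, (.h η : Th X S J K) = itm O u.1 u.2.1 := by
  unfold ownH at h
  obtain ⟨s, hs⟩ := Option.isSome_iff_exists.1 h
  have h1 := lkH_some hs
  refine ⟨(s, none, η), h1, ?_⟩
  have h2 := (hc.val _ h1).1
  show (.h η : Th X S J K) = .h (O (.c s none))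
  exact congrArg _ h2

private theorem O3_if {c : Prop} [Decidable c] {p q : PT X S J K V Mg StA StB}
    (hp : c → OkE N L a n m p e) (hq : ¬ c → OkE N L a n m q e) :
    OkE N L a n m (if c then p else q) e := by
  by_cases h : c
  · rw [if_pos h]
    exact hp h
  · rw [if_neg h]
    exact hq h

/-- Row O3. -/
theorem handleStep_ok (η : K)
    (cont : Env X S J K V StA StB RA RB → PT X S J K V Mg StA StB) (h : GI a n m e)
    (hp : e.pend = none) (hη : .h η ∉ e.kn.map Prod.fst)
    (hc : ∀ e' : Env X S J K V StA StB RA RB, GI a n m e' → OkE N L a n m (cont e') e') :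
    OkE N L a n m (handleStep e η cont) e := by
  intro v _
  have h1 : GI a n m (e.kna (.h η) v) := gi_item h (.h η) (fun h => h) v
  refine ⟨Or.inl fun st O => rfl, ?_⟩
  intro m1
  refine ⟨Or.inl fun st O => rfl, ?_⟩
  intro m2
  have h2 : GI a n m (((e.kna (.h η) v).upA (bitH η) m1).upB (bitH η) m2) :=
    gi_silB (gi_silA h1 (fun c => .bit (ownH η c)) m1) (fun c => .bit (ownH η c)) m2
  have hkn : (.h η : Th X S J K) ∈
      (((e.kna (.h η) v).upA (bitH η) m1).upB (bitH η) m2).kn.map Prod.fst := by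
    show (.h η : Th X S J K) ∈ (e.kn ++ [((.h η : Th X S J K), v)]).map Prod.fst
    rw [List.map_append, List.mem_append]
    exact Or.inr (List.mem_singleton.2 rfl)
  have hpA : (.h η : Th X S J K) ∉ e.pA := fun hin => hη (h.wA _ hin)
  have hpB : (.h η : Th X S J K) ∉ e.pB := fun hin => hη (h.wB _ hin)
  have hmA : ∀ b : Pb Mg J V, (∀ x : Bool, b ≠ .bit x) → m1 = b →
      rl SV (((e.kna (.h η) v).upA (bitH η) m1).upB (bitH η) m2).A
        (((e.kna (.h η) v).upA (bitH η) m1).upB (bitH η) m2).B
        (((e.kna (.h η) v).upA (bitH η) m1).upB (bitH η) m2).kn = ∅ := by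
    intro b hb hm
    refine O3_rlA _ _ _ _ _ ?_
    intro st O heq
    exact hb (ownH η st) (hm ▸ heq.symm)
  have hmB : ∀ b : Pb Mg J V, (∀ x : Bool, b ≠ .bit x) → m2 = b →
      rl SV (((e.kna (.h η) v).upA (bitH η) m1).upB (bitH η) m2).A
        (((e.kna (.h η) v).upA (bitH η) m1).upB (bitH η) m2).B
        (((e.kna (.h η) v).upA (bitH η) m1).upB (bitH η) m2).kn = ∅ := by
    intro b hb hm
    refine O3_rlB _ _ _ _ _ ?_
    intro st O heq
    exact hb (ownH η st) (hm ▸ heq.symm)
  have hstA : (∀ x : Bool, m1 ≠ .bit x) →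
      OkE N L a n m (.stop 4 : PT X S J K V Mg StA StB)
        (((e.kna (.h η) v).upA (bitH η) m1).upB (bitH η) m2) :=
    fun hb => ok_stop4 h2 (hmA m1 hb rfl)
  have hstB : (∀ x : Bool, m2 ≠ .bit x) →
      OkE N L a n m (.stop 4 : PT X S J K V Mg StA StB)
        (((e.kna (.h η) v).upA (bitH η) m1).upB (bitH η) m2) :=
    fun hb => ok_stop4 h2 (hmB m2 hb rfl)
  have h3 : OkE N L a n m (.stop 3 : PT X S J K V Mg StA StB)
      (((e.kna (.h η) v).upA (bitH η) m1).upB (bitH η) m2) := ok_stop h2 3 (Or.inr rfl)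
  match m1, m2 with
  | .bit false, .bit false => exact hc _ h2
  | .bit true, .bit false =>
    refine O3_if (c := desH e η) (fun _ => ?_) (fun _ => h3)
    refine hc _ (gi_confA h2 η (.h η) _ hkn hpA hp ?_)
    intro p hp'
    have h4 := (h2.sA p hp').cn
    rw [mem_sup] at hp'
    exact O3_ownH h4 (Pb.bit.inj hp'.1.2)
  | .bit false, .bit true =>
    refine O3_if (c := desH e η) (fun _ => h3) (fun _ => ?_)
    refine hc _ (gi_confB h2 η (.h η) _ hkn hpB hp ?_)
    intro p hp'
    have h4 := (h2.sB p hp').cn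
    rw [mem_sup] at hp'
    exact O3_ownH h4 (Pb.bit.inj hp'.1.2)
  | .bit true, .bit true => exact h3
  | .msg x, _ => exact hstA (fun x hx => by cases hx)
  | .lk x, _ => exact hstA (fun x hx => by cases hx)
  | .ix x, _ => exact hstA (fun x hx => by cases hx)
  | .bit false, .msg x => exact hstB (fun x hx => by cases hx)
  | .bit true, .msg x => exact hstB (fun x hx => by cases hx)
  | .bit false, .lk x => exact hstB (fun x hx => by cases hx)
  | .bit true, .lk x => exact hstB (fun x hx => by cases hx)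
  | .bit false, .ix x => exact hstB (fun x hx => by cases hx)
  | .bit true, .ix x => exact hstB (fun x hx => by cases hx)

private theorem O3b_rlA (Z : Sd (Th X S J K) K (CS StA S J K) RA)
    (Y : Sd (Th X S J K) K (CS StB S J K) RB)
    (kn : List (Th X S J K × K))
    (c : CS StA S J K → Comp (Th X S J K) K (CS StA S J K × Pb Mg J V)) (b : Pb Mg J V)
    (h : ∀ st O, ((c st).run O).2 ≠ b) : rl SV (Z.upd c b) Y kn = ∅ := by
  apply Finset.eq_empty_of_forall_notMem
  intro w hw
  unfold rl at hw
  rw [Finset.mem_filter] at hw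
  exact h _ _ hw.2.1.2

private theorem O3b_rlB (Z : Sd (Th X S J K) K (CS StA S J K) RA)
    (Y : Sd (Th X S J K) K (CS StB S J K) RB)
    (kn : List (Th X S J K × K))
    (c : CS StB S J K → Comp (Th X S J K) K (CS StB S J K × Pb Mg J V)) (b : Pb Mg J V)
    (h : ∀ st O, ((c st).run O).2 ≠ b) : rl SV Z (Y.upd c b) kn = ∅ := by
  apply Finset.eq_empty_of_forall_notMem
  intro w hw
  unfold rl at hw
  rw [Finset.mem_filter] at hw
  exact h _ _ hw.2.2.1.2

private theorem O3b_rlA2 (Z : Sd (Th X S J K) K (CS StA S J K) RA)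
    (Y : Sd (Th X S J K) K (CS StB S J K) RB)
    (kn : List (Th X S J K × K))
    (c : CS StA S J K → Comp (Th X S J K) K (CS StA S J K × Pb Mg J V)) (b : Pb Mg J V)
    (h : ∀ st O, ((c st).run O).2 ≠ b)
    (c' : CS StB S J K → Comp (Th X S J K) K (CS StB S J K × Pb Mg J V)) (b' : Pb Mg J V) :
    rl SV (Z.upd c b) (Y.upd c' b') kn = ∅ := O3b_rlA Z (Y.upd c' b') kn c b h

private theorem O3b_if {c : Prop} [Decidable c] {p q : PT X S J K V Mg StA StB}
    (hp : c → OkE N L a n m p e) (hq : ¬ c → OkE N L a n m q e) :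
    OkE N L a n m (if c then p else q) e := by
  by_cases h : c
  · rw [if_pos h]
    exact hp h
  · rw [if_neg h]
    exact hq h

private theorem O3b_own {St : Type} {pd : Prop} {p : Finset (Th X S J K)} {c : CS St S J K}
    {q : List (Th X S J K)} {O : Th X S J K → K} (h : SI a n m pd p c q O) {η π : K}
    (ho : ownL η π c = true) : ∃ u ∈ c.own, (.l η π : Th X S J K) = itm O u.1 u.2.1 := by
  unfold ownL at ho
  rcases hl : lkH c.own η with _ | s
  · rw [hl] at ho
    exact absurd ho (by simp)
  · rw [hl] at ho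
    have h1 := lkH_some hl
    obtain ⟨j, hj⟩ := Option.isSome_iff_exists.1 ho
    have h2 := lkL_some hj
    have h3 : η = O (.c s none) := (h.cn.val _ h1).1
    have h4 : π = O (.c s (some j)) := (h.cn.val _ h2).1
    refine ⟨(s, some j, π), h2, ?_⟩
    show (.l η π : Th X S J K) = .l (O (.c s none)) (O (.c s (some j)))
    rw [← h3, ← h4]

theorem openStep_ok (d : Prop) (s : S) (η π : K)
    (cont : Env X S J K V StA StB RA RB → PT X S J K V Mg StA StB) (h : GI a n m e)
    (hc : ∀ e' : Env X S J K V StA StB RA RB, GI a n m e' → OkE N L a n m (cont e') e') :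
    OkE N L a n m (openStep d e s η π cont) e := by
  refine ⟨Or.inl fun st O => rfl, ?_⟩
  intro m1
  refine ⟨Or.inl fun st O => rfl, ?_⟩
  intro m2
  have h2 : GI a n m ((e.upA (tellC s π) m1).upB (tellC s π) m2) :=
    gi_silB (gi_silA h (fun c => .ix (lkL c.own s π)) m1) (fun c => .ix (lkL c.own s π)) m2
  have hmA : (∀ i, m1 ≠ .ix i) → OkE N L a n m (.stop 4 : PT X S J K V Mg StA StB)
      ((e.upA (tellC s π) m1).upB (tellC s π) m2) := fun hm =>
    ok_stop4 h2 (O3b_rlA2 e.A e.B e.kn (tellC s π) m1 (fun st O heq => hm _ heq.symm)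
      (tellC s π) m2)
  have hmB : (∀ i, m2 ≠ .ix i) → OkE N L a n m (.stop 4 : PT X S J K V Mg StA StB)
      ((e.upA (tellC s π) m1).upB (tellC s π) m2) := fun hm =>
    ok_stop4 h2 (O3b_rlB (e.A.upd (tellC s π) m1) e.B e.kn (tellC s π) m2
      (fun st O heq => hm _ heq.symm))
  have h3 := ok_stop (N := N) (L := L) (Mg := Mg) (V := V) h2 3 (Or.inr rfl)
  rcases m1 with x1 | b1 | r1 | i1
  · have hst := hmA (fun i hi => by cases hi)
    rcases m2 with x2 | b2 | r2 | i2 <;> exact hst
  · have hst := hmA (fun i hi => by cases hi)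
    rcases m2 with x2 | b2 | r2 | i2 <;> exact hst
  · have hst := hmA (fun i hi => by cases hi)
    rcases m2 with x2 | b2 | r2 | i2 <;> exact hst
  · rcases m2 with x2 | b2 | r2 | i2
    · have hst := hmB (fun i hi => by cases hi)
      rcases i1 with _ | j1 <;> exact hst
    · have hst := hmB (fun i hi => by cases hi)
      rcases i1 with _ | j1 <;> exact hst
    · have hst := hmB (fun i hi => by cases hi)
      rcases i1 with _ | j1 <;> exact hst
    · rcases i1 with _ | j1
      · rcases i2 with _ | j2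
        · exact hc _ h2
        · exact O3b_if (c := d) (fun _ => h3) (fun _ => lcell_ok s j2 η _ cont h2 hc)
      · rcases i2 with _ | j2
        · exact O3b_if (c := d) (fun _ => lcell_ok s j1 η _ cont h2 hc) (fun _ => h3)
        · exact h3

theorem labelStep_ok (η π : K)
    (cont : Env X S J K V StA StB RA RB → PT X S J K V Mg StA StB) (h : GI a n m e)
    (hp : e.pend = none) (hη : .l η π ∉ e.kn.map Prod.fst)
    (hc : ∀ e' : Env X S J K V StA StB RA RB, GI a n m e' → OkE N L a n m (cont e') e') :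
    OkE N L a n m (labelStep e η π cont) e := by
  intro v _
  have h1 : GI a n m (e.kna (.l η π) v) := gi_item h (.l η π) (fun h => h) v
  have hkn : (.l η π : Th X S J K) ∈ (e.kna (.l η π) v).kn.map Prod.fst := by
    show (.l η π : Th X S J K) ∈ (e.kn ++ [((.l η π : Th X S J K), v)]).map Prod.fst
    rw [List.map_append, List.mem_append]
    exact Or.inr (List.mem_singleton.2 rfl)
  have hpA : (.l η π : Th X S J K) ∉ e.pA := fun hin => hη (h.wA _ hin)
  have hpB : (.l η π : Th X S J K) ∉ e.pB := fun hin => hη (h.wB _ hin)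
  rcases htr : e.T.tr η with _ | y
  · rcases hpr : e.T.pr η with _ | ⟨o, P, r⟩
    · simp only
      exact hc _ h1
    · cases o
      · simp only
        refine ⟨Or.inl fun st O => rfl, ?_⟩
        intro b
        have h2 : GI a n m ((e.kna (.l η π) v).upB (bitL η π) b) :=
          gi_silB h1 (fun c => .bit (ownL η π c)) b
        have h4 : (∀ i, b ≠ .bit i) → OkE N L a n m (.stop 4 : PT X S J K V Mg StA StB)
            ((e.kna (.l η π) v).upB (bitL η π) b) := fun hm =>
          ok_stop4 h2 (O3b_rlB _ _ _ (bitL η π) b (fun st O heq => hm _ heq.symm))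
        rcases b with x | b | r' | i
        · exact h4 (fun i hi => by cases hi)
        · cases b
          · exact hc _ h2
          · refine hc _ (gi_confB h2 η (.l η π) _ hkn hpB hp ?_)
            intro p hp'
            have h5 := h2.sB p hp'
            unfold sup at hp'
            rw [Finset.mem_filter] at hp'
            have h6 : (Pb.bit (ownL η π (e.B.s p.1 p.2.1)) : Pb Mg J V) = .bit true := hp'.2.1.2
            exact O3b_own h5 (Pb.bit.inj h6)
        · exact h4 (fun i hi => by cases hi)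
        · exact h4 (fun i hi => by cases hi)
      · simp only
        refine ⟨Or.inl fun st O => rfl, ?_⟩
        intro b
        have h2 : GI a n m ((e.kna (.l η π) v).upA (bitL η π) b) :=
          gi_silA h1 (fun c => .bit (ownL η π c)) b
        have h4 : (∀ i, b ≠ .bit i) → OkE N L a n m (.stop 4 : PT X S J K V Mg StA StB)
            ((e.kna (.l η π) v).upA (bitL η π) b) := fun hm =>
          ok_stop4 h2 (O3b_rlA _ _ _ (bitL η π) b (fun st O heq => hm _ heq.symm))
        rcases b with x | b | r' | i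
        · exact h4 (fun i hi => by cases hi)
        · cases b
          · exact hc _ h2
          · refine hc _ (gi_confA h2 η (.l η π) _ hkn hpA hp ?_)
            intro p hp'
            have h5 := h2.sA p hp'
            unfold sup at hp'
            rw [Finset.mem_filter] at hp'
            have h6 : (Pb.bit (ownL η π (e.A.s p.1 p.2.1)) : Pb Mg J V) = .bit true := hp'.2.1.2
            exact O3b_own h5 (Pb.bit.inj h6)
        · exact h4 (fun i hi => by cases hi)
        · exact h4 (fun i hi => by cases hi)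
  · simp only
    rcases hop : e.T.op y π with _ | j
    · simp only
      exact openStep_ok (desL e y π) y η π cont h1 hc
    · simp only
      exact hc _ h1

/-! ## Row O4.  The leaf `.stop 4` after the cells: a heavy cell `.c s (some j)` with `.c s none`
unknown is excluded, since who has touched `.c s (some j)` has touched `.c s none` (`Cn.hd`), so
`.c s none` would be heavy. -/

private theorem O4_touch {St : Type} {pd : Prop} {p : Finset (Th X S J K)} {c : CS St S J K}
    {q : List (Th X S J K)} {O : Th X S J K → K} (h : SI a n m pd p c q O) (s : S) (j : J)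
    (hj : .c s (some j) ∈ q) : .c s none ∈ q :=
  (h.cn.val _ (h.cn.hd _ (h.cn.keys s (some j) hj))).2

theorem hv_cell (h : GI a n m e) (s : S) (j : J)
    (h1 : Hv SV cel N e.A e.B e.kn (.c s (some j)))
    (h2 : ¬ Hv SV cel N e.A e.B e.kn (.c s none)) : ∃ v, (.c s none, v) ∈ e.kn := by
  have hA : tA SV cel e.A e.B e.kn (.c s (some j)) ≤ tA SV cel e.A e.B e.kn (.c s none) := by
    refine Finset.card_le_card fun z hz => ?_
    rw [Finset.mem_filter] at hz ⊢
    have hz1 := (Finset.mem_product.1 (Finset.mem_filter.1 hz.1).1).1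
    exact ⟨hz.1, O4_touch (h.sA z.1 hz1) s j hz.2⟩
  have hB : tB SV cel e.A e.B e.kn (.c s (some j)) ≤ tB SV cel e.A e.B e.kn (.c s none) := by
    refine Finset.card_le_card fun z hz => ?_
    rw [Finset.mem_filter] at hz ⊢
    have hz1 := (Finset.mem_product.1 (Finset.mem_filter.1 hz.1).1).2
    exact ⟨hz.1, O4_touch (h.sB z.2 hz1) s j hz.2⟩
  have hle : (gp SV cel e.A e.B e.kn).card ≤
      N * (tA SV cel e.A e.B e.kn (.c s none) + tB SV cel e.A e.B e.kn (.c s none)) :=
    le_trans h1.2 (Nat.mul_le_mul_left _ (Nat.add_le_add hA hB))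
  have hk : (.c s none : Th X S J K) ∈ e.kn.map Prod.fst := by
    by_contra hcon
    exact h2 ⟨hcon, hle⟩
  obtain ⟨w, hw, hw1⟩ := List.mem_map.1 hk
  exact ⟨w.2, by rw [← hw1]; exact hw⟩

private theorem O4_stop0 (h : GI a n m e) (hl : Lgt N L e) :
    OkE N L a n m (.stop 0 : PT X S J K V Mg StA StB) e :=
  ⟨gi_bdA h, gi_bdB h, fun _ => hl.1, fun h => absurd h (by omega), fun h => absurd h (by omega),
    by omega⟩

private theorem O4_stop2 (h : GI a n m e) (hl : ¬ Gd SV cel e.A e.B e.kn) :
    OkE N L a n m (.stop 2 : PT X S J K V Mg StA StB) e :=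
  ⟨gi_bdA h, gi_bdB h, fun h => absurd h (by omega), fun _ => hl, fun h => absurd h (by omega),
    by omega⟩

theorem body_ok (F : S → List J → Comp X K V)
    (hF : ∀ f s js, ((F s js).asked f).length ≤ m)
    (cont : Env X S J K V StA StB RA RB → PT X S J K V Mg StA StB)
    (k : PT X S J K V Mg StA StB) (h : GI a n m e) (hk : Lgt N L e → OkE N L a n m k e)
    (hc : ∀ e' : Env X S J K V StA StB RA RB, GI a n m e' → OkE N L a n m (cont e') e') :
    OkE N L a n m (body F N L e cont k) e := by
  unfold body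
  by_cases h1 : Lgt N L e
  · rw [if_pos h1]
    exact hk h1
  rw [if_neg h1]
  by_cases h2 : Gd SV cel e.A e.B e.kn
  swap
  · rw [if_pos h2]
    exact O4_stop2 h h2
  rw [if_neg (not_not.2 h2)]
  by_cases hx : ∃ x, Hv SV cel N e.A e.B e.kn (.x x)
  · rw [dif_pos hx]
    exact xStep_ok _ cont h hc
  rw [dif_neg hx]
  by_cases hs : ∃ s, Hv SV cel N e.A e.B e.kn (.c s none)
  · rw [dif_pos hs]
    exact keyStep_ok _ cont h hc
  rw [dif_neg hs]
  by_cases hj : ∃ z : S × J × K, Hv SV cel N e.A e.B e.kn (.c z.1 (some z.2.1)) ∧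
      (.c z.1 none, z.2.2) ∈ e.kn
  · rw [dif_pos hj]
    exact lcell_ok _ _ _ _ cont h hc
  rw [dif_neg hj]
  have h3 : ¬ ∃ d, cel d ∧ Hv SV cel N e.A e.B e.kn d := by
    rintro ⟨d, hd, hv⟩
    cases d with
    | x x => exact hx ⟨x, hv⟩
    | c s j =>
      cases j with
      | none => exact hs ⟨s, hv⟩
      | some j =>
        obtain ⟨v, hv'⟩ := hv_cell h s j hv fun h' => hs ⟨s, h'⟩
        exact hj ⟨(s, j, v), hv, hv'⟩
    | h η => exact hd
    | l η π => exact hd
  rw [if_neg h3]
  have hL := lt_of_not_hv (e := e) N cel h3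
  cases hp : e.pend with
  | some η => exact leakStep_ok F hF η cont h hp hL hc
  | none =>
    by_cases h4 : ∃ η, Hv SV cel L e.A e.B e.kn (.h η)
    · simp only [dif_pos h4]
      exact handleStep_ok _ cont h hp h4.choose_spec.1 hc
    simp only [dif_neg h4]
    by_cases h5 : ∃ z : K × K, Hv SV cel L e.A e.B e.kn (.l z.1 z.2)
    · simp only [dif_pos h5]
      exact labelStep_ok _ _ cont h hp h5.choose_spec.1 hc
    exfalso
    refine h1 ⟨hL, lt_of_not_hv (e := e) L (fun d => ¬ cel d) ?_, hp⟩
    rintro ⟨d, hd, hv⟩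
    cases d with
    | x x => exact hd trivial
    | c s j => exact hd trivial
    | h η => exact h4 ⟨η, hv⟩
    | l η π => exact h5 ⟨(η, π), hv⟩

theorem closeT_ok (F : S → List J → Comp X K V)
    (hF : ∀ f s js, ((F s js).asked f).length ≤ m)
    (k : ℕ → Env X S J K V StA StB RA RB → PT X S J K V Mg StA StB)
    (hk : ∀ j e, GI a n m e → Lgt N L e → OkE N L a n m (k j e) e) :
    ∀ j (e : Env X S J K V StA StB RA RB), GI a n m e → OkE N L a n m (closeT F N L k j e) e := by
  intro j
  induction j with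
  | zero =>
    intro e h
    unfold closeT
    split_ifs with h1
    · exact hk 0 e h h1
    · exact ok_stop h 1 (Or.inl rfl)
  | succ j ih =>
    intro e h
    unfold closeT
    exact body_ok F hF _ _ h (hk (j + 1) e h) ih

variable {I I' : Type} (A : Party (Qry X S J K) (Ans J K V) Mg I)
  (B : Party (Qry X S J K) (Ans J K V) Mg I')

omit [Finite X] [Finite S] [Finite J] [Fintype K] [Nonempty K] in
private theorem O4_msg {St : Type} (F : S → List J → Comp X K V) (G : V → List ℕ → Comp X K V)
    (P : Party (Qry X S J K) (Ans J K V) Mg St) (m0 μ : Mg) (T : Tb S J K V)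
    (c : CS P.St S J K) (O : Th X S J K → K) :
    ∃ x, ((stepC a F G P m0 T μ c).run O).2 = .msg x := by
  unfold stepC
  rw [Comp.run_bind]
  split
  · exact ⟨_, rfl⟩
  · exact ⟨_, rfl⟩

private theorem O4_stopA (F : S → List J → Comp X K V) (G : V → List ℕ → Comp X K V)
    (hF : ∀ f s js, ((F s js).asked f).length ≤ m) (hG : ∀ f v i, ((G v i).asked f).length ≤ m)
    (m0 μ : Mg) (e : Env X S J K V A.St B.St RA RB) (h : GI a n m e) (hp : e.pend = none)
    (T : Tb S J K V) (b : Pb Mg J V) (hb : ∀ x, b ≠ .msg x) :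
    OkE N L a n m (.stop 4 : PT X S J K V Mg A.St B.St) (e.upA (stepC a F G A m0 T μ) b) := by
  refine ok_stop4 (gi_msgA A B F G hF hG m0 μ e h hp T b) ?_
  rw [rl, Finset.filter_eq_empty_iff]
  rintro w _ ⟨⟨_, h1⟩, _⟩
  obtain ⟨x, hx⟩ := O4_msg (a := a) F G A m0 μ T (e.A.s w.1 w.2.2.1) w.2.2.1
  exact hb x (h1.symm.trans hx)

private theorem O4_stopB (F : S → List J → Comp X K V) (G : V → List ℕ → Comp X K V)
    (hF : ∀ f s js, ((F s js).asked f).length ≤ m) (hG : ∀ f v i, ((G v i).asked f).length ≤ m)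
    (m0 μ : Mg) (e : Env X S J K V A.St B.St RA RB) (h : GI a n m e) (hp : e.pend = none)
    (T : Tb S J K V) (b : Pb Mg J V) (hb : ∀ x, b ≠ .msg x) :
    OkE N L a n m (.stop 4 : PT X S J K V Mg A.St B.St) (e.upB (stepC a F G B m0 T μ) b) := by
  refine ok_stop4 (gi_msgB A B F G hF hG m0 μ e h hp T b) ?_
  rw [rl, Finset.filter_eq_empty_iff]
  rintro w _ ⟨_, ⟨_, h1⟩, _⟩
  obtain ⟨x, hx⟩ := O4_msg (a := a) F G B m0 μ T (e.B.s w.2.1 w.2.2.1) w.2.2.1
  exact hb x (h1.symm.trans hx)

theorem build_ok (F : S → List J → Comp X K V) (G : V → List ℕ → Comp X K V)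
    (hF : ∀ f s js, ((F s js).asked f).length ≤ m) (hG : ∀ f v i, ((G v i).asked f).length ≤ m)
    (m0 : Mg) : ∀ (r : ℕ) (μ : Mg) (j : ℕ) (e : Env X S J K V A.St B.St RA RB), GI a n m e →
      OkE N L a n m (build A B a F G m0 N L r μ j e) e := by
  intro r
  induction r with
  | zero =>
    intro μ j e h
    unfold build
    exact closeT_ok F hF _ (fun j e h hl => O4_stop0 h hl) j e h
  | succ r ih =>
    intro μ j e h
    unfold build
    refine closeT_ok F hF _ (fun j e h hl => ?_) j e h
    refine ⟨Or.inr ⟨hl.1, Or.inl hl.2.1, gi_bd_msgA A B F G hF hG m0 μ e h e.T, gi_bdB h⟩, ?_⟩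
    intro b
    cases b with
    | msg x =>
      refine closeT_ok F hF _ (fun j e' h' hl' => ?_) j _
        (gi_msgA A B F G hF hG m0 μ e h hl.2.2 e.T _)
      refine ⟨Or.inr ⟨hl'.1, Or.inl hl'.2.1, gi_bdA h', gi_bd_msgB A B F G hF hG m0 x e' h' e'.T⟩,
        ?_⟩
      intro b'
      cases b' with
      | msg y => exact ih y j _ (gi_msgB A B F G hF hG m0 x e' h' hl'.2.2 e'.T _)
      | bit b => exact O4_stopB A B F G hF hG m0 x e' h' hl'.2.2 e'.T _ (by simp)
      | lk b => exact O4_stopB A B F G hF hG m0 x e' h' hl'.2.2 e'.T _ (by simp)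
      | ix b => exact O4_stopB A B F G hF hG m0 x e' h' hl'.2.2 e'.T _ (by simp)
    | bit b => exact O4_stopA A B F G hF hG m0 μ e h hl.2.2 e.T _ (by simp)
    | lk b => exact O4_stopA A B F G hF hG m0 μ e h hl.2.2 e.T _ (by simp)
    | ix b => exact O4_stopA A B F G hF hG m0 μ e h hl.2.2 e.T _ (by simp)

end Pool.Agent.Fe
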