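import Pool.Agent.Lib.MP_ae38e0_lc.Fe.Final

set_option autoImplicit false

/-!
# The barrier: definitions of the statement
-/

namespace Pool.Agent.Fe

open Pool.Agent.LinOT Classical

variable {k : ℕ} {T J K V M : Type}

/-- Queries, when `f` has the domain `{0,1}^k` and the keys are the pairs `(t, r)`, `r` of `k`
bits. -/
abbrev Qy (k : ℕ) (T J K : Type) : Type := Qry (Fin (2 ^ k)) (T × Fin (2 ^ k)) J K

/-- Worlds `(f, L)`, when `f` has the domain `{0,1}^k` and the keys are the pairs `(t, r)`, `r` of
`k` bits. -/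
abbrev Wo (k : ℕ) (T J K : Type) : Type := World (Fin (2 ^ k)) (T × Fin (2 ^ k)) J K

/-- What is revealed for the key `(t, r)` does not depend on `r`. -/
def onKey (F : T → List J → Comp (Fin (2 ^ k)) K V) :
    T × Fin (2 ^ k) → List J → Comp (Fin (2 ^ k)) K V := fun s => F s.1

/-- For lists `js` of at most `a` indices `F t js` is computed with at most `m` queries to `f`; and
if `js'` is a list of at most `a` elements of `js`, at the positions `i`, then `F t js'` can be
computed from `F t js` and `i`, by `G` with at most `m` queries. -/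
def Leakage (a : ℕ) (F : T → List J → Comp (Fin (2 ^ k)) K V)
    (G : V → List ℕ → Comp (Fin (2 ^ k)) K V) (m : ℕ) : Prop :=
  (∀ f t js, js.length ≤ a → ((F t js).asked f).length ≤ m) ∧
  (∀ f v i, i.length ≤ a → ((G v i).asked f).length ≤ m) ∧
  ∀ f t js js' (i : List ℕ), js.length ≤ a → js'.length ≤ a →
    js'.map some = i.map (fun x => js[x]?) → (G ((F t js).run f) i).run f = (F t js').run f

/-- An algorithm with at most `q` queries and calls to `E` finds, for uniformly random `x`, a
preimage of `f x` with probability at most `ε`. -/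
def Oneway (a : ℕ) (F : T → List J → Comp (Fin (2 ^ k)) K V)
    (E : List (M × M) → Comp (Qy k T J K) (Ans J K V) Bool) (q : ℕ) (ε : ℝ) : Prop :=
  ∀ C : K → Comp (Qy k T J K ⊕ List (M × M)) (Ans J K V ⊕ Bool) (Fin (2 ^ k)),
    (∀ y O, ((C y).asked (withAdv O E)).length ≤ q) →
    prob (fun p : Wo k T J K × Fin (2 ^ k) =>
      p.1.1 ((C (p.1.1 p.2)).run (withAdv (ora a (onKey F) p.1) E)) = p.1.1 p.2) ≤ ε

/-- The labels hide, adaptively.  Let `f` be any function.  An algorithm `C` gets the handle of the
key `(t0, r)` or of the key `(t1, r)`, `r` random, and may ask the oracles, `E`, and a label oracle: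
for a pair `(j0, j1)` it gets the label `j0` of `(t0, r)` in the first case, and the label `j1` of
`(t1, r)` in the second case.  If it asks at most `q` queries, and the pairs which it asks are always
fair (`Fair`: at most `a` pairs, no index twice in the first or in the second components, and
`F t0` of the first components is `F t1` of the second ones), then its advantage is at most `ε`. -/
def Hiding (a : ℕ) (F : T → List J → Comp (Fin (2 ^ k)) K V)
    (E : List (M × M) → Comp (Qy k T J K) (Ans J K V) Bool) (q : ℕ) (ε : ℝ) : Prop :=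
  ∀ (f : Fin (2 ^ k) → K) (t0 t1 : T)
    (C : K → Comp (Qy k T J K ⊕ List (M × M) ⊕ J × J) (Ans J K V ⊕ Bool ⊕ K) Bool),
    (∀ η O (lab : J × J → K), ((C η).asked (withLab O E lab)).length ≤ q ∧
      Fair a F f t0 t1 (lqs ((C η).asked (withLab O E lab)))) →
    |prob (fun p : (T × Fin (2 ^ k) → Option J → K) × Fin (2 ^ k) =>
        (C (p.1 (t0, p.2) none)).run (withLab (ora a (onKey F) (f, p.1)) E
          fun z => p.1 (t0, p.2) (some z.1)) = true) -
      prob (fun p : (T × Fin (2 ^ k) → Option J → K) × Fin (2 ^ k) =>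
        (C (p.1 (t1, p.2) none)).run (withLab (ora a (onKey F) (f, p.1)) E
          fun z => p.1 (t1, p.2) (some z.2)) = true)| ≤ ε

/-- `F`, made trivial for long lists. -/
noncomputable def trF (a : ℕ) (v0 : V) (F : T → List J → Comp (Fin (2 ^ k)) K V) (t : T)
    (js : List J) : Comp (Fin (2 ^ k)) K V := if js.length ≤ a then F t js else .ret v0

/-- `G`, made trivial for long lists. -/
noncomputable def trG (a : ℕ) (v0 : V) (G : V → List ℕ → Comp (Fin (2 ^ k)) K V) (v : V)
    (i : List ℕ) : Comp (Fin (2 ^ k)) K V := if i.length ≤ a then G v i else .ret v0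

/-- The oracle does not change. -/
theorem ora_tr (a : ℕ) (v0 : V) (F : T → List J → Comp (Fin (2 ^ k)) K V) :
    ora a (onKey (trF a v0 F)) = ora a (onKey F) := by
  funext w q
  cases q with
  | f x => rfl
  | enc s j => rfl
  | dec s π => rfl
  | ev η l =>
    unfold ora orc
    by_cases h : l.length ≤ a ∧ ∃! p, Mt w.2 η l p
    · have h1 := h.2.choose_spec.1.2
      have h2 : h.2.choose.2.length ≤ a := by
        rw [← h1, List.length_map] at h
        exact h.1
      simp only [dif_pos h]
      unfold onKey trF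
      rw [if_pos h2]
    · simp only [dif_neg h]

theorem fair_tr (a : ℕ) (v0 : V) (F : T → List J → Comp (Fin (2 ^ k)) K V)
    (f : Fin (2 ^ k) → K) (t0 t1 : T) (js : List (J × J)) (h : Fair a F f t0 t1 js) :
    Fair a (trF a v0 F) f t0 t1 js := by
  obtain ⟨h1, h2, h3, h4⟩ := h
  refine ⟨h1, h2, h3, ?_⟩
  unfold trF
  rw [if_pos (by simpa using h1), if_pos (by simpa using h1)]
  exact h4

theorem barrier_res [Fintype T] [Nonempty T] [Fintype J] [Fintype K] [Nonempty K]
    (a m N n h : ℕ) (F : T → List J → Comp (Fin (2 ^ k)) K V)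
    (G : V → List ℕ → Comp (Fin (2 ^ k)) K V) (R : Party (Qy k T J K) (Ans J K V) M Bool)
    (D : Party (Qy k T J K) (Ans J K V) M (Bool × Bool)) [Fintype R.Tape] [Fintype D.Tape]
    [Nonempty R.Tape] [Nonempty D.Tape] (out : R.St → Option Bool) (m0 : M)
    (hL : Leakage a F G m) (hn : 0 < n) (hh : 0 < h) (hna : n ≤ a)
    (hR : limited a (onKey F) R false N n)
    (hD : ∀ b, limited a (onKey F) D b N n) (δ : ℝ) (b1 : Bool)
    (hδ : ∀ b0, err a (onKey F) R D out N m0 false b0 b1 ≤ δ) (B : ℕ)
    (hB : B = 55296 * (n * (a + 3 * m + 4)) ^ 5 * h ^ 3) (C : ℝ)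
    (hC : C = 2 ^ k * Fintype.card T * (Fintype.card J + 1) / Fintype.card K) :
    ∃ E : List (M × M) → Comp (Qy k T J K) (Ans J K V) Bool,
      (∀ t O, ((E t).asked O).length ≤ B) ∧
      1 - 2 * δ - 6 / h - B ^ 4 * C ≤ advSum a (onKey F) R D N m0 E b1 ∧
      ∀ (q : ℕ) (I : ℝ), I = (B * q + 2) * (a + m + 4) →
        Oneway a F E q (I / 2 ^ k + I * C + 2 ^ k / Fintype.card K) ∧
        Hiding a F E q (2 * I / 2 ^ k + 2 * I * C) := by
  obtain ⟨v0, -⟩ : ∃ v0 : V, v0 = v0 :=
    ⟨(F (Classical.arbitrary T) []).run (fun _ => Classical.arbitrary K), rfl⟩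
  have hO : ora a (onKey (trF a v0 F)) = ora a (onKey F) := ora_tr a v0 F
  have e1 : ∀ {I' : Type} (P : Party (Qy k T J K) (Ans J K V) M I') (x : I'),
      limited a (onKey (trF a v0 F)) P x N n ↔ limited a (onKey F) P x N n := by
    intro I' P x
    unfold limited
    rw [hO]
  have e2 : ∀ c b0 b1, err a (onKey (trF a v0 F)) R D out N m0 c b0 b1 =
      err a (onKey F) R D out N m0 c b0 b1 := by
    intro c b0 b1
    unfold err play
    rw [hO]
  have e3 : ∀ E b1, advSum a (onKey (trF a v0 F)) R D N m0 E b1 =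
      advSum a (onKey F) R D N m0 E b1 := by
    intro E b1
    unfold advSum acc play
    rw [hO]
  obtain ⟨E, h1, h2, h3⟩ := barrier T J K V M k a m N n h (trF a v0 F) (trG a v0 G) R D out m0
    (fun f t js => by
      unfold trF
      split_ifs with h
      · exact hL.1 f t js h
      · simp)
    (fun f v i => by
      unfold trG
      split_ifs with h
      · exact hL.2.1 f v i h
      · simp)
    (fun f t js js' i hj hi => by
      have hl : js'.length = i.length := by
        have := congrArg List.length hi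
        simpa using this
      unfold trF trG
      rw [if_pos hj]
      by_cases h : js'.length ≤ a
      · rw [if_pos h, if_pos (hl ▸ h)]
        exact hL.2.2 f t js js' i hj h hi
      · rw [if_neg h, if_neg (hl ▸ h)])
    hn hh hna ((e1 R false).2 hR) (fun b => (e1 D b).2 (hD b)) δ b1
    (fun b0 => by
      have := hδ b0
      rw [← e2] at this
      exact this) B hB C hC
  refine ⟨E, h1, ?_, fun q I hI => ⟨?_, ?_⟩⟩
  · rw [← e3]
    exact h2
  · intro A hA
    have h4 := (h3 q I hI).1 A hA
    have hO' : ora a (fun s => trF a v0 F s.1) = ora a (onKey F) := hO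
    rw [hO'] at h4
    exact h4
  · intro f t0 t1 A hA
    have h4 := (h3 q I hI).2 f t0 t1 A
      (fun η O lab => ⟨(hA η O lab).1, fair_tr a v0 F f t0 t1 _ (hA η O lab).2⟩)
    have hO' : ora a (fun s => trF a v0 F s.1) = ora a (onKey F) := hO
    rw [hO'] at h4
    exact h4

end Pool.Agent.Fe
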