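import Pool.Agent.Lib.MP_ae38e0_lc.Model

set_option autoImplicit false

/-!
# Random functions with ideal functional encryption

`f : X → K` is a random function and `L : S → Option J → K` a random encoding: the secret key `s`
has the public handle `L s none` and the labels `L s (some j)` (ciphertexts, function keys, garbled
inputs, signatures ...).  Whoever knows a handle and a list of labels of one key can evaluate: the
result is a prescribed function `F s js` of the key `s` and the list `js` of the indices of the
labels, computed with queries to `f`.  Whoever knows `s` can find the index of a label.
-/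

namespace Pool.Agent.Fe

open Pool.Agent.LinOT Classical

/-- The queries: a value of `f`, the handle (`none`) or a label of the key `s`, the index of the
label `π` of the key `s`, and the evaluation for the handle `η` and the list `l` of labels. -/
inductive Qry (X S J K : Type) : Type
  | f : X → Qry X S J K
  | enc : S → Option J → Qry X S J K
  | dec : S → K → Qry X S J K
  | ev : K → List K → Qry X S J K

/-- The answers: a string, an index (if there is one), the result of an evaluation. -/
inductive Ans (J K V : Type) : Type
  | val : K → Ans J K V
  | ind : Option J → Ans J K V
  | res : Option V → Ans J K V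

/-- `η` is the handle of the key `p.1`, and `l` the list of its labels with the indices `p.2`. -/
def Mt {S J K : Type} (L : S → Option J → K) (η : K) (l : List K) (p : S × List J) : Prop :=
  L p.1 none = η ∧ p.2.map (fun j => L p.1 (some j)) = l

/-- The oracle of the real world; at most `a` labels can be evaluated together.  An evaluation
succeeds if there is exactly one key with the given handle and labels. -/
noncomputable def orc {X S J K V : Type} (a : ℕ) (F : S → List J → Comp X K V) (f : X → K)
    (L : S → Option J → K) : Qry X S J K → Ans J K V
  | .f x => .val (f x)
  | .enc s j => .val (L s j)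
  | .dec s π => .ind (if h : ∃! j, L s (some j) = π then some h.choose else none)
  | .ev η l => .res (if h : l.length ≤ a ∧ ∃! p, Mt L η l p then
      some ((F h.2.choose.1 h.2.choose.2).run f) else none)

/-- The things which can be touched: cells of `f`, cells of `L`, handles, labels. -/
inductive Th (X S J K : Type) : Type
  | x : X → Th X S J K
  | c : S → Option J → Th X S J K
  | h : K → Th X S J K
  | l : K → K → Th X S J K

instance {X S J K : Type} [Finite X] [Finite S] [Finite J] [Finite K] : Finite (Th X S J K) := by
  have : Function.Injective (fun t : Th X S J K => (match t with
    | .x x => .inl x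
    | .c s j => .inr (.inl (s, j))
    | .h η => .inr (.inr (.inl η))
    | .l η π => .inr (.inr (.inr (η, π))) : X ⊕ (S × Option J) ⊕ K ⊕ (K × K))) := by
    intro a b hab
    cases a <;> cases b <;> simp_all
  exact Finite.of_injective _ this

/-- The cells. -/
def cel {X S J K : Type} : Th X S J K → Prop
  | .x _ => True
  | .c _ _ => True
  | _ => False

/-- The value of the items. -/
noncomputable def k0 {K : Type} [Nonempty K] : K := Classical.arbitrary K

/-- The possible values of a thing. -/
noncomputable def SV {X S J K : Type} [Fintype K] [Nonempty K] (t : Th X S J K) : Finset K :=
  match t with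
  | .x _ => Finset.univ
  | .c _ _ => Finset.univ
  | .h _ => {k0}
  | .l _ _ => {k0}

/-- A computation with oracle `f`, run on the cells. -/
def lift {X S J K α : Type} : Comp X K α → Comp (Th X S J K) K α
  | .ret a => .ret a
  | .ask x next => .ask (.x x) fun v => lift (next v)

/-- The function `f` of an oracle. -/
def fO {X S J K : Type} (O : Th X S J K → K) : X → K := fun x => O (.x x)

/-- The encoding of an oracle. -/
def LO {X S J K : Type} (O : Th X S J K → K) : S → Option J → K := fun s j => O (.c s j)

/-- The item which belongs to a cell of `L`. -/
def itm {X S J K : Type} (O : Th X S J K → K) (s : S) : Option J → Th X S J K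
  | none => .h (O (.c s none))
  | some j => .l (O (.c s none)) (O (.c s (some j)))

/-- The labels of `s` with the given indices. -/
def lbs {X S J K : Type} (O : Th X S J K → K) (s : S) (js : List J) : List K :=
  js.map fun j => O (.c s (some j))

/-- The items of an evaluation. -/
def itev {X S J K : Type} (η : K) (l : List K) : List (Th X S J K) := .h η :: l.map (.l η)

/-- Apply a partial function to all elements of a list. -/
def rsv {α β : Type} (g : α → Option β) : List α → Option (List β)
  | [] => some []
  | x :: l => match g x, rsv g l with
    | some y, some r => some (y :: r)
    | _, _ => none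

/-- The position of `π` in the list `P`. -/
noncomputable def posn {K : Type} (P : List K) (π : K) : Option ℕ :=
  P.findIdx? fun x => decide (x = π)

/-- The handles and labels which a party has computed. -/
abbrev Own (S J K : Type) := List (S × Option J × K)

/-- The key with handle `η`. -/
noncomputable def lkH {S J K : Type} (own : Own S J K) (η : K) : Option S :=
  (own.find? fun e => decide (e.2.1 = none ∧ e.2.2 = η)).map Prod.fst

/-- The index of the label `π` of the key `s`. -/
noncomputable def lkL {S J K : Type} (own : Own S J K) (s : S) (π : K) : Option J :=
  (own.find? fun e => decide (e.1 = s ∧ e.2.1 ≠ none ∧ e.2.2 = π)).bind fun e => e.2.1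

section compile

variable {X S J K V : Type}

/-- What the public knows: `tr η` is the key of the handle `η` if it is known; `op s π` is the
index of the label `π` of the known key `s` if it is known; for a handle of an unknown key `pr η`
tells the owner (`true`: the first party), the public labels and the result of the evaluation for
them. -/
structure Tb (S J K V : Type) where
  tr : K → Option S
  op : S → K → Option J
  pr : K → Option (Bool × List K × Option V)

/-- The index of the label `π` of the key `s`: own or public. -/
noncomputable def dl (own : Own S J K) (T : Tb S J K V) (s : S) (π : K) : Option J :=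
  match lkL own s π with
  | some j => some j
  | none => T.op s π

/-- The evaluation for a key and a list of labels. -/
noncomputable def evK (F : S → List J → Comp X K V) (own : Own S J K) (T : Tb S J K V) (s : S)
    (l : List K) : Comp (Th X S J K) K (Option V) :=
  match rsv (dl own T s) l with
  | some js => (lift (F s js)).bind fun v => .ret (some v)
  | none => .ret none

/-- The local answer to an evaluation. -/
noncomputable def evA (F : S → List J → Comp X K V) (G : V → List ℕ → Comp X K V)
    (own : Own S J K) (T : Tb S J K V) (η : K) (l : List K) : Comp (Th X S J K) K (Option V) :=
  match lkH own η with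
  | some s => evK F own T s l
  | none => match T.tr η with
    | some s => evK F own T s l
    | none => match T.pr η with
      | some (_, P, some v) => match rsv (posn P) l with
        | some idx => (lift (G v idx)).bind fun u => .ret (some u)
        | none => .ret none
      | _ => .ret none

/-- A computation of the real world, run with local answers.  `n` is the number of queries which are
still allowed. -/
noncomputable def cmp {α : Type} (a : ℕ) (F : S → List J → Comp X K V)
    (G : V → List ℕ → Comp X K V) (T : Tb S J K V) :
    Comp (Qry X S J K) (Ans J K V) α → Own S J K → ℕ →
      Comp (Th X S J K) K (Option α × Own S J K × ℕ)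
  | .ret x, own, n => .ret (some x, own, n)
  | .ask _ _, own, 0 => .ret (none, own, 0)
  | .ask (.f x) next, own, n + 1 => .ask (.x x) fun v => cmp a F G T (next (.val v)) own n
  | .ask (.enc s none) next, own, n + 1 => .ask (.c s none) fun η => .ask (.h η) fun _ =>
      cmp a F G T (next (.val η)) (own ++ [(s, none, η)]) n
  | .ask (.enc s (some j)) next, own, n + 1 => .ask (.c s none) fun η => .ask (.h η) fun _ =>
      .ask (.c s (some j)) fun π => .ask (.l η π) fun _ =>
        cmp a F G T (next (.val π)) (own ++ [(s, none, η), (s, some j, π)]) n
  | .ask (.dec s π) next, own, n + 1 => .ask (.c s none) fun η => .ask (.h η) fun _ =>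
      .ask (.l η π) fun _ =>
        cmp a F G T (next (.ind (dl (own ++ [(s, none, η)]) T s π))) (own ++ [(s, none, η)]) n
  | .ask (.ev η l) next, own, n + 1 =>
      if l.length ≤ a then
        (Comp.askAll (itev η l)).bind fun _ =>
          (evA F G own T η l).bind fun r => cmp a F G T (next (.res r)) own n
      else cmp a F G T (next (.res none)) own n

/-- The state of a compiled party. -/
structure CS (St S J K : Type) where
  st : St
  own : Own S J K
  fuel : ℕ

/-- The public results: messages, bits, leaked values, indices. -/
inductive Pb (Mg J V : Type) : Type
  | msg : Mg → Pb Mg J V
  | bit : Bool → Pb Mg J V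
  | lk : Option V → Pb Mg J V
  | ix : Option J → Pb Mg J V

/-- A step of a compiled party. -/
noncomputable def stepC {Mg I : Type} (a : ℕ) (F : S → List J → Comp X K V)
    (G : V → List ℕ → Comp X K V) (P : Party (Qry X S J K) (Ans J K V) Mg I) (m0 : Mg)
    (T : Tb S J K V) (μ : Mg) (c : CS P.St S J K) :
    Comp (Th X S J K) K (CS P.St S J K × Pb Mg J V) :=
  (cmp a F G T (P.step c.st μ) c.own c.fuel).bind fun r =>
    match r.1 with
    | some x => .ret (⟨x.1, r.2.1, r.2.2⟩, .msg x.2)
    | none => .ret (⟨c.st, r.2.1, r.2.2⟩, .msg m0)

/-- The party owns the handle. -/
noncomputable def ownH {St : Type} (η : K) (c : CS St S J K) : Bool := (lkH c.own η).isSome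

/-- The party owns the label `π` of the key with handle `η`. -/
noncomputable def ownL {St : Type} (η π : K) (c : CS St S J K) : Bool :=
  match lkH c.own η with
  | some s => (lkL c.own s π).isSome
  | none => false

/-- The party tells whether it owns the handle. -/
noncomputable def bitH {St Mg : Type} (η : K) (c : CS St S J K) :
    Comp (Th X S J K) K (CS St S J K × Pb Mg J V) :=
  .ret (c, .bit (ownH η c))

/-- The party tells whether it owns the label. -/
noncomputable def bitL {St Mg : Type} (η π : K) (c : CS St S J K) :
    Comp (Th X S J K) K (CS St S J K × Pb Mg J V) :=
  .ret (c, .bit (ownL η π c))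

/-- The party tells the index of its label `π` of the key `s`. -/
noncomputable def tellC {St Mg : Type} (s : S) (π : K) (c : CS St S J K) :
    Comp (Th X S J K) K (CS St S J K × Pb Mg J V) :=
  .ret (c, .ix (lkL c.own s π))

/-- The owner evaluates for the public labels. -/
noncomputable def leakC {St Mg : Type} (F : S → List J → Comp X K V) (η : K) (P : List K)
    (c : CS St S J K) : Comp (Th X S J K) K (CS St S J K × Pb Mg J V) :=
  match lkH c.own η with
  | some s => match rsv (lkL c.own s) P with
    | some js => (lift (F s js)).bind fun v => .ret (c, .lk (some v))
    | none => .ret (c, .lk none)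
  | none => .ret (c, .lk none)

end compile

end Pool.Agent.Fe
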